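import Pool.Agent.P.MP_af6acb_co.Fat.IfaceA

set_option linter.unusedSectionVars false

/-! Step TV. -/

namespace Pool.Agent.P.MP_af6acb_co.Fat

open Finset Module
open scoped Classical

lemma tv_lay {l : ℕ} (s : Fin l) {h : ℝ} (hh : 0 < h) (c : Option (Fin (l + 1))) :
    0 ≤ lay l c (h * ((s : ℝ) + 3 / 2), -(h * (((s : ℝ) + 1) * (s + 2) / 2))) h ∧
      (lay l c (h * ((s : ℝ) + 3 / 2), -(h * (((s : ℝ) + 1) * (s + 2) / 2))) h = 0 ↔
        c ∈ cell s) := by
  cases c with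
  | none =>
    have h1 : (s : ℝ) + 1 ≤ l := by exact_mod_cast s.2
    have h0 : (0 : ℝ) ≤ s := Nat.cast_nonneg _
    have : 0 < lay l none (h * ((s : ℝ) + 3 / 2), -(h * (((s : ℝ) + 1) * (s + 2) / 2))) h := by
      have e : lay l none (h * ((s : ℝ) + 3 / 2), -(h * (((s : ℝ) + 1) * (s + 2) / 2))) h =
          h * (((l : ℝ) + 1) ^ 2 + (l + 2) / 2 * (s + 3 / 2) - (s + 1) * (s + 2) / 2) := by
        simp only [lay]; ring
      rw [e]
      exact mul_pos hh (by nlinarith)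
    exact ⟨this.le, by simp [this.ne', cell]⟩
  | some y =>
    have e : lay l (some y) (h * ((s : ℝ) + 3 / 2), -(h * (((s : ℝ) + 1) * (s + 2) / 2))) h =
        h / 2 * ((((y : ℕ) : ℤ) - (s : ℕ)) * ((y : ℕ) - (s : ℕ) - 1) : ℤ) := by
      simp only [lay]; push_cast; ring
    rw [e]
    refine ⟨mul_nonneg (by positivity) (Int.cast_nonneg ?_), ?_⟩
    · rcases le_or_gt ((y : ℕ) : ℤ) (s : ℕ) with a | a
      · exact mul_nonneg_of_nonpos_of_nonpos (by omega) (by omega)
      · exact mul_nonneg (by omega) (by omega)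
    · rw [mul_eq_zero, or_iff_right (by positivity), Int.cast_eq_zero, mul_eq_zero]
      simp only [cell, mem_insert, mem_singleton, Option.some.injEq, Fin.ext_iff, Fin.val_castSucc,
        Fin.val_succ]
      omega

theorem p_TV (hSCL : S_SCL) :
    S_TV := by
  intro W R V Ed Ev _ _ _ _ _ _ _ G K et q r l hG hP σ vs s
  have H := hSCL W R V Ed Ev G K et hG
  have he := hP.et_pos
  have hl : (0 : ℝ) ≤ l := Nat.cast_nonneg _
  have hLa : 0 < q.La := by
    have h1 := hP.La_l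
    have h2 := mul_pos hG.th_pos hP.ka_pos
    by_contra c
    have := mul_nonpos_of_nonpos_of_nonneg (not_lt.1 c) h2.le
    nlinarith
  choose! Z hZ using H.vert
  set X : ℝ × ℝ := (q.et ^ (r + 1) * ((s : ℝ) + 3 / 2),
    -(q.et ^ (r + 1) * (((s : ℝ) + 1) * (s + 2) / 2))) with hX
  let τ : Fin (r + 1) → ℝ := fun i => Fin.reverseInduction X.1
    (fun j t => G.x1 (Z (vs j.succ) (q.La * t) (q.et ^ (j.succ : ℕ)))) i
  have τ1 : τ (Fin.last r) = X.1 := Fin.reverseInduction_last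
  have τ2 : ∀ j : Fin r, τ j.castSucc =
      G.x1 (Z (vs j.succ) (q.La * τ j.succ) (q.et ^ (j.succ : ℕ))) := fun j =>
    Fin.reverseInduction_castSucc j
  have hτ : ∀ i, |q.La * τ i| ≤ q.et ^ (i : ℕ) := fun i => by
    induction i using Fin.reverseInduction with
    | last =>
      have h1 : (s : ℝ) + 1 ≤ l := by exact_mod_cast s.2
      have h0 : (0 : ℝ) ≤ s := Nat.cast_nonneg _
      have h2 := hP.et_l
      have h3 := mul_pos hLa he
      have h4 : q.La * q.et * ((s : ℝ) + 3 / 2) ≤ 1 := by nlinarith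
      rw [τ1, hX, Fin.val_last, abs_of_nonneg (by positivity)]
      calc _ = q.et ^ r * (q.La * q.et * ((s : ℝ) + 3 / 2)) := by ring
        _ ≤ _ := mul_le_of_le_one_right (by positivity) h4
    | cast j ih =>
      have hp := pow_pos he (j.succ : ℕ)
      have h1 := (H.bdd (_, _, _) ⟨hp, ih⟩ (hZ (vs j.succ) _ _ hp ih).1).2.1
      rw [τ2, abs_mul, abs_of_pos hLa]
      calc _ ≤ q.La * (K * q.et ^ (j.succ : ℕ)) := mul_le_mul_of_nonneg_left h1 hLa.le
        _ = q.et ^ (j : ℕ) * (q.La * K * q.et) := by rw [Fin.val_succ]; ring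
        _ ≤ _ := mul_le_of_le_one_right (by positivity) hP.et_K
  let zs : Fin (r + 1) → W := fun i => Z (vs i) (q.La * τ i) (q.et ^ (i : ℕ))
  have hpt : ∀ a i, G.pt q ((a, zs, X) : Tot W r) i = (zs i, q.La * τ i, q.et ^ (i : ℕ)) := by
    intro a i
    induction i using Fin.lastCases with
    | last => rw [Gad.pt, Gad.nxt_last, τ1]
    | cast j => rw [Gad.pt, Gad.nxt_cs, τ2]
  have hz := fun i => hZ (vs i) _ _ (pow_pos he (i : ℕ)) (hτ i)
  have hy := tv_lay s (pow_pos he (r + 1))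
  have ho := hP.H0 (0, zs, X) ⟨fun i => by rw [hpt]; exact (hz i).1, fun c => (hy c).1⟩
  let a : Fin 3 → ℝ := fun m => sgn (σ m) * (q.H0 + G.obj q (Pi.single m 1) (0, zs, X))
  have key : ∀ i, 0 ≤ (G.sys q r l).sl i (a, zs, X) ∧ ((G.sys q r l).sl i (a, zs, X) = 0 ↔
      i ∈ asm (bs fun m => some (σ m)) (fun j => G.TV (vs j)) (cell s)) := by
    rintro (⟨m, b⟩ | x | c)
    · have h1 : 0 < q.H0 + G.obj q (Pi.single m 1) (0, zs, X) := by
        linarith [(abs_lt.1 (ho m)).1]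
      have e : (G.sys q r l).sl (.inl (m, b)) (a, zs, X) =
          (1 - sgn b * sgn (σ m)) * (q.H0 + G.obj q (Pi.single m 1) (0, zs, X)) := by
        rw [Gad.sl_base]
        change q.H0 - sgn b * (sgn (σ m) * _) + G.obj q (Pi.single m 1) (0, zs, X) = _
        ring
      rw [e, inl_mem_asm, mem_bs, mul_eq_zero, or_iff_left h1.ne']
      refine ⟨mul_nonneg ?_ h1.le, ?_⟩ <;> cases b <;> cases σ m <;> norm_num [sgn]
    · rw [Gad.sl_mid, hpt, mid_mem_asm]
      exact ⟨(hz x.1).1 x.2, (hz x.1).2 x.2⟩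
    · rw [Gad.sl_lay, inr_mem_asm]
      exact hy c
  exact ⟨(a, zs, X), fun i => (key i).1, fun i => (key i).2⟩

end Pool.Agent.P.MP_af6acb_co.Fat

/-! Step TI. -/

namespace Pool.Agent.P.MP_af6acb_co.Fat

open Finset Module
open scoped Classical

theorem p_TI :
    S_TI := by
  intro W R V Ed Ev _ _ _ _ _ _ _ G q r l z hb hm ⟨s, s', ne, h1, h2⟩
  rw [Gad.S_lay] at h1 h2
  simp only [lay, zero_mul, zero_div, zero_sub] at h1 h2
  have ne' : (s : ℝ) - s' ≠ 0 := by
    rw [sub_ne_zero]; exact fun e => ne (Fin.ext (by exact_mod_cast e))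
  have x0 : z.2.2.1 = 0 := (mul_eq_zero.1 (show ((s : ℝ) - s') * z.2.2.1 = 0 by
    linear_combination h2 - h1)).resolve_left ne'
  have y0 : z.2.2.2 = 0 := by rw [x0] at h1; linarith
  have step : ∀ i, G.nxt z i = 0 → z.2.1 i = 0 := fun i e => by
    obtain ⟨T, hT, h⟩ := hm i
    refine hT _ fun ρ hρ => ?_
    have := h ρ hρ
    rwa [Gad.S_mid, e, mul_zero] at this
  have nx : ∀ i, G.nxt z i = 0 := fun i => by
    induction i using Fin.reverseInduction with
    | last => rw [Gad.nxt_last, x0]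
    | cast j ih => rw [Gad.nxt_cs, step _ ih, map_zero]
  have zi : ∀ i, z.2.1 i = 0 := fun i => step i (nx i)
  have z1 : ∀ m, z.1 m = 0 := fun m => by
    obtain ⟨b, h⟩ := hb m
    rw [Gad.S_base] at h
    simp only [Gad.obj, zi, nx, y0, map_zero, mul_zero, add_zero, sum_const_zero] at h
    cases b <;> simpa [sgn] using h
  exact Prod.ext (funext z1) (Prod.ext (funext zi) (Prod.ext x0 y0))

end Pool.Agent.P.MP_af6acb_co.Fat

/-! Step POLY. -/

namespace Pool.Agent.P.MP_af6acb_co.Fat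

open Finset Module
open scoped Classical

theorem p_POLY (hLP1 : S_LP1) (hFB1 : S_FB1) (hTV : S_TV) :
    S_POLY := by
  intro W R V Ed Ev _ _ _ _ _ _ _ G K et q r l hO hV hP
  obtain ⟨v0⟩ := hV
  have h3 := hP.three
  have key : ∀ (σ : Fin 3 → Bool) (vs : Fin (r + 1) → V) (s : Fin l) (i : Row R r l),
      i ∉ asm (bs fun m => some (σ m)) (fun j => G.TV (vs j)) (cell s) →
      ∃ z ∈ (G.sys q r l).Fe, 0 < (G.sys q r l).sl i z := fun σ vs s i hi => by
    obtain ⟨z, h1, h2⟩ := hTV W R V Ed Ev G K et q r l hO hP σ vs s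
    exact ⟨z, h1, lt_of_le_of_ne (h1 i) fun h => hi ((h2 i).1 h.symm)⟩
  refine hLP1 _ _ _ (hFB1 W R V Ed Ev G K et q r l hO hP).1 ?_ (fun i => ?_) fun y => ?_
  · obtain ⟨z, h1, -⟩ := hTV W R V Ed Ev G K et q r l hO hP (fun _ => true) (fun _ => v0)
      ⟨0, by omega⟩
    exact ⟨z, h1⟩
  · rcases i with ⟨m, b⟩ | ⟨i, ρ⟩ | _ | s
    · exact key (fun _ => !b) (fun _ => v0) ⟨0, by omega⟩ _ (by simp)
    · obtain ⟨v, hv⟩ := hO.cov ρ
      exact key (fun _ => true) (fun _ => v) ⟨0, by omega⟩ _ (by simpa using hv)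
    · exact key (fun _ => true) (fun _ => v0) ⟨0, by omega⟩ _ (by simp [cell])
    · by_cases hs : 2 ≤ (s : ℕ)
      · refine key (fun _ => true) (fun _ => v0) ⟨0, by omega⟩ _ ?_
        simp only [inr_mem_asm, cell, mem_insert, mem_singleton, Option.some.injEq, Fin.ext_iff,
          Fin.val_castSucc, Fin.val_succ]
        omega
      · refine key (fun _ => true) (fun _ => v0) ⟨2, by omega⟩ _ ?_
        simp only [inr_mem_asm, cell, mem_insert, mem_singleton, Option.some.injEq, Fin.ext_iff,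
          Fin.val_castSucc, Fin.val_succ]
        omega
  · obtain ⟨y1, hy⟩ := hO.x1_ne
    refine ⟨(![y 0, y 1, y 2], fun _ => y 3 • y1, 0, 0), ?_⟩
    rw [Gad.pr_apply]
    ext i
    fin_cases i <;> simp [hy]

end Pool.Agent.P.MP_af6acb_co.Fat

/-! Step DD. -/

namespace Pool.Agent.P.MP_af6acb_co.Fat

open Finset Module
open scoped Classical

section

variable {W R V Ed Ev : Type} [NormedAddCommGroup W] [NormedSpace ℝ W] [Fintype R]
  (G : Gad W R V Ed Ev) (q : Prm) {r l : ℕ}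

lemma dd_obj (p : Fin 3 → ℝ) (z : Tot W r) :
    G.obj q p z = ∑ m, p m * G.obj q (Pi.single m 1) z := by
  simp only [Gad.obj, mul_add, mul_sum, sum_add_distrib]
  rw [← sum_add_distrib, ← sum_add_distrib, ← sum_add_distrib]
  simp only [Fin.sum_univ_three, ← sum_add_distrib]
  congr 1
  · refine sum_congr rfl fun i _ => ?_
    simp [aa, bb, uu, rho, ee]
    ring
  · simp [ee]
    ring

/-- The combination of the rows of one round. -/
noncomputable def ddPh (lam : Row R r l → ℝ) (i : Fin (r + 1)) : (W × ℝ × ℝ) →ₗ[ℝ] ℝ :=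
  ∑ ρ, lam (.inr (.inl (i, ρ))) • G.F ρ +
    aa q r (bp lam) • (G.mu ∘ₗ LinearMap.fst ℝ _ _ +
      G.s0 • (LinearMap.fst ℝ _ _ ∘ₗ LinearMap.snd ℝ _ _)) +
    bb q (bp lam) i • (G.nu ∘ₗ LinearMap.fst ℝ _ _) +
    rho r (bp lam) (ps i) • (G.x2 ∘ₗ LinearMap.fst ℝ _ _)

lemma dd_ph (lam : Row R r l → ℝ) (i : Fin (r + 1)) (y : W) (t : ℝ) :
    ddPh G q lam i (y, t, 0) = ∑ ρ, lam (.inr (.inl (i, ρ))) * G.F ρ (y, t, 0) +
      aa q r (bp lam) * (G.mu y + G.s0 * t) + bb q (bp lam) i * G.nu y +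
      rho r (bp lam) (ps i) * G.x2 y := by
  simp [ddPh, LinearMap.sum_apply, mul_add]

lemma dd_split (lam : Row R r l → ℝ) (i : Fin (r + 1)) (y : W) (t : ℝ) :
    ddPh G q lam i (y, t, 0) = ddPh G q lam i (y, 0, 0) + t * ddPh G q lam i (0, 1, 0) := by
  rw [← smul_eq_mul, ← map_smul, ← map_add]; simp

lemma dd_key (lam : Row R r l → ℝ) (z : Tot W r) (hz : z.1 = 0) :
    ∑ i, lam i * (G.sys q r l).S i z = ∑ i, ddPh G q lam i (z.2.1 i, 0, 0) +
      q.La * (∑ j : Fin r, G.x1 (z.2.1 j.succ) * ddPh G q lam j.castSucc (0, 1, 0)) +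
      z.2.2.1 * (q.La * ddPh G q lam (Fin.last r) (0, 1, 0) +
        lam (.inr (.inr none)) * (((l : ℝ) + 2) / 2) -
        ∑ s : Fin (l + 1), lam (.inr (.inr (some s))) * ((s : ℝ) + 1)) +
      z.2.2.2 * (lam (.inr (.inr none)) + ee r (bp lam) -
        ∑ s : Fin (l + 1), lam (.inr (.inr (some s)))) := by
  have a : ∑ x : Fin 3 × Bool, lam (.inl x) * (G.sys q r l).S (.inl x) z = G.obj q (bp lam) z := by
    rw [dd_obj, Fintype.sum_prod_type]
    refine sum_congr rfl fun m _ => ?_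
    simp [Gad.S_base, hz, bp]
    ring
  have b : G.obj q (bp lam) z + ∑ x : Fin (r + 1) × R, lam (.inr (.inl x)) *
      (G.sys q r l).S (.inr (.inl x)) z =
      ∑ i, ddPh G q lam i (z.2.1 i, q.La * G.nxt z i, 0) + ee r (bp lam) * z.2.2.2 := by
    rw [Fintype.sum_prod_type, Gad.obj, add_right_comm, ← sum_add_distrib]
    congr 1
    refine sum_congr rfl fun i _ => ?_
    rw [dd_ph]
    simp only [Gad.S_mid]
    ring
  have c : ∑ i, ddPh G q lam i (z.2.1 i, q.La * G.nxt z i, 0) =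
      ∑ i, ddPh G q lam i (z.2.1 i, 0, 0) +
      q.La * (∑ j : Fin r, G.x1 (z.2.1 j.succ) * ddPh G q lam j.castSucc (0, 1, 0)) +
      z.2.2.1 * (q.La * ddPh G q lam (Fin.last r) (0, 1, 0)) := by
    rw [sum_congr rfl fun i _ => dd_split G q lam i _ _, sum_add_distrib, add_assoc]
    congr 1
    rw [Fin.sum_univ_castSucc, mul_sum]
    simp only [Gad.nxt_cs, Gad.nxt_last]
    congr 1
    · exact sum_congr rfl fun j _ => by ring
    · ring
  have d : ∑ s : Fin (l + 1), lam (.inr (.inr (some s))) *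
      (G.sys q r l).S (.inr (.inr (some s))) z =
      -(z.2.2.1 * ∑ s : Fin (l + 1), lam (.inr (.inr (some s))) * ((s : ℝ) + 1)) -
        z.2.2.2 * ∑ s : Fin (l + 1), lam (.inr (.inr (some s))) := by
    rw [mul_sum, mul_sum, ← sum_neg_distrib, ← sum_sub_distrib]
    refine sum_congr rfl fun s _ => ?_
    simp only [Gad.S_lay, lay]
    ring
  rw [Fintype.sum_sum_type, Fintype.sum_sum_type, Fintype.sum_option, a, ← add_assoc, b, c, d]
  simp only [Gad.S_lay, lay]
  ring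

lemma dd_single (lam : Row R r l → ℝ) (k : Fin (r + 1)) (y : W) :
    ∑ i, ddPh G q lam i ((Pi.single k y : Fin (r + 1) → W) i, 0, 0) = ddPh G q lam k (y, 0, 0) := by
  rw [sum_eq_single k]
  · simp
  · intro i _ hi
    rw [Pi.single_eq_of_ne hi]
    exact map_zero _
  · simp

end

theorem p_DD :
    S_DD := by
  intro W R V Ed Ev _ _ _ _ _ _ _ G K et q r l lam ok
  obtain ⟨y1, hy1⟩ := ok.x1_ne
  refine ⟨fun h => ?_, fun c w h => ⟨h.pos, fun z hz => ?_⟩⟩
  · have key : ∀ z : Tot W r, z.1 = 0 → G.x1 (z.2.1 0) = 0 → _ := fun z a b =>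
      (dd_key G q lam z a).symm.trans (h.2 z ((G.pr_eq_zero q z).2 ⟨a, b⟩))
    have z0 : ∀ i, ddPh G q lam i (0, 0, 0) = 0 := fun i => map_zero _
    refine ⟨Fin.cons (-ddPh G q lam 0 (y1, 0, 0))
      fun j => q.La * ddPh G q lam j.castSucc (0, 1, 0), fun i => ddPh G q lam i (0, 1, 0),
      h.1, fun i => ⟨fun ρ => h.1 _, fun y t => ?_⟩, fun j => by simp, ?_, ?_⟩
    · have e := dd_ph G q lam i y t
      rw [dd_split] at e
      induction i using Fin.cases with
      | zero =>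
        have k := key (0, Pi.single 0 (y - G.x1 y • y1), 0) rfl (by simp [hy1])
        have m : ddPh G q lam 0 (y - G.x1 y • y1, 0, 0) =
            ddPh G q lam 0 (y, 0, 0) - G.x1 y * ddPh G q lam 0 (y1, 0, 0) := by
          rw [← smul_eq_mul (G.x1 y) (ddPh G q lam 0 _), ← map_smul, ← map_sub]
          congr 1; simp
        simp only [dd_single, m] at k
        simp at k
        simp only [Fin.cons_zero]
        linarith
      | succ j =>
        have k := key (0, Pi.single j.succ y, 0) rfl (by simp)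
        have m : ∑ j' : Fin r, G.x1 ((Pi.single j.succ y : Fin (r + 1) → W) j'.succ) *
            ddPh G q lam j'.castSucc (0, 1, 0) = G.x1 y * ddPh G q lam j.castSucc (0, 1, 0) := by
          rw [sum_eq_single j]
          · simp
          · intro i _ hi
            rw [Pi.single_eq_of_ne (fun e => hi (Fin.succ_injective _ e))]
            simp
          · simp
        simp only [dd_single, m] at k
        simp at k
        simp only [Fin.cons_succ]
        linarith
    · have k := key (0, 0, 1, 0) rfl (by simp)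
      simp [z0] at k
      linarith
    · have k := key (0, 0, 0, 1) rfl (by simp)
      simp [z0] at k
      linarith
  · obtain ⟨a, b⟩ := (G.pr_eq_zero q z).1 hz
    have e : ∀ i y t, ddPh G q lam i (y, t, 0) = w i * t - c i * G.x1 y := fun i y t => by
      rw [dd_ph]; linarith [(h.du i).2 y t]
    rw [dd_key G q lam z a, h.l1, h.l2]
    simp only [e]
    rw [Fin.sum_univ_succ, b, mul_sum]
    simp only [h.ch]
    have : ∑ j : Fin r, (w j.succ * 0 - q.La * w j.castSucc * G.x1 (z.2.1 j.succ)) +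
        ∑ j : Fin r, q.La * (G.x1 (z.2.1 j.succ) * (w j.castSucc * 1 - c j.castSucc * G.x1 0)) =
        0 := by
      rw [← sum_add_distrib]
      exact sum_eq_zero fun j _ => by rw [map_zero]; ring
    rw [map_zero] at this ⊢
    linear_combination this

end Pool.Agent.P.MP_af6acb_co.Fat

/-! Step BND. -/

namespace Pool.Agent.P.MP_af6acb_co.Fat

open Finset Module
open scoped Classical

lemma bnd_ps {r : ℕ} (i : Fin (r + 1)) : 1 ≤ ps i ∧ ps i + 1 ≤ (r : ℝ) + 2 := by
  have h1 : (0 : ℝ) ≤ (i : ℕ) := Nat.cast_nonneg _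
  have h2 : ((i : ℕ) : ℝ) ≤ r := Nat.cast_le.2 (Nat.lt_succ_iff.1 i.2)
  unfold ps
  constructor <;> linarith

lemma bnd_core {n x e a b c : ℝ} (hn : 2 ≤ n) (h1 : 0 ≤ x) (h2 : x ≤ n) (he : 0 ≤ e) (ha : 0 ≤ a)
    (hb : 0 ≤ b) (hc : 0 ≤ c) (hs : a + b + c = n ^ 3 * e) :
    |(a - b) / n + n * e / 2 - x * e| ≤ 2 * n ^ 2 * e ∧
      |((n - x) * a + x * b) / n - x * (n - x) * e / 2| ≤ n ^ 3 * e := by
  have hn0 : 0 < n := by linarith
  have e1 : (a - b) / n ≤ n ^ 2 * e := by rw [div_le_iff₀ hn0]; nlinarith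
  have e2 : -(n ^ 2 * e) ≤ (a - b) / n := by rw [le_div_iff₀ hn0]; nlinarith
  have e3 : n * e ≤ n ^ 2 * e := mul_le_mul_of_nonneg_right (by nlinarith) he
  have e4 : x * e ≤ n * e := mul_le_mul_of_nonneg_right h2 he
  have e5 : 0 ≤ x * e := mul_nonneg h1 he
  have e6 : 0 ≤ n * e := mul_nonneg hn0.le he
  have f1 : 0 ≤ ((n - x) * a + x * b) / n :=
    div_nonneg (add_nonneg (mul_nonneg (sub_nonneg.2 h2) ha) (mul_nonneg h1 hb)) hn0.le
  have f2 : ((n - x) * a + x * b) / n ≤ a + b := by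
    rw [div_le_iff₀ hn0]
    nlinarith [mul_nonneg h1 ha, mul_nonneg (sub_nonneg.2 h2) hb]
  have f3 : 0 ≤ x * (n - x) * e := mul_nonneg (mul_nonneg h1 (sub_nonneg.2 h2)) he
  have f4 : x * (n - x) * e ≤ n ^ 3 * e := by
    refine mul_le_mul_of_nonneg_right ?_ he
    nlinarith [mul_nonneg (sq_nonneg n) (sub_nonneg.2 hn), sq_nonneg (n - x), sq_nonneg x,
      mul_nonneg h1 (sub_nonneg.2 h2)]
  exact ⟨abs_le.2 ⟨by linarith, by linarith⟩, abs_le.2 ⟨by linarith, by linarith⟩⟩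

theorem p_BND :
    S_BND := by
  intro W R V Ed Ev _ _ _ _ _ _ _ G K et q r l hG hP p hp i
  have hn : (2 : ℝ) ≤ (r : ℝ) + 2 := le_add_of_nonneg_left (Nat.cast_nonneg r)
  have he : 0 ≤ ee r p := div_nonneg (add_nonneg (add_nonneg (hp 0) (hp 1)) (hp 2)) (by positivity)
  have hs : p 0 + p 1 + p 2 = ((r : ℝ) + 2) ^ 3 * ee r p := by
    unfold ee
    field_simp
  obtain ⟨x1, x2⟩ := bnd_ps i
  obtain ⟨h1, h2⟩ := bnd_core (x := ps i) hn (by linarith) (by linarith) he (hp 0) (hp 1) (hp 2) hs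
  replace h2 : |rho r p (ps i)| ≤ ((r : ℝ) + 2) ^ 3 * ee r p := h2
  have hk := hP.ka_pos
  have hK := hG.K_ge
  have b1 : |bb q p i| ≤ 2 * q.ka * ((r : ℝ) + 2) ^ 2 * ee r p := by
    rw [bb, abs_mul, abs_of_pos hk]
    exact (mul_le_mul_of_nonneg_left h1 hk.le).trans_eq (by ring)
  have h3 := hP.ka_K
  have h4 := hP.La_K
  generalize (r : ℝ) + 2 = n at *
  have hn2 : 4 ≤ n ^ 2 := by nlinarith
  have hn3 : 1 ≤ n ^ 3 := one_le_pow₀ (by linarith)
  have b2 : K * (aa q r p + |bb q p i|) ≤ ee r p / 16 := by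
    have c1 : K * |bb q p i| ≤ K * (2 * q.ka * n ^ 2 * ee r p) :=
      mul_le_mul_of_nonneg_left b1 (by linarith)
    have c2 : 64 * K * q.ka * n ^ 2 * ee r p ≤ 1 * ee r p := mul_le_mul_of_nonneg_right h3 he
    have c3 : K * q.ka * ee r p * 4 ≤ K * q.ka * ee r p * n ^ 2 :=
      mul_le_mul_of_nonneg_left hn2 (by positivity)
    unfold aa
    nlinarith
  refine ⟨b1, b2, ?_⟩
  have c1 : K * |rho r p (ps i)| ≤ K * (n ^ 3 * ee r p) :=
    mul_le_mul_of_nonneg_left h2 (by linarith)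
  have c2 : 3 * K * n ^ 3 * ee r p ≤ q.La * G.th * q.ka / 8 * ee r p :=
    mul_le_mul_of_nonneg_right h4 he
  have c3 : 1 * ee r p ≤ K * n ^ 3 * ee r p :=
    mul_le_mul_of_nonneg_right (one_le_mul_of_one_le_of_one_le hK hn3) he
  have c4 : q.La * (G.th * aa q r p) = q.La * G.th * q.ka / 8 * ee r p := by
    unfold aa
    ring
  rw [c4, mul_add]
  nlinarith

end Pool.Agent.P.MP_af6acb_co.Fat

/-! Step GEO. -/

namespace Pool.Agent.P.MP_af6acb_co.Fat

open Finset Module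
open scoped Classical

lemma geo_far {a b v d e : ℝ} (he : 0 < e) (hd : 2 ≤ d) (h : b = a - d * v + d ^ 2 * e / 2)
    (ha : |a| ≤ e / 16) (hb : b ≤ e / 16) : a - v + e / 2 < -(e / 16) := by
  obtain ⟨h1, h2⟩ := abs_le.1 ha
  have hv : 15 * e / 16 ≤ v := by
    by_contra hc
    push Not at hc
    have h3 : d * v < d * (15 * e / 16) := mul_lt_mul_of_pos_left hc (by linarith)
    have h4 : 0 ≤ (d - 2) * (d * e) := mul_nonneg (by linarith) (by positivity)
    have h5 : 0 ≤ (d - 2) * e := mul_nonneg (by linarith) he.le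
    nlinarith
  linarith

lemma geo_edge {W R V Ed Ev : Type} [NormedAddCommGroup W] [NormedSpace ℝ W] [Fintype R]
    {G : Gad W R V Ed Ev} {K a b c : ℝ} {f : V ⊕ Ed ⊕ Ev} (h : G.Nm K a b c f)
    (hr : f.isRight) (hb : 2 * a < |b|) : ∃ e, f = .inr (.inl e) := by
  rcases f with v | e | u
  · simp at hr
  · exact ⟨e, rfl⟩
  · exact absurd (h.ev u rfl) (not_le.2 hb)

theorem p_GEO (hBND : S_BND) :
    S_GEO := by
  intro W R V Ed Ev _ _ _ _ _ _ _ G K et q r l hO hP p β f hp he hβ hlo hN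
  have hk := hP.ka_pos
  have hke : 0 < q.ka * ee r p := mul_pos hk he
  have hr0 : (0 : ℝ) ≤ r := Nat.cast_nonneg r
  have lo : ∀ i : Fin (r + 1), -(ee r p / 16) ≤ rho r p (ps i) := fun i => by
    have := (hBND W R V Ed Ev G K et q r l hO hP p hp i).2.1
    linarith [hlo i]
  have lo' : ∀ k : ℕ, k ≤ r → -(ee r p / 16) ≤ rho r p ((k : ℝ) + 1) := fun k hk =>
    lo ⟨k, by omega⟩
  have nr : ∀ i : Fin (r + 1), (f i).isRight → |rho r p (ps i)| ≤ ee r p / 16 := fun i hi =>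
    ((hN i).near hi).trans (hBND W R V Ed Ev G K et q r l hO hP p hp i).2.1
  have up : ∀ i : Fin (r + 1), 3 * ee r p / 8 ≤ uu r p - ps i * ee r p →
      2 * aa q r p < bb q p i := fun i h => by
    have := mul_le_mul_of_nonneg_left h hk.le
    unfold aa bb
    linarith
  have dn : ∀ i : Fin (r + 1), uu r p - ps i * ee r p ≤ -(3 * ee r p / 8) →
      bb q p i < -(2 * aa q r p) := fun i h => by
    have := mul_le_mul_of_nonneg_left h hk.le
    unfold aa bb
    linarith
  have nxt : ∀ (i : Fin (r + 1)) (d : ℝ), (f i).isRight → (i : ℕ) + 1 ≤ r → 2 ≤ d →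
      rho r p (ps i + d) ≤ ee r p / 16 → False := fun i d hi hir hd h => by
    have h1 := geo_far (v := uu r p - ps i * ee r p) he hd
      (by rw [rho_sub r p (ps i) (ps i + d)]; ring) (nr i hi) h
    have h2 := lo' _ hir
    have h3 := rho_sub r p (ps i) (ps i + 1)
    have h4 : (((i : ℕ) + 1 : ℕ) : ℝ) + 1 = ps i + 1 := by unfold ps; push_cast; ring
    rw [h4] at h2
    linarith
  refine ⟨fun i j hij hi hj => ?_, fun h2 i => ?_, fun h0 => ?_, fun h1 i hi => ?_⟩
  · have hij' : (i : ℕ) < j := hij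
    have hji : (j : ℕ) = i + 1 := by
      by_contra hc
      have h2 : ((i : ℕ) : ℝ) + 2 ≤ (j : ℕ) := by exact_mod_cast (by omega : (i : ℕ) + 2 ≤ j)
      refine nxt i (ps j - ps i) hi (by omega) (by unfold ps; linarith) ?_
      rw [add_sub_cancel]
      exact (le_abs_self _).trans (nr j hj)
    have hps : ps j = ps i + 1 := by unfold ps; rw [hji]; push_cast; ring
    have h3 := rho_sub r p (ps i) (ps j)
    obtain ⟨a1, a2⟩ := abs_le.1 (nr i hi)
    obtain ⟨b1, b2⟩ := abs_le.1 (nr j hj)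
    have h4 : ps i - ps j = -1 := by rw [hps]; ring
    rw [h4] at h3
    have h5 := up i (by linarith)
    have h6 := dn j (by rw [hps]; linarith)
    obtain ⟨e1, he1⟩ := geo_edge (hN i) hi (h5.trans_le (le_abs_self _))
    obtain ⟨e2, he2⟩ := geo_edge (hN j) hj (lt_of_lt_of_le (by linarith) (neg_le_abs _))
    exact ⟨hji, ⟨e1, (hN i).blue e1 he1 h5, he1⟩, e2, (hN j).red e2 he2 h6, he2⟩
  · by_contra hc
    have hi : (f i).isRight := by
      cases hf : f i with
      | inl v => simp [hf] at hc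
      | inr v => simp
    have h3 := (le_abs_self _).trans (nr i hi)
    have hn : (0 : ℝ) < (r : ℝ) + 2 := by positivity
    have hx1 : 1 ≤ ps i := by unfold ps; linarith [Nat.cast_nonneg (α := ℝ) (i : ℕ)]
    have hx2 : ps i ≤ (r : ℝ) + 1 := by
      have : ((i : ℕ) : ℝ) ≤ r := by exact_mod_cast Nat.lt_succ_iff.1 i.2
      unfold ps; linarith
    have hs : p 0 + p 1 = ((r : ℝ) + 2) ^ 3 * ee r p := by
      unfold ee; rw [hβ 2 h2]; field_simp; ring
    have h4 : ((r : ℝ) + 2) ^ 2 * ee r p ≤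
        (((r : ℝ) + 2 - ps i) * p 0 + ps i * p 1) / ((r : ℝ) + 2) := by
      rw [le_div_iff₀ hn]
      have c0 : 0 ≤ ((r : ℝ) + 1 - ps i) * p 0 := mul_nonneg (by linarith) (hp 0)
      have c1 : 0 ≤ (ps i - 1) * p 1 := mul_nonneg (by linarith) (hp 1)
      linarith
    have h5 : ps i * ((r : ℝ) + 2 - ps i) * ee r p ≤ ((r : ℝ) + 2) ^ 2 / 4 * ee r p :=
      mul_le_mul_of_nonneg_right (by nlinarith [sq_nonneg ((r : ℝ) + 2 - 2 * ps i)]) he.le
    have h6 : 1 * ee r p ≤ ((r : ℝ) + 2) ^ 2 * ee r p :=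
      mul_le_mul_of_nonneg_right (by nlinarith) he.le
    unfold rho at h3
    linarith
  · have z0 : rho r p 0 = 0 := by rw [rho_zero, hβ 0 h0]
    refine ⟨fun h1 => ?_, fun i hi => ?_⟩
    · have h2 := lo' 0 (Nat.zero_le r)
      have h3 := mul_nonneg hr0 he.le
      unfold rho at h2
      rw [hβ 0 h0, hβ 1 h1] at h2
      simp only [Nat.cast_zero, zero_add, mul_zero, zero_div] at h2
      linarith
    have h3 := rho_sub r p (ps i) 0
    have hi0 : (i : ℕ) = 0 := by
      by_contra hc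
      obtain ⟨k, hk⟩ := Nat.exists_eq_succ_of_ne_zero hc
      have hps : ps i = (k : ℝ) + 2 := by unfold ps; rw [hk]; push_cast; ring
      have h1 := geo_far (v := -(uu r p - ps i * ee r p)) (d := ps i) (b := rho r p 0) he
        (by rw [hps]; linarith [Nat.cast_nonneg (α := ℝ) k]) (by rw [h3]; ring) (nr i hi)
        (by rw [z0]; linarith)
      have h2 := lo' k (by have := i.2; omega)
      have h4 := rho_sub r p (ps i) ((k : ℝ) + 1)
      have h5 : ps i - ((k : ℝ) + 1) = 1 := by rw [hps]; ring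
      rw [h5] at h4
      linarith
    have hps : ps i = 1 := by unfold ps; rw [hi0]; simp
    obtain ⟨a1, a2⟩ := abs_le.1 (nr i hi)
    have h5 : ps i - 0 = 1 := by rw [hps]; ring
    rw [h5, z0] at h3
    have h6 := dn i (by linarith)
    exact ⟨Fin.ext hi0, geo_edge (hN i) hi (lt_of_lt_of_le (by linarith) (neg_le_abs _))⟩
  · have z0 : rho r p ((r : ℝ) + 2) = 0 := by rw [rho_top, hβ 1 h1]
    have hir : (i : ℕ) = r := by
      by_contra hc
      have h2 : (i : ℕ) + 1 ≤ r := by have := i.2; omega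
      have h3 : ((i : ℕ) : ℝ) + 1 ≤ r := by exact_mod_cast h2
      refine nxt i ((r : ℝ) + 2 - ps i) hi h2 (by unfold ps; linarith) ?_
      rw [add_sub_cancel, z0]
      linarith
    have hps : ps i = (r : ℝ) + 1 := by unfold ps; rw [hir]
    have h3 := rho_sub r p (ps i) ((r : ℝ) + 2)
    obtain ⟨a1, a2⟩ := abs_le.1 (nr i hi)
    have h5 : ps i - ((r : ℝ) + 2) = -1 := by rw [hps]; ring
    rw [h5, z0] at h3
    have h6 := up i (by linarith)
    exact ⟨Fin.ext hir, geo_edge (hN i) hi (h6.trans_le (le_abs_self _))⟩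

end Pool.Agent.P.MP_af6acb_co.Fat
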