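import Pool.Agent.P.MP_af6acb_co.Fat.IfaceA

set_option linter.unusedSectionVars false

/-! Step ACT. -/

namespace Pool.Agent.P.MP_af6acb_co.Fat

open Finset Module
open scoped Classical

theorem act_cell {l : ℕ} (C : Finset (Option (Fin (l + 1)))) (h0 : none ∉ C) (h1 : ∃ s, some s ∈ C)
    (h : ∀ s s' : Fin (l + 1), s < s' → some s ∈ C → some s' ∈ C → (s' : ℕ) = s + 1) :
    (∃ s, C = {some s}) ∨ ∃ s, C = cell s := by
  have key : ∀ s s' : Fin (l + 1), s < s' → some s ∈ C → some s' ∈ C → ∃ t, C = cell t := by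
    intro s s' lt hs hs'
    have e := h s s' lt hs hs'
    have e1 : (⟨s, by omega⟩ : Fin l).castSucc = s := rfl
    have e2 : (⟨s, by omega⟩ : Fin l).succ = s' := Fin.ext e.symm
    refine ⟨⟨s, by omega⟩, ?_⟩
    rw [cell, e1, e2]
    ext c
    simp only [mem_insert, mem_singleton]
    refine ⟨fun hc => ?_, by rintro (rfl | rfl) <;> assumption⟩
    rcases c with _ | t
    · exact absurd hc h0
    have a := fun x => h t s x hc hs
    have b := fun x => h t s' x hc hs'
    have c := fun x => h s t x hs hc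
    simp only [Option.some.injEq, Fin.ext_iff, Fin.lt_def] at *
    omega
  obtain ⟨s, hs⟩ := h1
  by_cases e : ∀ c ∈ C, c = some s
  · exact .inl ⟨s, eq_singleton_iff_unique_mem.2 ⟨hs, e⟩⟩
  push Not at e
  obtain ⟨_ | t, ht, ne⟩ := e
  · exact absurd ht h0
  rcases lt_or_gt_of_ne (fun e : t = s => ne (by rw [e])) with lt | lt
  · exact .inr (key t s lt ht hs)
  · exact .inr (key s t lt hs ht)

theorem p_ACT (hSCL : S_SCL) (hFB0 : S_FB0) (hFB1 : S_FB1) (hLAY : S_LAY) (hDD : S_DD) (hBND : S_BND) (hGEO : S_GEO) :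
    S_ACT := by
  intro W R V Ed Ev _ _ _ _ _ _ _ G K et q r l ok par lam hM ⟨z0, hz0, ht0⟩ hn hs
  obtain ⟨c, w, D⟩ := (hDD W R V Ed Ev G K et q r l lam ok).1 hM
  have okH := hSCL W R V Ed Ev G K et ok
  have fb1 := (hFB1 W R V Ed Ev G K et q r l ok par).2
  have adm := fun z hz => (hFB0 W R V Ed Ev G K et q r l ok par.toPar0 z (fb1 z hz).1).1
  have p0 : ∀ m, 0 ≤ bp lam m := fun m => add_nonneg (D.pos _) (D.pos _)
  have bnd := hBND W R V Ed Ev G K et q r l ok par.toPar0 _ p0
  have l1 := D.l1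
  have l2 := D.l2
  rw [hn] at l1 l2
  simp only [zero_mul, zero_add] at l1 l2
  have e0 : 0 < ee r (bp lam) := by
    obtain ⟨s, hs⟩ := hs
    rw [← l2]
    exact sum_pos' (fun _ _ => D.pos _) ⟨s, mem_univ _, (D.pos _).lt_of_ne' hs⟩
  have ka := par.ka_pos
  have th := ok.th_pos
  have a0 : 0 < aa q r (bp lam) := by unfold aa; positivity
  have La : 0 < q.La := by
    have : 0 < q.La * (G.th * q.ka / 8) := by
      have := par.La_l
      have : (0 : ℝ) ≤ l := Nat.cast_nonneg l
      linarith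
    exact (mul_pos_iff_of_pos_right (by positivity)).1 this
  have cut : ∀ x y : ℝ, |q.La * x| ≤ q.La * y → |x| ≤ y := fun x y h => by
    rwa [abs_mul, abs_of_pos La, mul_le_mul_iff_right₀ La] at h
  have hw : ∀ i, |w i| ≤ G.th * aa q r (bp lam) := fun i => by
    induction i using Fin.reverseInduction with
    | last =>
      refine cut _ _ ?_
      rw [← l1, abs_of_nonneg (sum_nonneg fun s _ => mul_nonneg (D.pos _) (by positivity))]
      calc _ ≤ ∑ s : Fin (l + 1), lam (.inr (.inr (some s))) * ((l : ℝ) + 1) :=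
            sum_le_sum fun s _ => mul_le_mul_of_nonneg_left
              (by exact_mod_cast s.2) (D.pos _)
        _ = ee r (bp lam) * ((l : ℝ) + 1) := by rw [← sum_mul, l2]
        _ ≤ ee r (bp lam) * (q.La * G.th * q.ka / 8) :=
            mul_le_mul_of_nonneg_left par.La_l e0.le
        _ = _ := by unfold aa; ring
    | cast j ih =>
      refine cut _ _ ?_
      rw [← D.ch]
      exact (ok.low _ _ _ _ _ _ (D.du j.succ) a0 ih).2.trans (bnd _).2.2
  have tt : ∀ z, (∀ i ∈ supp lam, (G.sys q r l).sl i z = 0) → ∀ i,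
      G.Tt (supp fun ρ => lam (.inr (.inl (i, ρ)))) (G.pt q z i) := fun z h i ρ hρ =>
    (G.sl_mid q (i, ρ) z).symm.trans (h _ (mem_supp.2 (by simpa using hρ)))
  choose f cov nm using fun i => okH.cls _ _ _ _ _ _ (D.du i) a0 (hw i)
    ⟨_, adm z0 hz0 i, (fb1 z0 hz0).1.1 i, tt z0 ht0 i⟩
  let β : Fin 3 → Option Bool := fun m => if lam (.inl (m, true)) ≠ 0 then some true
    else if lam (.inl (m, false)) ≠ 0 then some false else none
  have hβ : ∀ x, x ∈ bs β ↔ lam (.inl x) ≠ 0 := by
    rintro ⟨m, b⟩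
    have : lam (.inl (m, true)) ≠ 0 → lam (.inl (m, false)) = 0 := fun h => by
      by_contra h'
      exact (fb1 z0 hz0).2 m (ht0 _ (mem_supp.2 h)) (ht0 _ (mem_supp.2 h'))
    rw [mem_bs]
    by_cases h1 : lam (.inl (m, true)) = 0
    · by_cases h2 : lam (.inl (m, false)) = 0 <;> cases b <;> simp [β, h1, h2]
    · cases b <;> simp [β, h1, this h1]
  refine ⟨β, f, univ.filter fun c => lam (.inr (.inr c)) ≠ 0,
    hGEO W R V Ed Ev G K et q r l ok par.toPar0 _ β f p0 e0 (fun m h => ?_)
      (fun i => (ok.low _ _ _ _ _ _ (D.du i) a0 (hw i)).1) nm,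
    act_cell _ (by simp [hn]) (by simpa using hs) fun s s' lt h h' => ?_, ?_⟩
  · have h1 := (hβ (m, true)).not
    have h2 := (hβ (m, false)).not
    simp only [mem_bs, h, reduceCtorEq, not_false_eq_true, not_not, true_iff] at h1 h2
    rw [bp, h1, h2, add_zero]
  · refine (hLAY l z0.2.2 _ (by have := par.three; omega) (pow_pos par.et_pos _)
      (fb1 z0 hz0).1.2).1 s s' lt ?_ ?_
    · rw [← G.sl_lay q]
      exact ht0 _ (mem_supp.2 (mem_filter.1 h).2)
    · rw [← G.sl_lay q]
      exact ht0 _ (mem_supp.2 (mem_filter.1 h').2)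
  · refine Set.ext fun z => and_congr_right fun hz => ⟨fun h => ?_, fun h i hi => h i ?_⟩
    · rintro (x | ⟨i, ρ⟩ | x) hx
      · exact h _ (mem_supp.2 ((hβ x).1 (inl_mem_asm.1 hx)))
      · rw [G.sl_mid q]
        exact okH.cov _ _ (cov i) _ (adm z hz i) ((fb1 z hz).1.1 i) (tt z h i) ρ (mid_mem_asm.1 hx)
      · exact h _ (mem_supp.2 (mem_filter.1 (inr_mem_asm.1 hx)).2)
    · rcases i with x | ⟨i, ρ⟩ | x
      · exact inl_mem_asm.2 ((hβ x).2 (mem_supp.1 hi))
      · exact mid_mem_asm.2 ((cov i).1 (mem_supp.2 (by simpa using hi)))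
      · exact inr_mem_asm.2 (mem_filter.2 ⟨mem_univ _, mem_supp.1 hi⟩)

end Pool.Agent.P.MP_af6acb_co.Fat

/-! Step DIM. -/

namespace Pool.Agent.P.MP_af6acb_co.Fat

open Finset Module
open scoped Classical

theorem dim_card_asm {R : Type} [Fintype R] {r l : ℕ} (B : Finset (Fin 3 × Bool))
    (T : Fin (r + 1) → Finset R) (C : Finset (Option (Fin (l + 1)))) :
    (asm B T C).card ≤ B.card + ∑ i, (T i).card + C.card := by
  have h : asm B T C ⊆ (B.image Sum.inl ∪
      univ.biUnion fun i => (T i).image fun ρ => Sum.inr (Sum.inl (i, ρ))) ∪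
      C.image fun c => Sum.inr (Sum.inr c) := by
    rintro (x | ⟨i, ρ⟩ | c) hx
    · exact mem_union_left _ (mem_union_left _ (mem_image_of_mem _ (inl_mem_asm.1 hx)))
    · exact mem_union_left _ (mem_union_right _
        (mem_biUnion.2 ⟨i, mem_univ _, mem_image_of_mem _ (mid_mem_asm.1 hx)⟩))
    · exact mem_union_right _ (mem_image_of_mem _ (inr_mem_asm.1 hx))
  refine (card_le_card h).trans ((card_union_le _ _).trans (add_le_add ((card_union_le _ _).trans
    (add_le_add card_image_le (card_biUnion_le.trans (sum_le_sum fun i _ => card_image_le))))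
    card_image_le))

theorem dim_gen (hLP4 : S_LP4) (hTI : S_TI) {W R V Ed Ev : Type} [NormedAddCommGroup W]
    [NormedSpace ℝ W] [FiniteDimensional ℝ W] [Fintype R] [Fintype V] [Fintype Ed] [Fintype Ev]
    (G : Gad W R V Ed Ev) {K et : ℝ} (q : Prm) (r l : ℕ) (ok : G.Ok K et)
    (β : Fin 3 → Option Bool) (f : Fin (r + 1) → V ⊕ Ed ⊕ Ev)
    (C C' : Finset (Option (Fin (l + 1)))) (s s' : Fin (l + 1)) (hs : s ≠ s')
    (h1 : some s ∈ C) (h2 : some s' ∈ C ∨ some s' ∈ C') :
    (G.sys q r l).dim (asm (bs β) (fun i => G.T (f i)) C) ≤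
      nb β + ∑ i, df (f i) + C'.card := by
  choose v X _ hX hinj using ok.sub
  refine (hLP4 _ _ (G.sys q r l) _
    (asm ((univ.filter fun m => β m = none).image fun m => (m, true)) (fun i => X (f i)) C')
    fun z hT hZ => ?_).trans ((dim_card_asm _ _ _).trans
      (add_le_add (add_le_add card_image_le (sum_le_sum fun i _ => hX _)) le_rfl))
  refine hTI W R V Ed Ev G q r l z (fun m => ?_) (fun i => ?_) ⟨s, s', hs, ?_, ?_⟩
  · cases hb : β m with
    | none => exact ⟨true, hZ _ (inl_mem_asm.2 (mem_image_of_mem _ (by simp [hb])))⟩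
    | some b => exact ⟨b, hT _ (inl_mem_asm.2 (mem_bs.2 hb))⟩
  · refine ⟨G.T (f i) ∪ X (f i), fun w hw => hinj (f i) w (fun j hj => hw j (mem_union_left _ hj))
      (fun j hj => hw j (mem_union_right _ hj)), fun ρ hρ => ?_⟩
    rcases mem_union.1 hρ with h | h
    · exact hT _ (mid_mem_asm.2 h)
    · exact hZ _ (mid_mem_asm.2 h)
  · exact hT _ (inr_mem_asm.2 h1)
  · rcases h2 with h | h
    · exact hT _ (inr_mem_asm.2 h)
    · exact hZ _ (inr_mem_asm.2 h)

theorem p_DIM (hLP4 : S_LP4) (hTI : S_TI) :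
    S_DIM := by
  intro W R V Ed Ev _ _ _ _ _ _ _ G K et q r l ok hl β f
  refine ⟨fun s => ?_, fun s => ?_⟩
  · exact dim_gen hLP4 hTI G q r l ok β f (cell s) ∅ s.castSucc s.succ
      (Fin.castSucc_lt_succ (i := s)).ne (by simp [cell]) (Or.inl (by simp [cell]))
  · have : Nontrivial (Fin (l + 1)) := Fin.nontrivial_iff_two_le.2 (by omega)
    obtain ⟨s', hs'⟩ := exists_ne s
    exact dim_gen hLP4 hTI G q r l ok β f {some s} {some s'} s s' hs'.symm (by simp)
      (Or.inr (by simp))

end Pool.Agent.P.MP_af6acb_co.Fat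

/-! Step CNT. -/

namespace Pool.Agent.P.MP_af6acb_co.Fat

open Finset Module
open scoped Classical

section cnt

variable {V Ed Ev : Type} [Fintype V] [Fintype Ed] [Fintype Ev] {r : ℕ}

/-- The left values. -/
noncomputable def cntL (V Ed Ev : Type) [Fintype V] : Finset (V ⊕ Ed ⊕ Ev) := univ.image Sum.inl

lemma cnt_card_L : (cntL V Ed Ev).card = Fintype.card V := by
  rw [cntL, card_image_of_injective _ Sum.inl_injective, card_univ]

lemma cnt_mem_L {x : V ⊕ Ed ⊕ Ev} : x ∈ cntL V Ed Ev ↔ ¬ x.isRight := by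
  cases x <;> simp [cntL]

/-- One special place. -/
noncomputable def cntOne (a : Fin (r + 1)) (S : Finset (V ⊕ Ed ⊕ Ev)) :
    Finset (Fin (r + 1) → V ⊕ Ed ⊕ Ev) :=
  Fintype.piFinset fun i => if i = a then S else cntL V Ed Ev

/-- Two special places. -/
noncomputable def cntTwo (a b : Fin (r + 1)) (S T : Finset (V ⊕ Ed ⊕ Ev)) :
    Finset (Fin (r + 1) → V ⊕ Ed ⊕ Ev) :=
  Fintype.piFinset fun i => if i = a then S else if i = b then T else cntL V Ed Ev

lemma cnt_card_one (a : Fin (r + 1)) (S : Finset (V ⊕ Ed ⊕ Ev)) :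
    (cntOne a S).card = S.card * Fintype.card V ^ r := by
  rw [cntOne, Fintype.card_piFinset, ← mul_prod_erase _ _ (mem_univ a), if_pos rfl]
  congr 1
  rw [prod_congr rfl (g := fun _ => Fintype.card V) fun i hi => by
    rw [if_neg (ne_of_mem_erase hi), cnt_card_L]]
  simp [card_erase_of_mem]

lemma cnt_card_two (a b : Fin (r + 1)) (hab : b ≠ a) (S T : Finset (V ⊕ Ed ⊕ Ev)) :
    (cntTwo a b S T).card = S.card * T.card * Fintype.card V ^ (r - 1) := by
  have hb : b ∈ (univ : Finset (Fin (r + 1))).erase a := mem_erase.2 ⟨hab, mem_univ b⟩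
  rw [cntTwo, Fintype.card_piFinset, ← mul_prod_erase _ _ (mem_univ a), if_pos rfl,
    ← mul_prod_erase _ _ hb, if_neg hab, if_pos rfl, mul_assoc]
  congr 2
  rw [prod_congr rfl (g := fun _ => Fintype.card V) fun i hi => by
    rw [if_neg (ne_of_mem_erase (mem_of_mem_erase hi)), if_neg (ne_of_mem_erase hi), cnt_card_L]]
  rw [prod_const, card_erase_of_mem hb, card_erase_of_mem (mem_univ a)]
  simp

/-- The complete signs. -/
noncomputable def cntFull : Finset (Fin 3 → Option Bool) :=
  Fintype.piFinset fun _ => {some true, some false}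

lemma cnt_card_full : cntFull.card = 8 := by
  rw [cntFull, Fintype.card_piFinset]; simp

lemma cnt_mem_full {β : Fin 3 → Option Bool} (h0 : β 0 ≠ none) (h1 : β 1 ≠ none)
    (h2 : β 2 ≠ none) : β ∈ cntFull := by
  rw [cntFull, Fintype.mem_piFinset]
  have key : ∀ x : Option Bool, x ≠ none → x ∈ ({some true, some false} : Finset (Option Bool)) := by
    rintro (_ | _ | _) h <;> simp at h ⊢
  intro m
  fin_cases m
  · exact key _ h0
  · exact key _ h1
  · exact key _ h2

lemma cnt_nb (β : Fin 3 → Option Bool) : nb β = (if β 0 = none then 1 else 0) +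
    (if β 1 = none then 1 else 0) + (if β 2 = none then 1 else 0) := by
  rw [nb, card_filter, Fin.sum_univ_three]

lemma cnt_df_left {x : V ⊕ Ed ⊕ Ev} (h : ¬ x.isRight) : df x = 0 := by
  cases x
  · rfl
  · simp at h

lemma cnt_df_le (x : V ⊕ Ed ⊕ Ev) : df x ≤ 2 := by
  rcases x with _ | _ | _ <;> simp [df]

end cnt

theorem p_CNT :
    S_CNT := by
  intro W R V Ed Ev _ _ _ _ _ _ _ G r
  set ES : Finset (V ⊕ Ed ⊕ Ev) := univ.image fun e => .inr (.inl e) with hES
  set US : Finset (V ⊕ Ed ⊕ Ev) := univ.image fun u => .inr (.inr u) with hUS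
  set BS : Finset (V ⊕ Ed ⊕ Ev) := G.Blue.image fun e => .inr (.inl e) with hBS
  set RS : Finset (V ⊕ Ed ⊕ Ev) := G.Red.image fun e => .inr (.inl e) with hRS
  have cES : ES.card ≤ Fintype.card Ed := card_image_le.trans (card_univ (α := Ed)).le
  have cUS : US.card ≤ Fintype.card Ev := card_image_le.trans (card_univ (α := Ev)).le
  have cBS : BS.card ≤ G.Blue.card := card_image_le
  have cRS : RS.card ≤ G.Red.card := card_image_le
  refine ⟨(cntFull ×ˢ univ.biUnion fun i => cntOne i US) ∪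
    (cntFull ×ˢ univ.biUnion fun j : Fin r => cntTwo j.castSucc j.succ BS RS) ∪
    (univ ×ˢ (cntOne 0 ES ∪ cntOne (Fin.last r) ES)) ∪
    (univ ×ˢ Fintype.piFinset fun _ => cntL V Ed Ev), ?_, ?_⟩
  · have c27 : (univ : Finset (Fin 3 → Option Bool)).card = 27 := by simp
    refine (card_union_le _ _).trans (add_le_add ((card_union_le _ _).trans (add_le_add
      ((card_union_le _ _).trans (add_le_add ?_ ?_)) ?_)) ?_)
    · rw [card_product, cnt_card_full, mul_assoc, mul_assoc]
      refine Nat.mul_le_mul_left _ (card_biUnion_le.trans ?_)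
      simp only [cnt_card_one, sum_const, card_univ, Fintype.card_fin, smul_eq_mul]
      gcongr
    · rw [card_product, cnt_card_full, mul_assoc, mul_assoc]
      refine Nat.mul_le_mul_left _ (card_biUnion_le.trans ?_)
      rw [sum_congr rfl fun j _ => cnt_card_two _ _ (Fin.castSucc_lt_succ (i := j)).ne' BS RS]
      simp only [sum_const, card_univ, Fintype.card_fin, smul_eq_mul]
      gcongr
    · rw [card_product, c27]
      have := card_union_le (cntOne (0 : Fin (r + 1)) ES) (cntOne (Fin.last r) ES)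
      rw [cnt_card_one, cnt_card_one] at this
      have h2 : ES.card * Fintype.card V ^ r ≤ Fintype.card Ed * Fintype.card V ^ r := by gcongr
      rw [mul_assoc]
      omega
    · rw [card_product, c27, Fintype.card_piFinset]
      simp [cnt_card_L]
  · intro β f hG
    have hnb := cnt_nb β
    by_cases h0 : ∃ i, (f i).isRight
    swap
    · -- all places are left
      push Not at h0
      have hs : ∑ i, df (f i) = 0 := sum_eq_zero fun i _ => cnt_df_left (h0 i)
      refine ⟨?_, fun _ => mem_union_right _ (mem_product.2 ⟨mem_univ _,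
        Fintype.mem_piFinset.2 fun i => cnt_mem_L.2 (h0 i)⟩)⟩
      rw [hs, hnb]
      by_cases b0 : β 0 = none
      · have := (hG.g3 b0).1
        simp only [this, if_false]
        split_ifs <;> omega
      · simp only [b0, if_false]
        split_ifs <;> omega
    obtain ⟨i, hi⟩ := h0
    have b2 : β 2 ≠ none := fun h => by
      have := hG.g2 h i
      rw [← Sum.not_isRight] at this
      exact this hi
    by_cases h1 : ∃ a b, a < b ∧ (f a).isRight ∧ (f b).isRight
    · -- a pair
      obtain ⟨a, b, hab, ha, hb⟩ := h1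
      obtain ⟨hadj, ⟨e, he, hfa⟩, e', he', hfb⟩ := hG.g1 a b hab ha hb
      have b0 : β 0 ≠ none := fun h =>
        hab.ne ((((hG.g3 h).2 a ha).1).trans (((hG.g3 h).2 b hb).1).symm)
      have b1 : β 1 ≠ none := fun h =>
        hab.ne (((hG.g4 h a ha).1).trans ((hG.g4 h b hb).1).symm)
      have oth : ∀ k, k ≠ a → k ≠ b → ¬ (f k).isRight := fun k hka hkb hk => by
        rcases lt_or_gt_of_ne hka with h | h
        · have x1 := (hG.g1 k a h hk ha).1
          have x2 := (hG.g1 k b (h.trans hab) hk hb).1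
          omega
        · have x1 := (hG.g1 a k h ha hk).1
          exact hkb (Fin.ext (by omega))
      have hs : ∑ i, df (f i) = 2 := by
        rw [sum_eq_add a b hab.ne (fun k _ hk => cnt_df_left (oth k hk.1 hk.2))
          (fun h => absurd (mem_univ _) h) (fun h => absurd (mem_univ _) h), hfa, hfb]
        rfl
      refine ⟨by rw [hs, hnb]; simp [b0, b1, b2], fun _ => ?_⟩
      refine mem_union_left _ (mem_union_left _ (mem_union_right _ (mem_product.2
        ⟨cnt_mem_full b0 b1 b2, mem_biUnion.2 ⟨⟨a, by have := b.2; omega⟩, mem_univ _, ?_⟩⟩)))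
      have e1 : (⟨a, by have := b.2; omega⟩ : Fin r).castSucc = a := Fin.ext rfl
      have e2 : (⟨a, by have := b.2; omega⟩ : Fin r).succ = b := Fin.ext (by simp [hadj])
      rw [e1, e2]
      refine Fintype.mem_piFinset.2 fun k => ?_
      split_ifs with k1 k2
      · rw [k1]; exact mem_image.2 ⟨e, he, hfa.symm⟩
      · rw [k2]; exact mem_image.2 ⟨e', he', hfb.symm⟩
      · exact cnt_mem_L.2 (oth k k1 k2)
    -- exactly one place
    have oth : ∀ k, k ≠ i → ¬ (f k).isRight := fun k hk hkr => by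
      rcases lt_or_gt_of_ne hk with h | h
      · exact h1 ⟨k, i, h, hkr, hi⟩
      · exact h1 ⟨i, k, h, hi, hkr⟩
    have hs : ∑ k, df (f k) = df (f i) :=
      sum_eq_single i (fun k _ hk => cnt_df_left (oth k hk)) fun h => absurd (mem_univ _) h
    have one : ∀ S : Finset (V ⊕ Ed ⊕ Ev), f i ∈ S → f ∈ cntOne i S := fun S hS =>
      Fintype.mem_piFinset.2 fun k => by
        split_ifs with k1
        · rw [k1]; exact hS
        · exact cnt_mem_L.2 (oth k k1)
    by_cases b0 : β 0 = none
    · obtain ⟨b1, h3⟩ := hG.g3 b0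
      obtain ⟨hi0, e, he⟩ := h3 i hi
      refine ⟨by rw [hs, hnb, he]; simp [b0, b1, b2, df], fun _ => ?_⟩
      refine mem_union_left _ (mem_union_right _ (mem_product.2 ⟨mem_univ _,
        mem_union_left _ ?_⟩))
      rw [← hi0]
      exact one _ (mem_image.2 ⟨e, mem_univ _, he.symm⟩)
    by_cases b1 : β 1 = none
    · obtain ⟨hi0, e, he⟩ := hG.g4 b1 i hi
      refine ⟨by rw [hs, hnb, he]; simp [b0, b1, b2, df], fun _ => ?_⟩
      refine mem_union_left _ (mem_union_right _ (mem_product.2 ⟨mem_univ _,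
        mem_union_right _ ?_⟩))
      rw [← hi0]
      exact one _ (mem_image.2 ⟨e, mem_univ _, he.symm⟩)
    have hn0 : nb β = 0 := by rw [hnb]; simp [b0, b1, b2]
    rw [hs, hn0, zero_add]
    refine ⟨cnt_df_le _, fun h2 => ?_⟩
    refine mem_union_left _ (mem_union_left _ (mem_union_left _ (mem_product.2
      ⟨cnt_mem_full b0 b1 b2, mem_biUnion.2 ⟨i, mem_univ _, one _ ?_⟩⟩)))
    rcases hf : f i with v | e | u
    · rw [hf] at h2; simp [df] at h2
    · rw [hf] at h2; simp [df] at h2
    · exact mem_image.2 ⟨u, mem_univ _, rfl⟩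

end Pool.Agent.P.MP_af6acb_co.Fat

/-! Step NA. -/

namespace Pool.Agent.P.MP_af6acb_co.Fat

open Finset Module
open scoped Classical

lemma na_eq_asm {R : Type} [Fintype R] {r l : ℕ} (A : Finset (Row R r l))
    (C : Finset (Option (Fin (l + 1)))) (h : ∀ c, Sum.inr (Sum.inr c) ∈ A ↔ c ∈ C) :
    asm (univ.filter fun x => Sum.inl x ∈ A)
      (fun i => univ.filter fun ρ => Sum.inr (Sum.inl (i, ρ)) ∈ A) C = A := by
  ext i
  rcases i with x | x | c
  · simp
  · simp
  · simp [h]

theorem p_NA (hFB1 : S_FB1) (hLAY : S_LAY) :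
    S_NA := by
  intro W R V Ed Ev _ _ _ _ _ _ _ G K et q r l hO hP
  have h3 := hP.three
  let Cs : Finset (Finset (Option (Fin (l + 1)))) :=
    {∅, {none}, {none, some 0}, {none, some (Fin.last l)}}
  refine ⟨(Cs ×ˢ (univ : Finset (Finset (Fin 3 × Bool) × (Fin (r + 1) → Finset R)))).image
    fun x => asm x.2.1 x.2.2 x.1, ?_, fun lam ⟨z, hz, ht⟩ hl => ?_⟩
  · refine card_image_le.trans ?_
    rw [card_product, card_univ, Fintype.card_prod, Fintype.card_finset, Fintype.card_fun,
      Fintype.card_finset, Fintype.card_fin, ← pow_mul, C0, mul_comm (r + 1), mul_assoc]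
    have : Fintype.card (Fin 3 × Bool) = 6 := by simp
    rw [this]
    exact Nat.mul_le_mul_right _ card_le_four
  · suffices h : ∃ C ∈ Cs, ∀ c, Sum.inr (Sum.inr c) ∈ supp lam ↔ c ∈ C by
      obtain ⟨C, h1, h2⟩ := h
      exact mem_image.2 ⟨(C, _, _), mem_product.2 ⟨h1, mem_univ _⟩, na_eq_asm _ C h2⟩
    by_cases h0 : lam (.inr (.inr none)) = 0
    · have h1 := hl.resolve_left (not_not.2 h0)
      refine ⟨∅, by simp [Cs], fun c => ?_⟩
      cases c <;> simp [h0, h1]
    · have hU := ((hFB1 W R V Ed Ev G K et q r l hO hP).2 z hz).1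
      obtain ⟨a1, a2⟩ := hLAY l z.2.2 _ (by omega) (pow_pos hP.et_pos _) hU.2
      have tt : ∀ c, lam (.inr (.inr c)) ≠ 0 → lay l c z.2.2 (q.et ^ (r + 1)) = 0 := fun c hc => by
        rw [← G.sl_lay]
        exact ht _ (mem_supp.2 hc)
      have b1 : ∀ s, lam (.inr (.inr (some s))) ≠ 0 → s = 0 ∨ s = Fin.last l := fun s hs =>
        a2 s (tt _ h0) (tt _ hs)
      by_cases c0 : lam (.inr (.inr (some 0))) = 0
      · by_cases c1 : lam (.inr (.inr (some (Fin.last l)))) = 0
        · refine ⟨{none}, by simp [Cs], fun c => ?_⟩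
          rcases c with _ | s
          · simp [h0]
          · simp only [mem_supp, mem_singleton, reduceCtorEq, iff_false]
            intro hs
            rcases b1 s hs with rfl | rfl
            exacts [hs c0, hs c1]
        · refine ⟨{none, some (Fin.last l)}, by simp [Cs], fun c => ?_⟩
          rcases c with _ | s
          · simp [h0]
          · simp only [mem_supp, mem_insert, mem_singleton, reduceCtorEq, false_or,
              Option.some.injEq]
            refine ⟨fun hs => ?_, fun hs => hs ▸ c1⟩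
            rcases b1 s hs with rfl | rfl
            exacts [absurd c0 hs, rfl]
      · refine ⟨{none, some 0}, by simp [Cs], fun c => ?_⟩
        rcases c with _ | s
        · simp [h0]
        · simp only [mem_supp, mem_insert, mem_singleton, reduceCtorEq, false_or,
            Option.some.injEq]
          refine ⟨fun hs => ?_, fun hs => hs ▸ c0⟩
          rcases b1 s hs with rfl | rfl
          · rfl
          · have := a1 0 (Fin.last l) (by simp [Fin.lt_def]; omega) (tt _ c0) (tt _ hs)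
            simp at this
            omega

end Pool.Agent.P.MP_af6acb_co.Fat

/-! Step F3. -/

namespace Pool.Agent.P.MP_af6acb_co.Fat

open Finset Module
open scoped Classical

theorem p_F3 (hCU : S_CU) (hACT : S_ACT) (hDIM : S_DIM) (hCNT : S_CNT) (hNA : S_NA) :
    S_F3 := by
  intro W R V Ed Ev _ _ _ _ _ _ _ G K et q r l ok par
  obtain ⟨DN, hDN, hN⟩ := hNA W R V Ed Ev G K et q r l ok par
  obtain ⟨DC, hDC, hC⟩ := hCNT W R V Ed Ev G r
  have hl : 2 ≤ l := by have := par.three; omega
  refine (hCU _ _ (G.sys q r l) 3 (((univ : Finset (Fin (l + 1))) ×ˢ DC).image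
    (fun x => asm (bs x.2.1) (fun i => G.T (x.2.2 i)) {some x.1}) ∪ DN)
    fun lam hm hne hd => ?_).trans ((card_union_le _ _).trans (add_le_add (card_image_le.trans ?_)
      hDN))
  · by_cases h : lam (.inr (.inr none)) ≠ 0 ∨ ∀ s, lam (.inr (.inr (some s))) = 0
    · exact ⟨_, mem_union_right _ (hN lam hne h), rfl⟩
    · push Not at h
      obtain ⟨β, f, C, geo, hc, e⟩ := hACT W R V Ed Ev G K et q r l ok par lam hm hne h.1 h.2
      have hd' : (G.sys q r l).dim (asm (bs β) (fun i => G.T (f i)) C) = 3 := by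
        unfold Sys.dim at hd ⊢
        rw [← e]
        exact hd
      obtain ⟨d1, d2⟩ := hDIM W R V Ed Ev G K et q r l ok hl β f
      obtain ⟨c1, c2⟩ := hC β f geo
      rcases hc with ⟨s, rfl⟩ | ⟨s, rfl⟩
      · have := d2 s
        refine ⟨_, mem_union_left _ (mem_image.2 ⟨(s, β, f),
          mem_product.2 ⟨mem_univ _, c2 (by omega)⟩, rfl⟩), by rw [e]⟩
      · have := d1 s
        omega
  · rw [card_product, card_univ, Fintype.card_fin]
    exact Nat.mul_le_mul_left _ hDC

end Pool.Agent.P.MP_af6acb_co.Fat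

/-! Step F0. -/

namespace Pool.Agent.P.MP_af6acb_co.Fat

open Finset Module
open scoped Classical

lemma f0_mono {E ι : Type} [AddCommGroup E] [Module ℝ E] [Fintype ι] (Y : Sys E ι)
    {T T' : Finset ι} (h : T ⊆ T') : Y.face T' ⊆ Y.face T :=
  fun _ hz => ⟨hz.1, fun i hi => hz.2 i (h hi)⟩

lemma f0_sub {S : Set E4} (h : finrank ℝ (vectorSpan ℝ S) = 0) : S.Subsingleton := by
  intro x hx y hy
  have h1 : vectorSpan ℝ S = ⊥ := Submodule.finrank_eq_zero.1 h
  have h2 := vsub_mem_vectorSpan ℝ hx hy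
  rw [h1, Submodule.mem_bot] at h2
  exact vsub_eq_zero_iff_eq.1 h2

lemma f0_cell {l : ℕ} (hl : 3 ≤ l) {C : Finset (Option (Fin (l + 1)))}
    (h : (∃ s, C = {some s}) ∨ ∃ s, C = cell s) : ∃ s : Fin l, C ⊆ cell s := by
  rcases h with ⟨s, rfl⟩ | ⟨s, rfl⟩
  · induction s using Fin.cases with
    | zero => exact ⟨⟨0, by omega⟩, by simp [cell]⟩
    | succ j => exact ⟨j, by simp [cell]⟩
  · exact ⟨s, Subset.refl _⟩

theorem p_F0 (hCU : S_CU) (hACT : S_ACT) (hTV : S_TV) (hNA : S_NA) :
    S_F0 := by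
  intro W R V Ed Ev _ _ _ _ _ _ _ G K et q r l hG hP
  obtain ⟨D, hD, hD'⟩ := hNA W R V Ed Ev G K et q r l hG hP
  let A : (Fin 3 → Bool) × (Fin (r + 1) → V) × Fin l → Finset (Row R r l) := fun a =>
    asm (bs fun m => some (a.1 m)) (fun j => G.TV (a.2.1 j)) (cell a.2.2)
  refine (hCU _ _ (G.sys q r l) 0 (univ.image A ∪ D) fun lam h1 h2 h3 => ?_).trans ?_
  · by_cases hc : lam (.inr (.inr none)) ≠ 0 ∨ ∀ s, lam (.inr (.inr (some s))) = 0
    · exact ⟨_, mem_union_right _ (hD' lam h2 hc), rfl⟩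
    push Not at hc
    obtain ⟨β, f, C, -, hC, e⟩ := hACT W R V Ed Ev G K et q r l hG hP lam h1 h2 hc.1 hc.2
    obtain ⟨s, hs⟩ := f0_cell hP.three hC
    choose vs X hX using hG.sub
    refine ⟨A (fun m => (β m).getD true, fun j => vs (f j), s),
      mem_union_left _ (mem_image_of_mem _ (mem_univ _)), ?_⟩
    have hsub : (G.sys q r l).face (A (fun m => (β m).getD true, fun j => vs (f j), s)) ⊆
        (G.sys q r l).face (supp lam) := by
      rw [e]
      refine f0_mono _ ?_
      rintro (x | x | x) hx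
      · simp only [A, inl_mem_asm, mem_bs] at hx ⊢
        rw [hx]
        rfl
      · simp only [A, mid_mem_asm] at hx ⊢
        exact (hX _).1 hx
      · simp only [A, inr_mem_asm] at hx ⊢
        exact hs hx
    obtain ⟨z, hz, hz'⟩ := hTV W R V Ed Ev G K et q r l hG hP (fun m => (β m).getD true)
      (fun j => vs (f j)) s
    have hzf : z ∈ (G.sys q r l).face (A (fun m => (β m).getD true, fun j => vs (f j), s)) :=
      ⟨hz, fun i hi => (hz' i).2 hi⟩
    refine Set.Subset.antisymm (fun y hy => ?_) (Set.image_mono hsub)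
    rw [f0_sub h3 hy (Set.mem_image_of_mem _ (hsub hzf))]
    exact Set.mem_image_of_mem _ hzf
  · refine (card_union_le _ _).trans (add_le_add (card_image_le.trans ?_) hD)
    simp [mul_assoc]

end Pool.Agent.P.MP_af6acb_co.Fat
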