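import Pool.Agent.P.MP_af6acb_co.Fat.IfaceA

set_option linter.unusedSectionVars false

/-! Step BP. -/

namespace Pool.Agent.P.MP_af6acb_co.Fat

open Finset Module
open scoped Classical

lemma bp_low {d e v ρ : ℝ} (he : 0 < e) (hd : 1 ≤ |d|) (hv : |v| ≤ e / 4) (hρ : |ρ| ≤ e / 8) :
    e / 8 ≤ ρ + d * v + d ^ 2 * e / 2 := by
  have h1 : |d * v| ≤ |d| * (e / 4) := by
    rw [abs_mul]
    exact mul_le_mul_of_nonneg_left hv (abs_nonneg _)
  have h2 := (abs_le.1 h1).1
  have h3 := (abs_le.1 hρ).1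
  rw [← sq_abs d]
  generalize |d| = a at *
  nlinarith [mul_nonneg (mul_nonneg (sub_nonneg.2 hd) (by linarith : 0 ≤ 2 * a + 1)) he.le]

lemma bp_up {d e v ρ n : ℝ} (he : 0 < e) (hd : |d| ≤ n) (hv : |v| ≤ e / 4) (hρ : |ρ| ≤ e / 8) :
    ρ + d * v + d ^ 2 * e / 2 ≤ e / 8 + |d| * (e / 4) + |d| * n * e / 2 := by
  have h1 : |d * v| ≤ |d| * (e / 4) := by
    rw [abs_mul]
    exact mul_le_mul_of_nonneg_left hv (abs_nonneg _)
  have h2 := (abs_le.1 h1).2
  have h3 := (abs_le.1 hρ).2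
  have h4 := abs_nonneg d
  rw [← sq_abs d]
  generalize |d| = a at *
  nlinarith [mul_nonneg (mul_nonneg h4 (sub_nonneg.2 hd)) he.le]

theorem p_BP :
    S_BP := by
  intro r e i he
  have hn : (2 : ℝ) ≤ (r : ℝ) + 2 := le_add_of_nonneg_left (Nat.cast_nonneg r)
  have x1 : 1 ≤ ps i := le_add_of_nonneg_left (Nat.cast_nonneg _)
  have x2 : ps i + 1 ≤ (r : ℝ) + 2 := by
    have h2 : ((i : ℕ) : ℝ) ≤ r := Nat.cast_le.2 (Nat.lt_succ_iff.1 i.2)
    unfold ps
    linarith
  set x := ps i with hx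
  set n := (r : ℝ) + 2 with hn'
  let R : ℝ × ℝ → ℝ → ℝ := fun z y => z.2 + (x - y) * (z.1 - x * e) + (x - y) ^ 2 * e / 2
  refine ⟨fun z => ![R z 0, R z n, n ^ 3 * e - R z 0 - R z n], ?_, fun u ρ => ?_⟩
  · refine continuous_pi fun m => ?_
    fin_cases m <;> simp only [R] <;> simp <;> fun_prop
  have hn0 : n ≠ 0 := by linarith
  set p : Fin 3 → ℝ := ![R (u, ρ) 0, R (u, ρ) n, n ^ 3 * e - R (u, ρ) 0 - R (u, ρ) n] with hp
  have p0 : p 0 = R (u, ρ) 0 := rfl
  have p1 : p 1 = R (u, ρ) n := rfl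
  have p2 : p 2 = n ^ 3 * e - R (u, ρ) 0 - R (u, ρ) n := rfl
  have e1 : ee r p = e := by
    rw [ee, p0, p1, p2, ← hn']
    field_simp
    ring
  have e2 : uu r p = u := by
    rw [uu, p0, p1, e1, ← hn']
    simp only [R]
    field_simp
    ring
  have e3 : rho r p x = ρ := by
    have := rho_sub r p x 0
    rw [rho_zero, p0, e1, e2] at this
    simp only [R] at this
    linarith
  refine ⟨e1, e2, e3, fun hu hρ => ⟨fun m => ?_, fun j hj => ?_⟩⟩
  · have a0 : |x - 0| = x := by rw [sub_zero, abs_of_pos (by linarith)]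
    have a1 : |x - n| = n - x := by rw [abs_sub_comm, abs_of_pos (by linarith)]
    have l0 := bp_low (d := x - 0) he (by linarith) hu hρ
    have l1 := bp_low (d := x - n) he (by linarith) hu hρ
    have u0 := bp_up (d := x - 0) (n := n) he (by linarith) hu hρ
    have u1 := bp_up (d := x - n) (n := n) he (by linarith) hu hρ
    rw [a0] at u0
    rw [a1] at u1
    fin_cases m
    · change 0 < R (u, ρ) 0
      simp only [R]
      linarith
    · change 0 < R (u, ρ) n
      simp only [R]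
      linarith
    · change 0 < n ^ 3 * e - R (u, ρ) 0 - R (u, ρ) n
      simp only [R]
      have : 0 < (n ^ 3 - 1 / 4 - n / 4 - n ^ 2 / 2) * e := by
        refine mul_pos ?_ he
        nlinarith [mul_nonneg (sq_nonneg n) (sub_nonneg.2 hn)]
      nlinarith
  · change e / 8 ≤ rho r p (ps j)
    rw [rho_sub r p x, e1, e2, e3]
    refine bp_low he ?_ hu hρ
    have h : ((i : ℕ) : ℤ) - (j : ℕ) ≠ 0 := fun h => hj (Fin.ext (by omega))
    have h2 : ((1 : ℤ) : ℝ) ≤ ((|((i : ℕ) : ℤ) - (j : ℕ)| : ℤ) : ℝ) := Int.cast_le.2 (Int.one_le_abs h)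
    simpa [hx, ps] using h2

end Pool.Agent.P.MP_af6acb_co.Fat

/-! Step EX. -/

namespace Pool.Agent.P.MP_af6acb_co.Fat

open Finset Module
open scoped Classical

/-- The round reached after `k` steps from the top. -/
def ex_ix (r k : ℕ) : Fin (r + 1) := ⟨r - k, by omega⟩

/-- The downward recursion. -/
noncomputable def ex_v (r : ℕ) (La w0 : ℝ) (C : Fin (r + 1) → ℝ → ℝ) : ℕ → ℝ
  | 0 => w0
  | k + 1 => C (ex_ix r k) (ex_v r La w0 C k) / La

lemma ex_ix_sub {r : ℕ} (i : Fin (r + 1)) : ex_ix r (r - i) = i := by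
  have := i.2
  ext
  simp only [ex_ix]
  omega

lemma ex_cont {r : ℕ} {La w0 : ℝ} {C : ℝ → Fin (r + 1) → ℝ → ℝ}
    (hC : ∀ j, Continuous fun x : ℝ × ℝ => C x.1 j x.2) (k : ℕ) :
    Continuous fun t => ex_v r La w0 (C t) k := by
  induction k with
  | zero => exact continuous_const
  | succ k ih => exact ((hC _).comp (continuous_id.prodMk ih)).div_const La

lemma ex_congr {r : ℕ} {La w0 : ℝ} {C C' : Fin (r + 1) → ℝ → ℝ} {n : ℕ}
    (h : ∀ k < n, C (ex_ix r k) = C' (ex_ix r k)) :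
    ∀ k ≤ n, ex_v r La w0 C k = ex_v r La w0 C' k := by
  intro k
  induction k with
  | zero => intro _; rfl
  | succ k ih => intro hk; simp only [ex_v]; rw [ih (by omega), h k (by omega)]

lemma ex_bd {v : ℕ → ℝ} {th : ℝ} {n : ℕ} (h0 : |v 0| ≤ th)
    (h : ∀ k < n, |v k| ≤ th → |v (k + 1)| ≤ th) : ∀ k ≤ n, |v k| ≤ th := by
  intro k
  induction k with
  | zero => intro _; exact h0
  | succ k ih => intro hk; exact h k (by omega) (ih (by omega))

section

variable {W R V Ed Ev : Type} [NormedAddCommGroup W] [NormedSpace ℝ W]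
  [FiniteDimensional ℝ W] [Fintype R] [Fintype V] [Fintype Ed] [Fintype Ev]
  {G : Gad W R V Ed Ev} {K et : ℝ} {q : Prm} {r l : ℕ}

lemma ex_La (hG : G.Ok K et) (hq : G.Par0 q K et r l) : 0 < q.La := by
  have h1 := hq.La_l
  have h2 := mul_pos hG.th_pos hq.ka_pos
  have h3 : (0 : ℝ) < (l : ℝ) + 1 := by positivity
  by_contra h
  have := mul_nonpos_of_nonpos_of_nonneg (not_lt.1 h) h2.le
  nlinarith

lemma ex_aa (hq : G.Par0 q K et r l) {p : Fin 3 → ℝ} (he : ee r p = 8 / q.ka) :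
    aa q r p = 1 := by
  have := hq.ka_pos.ne'
  rw [aa, he]
  field_simp

lemma ex_step (hBND : S_BND) (hG : G.Ok K et) (hq : G.Par0 q K et r l) {p : Fin 3 → ℝ}
    (hp : ∀ m, 0 < p m) (he : ee r p = 8 / q.ka) {j : Fin (r + 1)} {lam : R → ℝ} {c w : ℝ}
    (hd : G.Dual lam 1 (bb q p j) c (rho r p (ps j)) w) (hw : |w| ≤ G.th) :
    |c / q.La| ≤ G.th := by
  have h1 := (hG.low _ _ _ _ _ _ hd one_pos (by rwa [mul_one])).2
  have h2 := (hBND W R V Ed Ev G K et q r l hG hq p (fun m => (hp m).le) j).2.2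
  rw [ex_aa hq he, mul_one] at h2
  have h3 := ex_La hG hq
  rw [abs_div, abs_of_pos h3, div_le_iff₀ h3, mul_comm]
  exact h1.trans h2

lemma ex_far (hBND : S_BND) (hG : G.Ok K et) (hq : G.Par0 q K et r l) {p : Fin 3 → ℝ}
    (hp : ∀ m, 0 < p m) (he : ee r p = 8 / q.ka) {j : Fin (r + 1)}
    (hr : 8 / q.ka / 8 ≤ rho r p (ps j)) :
    1 ≤ et * rho r p (ps j) ∧ |bb q p j| ≤ et * rho r p (ps j) := by
  have h1 := (hBND W R V Ed Ev G K et q r l hG hq p (fun m => (hp m).le) j).1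
  have hk := hq.ka_pos
  have h2 : 2 * q.ka * ((r : ℝ) + 2) ^ 2 * ee r p = 16 * ((r : ℝ) + 2) ^ 2 := by
    rw [he]; field_simp; ring
  have h3 : 24 * q.ka * ((r : ℝ) + 2) ^ 2 * (8 / q.ka / 8) = 24 * ((r : ℝ) + 2) ^ 2 := by
    field_simp
  have h4 : 24 * q.ka * ((r : ℝ) + 2) ^ 2 * (8 / q.ka / 8) ≤ et * rho r p (ps j) :=
    mul_le_mul hq.ka_et hr (by positivity) hG.et_pos.le
  have h5 : (1 : ℝ) ≤ ((r : ℝ) + 2) ^ 2 := by nlinarith [Nat.cast_nonneg (α := ℝ) r]
  constructor <;> linarith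

lemma ex_w0 (hG : G.Ok K et) (hq : G.Par0 q K et r l) (s : Fin l) :
    |8 / q.ka * ((s : ℝ) + 3 / 2) / q.La| ≤ G.th := by
  have h3 := ex_La hG hq
  have hk := hq.ka_pos
  have h1 := hq.La_l
  have h2 : ((s : ℕ) : ℝ) + 1 ≤ l := by exact_mod_cast s.2
  rw [abs_of_nonneg (by positivity), div_le_iff₀ h3, div_mul_eq_mul_div, div_le_iff₀ hk]
  nlinarith

lemma ex_core (hDD : S_DD) (hBND : S_BND) (hG : G.Ok K et) (hq : G.Par0 q K et r l)
    (σ : Fin 3 → Bool) (s : Fin l) {p : Fin 3 → ℝ} (hp : ∀ m, 0 < p m) (he : ee r p = 8 / q.ka)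
    (T : Fin (r + 1) → Finset R) (C : Fin (r + 1) → ℝ → ℝ)
    (hC : ∀ j : Fin (r + 1), ∀ w, w = ex_v r q.La (8 / q.ka * ((s : ℝ) + 3 / 2) / q.La) C (r - j) →
      |w| ≤ G.th → ∃ lam, G.Dual lam 1 (bb q p j) (C j w) (rho r p (ps j)) w ∧ supp lam = T j) :
    ∃ lam, (G.sys q r l).Mul lam ∧ supp lam = asm (bs fun m => some (σ m)) T (cell s) := by
  set v := ex_v r q.La (8 / q.ka * ((s : ℝ) + 3 / 2) / q.La) C with hv
  have hLa := ex_La hG hq
  have hk := hq.ka_pos
  have hb : ∀ k ≤ r, |v k| ≤ G.th := ex_bd (ex_w0 hG hq s) fun k hk hw => by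
    obtain ⟨lam, hd, -⟩ := hC (ex_ix r k) (v k) (by
      congr 1
      simp only [ex_ix]
      omega) hw
    exact ex_step hBND hG hq hp he hd hw
  choose lm hlm using fun j : Fin (r + 1) => hC j _ rfl (hb _ (Nat.sub_le _ _))
  set lam : Row R r l → ℝ := Sum.elim (fun x => if x.2 = σ x.1 then p x.1 else 0)
    (Sum.elim (fun x => lm x.1 x.2) fun c => if c ∈ cell s then 8 / q.ka / 2 else 0) with hlam
  have hbp : bp lam = p := by
    funext m
    simp only [bp, hlam, Sum.elim_inl]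
    cases σ m <;> simp
  have hne : s.castSucc ≠ s.succ := (Fin.castSucc_lt_succ).ne
  have hsum : ∀ g : Fin (l + 1) → ℝ, ∑ t : Fin (l + 1), lam (.inr (.inr (some t))) * g t =
      8 / q.ka / 2 * (g s.castSucc + g s.succ) := by
    intro g
    rw [← sum_pair hne, mul_sum, ← sum_subset (subset_univ {s.castSucc, s.succ})]
    · refine sum_congr rfl fun t ht => ?_
      have : some t ∈ cell s := by simpa [cell] using ht
      simp only [hlam, Sum.elim_inr, if_pos this]
    · intro t _ ht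
      have : some t ∉ cell s := by simpa [cell] using ht
      simp only [hlam, Sum.elim_inr, if_neg this, zero_mul]
  have hnone : lam (.inr (.inr none)) = 0 := by simp [hlam, cell]
  refine ⟨lam, (hDD W R V Ed Ev G K et q r l lam hG).2 (fun j => C j (v (r - j)))
    (fun j => v (r - j)) ⟨?_, fun j => ?_, fun j => ?_, ?_, ?_⟩, ?_⟩
  · rintro (x | x | c)
    · simp only [hlam, Sum.elim_inl]
      split_ifs
      · exact (hp _).le
      · exact le_rfl
    · exact (hlm x.1).1.1 x.2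
    · simp only [hlam, Sum.elim_inr]
      split_ifs
      · positivity
      · exact le_rfl
  · rw [hbp, ex_aa hq he]
    exact (hlm j).1
  · have h1 : r - (j.castSucc : ℕ) = (r - (j.succ : ℕ)) + 1 := by
      have := j.2
      simp only [Fin.val_castSucc, Fin.val_succ]
      omega
    rw [h1, hv]
    simp only [ex_v]
    rw [ex_ix_sub]
    field_simp
  · rw [hsum, hnone]
    simp only [Fin.val_last, Nat.sub_self, hv, ex_v, Fin.val_castSucc, Fin.val_succ]
    push_cast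
    field_simp
    ring
  · have := hsum fun _ => 1
    simp only [mul_one] at this
    rw [this, hnone, hbp, he]
    ring
  · ext (x | x | c)
    · rw [mem_supp, inl_mem_asm, mem_bs]
      simp only [hlam, Sum.elim_inl, Option.some.injEq]
      by_cases h : x.2 = σ x.1
      · simp [h, (hp x.1).ne']
      · simp [h, Ne.symm h]
    · rw [mem_supp, mid_mem_asm, ← (hlm x.1).2, mem_supp]
      rfl
    · rw [mem_supp, inr_mem_asm]
      simp only [hlam, Sum.elim_inr]
      by_cases h : c ∈ cell s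
      · simp [h, hk.ne']
      · simp [h]

end

theorem p_EX (hDD : S_DD) (hBND : S_BND) (hBP : S_BP) :
    S_EX := by
  intro W R V Ed Ev _ _ _ _ _ _ _ G K et q r l hG hq' σ vs s
  have hq := hq'.toPar0
  have hk := hq.ka_pos
  have he : 0 < 8 / q.ka := by positivity
  choose cf hcf hfar using hG.far
  refine ⟨?_, fun i e hE => ?_⟩
  · obtain ⟨P, -, hP⟩ := hBP r _ 0 he
    obtain ⟨h1, -, h3, h4⟩ := hP (ps (0 : Fin (r + 1)) * (8 / q.ka)) (8 / q.ka / 8)
    obtain ⟨h5, h6⟩ := h4 (by rw [sub_self, abs_zero]; positivity)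
      (by rw [abs_of_nonneg (by positivity)])
    generalize P (ps (0 : Fin (r + 1)) * (8 / q.ka), 8 / q.ka / 8) = p at h1 h3 h5 h6
    refine ex_core hDD hBND hG hq σ s h5 h1 _
      (fun j w => cf (vs j) (bb q p j, rho r p (ps j), w)) fun j w _ hw => ?_
    have h7 := ex_far hBND hG hq h5 h1 (j := j) (by
      by_cases hj : j = 0
      · rw [hj, h3]
      · exact h6 j hj)
    exact hfar (vs j) _ _ w h7.1 h7.2 hw
  · obtain ⟨P, hPc, hP⟩ := hBP r _ i he
    obtain ⟨b, c2, hb, hc2, hw⟩ := hG.wall e hE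
    set p : ℝ → Fin 3 → ℝ := fun t => P (ps i * (8 / q.ka) + b t / q.ka, c2 t) with hp
    have hpc : Continuous p :=
      hPc.comp ((continuous_const.add (hb.div_const _)).prodMk hc2)
    have hK : K ≤ 8 / q.ka / 8 := by
      have h1 := hq.ka_K
      have h2 : (1 : ℝ) ≤ ((r : ℝ) + 2) ^ 2 := by nlinarith [Nat.cast_nonneg (α := ℝ) r]
      have h3 : 0 < K * q.ka := mul_pos (one_pos.trans_le hG.K_ge) hk
      rw [div_div, le_div_iff₀ (by positivity)]
      nlinarith
    have hp1 : ∀ t, |t| ≤ G.th → (∀ m, 0 < p t m) ∧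
        ∀ j, j ≠ i → 8 / q.ka / 8 ≤ rho r (p t) (ps j) := fun t ht => by
      refine (hP _ _).2.2.2 ?_ ((hw t ht).2.1.trans hK)
      rw [add_sub_cancel_left, abs_div, abs_of_pos hk, div_le_iff₀ hk]
      have : 8 / q.ka / 4 * q.ka = 2 := by field_simp; norm_num
      rw [this]
      exact (hw t ht).1
    have hp2 : ∀ t, ee r (p t) = 8 / q.ka := fun t => (hP _ _).1
    set C : ℝ → Fin (r + 1) → ℝ → ℝ :=
      fun t j w => cf (vs j) (bb q (p t) j, rho r (p t) (ps j), w) with hC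
    have hCc : ∀ j, Continuous fun x : ℝ × ℝ => C x.1 j x.2 := fun j => by
      have h0 : ∀ m, Continuous fun x : ℝ × ℝ => p x.1 m := fun m =>
        (continuous_apply m).comp (hpc.comp continuous_fst)
      have h1 := h0 0
      have h2 := h0 1
      have h3 := h0 2
      refine (hcf (vs j)).comp (Continuous.prodMk ?_ (Continuous.prodMk ?_ continuous_snd))
      · simp only [bb, uu, ee]
        fun_prop
      · simp only [rho, ee]
        fun_prop
    have hfj : ∀ t, |t| ≤ G.th → ∀ j, j ≠ i → ∀ w, |w| ≤ G.th → ∃ lam,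
        G.Dual lam 1 (bb q (p t) j) (C t j w) (rho r (p t) (ps j)) w ∧
          supp lam = G.TV (vs j) := fun t ht j hj w hw' => by
      have h7 := ex_far hBND hG hq (hp1 t ht).1 (hp2 t) ((hp1 t ht).2 j hj)
      exact hfar (vs j) _ _ w h7.1 h7.2 hw'
    have hix : ∀ k < r - i, ex_ix r k ≠ i := fun k hk' h => by
      have := congrArg Fin.val h
      simp only [ex_ix] at this
      omega
    set w0 := 8 / q.ka * ((s : ℝ) + 3 / 2) / q.La with hw0
    have hΦ : ∀ t, |t| ≤ G.th → |ex_v r q.La w0 (C t) (r - i)| ≤ G.th := fun t ht =>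
      ex_bd (ex_w0 hG hq s) (fun k hk' hv => by
        obtain ⟨lam, hd, -⟩ := hfj t ht _ (hix k hk') _ hv
        exact ex_step hBND hG hq (hp1 t ht).1 (hp2 t) hd hv) _ le_rfl
    have hth := hG.th_pos
    obtain ⟨t, ht, hfix⟩ : ∃ t ∈ Set.Icc (-G.th) G.th, ex_v r q.La w0 (C t) (r - i) - t = 0 := by
      refine intermediate_value_Icc' (by linarith)
        ((ex_cont hCc (r - i)).sub continuous_id).continuousOn ⟨?_, ?_⟩
      · have := abs_le.1 (hΦ G.th (abs_of_pos hth).le)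
        simp only [Pi.sub_apply, id]
        linarith
      · have := abs_le.1 (hΦ (-G.th) (by rw [abs_neg, abs_of_pos hth]))
        simp only [Pi.sub_apply, id]
        linarith
    have ht' : |t| ≤ G.th := abs_le.2 ht
    obtain ⟨-, -, c1, lam, hd, hs⟩ := hw t ht'
    refine ex_core hDD hBND hG hq σ s (hp1 t ht').1 (hp2 t) _
      (Function.update (C t) i fun _ => c1) fun j w hwj hw' => ?_
    by_cases hj : j = i
    · subst hj
      rw [ex_congr (C' := C t) (fun k hk' => Function.update_of_ne (hix k hk') _ _) _ le_rfl,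
        sub_eq_zero.1 hfix] at hwj
      subst hwj
      have h1 : bb q (p w) j = b w := by
        rw [bb, hp2, (hP _ _).2.1]
        field_simp
        ring
      rw [Function.update_self, Function.update_self, h1, (hP _ _).2.2.1]
      exact ⟨lam, hd, hs⟩
    · rw [Function.update_of_ne hj, Function.update_of_ne hj]
      exact hfj t ht' j hj w hw'

end Pool.Agent.P.MP_af6acb_co.Fat

/-! Step F0L. -/

namespace Pool.Agent.P.MP_af6acb_co.Fat

open Finset Module
open scoped Classical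

lemma f0l_cell {l : ℕ} {s s' : Fin l} (h : cell s = cell s') : s = s' := by
  have h1 : some s.castSucc ∈ cell s' := h ▸ by simp [cell]
  have h2 : some s'.castSucc ∈ cell s := h ▸ by simp [cell]
  simp only [cell, mem_insert, mem_singleton, Option.some.injEq, Fin.ext_iff, Fin.val_castSucc,
    Fin.val_succ] at h1 h2
  exact Fin.ext (by omega)

theorem p_F0L (hCL : S_CL) (hDIM : S_DIM) (hTV : S_TV) (hEX : S_EX) :
    S_F0L := by
  intro W R V Ed Ev _ _ _ _ _ _ _ G K et q r l hG hP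
  let A : (Fin 3 → Bool) × (Fin (r + 1) → V) × Fin l → Finset (Row R r l) := fun a =>
    asm (bs fun m => some (a.1 m)) (fun j => G.TV (a.2.1 j)) (cell a.2.2)
  have h1 : ∀ a, ∃ lam, (G.sys q r l).Mul lam ∧ supp lam = A a := fun a =>
    (hEX W R V Ed Ev G K et q r l hG hP a.1 a.2.1 a.2.2).1
  have h2 : ∀ a, ∃ z ∈ (G.sys q r l).Fe, ∀ i, (G.sys q r l).sl i z = 0 ↔ i ∈ A a := fun a =>
    hTV W R V Ed Ev G K et q r l hG hP a.1 a.2.1 a.2.2
  choose lam hl hs using h1
  choose z hz hz' using h2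
  have hf : ∀ a, z a ∈ (G.sys q r l).face (supp (lam a)) := fun a =>
    ⟨hz a, fun i hi => (hz' a i).2 (hs a ▸ hi)⟩
  have key : ∀ a b, (G.sys q r l).face (supp (lam a)) = (G.sys q r l).face (supp (lam b)) →
      A b ⊆ A a := fun a b h i hi => (hz' a i).1 ((h ▸ hf a).2 i (hs b ▸ hi))
  refine le_trans (by simp [mul_assoc]) (hCL _ _ (G.sys q r l) 0 _ lam (fun a =>
    ⟨hl a, ⟨_, hf a⟩, ?_⟩) fun a b h => ?_)
  · have := (hDIM W R V Ed Ev G K et q r l hG (by have := hP.three; omega)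
      (fun m => some (a.1 m)) fun j => .inl (a.2.1 j)).1 a.2.2
    rw [hs]
    refine Nat.le_zero.1 (le_trans this (le_of_eq ?_))
    simp [nb, df]
  · have e : A a = A b := Subset.antisymm (key b a (Eq.symm h)) (key a b h)
    have e' : ∀ i, i ∈ A a ↔ i ∈ A b := fun i => by rw [e]
    refine Prod.ext (funext fun m => ?_) (Prod.ext (funext fun j => hG.tinjV ?_) (f0l_cell ?_))
    · simpa [A, eq_comm] using e' (.inl (m, a.1 m))
    · ext ρ
      simpa [A] using e' (.inr (.inl (j, ρ)))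
    · ext c
      simpa [A] using e' (.inr (.inr c))

end Pool.Agent.P.MP_af6acb_co.Fat

/-! Step F1. -/

namespace Pool.Agent.P.MP_af6acb_co.Fat

open Finset Module
open scoped Classical

lemma f1_cell {l : ℕ} {s s' : Fin l} (h : cell s = cell s') : s = s' := by
  have a : some s.castSucc ∈ cell s' := h ▸ by simp [cell]
  have b : some s.succ ∈ cell s' := h ▸ by simp [cell]
  simp only [cell, mem_insert, mem_singleton, Option.some.injEq, Fin.ext_iff, Fin.val_castSucc,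
    Fin.val_succ] at a b ⊢
  omega

lemma f1_upd {V X : Type} {r : ℕ} (g : V → X) (i : Fin (r + 1)) (v : V) (us : Fin r → V) (x : X) :
    Function.update (fun j => g ((Fin.insertNth i v us : Fin (r + 1) → V) j)) i x =
      (Fin.insertNth i x fun k => g (us k) : Fin (r + 1) → X) := by
  funext j
  rcases Fin.eq_self_or_eq_succAbove i j with rfl | ⟨k, rfl⟩
  · simp
  · simp

lemma f1_asm {R : Type} [Fintype R] {r l : ℕ} {B B' : Finset (Fin 3 × Bool)}
    {T T' : Fin (r + 1) → Finset R} {C C' : Finset (Option (Fin (l + 1)))}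
    (h : asm B T C = asm B' T' C') : B = B' ∧ T = T' ∧ C = C' := by
  have k := fun x => Finset.ext_iff.1 h x
  refine ⟨Finset.ext fun x => ?_, funext fun j => Finset.ext fun x => ?_, Finset.ext fun x => ?_⟩
  · simpa using k (.inl x)
  · simpa using k (.inr (.inl (j, x)))
  · simpa using k (.inr (.inr x))

theorem p_F1 (hLP3 : S_LP3) (hCL : S_CL) (hSCL : S_SCL) (hDIM : S_DIM) (hTV : S_TV) (hTI : S_TI) (hEX : S_EX) :
    S_F1 := by
  intro W R V Ed Ev _ _ _ _ _ _ _ G K et q r l ok par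
  set Y := G.sys q r l with hY
  let TT : (Fin 3 → Bool) × Fin (r + 1) × G.E0 × (Fin r → V) × Fin l → Finset (Row R r l) :=
    fun a => asm (bs fun m => some (a.1 m))
      (Fin.insertNth a.2.1 (G.TE a.2.2.1) fun k => G.TV (a.2.2.2.1 k)) (cell a.2.2.2.2)
  have key : ∀ a, (∃ lam, Y.Mul lam ∧ supp lam = TT a) ∧ (Y.face (TT a)).Nonempty ∧
      Y.dim (TT a) = 1 ∧ ∀ ρ, (∀ z ∈ Y.face (TT a), Y.sl ρ z = 0) ↔ ρ ∈ TT a := by
    rintro ⟨σ, i, ⟨e, he⟩, us, s⟩
    obtain ⟨v, v', ne, hv⟩ := ok.ends e he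
    let A : V → Finset (Row R r l) := fun w => asm (bs fun m => some (σ m))
      (fun j => G.TV ((Fin.insertNth i w us : Fin (r + 1) → V) j)) (cell s)
    have hT : ∀ ρ, ρ ∈ TT (σ, i, ⟨e, he⟩, us, s) ↔ ρ ∈ A v ∧ ρ ∈ A v' := by
      rintro (x | ⟨j, x⟩ | x)
      · simp [TT, A]
      · rcases Fin.eq_self_or_eq_succAbove i j with rfl | ⟨k, rfl⟩
        · simp [TT, A, hv]
        · simp [TT, A]
      · simp [TT, A]
    have pt : ∀ w, ∃ z ∈ Y.Fe, ∀ ρ, Y.sl ρ z = 0 ↔ ρ ∈ A w := fun w =>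
      hTV W R V Ed Ev G K et q r l ok par σ _ s
    choose z hz tz using pt
    have m1 : z v ∈ Y.face (TT (σ, i, ⟨e, he⟩, us, s)) :=
      ⟨hz v, fun ρ h => (tz v ρ).2 ((hT ρ).1 h).1⟩
    have m2 : z v' ∈ Y.face (TT (σ, i, ⟨e, he⟩, us, s)) :=
      ⟨hz v', fun ρ h => (tz v' ρ).2 ((hT ρ).1 h).2⟩
    have sb : ∀ w w', Y.pr (z w) = Y.pr (z w') → G.TV w ⊆ G.TV w' := by
      intro w w' h x hx
      obtain ⟨lam, h1, h2⟩ := (hEX W R V Ed Ev G K et q r l ok par σ (Fin.insertNth i w us) s).1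
      have m : z w ∈ Y.face (supp lam) := ⟨hz w, fun ρ h => (tz w ρ).2 (by rwa [h2] at h)⟩
      have := ((hLP3 _ _ Y lam h1 ⟨_, m⟩).2 _ (hz w') ⟨_, m, h⟩).2 (.inr (.inl (i, x)))
        (by rw [h2]; simpa using hx)
      simpa [A] using (tz w' _).1 this
    refine ⟨?_, ⟨_, m1⟩, le_antisymm ?_ ?_,
      fun ρ => ⟨fun h => (hT ρ).2 ⟨(tz v ρ).1 (h _ m1), (tz v' ρ).1 (h _ m2)⟩, fun h y hy => hy.2 ρ h⟩⟩
    · have := (hEX W R V Ed Ev G K et q r l ok par σ (Fin.insertNth i v us) s).2 i e he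
      rwa [f1_upd] at this
    · have := (hDIM W R V Ed Ev G K et q r l ok (by have := par.three; omega)
        (fun m => some (σ m)) (Fin.insertNth i (.inr (.inl e)) fun k => .inl (us k))).1 s
      have e1 : (fun j => G.T ((Fin.insertNth i (.inr (.inl e)) fun k => .inl (us k) :
          Fin (r + 1) → V ⊕ Ed ⊕ Ev) j)) = Fin.insertNth i (G.TE e) fun k => G.TV (us k) := by
        funext j
        rcases Fin.eq_self_or_eq_succAbove i j with rfl | ⟨k, rfl⟩ <;> simp [Gad.T]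
      rw [e1, Fin.sum_univ_succAbove _ i] at this
      simpa [nb, df] using this
    · refine Submodule.one_le_finrank_iff.2 fun h => ne (ok.tinjV ?_)
      have := vsub_mem_vectorSpan ℝ (Set.mem_image_of_mem Y.pr m1) (Set.mem_image_of_mem Y.pr m2)
      rw [h, Submodule.mem_bot, vsub_eq_zero_iff_eq] at this
      exact Subset.antisymm (sb _ _ this) (sb _ _ this.symm)
  choose lam h1 h2 using fun a => (key a).1
  have := hCL _ _ Y 1 _ lam (fun a => ⟨h1 a, by rw [h2]; exact (key a).2.1,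
    by rw [h2]; exact (key a).2.2.1⟩) (by
      intro a b h
      simp only [h2] at h
      have eq : TT a = TT b := Finset.ext fun ρ => by
        rw [← (key a).2.2.2, ← (key b).2.2.2, h]
      obtain ⟨σ, i, ⟨e, he⟩, us, s⟩ := a
      obtain ⟨σ', i', ⟨e', he'⟩, us', s'⟩ := b
      obtain ⟨k1, k2, k3⟩ := f1_asm eq
      obtain rfl : s = s' := f1_cell k3
      obtain rfl : σ = σ' := funext fun m => by
        have := Finset.ext_iff.1 k1 (m, σ m)
        simp only [mem_bs, Option.some.injEq, true_iff] at this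
        exact this.symm
      obtain rfl : i = i' := by
        rcases Fin.eq_self_or_eq_succAbove i' i with rfl | ⟨k, rfl⟩
        · rfl
        · have := congrFun k2 (i'.succAbove k)
          simp only [Fin.insertNth_apply_same, Fin.insertNth_apply_succAbove] at this
          exact absurd this ((hSCL W R V Ed Ev G K et ok).neEV e he _)
      obtain rfl : e = e' := ok.tinjE he he' (by simpa using congrFun k2 i)
      obtain rfl : us = us' := funext fun k => ok.tinjV (by simpa using congrFun k2 (i.succAbove k))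
      rfl)
  refine le_trans (le_of_eq ?_) this
  simp only [Fintype.card_prod, Fintype.card_fun, Fintype.card_bool, Fintype.card_fin,
    Fintype.card_coe]
  ring

end Pool.Agent.P.MP_af6acb_co.Fat

/-! Step ASY. -/

namespace Pool.Agent.P.MP_af6acb_co.Fat

open Finset Module
open scoped Classical

theorem p_ASY :
    S_ASY := by
  intro N I E B Rd Ed φ hφ hg
  have h1 : 0 ≤ φ - 1 := by linarith
  have hN : 0 < N := by
    rcases Nat.eq_zero_or_pos N with rfl | h
    · have : 0 ≤ (φ - 1) * ((I : ℝ) * (0 : ℕ) + B * Rd) := by positivity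
      simp only [Nat.cast_zero, mul_zero] at hg this
      linarith
    · exact h
  obtain ⟨g, hgd⟩ : ∃ g : ℝ, g = 2 * E * N - (φ - 1) * ((I : ℝ) * N + B * Rd) := ⟨_, rfl⟩
  have g0 : 0 < g := by linarith
  obtain ⟨A, hA⟩ : ∃ A : ℝ, A = 8 * (φ + 1) * N ^ 2 + (φ - 1) * (54 * Ed * N + 27 * N ^ 2) :=
    ⟨_, rfl⟩
  obtain ⟨t, ht⟩ := exists_nat_gt (A / (8 * g))
  rw [div_lt_iff₀ (by positivity)] at ht
  refine ⟨t + 1, fun C => ?_⟩
  obtain ⟨M, hM⟩ : ∃ M : ℝ, M = (N : ℝ) ^ t := ⟨_, rfl⟩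
  have M0 : 0 < M := by rw [hM]; positivity
  obtain ⟨Z, hZ⟩ : ∃ Z : ℝ, Z = (VZ (t + 1) N I B Rd Ed : ℕ) := ⟨_, rfl⟩
  have hZ' : Z = M * (8 * (t + 2) * I * N + 8 * (t + 1) * (B * Rd) + 54 * Ed * N + 27 * N ^ 2) := by
    rw [hZ, hM, VZ, Nat.add_sub_cancel]; push_cast; ring
  obtain ⟨s, hs⟩ : ∃ s : ℝ, s = 16 * (t + 2) * E * N * M - 8 * (φ + 1) * N ^ 2 * M - (φ - 1) * Z :=
    ⟨_, rfl⟩
  have s0 : 0 < s := by
    have e : s = M * (8 * (t + 2) * g - A + 8 * ((φ - 1) * (B * Rd))) := by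
      rw [hs, hZ', hgd, hA]; ring
    have : 0 ≤ (φ - 1) * ((B : ℝ) * Rd) := by positivity
    rw [e]
    exact mul_pos M0 (by nlinarith)
  obtain ⟨l, hl⟩ := exists_nat_gt ((2 * φ * C + (φ - 1) * Z) / s)
  rw [div_lt_iff₀ s0] at hl
  refine ⟨l + 3, by omega, fun f0 f1 f2 f3 e a0 b0 a1 b3 => ?_⟩
  have c0 : 24 ≤ f0 := by
    have : 1 ≤ N ^ (t + 1 + 1) := Nat.one_le_pow _ _ hN
    nlinarith
  have e' : (f0 : ℝ) + f2 = f1 + f3 := by exact_mod_cast e
  have c0' : (24 : ℝ) ≤ f0 := by exact_mod_cast c0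
  have b0' : (f0 : ℝ) ≤ 8 * N ^ 2 * M * (l + 3) + C := by
    have : (f0 : ℝ) ≤ ((8 * N ^ (t + 1 + 1) * (l + 3) + C : ℕ) : ℝ) := by exact_mod_cast b0
    rw [hM]; push_cast at this; linarith [this, show (8 : ℝ) * N ^ (t + 1 + 1) * (l + 3) =
      8 * N ^ 2 * N ^ t * (l + 3) by ring]
  have a1' : 8 * (t + 2) * E * N * M * (l + 3) ≤ (f1 : ℝ) := by
    have : ((8 * (t + 1 + 1) * E * N ^ (t + 1) * (l + 3) : ℕ) : ℝ) ≤ f1 := by exact_mod_cast a1
    rw [hM]; push_cast at this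
    linarith [this, show (8 : ℝ) * (t + 1 + 1) * E * N ^ (t + 1) * (l + 3) =
      8 * (t + 2) * E * N * N ^ t * (l + 3) by ring]
  have b3' : (f3 : ℝ) ≤ (l + 3 + 1) * Z + C := by
    rw [hZ]; exact_mod_cast b3
  have f30 : (0 : ℝ) ≤ f3 := Nat.cast_nonneg _
  rw [lt_div_iff₀ (by linarith)]
  have k0 := mul_le_mul_of_nonneg_left b0' (show 0 ≤ φ + 1 by linarith)
  have k3 := mul_le_mul_of_nonneg_left b3' h1
  have k : s * (l + 3) = 2 * (8 * (t + 2) * E * N * M * (l + 3)) -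
      (φ + 1) * (8 * N ^ 2 * M * (l + 3)) - (φ - 1) * ((l + 3) * Z) := by rw [hs]; ring
  nlinarith

end Pool.Agent.P.MP_af6acb_co.Fat

/-! Step MAIN. -/

namespace Pool.Agent.P.MP_af6acb_co.Fat

open Finset Module
open scoped Classical

theorem p_MAIN (hEUL : S_EUL) (hPAR : S_PAR) (hPOLY : S_POLY) (hF3 : S_F3) (hF0 : S_F0) (hF0L : S_F0L) (hF1 : S_F1) (hASY : S_ASY) :
    S_MAIN := by
  intro W R V Ed Ev _ _ _ _ _ _ _ G K et φ hG hφ h
  obtain ⟨r, hr⟩ := hASY _ _ _ _ _ (Fintype.card Ed) φ hφ h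
  obtain ⟨l, hl, H⟩ := hr (C0 r (Fintype.card R))
  have hV : Nonempty V := by
    by_contra hn
    have h0 : Fintype.card V = 0 := Fintype.card_eq_zero_iff.2 (not_nonempty_iff.1 hn)
    have h1 : 0 ≤ φ - 1 := by linarith
    have : 0 ≤ (φ - 1) * ((Fintype.card Ev : ℝ) * Fintype.card V + G.Blue.card * G.Red.card) := by
      positivity
    rw [h0] at h this
    simp only [Nat.cast_zero, mul_zero] at h this
    linarith
  obtain ⟨q, hq⟩ := hPAR W R V Ed Ev G K et r l hG hl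
  have hP := hPOLY W R V Ed Ev G K et q r l hG hV hq
  refine ⟨fun k => (numFaces (G.sys q r l).Q k : ℤ), ⟨_, hP, fun _ => rfl⟩, ?_⟩
  have := H _ _ _ _ (hEUL _ hP) (hF0L W R V Ed Ev G K et q r l hG hq)
    (hF0 W R V Ed Ev G K et q r l hG hq) (hF1 W R V Ed Ev G K et q r l hG hq)
    (hF3 W R V Ed Ev G K et q r l hG hq)
  simpa using this

end Pool.Agent.P.MP_af6acb_co.Fat
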