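import Pool.Agent.P.MP_af6acb_co.Fat.IfaceG

set_option linter.unusedSectionVars false

/-! Step PF. -/

namespace Pool.Agent.P.MP_af6acb_co.Fat

open Finset Module
open scoped Classical

lemma pf_pi {k : ℕ} (h0 : 0 < cp k) (h1 : cp k ≤ 1) (n : ℕ) : 0 < piR k n ∧ piR k n ≤ 1 := by
  induction n with
  | zero => simp [piR]
  | succ n ih =>
    rw [piR]
    exact ⟨mul_pos h0 (pow_pos ih.1 2), mul_le_one₀ h1 (sq_nonneg _) (pow_le_one₀ ih.1.le ih.2)⟩

lemma pf_anti {k : ℕ} (h0 : 0 < cp k) (h1 : cp k ≤ 1) : Antitone (piR k) := by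
  refine antitone_nat_of_succ_le fun n => ?_
  obtain ⟨a, b⟩ := pf_pi h0 h1 n
  rw [piR, sq, ← mul_assoc]
  exact mul_le_of_le_one_left a.le (mul_le_one₀ h1 a.le b)

lemma pf_geom (n : ℕ) : ∑ l ∈ range n, (2 : ℝ) ^ l ≤ 2 ^ n := by
  induction n with
  | zero => simp
  | succ n ih => rw [sum_range_succ, pow_succ]; linarith

theorem p_PF :
    S_PF := by
  intro k hk
  have k1 : (1 : ℝ) ≤ k := by exact_mod_cast hk
  have o0 : 0 < om k := by unfold om; positivity
  have o2 : 2 ^ k * om k = 1 := by unfold om; field_simp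
  have o1 : om k ≤ 1 / 2 := by
    unfold om
    exact one_div_le_one_div_of_le (by norm_num) (le_self_pow₀ (by norm_num) (by omega))
  have r1 : 16 ≤ RR k := by
    unfold RR
    have := one_le_pow₀ (n := 3) k1
    linarith
  have w1 : 128 ≤ Wd k := by unfold Wd; linarith
  have w0 : 0 < Wd k := by linarith
  have d0 : 0 < de k := by unfold de; positivity
  have dW : 10 ^ 8 * k * (de k * Wd k) = om k := by unfold de; field_simp
  have dw0 : 0 < de k * Wd k := mul_pos d0 w0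
  have dW' : 10 ^ 8 * (de k * Wd k) ≤ om k := by nlinarith
  have dle : 10 ^ 10 * de k ≤ om k := by nlinarith
  have c0 : 0 < cp k := by unfold cp; positivity
  have cW : 16000 * (cp k * Wd k) = de k * om k ^ 2 := by unfold cp; field_simp
  have do0 : 0 < de k * om k := mul_pos d0 o0
  have cle : 10 ^ 6 * cp k ≤ de k * om k := by nlinarith
  have c1 : cp k ≤ 1 := by nlinarith
  have p0 : ∀ j, 0 < pp k j := fun j => (pf_pi c0 c1 _).1
  have p1 : ∀ j, pp k j ≤ 1 := fun j => (pf_pi c0 c1 _).2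
  have pt : pp k k = 1 := by simp [pp, piR]
  have ps : ∀ j < k, pp k j = ep k (j + 1) * pp k (j + 1) := by
    intro j hj
    rw [ep, pp, show k - j = (k - (j + 1)) + 1 by omega, piR, pp]; ring
  have pm : ∀ i j, i ≤ j → pp k i ≤ pp k j := fun i j h => pf_anti c0 c1 (by omega)
  have sb : ∀ j, ∑ l ∈ range (j + 1), sc k l ≤ pp k j * (2 ^ (j + 1) * om k) := by
    intro j
    refine (sum_le_sum (g := fun l => pp k j * om k * 2 ^ l) fun l hl => ?_).trans ?_
    · have := pm l j (Nat.lt_succ_iff.1 (mem_range.1 hl))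
      have h2 : (0 : ℝ) ≤ 2 ^ l * om k := by positivity
      unfold sc
      nlinarith
    · rw [← mul_sum]
      have := mul_le_mul_of_nonneg_left (pf_geom (j + 1)) (mul_pos (p0 j) o0).le
      linarith
  have A : A0 k ≤ de k := by unfold A0 ga; nlinarith
  have A' : 0 < A0 k := by unfold A0 ga; positivity
  have zeq : 10 ^ 8 * k * ze k = 12 * om k := by unfold ze; linarith
  have r0 : 0 < rh k := by unfold rh; positivity
  have req : 100 * k * rh k = 1 := by unfold rh; field_simp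
  have Keq : de k * om k * Kc k = 1000 * k * Wd k := by unfold Kc; field_simp
  refine ⟨k1, o0, o1, o2, r1, rfl, d0, dW, dW', dle, c0, cW, cle, p0, p1, pt, ps, pm,
    fun j => mul_pos c0 (p0 j), fun j => mul_le_of_le_one_right c0.le (p1 j),
    fun j => mul_pos (mul_pos (p0 j) (by positivity)) o0, ?_, fun j hj => ?_, fun j hj => ?_, ?_,
    mul_pos A' (by linarith), ?_, by unfold ze; positivity, zeq, r0, req, ?_, ?_, ?_⟩
  · rw [sc, pt, one_mul, o2]
  · rw [sc, sc, ps j hj]; ring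
  · refine (sb j).trans (mul_le_of_le_one_right (p0 j).le ?_)
    rw [← o2]
    exact mul_le_mul_of_nonneg_right (pow_le_pow_right₀ (by norm_num) hj) o0.le
  · refine (sb k).trans ?_
    rw [pt, pow_succ]; linarith
  · unfold vr; nlinarith
  · refine le_of_mul_le_mul_left ?_ (show (0 : ℝ) < k by linarith)
    linarith
  · refine le_of_mul_le_mul_left ?_ do0
    rw [Keq]
    have : de k * om k ≤ 1 := by nlinarith
    nlinarith
  · rw [Keq]; nlinarith

end Pool.Agent.P.MP_af6acb_co.Fat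

/-! Step BK. -/

namespace Pool.Agent.P.MP_af6acb_co.Fat

open Finset Module
open scoped Classical

section

variable {k : ℕ} (σ : Fin k → Bool) (J : ℕ)

lemma bk_aff (z z' : ℝ) (n : ℕ) : up σ J z n - up σ J z' n =
    (∏ l ∈ Ioc J (J + n), -sg σ l) * (z - z') / 2 ^ n := by
  induction n with
  | zero => simp [up]
  | succ n ih =>
    rw [← add_assoc, prod_Ioc_succ_top (by omega), up, up, pow_succ]
    linear_combination (-sg σ (J + n + 1) / 2) * ih

lemma bk_split (z : ℝ) (n : ℕ) : up σ 0 z (J + n) = up σ J (up σ 0 z J) n := by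
  induction n with
  | zero => rfl
  | succ n ih => rw [← add_assoc, up, up, ih, zero_add]

lemma bk_abs (l : ℕ) {u : ℝ} (h : u ≤ 1) : |sg σ l * (1 - u) / 2| = (1 - u) / 2 := by
  rw [mul_div_assoc, abs_mul, abs_of_nonneg (a := (1 - u) / 2) (by linarith)]
  rcases sg_cases σ l with e | e <;> simp [e]

lemma bk_bd {z : ℝ} {a : ℕ} (h : |z| ≤ 1 - 1 / 2 ^ a) (n : ℕ) :
    |up σ J z n| ≤ 1 - 1 / 2 ^ (a + n) := by
  induction n with
  | zero => exact h
  | succ n ih =>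
    have p : (0 : ℝ) < 1 / 2 ^ (a + n) := by positivity
    have := abs_le.1 ih
    rw [up, bk_abs σ _ (by linarith), ← add_assoc, pow_succ, ← div_div]
    linarith

lemma bk_dn {z : ℝ} (h : |z| ≤ 1) (n : ℕ) : |dn z n| ≤ 1 := by
  induction n with
  | zero => exact h
  | succ n ih =>
    rw [dn, abs_le]
    constructor <;> linarith [abs_nonneg (dn z n)]

lemma bk_th : |thB σ J| ≤ 1 - om k := by
  refine (bk_bd σ J (a := 0) (by simp) _).trans (sub_le_sub_left ?_ 1)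
  exact one_div_le_one_div_of_le (by positivity) (pow_le_pow_right₀ one_le_two (by omega))

lemma bk_sq : ori σ J * ori σ J = 1 := by rcases ori_cases σ J with e | e <;> simp [e]

end

theorem p_BK (hPF : S_PF) :
    S_BK := by
  intro k hk σ
  have F := hPF k hk
  refine ⟨bk_th σ 0, fun j => ?_⟩
  have jk := j.2
  obtain ⟨ζ, hζ⟩ : ∃ ζ, ζ = -ori σ (j + 1) / (4 * 2 ^ ((j : ℕ) + 1)) := ⟨_, rfl⟩
  have gu : ∀ n, Gb σ (j + 1) (j + 1 + n) = up σ (j + 1) ζ n := fun n => by simp [Gb, hζ]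
  have gd : ∀ l : ℕ, l ≤ j + 1 → Gb σ (j + 1) l = dn ζ (j + 1 - l) := fun l hl => by
    rcases hl.eq_or_lt with rfl | h
    · rw [Nat.sub_self]; exact gu 0
    · rw [Gb, if_neg h.not_ge, hζ]
  have z1 : |ζ| ≤ 1 - 1 / 2 ^ ((j : ℕ) + 1) := by
    have a : |ζ| = 1 / 2 ^ ((j : ℕ) + 1) / 4 := by
      rw [hζ, abs_div, abs_neg, abs_of_pos (a := 4 * _) (by positivity), div_div, mul_comm]
      rcases ori_cases σ (j + 1) with e | e <;> simp [e]
    have b : (1 : ℝ) / 2 ^ ((j : ℕ) + 1) ≤ 1 / 2 := one_div_le_one_div_of_le two_pos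
      (le_self_pow₀ one_le_two (by omega))
    linarith
  have ub := fun n => abs_le.1 (bk_bd σ (j + 1) z1 n)
  have pos : ∀ n : ℕ, (0 : ℝ) < 1 / 2 ^ n := fun n => by positivity
  have ab : ∀ l, |Gb σ (j + 1) l| ≤ 1 := fun l => by
    rcases le_total l (j + 1) with h | h
    · rw [gd l h]; exact bk_dn (by linarith [pos (j + 1)]) _
    · obtain ⟨n, rfl⟩ := Nat.exists_eq_add_of_le h
      rw [gu]; linarith [bk_bd σ (j + 1) z1 n, pos (j + 1 + n)]
  obtain ⟨m, hm⟩ := Nat.exists_eq_add_of_le (show (j : ℕ) + 1 ≤ k from jk)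
  have km : k - (j + 1) = m := by omega
  have om2 : om k = 1 / 2 ^ ((j : ℕ) + 1) / 2 ^ m := by rw [div_div, ← pow_add, ← hm, om]
  have af : ∀ z, up σ (j + 1) z m - thB σ (j + 1) = ori σ (j + 1) * z / 2 ^ m := fun z => by
    rw [thB, km, bk_aff, ← hm, sub_zero, ori]
  have top : Gb σ (j + 1) k = thB σ (j + 1) - om k / 4 := by
    have a := gu m
    rw [← hm] at a
    have b := af ζ
    have c : ori σ (j + 1) * ζ = -(1 / 2 ^ ((j : ℕ) + 1) / 4) := by
      rw [hζ, mul_div_assoc', mul_neg, bk_sq]; ring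
    rw [a, om2]
    rw [c] at b
    linear_combination b
  have ck : ∃ y, om k ≤ y ∧ thB σ 0 - thB σ (j + 1) = ori σ (j + 1) * sgn (σ j) * y := by
    refine ⟨(1 - up σ 0 0 j) / 2 / 2 ^ m, ?_, ?_⟩
    · have := abs_le.1 (bk_bd σ 0 (z := 0) (a := 0) (by simp) j)
      rw [om2, pow_succ, ← div_div 1]
      rw [zero_add] at this
      gcongr
      linarith
    · have a : thB σ 0 = up σ (j + 1) (up σ 0 0 (j + 1)) m := by
        rw [← bk_split, ← hm, thB, Nat.sub_zero]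
      rw [a, af, up, zero_add, sg_fin]
      ring
  obtain ⟨y, y1, y2⟩ := ck
  have P0 : 0 ≤ Pb σ (j + 1) :=
    sum_nonneg fun l _ => mul_nonneg (F.sc_pos _).le (le_max_right _ _)
  have P2 : Pb σ (j + 1) ≤ 2 := by
    have a := F.sc_sum
    rw [sum_range_succ', ← Fin.sum_univ_eq_sum_range (fun l => sc k (l + 1))] at a
    refine (sum_le_sum fun l _ => mul_le_of_le_one_right (F.sc_pos _).le
      (max_le (abs_le.1 (ab _)).2 zero_le_one)).trans ?_
    linarith [F.sc_pos 0]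
  have th := abs_le.1 (bk_th σ (j + 1))
  have dP := mul_le_mul_of_nonneg_left P2 F.de_pos.le
  have dP' := mul_nonneg F.de_pos.le P0
  refine ⟨fun l _ => ?_, ab, ?_, fun l hl => ?_, top, bk_th σ _, fun h => ?_, fun h => ?_, P0, P2,
    ?_, ?_⟩
  · rcases le_or_gt ((j : ℕ) + 1) l with h | h
    · obtain ⟨n, rfl⟩ := Nat.exists_eq_add_of_le h
      rw [add_assoc _ n, gu, gu, up, bk_abs σ _ (by linarith [(ub n).2, pos (j + 1 + n)])]
      ring
    · rw [gd l h.le, gd _ h, show (j : ℕ) + 1 - l = j + 1 - (l + 1) + 1 by omega, dn]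
  · rw [show Gb σ (j + 1) (j + 1) = ζ from gu 0, hζ, sc]
    field_simp
  · obtain ⟨n, hn⟩ := Nat.exists_eq_add_of_le (show (j : ℕ) + 1 ≤ l from hl)
    have a : Gb σ (j + 1) (l + 1) = sgn (σ l) * (1 - up σ (j + 1) ζ n) / 2 := by
      rw [← sg_fin, hn, add_assoc _ n, gu, up, add_assoc _ n]
    have b : sgn (σ l) * sgn (σ l) = 1 := by cases σ l <;> simp [sgn]
    have c : 1 ≤ 2 ^ (l : ℕ) * (1 - up σ (j + 1) ζ n) := by
      rw [← div_le_iff₀' (by positivity), hn]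
      linarith [(ub n).2]
    have d := mul_le_mul_of_nonneg_left c (mul_pos (F.pp_pos (l + 1)) F.om_pos).le
    rw [a, sc, pow_succ]
    linear_combination d - pp k (l + 1) * om k * 2 ^ (l : ℕ) * (1 - up σ (j + 1) ζ n) * b
  · rw [show ori σ (j + 1) * sgn (σ j) = -1 from h] at y2
    linarith
  · have : ori σ (j + 1) * sgn (σ j) = 1 := by
      unfold Cre at h
      revert h
      rcases ori_cases σ (j + 1) with e | e <;> cases σ j <;> simp [e, sgn]
    rw [this] at y2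
    linarith
  · rw [tB, top]
    linarith [F.de_le, F.de_pos, F.om_pos]
  · rw [tB, top]
    linarith [F.om_pos]

end Pool.Agent.P.MP_af6acb_co.Fat

/-! Step LF. -/

namespace Pool.Agent.P.MP_af6acb_co.Fat

open Finset Module
open scoped Classical

variable {k : ℕ}

lemma lf_cY (l : ℕ) (u v : ℝ) : cY k l ((u, v, 0), 0, 0) = 0 := by
  rcases l with _ | n
  · rfl
  · by_cases hn : n < k <;> simp [cY, hn]

lemma lf_r (f : Lf k) {R1 R2 A T : ℝ} (h : ∀ z t, FG k (.inr f) (z, t, 0) =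
    -(R1 * (gad k).x1 z) - R2 * (gad k).x2 z + A * ((gad k).mu z + sc k 0 * t) +
      T * (gad k).nu z) : r1 k f = R1 ∧ r2 k f = R2 := by
  constructor
  · rw [r1, h]; simp [gad_x1, gad_x2, gad_mu, gad_nu, muU_apply, lf_cY]
  · rw [r2, h]; simp [gad_x1, gad_x2, gad_mu, gad_nu, muU_apply, lf_cY]

lemma lf_psi (q : ℝ) (z : WG k) (t : ℝ) : psi k q (z, t, 0) =
    -(q * (gad k).x1 z) - ((gad k).x2 z + de k * (gad k).nu z) := by
  rw [psi_apply, gad_x1, gad_x2, gad_nu]; ring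

/-- The weighted sum of the slopes in the penalty. -/
noncomputable def lfQ (σ : Fin k → Bool) (J : ℕ) : ℝ :=
  ∑ l : Fin k, sc k (l + 1) * max (Gb σ J (l + 1)) 0 * (2 * (l : ℝ) + 2)

lemma lf_Q (h : PF k) (σ : Fin k → Bool) (J : ℕ) :
    0 ≤ lfQ σ J ∧ lfQ σ J ≤ 2 * k * Pb σ J := by
  have h0 : ∀ l : Fin k, 0 ≤ sc k (l + 1) * max (Gb σ J (l + 1)) 0 := fun l =>
    mul_nonneg (h.sc_pos _).le (le_max_right _ _)
  refine ⟨sum_nonneg fun l _ => mul_nonneg (h0 l) (by positivity), ?_⟩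
  rw [lfQ, Pb, mul_sum]
  refine sum_le_sum fun l _ => (mul_comm _ _).trans_le (mul_le_mul_of_nonneg_right ?_ (h0 l))
  have : ((l : ℕ) : ℝ) + 1 ≤ k := by exact_mod_cast l.2
  linarith

lemma lf_pf (hk : 1 ≤ k) (σ : Fin k → Bool) (J : ℕ) (z : WG k) (t : ℝ) : pf σ J (z, t, 0) =
    -(lfQ σ J * (gad k).x1 z) - Pb σ J * ((gad k).x2 z + de k * (gad k).nu z) -
      ((gad k).mu z + sc k 0 * t) - Gb σ J k * (gad k).nu z := by
  rw [pf_apply, muU_split hk, nu_eq hk, lfQ, Pb, sum_mul, sum_mul, ← sum_neg_distrib,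
    ← sum_sub_distrib]
  congr 2
  exact sum_congr rfl fun l _ => by rw [lf_psi]; ring

lemma lf_fc {w d θ P : ℝ} (hw : 0 < w) (hw2 : w ≤ 1 / 2) (hd : 0 < d) (hθ : θ ≤ 1) (hP : 0 ≤ P) :
    (1 - w / 100) * (d / 2 * (θ - w / 2)) + w / 100 * (2 * d) -
      (1 + w / 100) * d / 2 * (1 - w / 32) * (θ - w / 4 + d * P) ≤
        -(2 * ((1 + w / 100) * d / 2 * w / 32)) := by
  have h1 : θ * (-1 / 100 + (1 + w / 100) / 64) - (1 - w / 100) / 4 + 2 / 100 +
      (1 + w / 100) * (1 - w / 32) / 8 + (1 + w / 100) / 32 ≤ 0 := by nlinarith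
  have h2 := mul_nonpos_of_nonneg_of_nonpos (mul_pos hd hw).le h1
  have h3 : 0 ≤ (1 + w / 100) * d / 2 * (1 - w / 32) * (d * P) := by
    have : 0 ≤ 1 - w / 32 := by linarith
    positivity
  linarith

lemma lf_lo {g d θ G P v : ℝ} (hg : 0 ≤ g) (hg1 : g ≤ 1) (hd : 0 < d) (hd1 : d ≤ 1 / 4)
    (hθ : -1 ≤ θ) (hG : G ≤ 1) (hP : P ≤ 2) (hv : 0 ≤ v) (hv1 : v ≤ d) :
    -(2 * d) ≤ (1 - g) * (d / 2 * θ) + g * (2 * d) - v * (G + d * P) := by
  have h1 : G + d * P ≤ 3 / 2 := by nlinarith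
  have h2 := mul_le_mul_of_nonneg_left h1 hv
  have h3 := mul_nonneg (mul_nonneg (sub_nonneg.2 hg1) hd.le) (show 0 ≤ θ + 1 by linarith)
  have h4 := mul_nonneg hg hd.le
  linarith

lemma lf_cvx {g x y e c : ℝ} (hg : 0 ≤ g) (hg1 : g ≤ 1) (hx : 1 ≤ x) (hy : 1 ≤ y) (he : 0 ≤ e)
    (hx' : x + e ≤ c) (hy' : y + e ≤ c) :
    1 ≤ (1 - g) * x + g * y + e ∧ (1 - g) * x + g * y + e ≤ c := by
  constructor <;> nlinarith

theorem p_LF (hPF : S_PF) (hBK : S_BK) :
    S_LF := by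
  intro k hk f
  have P := hPF k hk
  have k1 := P.k1
  have w0 := P.om_pos
  have w1 := P.om_le
  have d0 := P.de_pos
  have d1 : de k ≤ 1 / 100 := by linarith [P.de_le]
  have dw : de k * om k ≤ de k := mul_le_of_le_one_right d0.le (by linarith)
  have dw0 := mul_pos d0 w0
  have fM : ∀ (j : ℕ) z t, sM k j (z, t, 0) = -((2 * j + 1) * (gad k).x1 z) - 1 * (gad k).x2 z +
      de k * ((gad k).mu z + sc k 0 * t) + 2 * de k * (gad k).nu z := fun j z t => by
    rw [sM_apply, lf_psi, muU_split hk, nu_eq hk]; ring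
  rcases leaf_cases f with ⟨j, rfl⟩ | rfl | ⟨σ, j, side, kind, rfl⟩
  · obtain ⟨e1, e2⟩ := lf_r (lM j) (fM j)
    have hj : ((j : ℕ) : ℝ) ≤ k := by exact_mod_cast Nat.lt_succ_iff.1 j.2
    refine ⟨fun z t => by rw [e1, e2]; exact fM j z t, by rw [af_M]; linarith, le_rfl,
      by rw [ta_M, abs_of_pos (by linarith)], ?_, by rw [e2]; norm_num, fun _ => e2.ge,
      fun _ _ => e2, fun h => (lM_ne_lB h).elim, fun _ _ _ h => (lM_ne_lF h).elim⟩
    rw [e1, abs_of_pos (by positivity)]; linarith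
  · have fB : ∀ z t, FG k (.inr (lB k)) (z, t, 0) = -(-((k + 1) / 4) * (gad k).x1 z) -
        -(1 / 4) * (gad k).x2 z + de k * ((gad k).mu z + sc k 0 * t) +
          -(2 * de k) * (gad k).nu z := fun z t => by
      rw [FG_B, sB_apply, bet_apply, lf_psi, lf_psi, muU_split hk, nu_eq hk]; ring
    obtain ⟨e1, e2⟩ := lf_r (lB k) fB
    refine ⟨fun z t => by rw [e1, e2]; exact fB z t, by rw [af_B]; linarith, le_rfl,
      by rw [ta_B, abs_neg, abs_of_pos (by linarith)], ?_, by rw [e2]; norm_num [abs_of_pos],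
      fun h => (h rfl).elim, fun _ h => (lB_ne_lM h).elim, fun _ => e2,
      fun _ _ _ h => (lB_ne_lF h).elim⟩
    rw [e1, abs_neg, abs_of_pos (by positivity)]; linarith
  have B := (hBK k hk σ).2 j
  obtain ⟨q0, q1⟩ := lf_Q P σ (j + 1)
  have p0 := B.Pb_ge
  have p1 := B.Pb_le
  have t0 := B.tB_ge
  have t1 := B.tB_le
  obtain ⟨th0, th1⟩ := abs_le.1 B.th_le
  have hj : ((j : ℕ) : ℝ) + 1 ≤ k := by exact_mod_cast j.2
  have hj0 : (0 : ℝ) ≤ (j : ℕ) := Nat.cast_nonneg _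
  have hi : ((j + side.toNat : ℕ) : ℝ) ≤ k := by
    have := j.2
    have := side.toNat_le
    exact_mod_cast (by omega : j + side.toNat ≤ k)
  have hi0 : (0 : ℝ) ≤ (j + side.toNat : ℕ) := Nat.cast_nonneg _
  have q2 : lfQ σ (j + 1) ≤ 4 * k := by nlinarith only [q1, p1, k1]
  have dq : de k * lfQ σ (j + 1) ≤ k := by nlinarith only [q2, q0, d1, k1]
  have dq0 := mul_nonneg d0.le q0
  have dp : de k * Pb σ (j + 1) ≤ 1 / 50 := by nlinarith only [p0, p1, d1]
  have dp0 := mul_nonneg d0.le p0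
  have tj : tB σ (j + 1) * (2 * (j : ℕ) + 2) ≤ 6 * k := by nlinarith only [t1, hj, hj0]
  have tj0 : 0 ≤ tB σ (j + 1) * (2 * (j : ℕ) + 2) := by positivity
  have fL : ∀ z t, sFL σ j side (z, t, 0) = -((2 * (j + side.toNat : ℕ) + 1 +
      tB σ (j + 1) * (2 * (j : ℕ) + 2) + de k / 2 * lfQ σ (j + 1)) * (gad k).x1 z) -
      (1 + tB σ (j + 1) + de k / 2 * Pb σ (j + 1)) * (gad k).x2 z +
      de k / 2 * ((gad k).mu z + sc k 0 * t) +
      de k / 2 * (thB σ (j + 1) - om k / 2) * (gad k).nu z := fun z t => by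
    rw [sFL_apply, fM, lf_psi, lf_pf hk, tB]; ring
  cases kind
  · obtain ⟨e1, e2⟩ := lf_r (lF σ j side false) (by simpa only [FG_FL] using fL)
    refine ⟨fun z t => by rw [e1, e2, FG_FL, af_FL, ta_FL]; exact fL z t,
      by rw [af_FL]; linarith, by rw [af_FL]; linarith, ?_, ?_, ?_, fun _ => by rw [e2]; linarith,
      fun _ h => (lF_ne_lM h).elim, fun h => (lF_ne_lB h).elim,
      fun _ _ _ h => by simp [lF_eq_iff] at h⟩
    · rw [ta_FL, abs_le]; constructor <;> nlinarith only [d0, th0, th1, w0, w1]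
    · rw [e1, abs_le]; constructor <;> linarith
    · rw [e2, abs_le]; constructor <;> linarith
  have fC : ∀ z t, FG k (.inr (lF σ j side true)) (z, t, 0) = -(((1 - ga k) *
      (2 * (j + side.toNat : ℕ) + 1 + tB σ (j + 1) * (2 * (j : ℕ) + 2) + de k / 2 * lfQ σ (j + 1)) +
        ga k * (2 * (j + side.toNat : ℕ) + 1) + vr k * lfQ σ (j + 1)) * (gad k).x1 z) -
      ((1 - ga k) * (1 + tB σ (j + 1) + de k / 2 * Pb σ (j + 1)) + ga k * 1 +
        vr k * Pb σ (j + 1)) * (gad k).x2 z +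
      af k (lF σ j side true) * ((gad k).mu z + sc k 0 * t) +
      ta k (lF σ j side true) * (gad k).nu z := fun z t => by
    rw [FG_Fc, sFc_apply, fL, fM, lf_pf hk, af_Fc, ta_Fc, vr, A0]; ring
  obtain ⟨e1, e2⟩ := lf_r _ fC
  have g0 : 0 ≤ ga k := by rw [ga]; linarith
  have g1 : ga k ≤ 1 := by rw [ga]; linarith
  have v0 := P.vr_pos.le
  have vq := mul_le_mul_of_nonneg_right P.vr_le q0
  have vp := mul_le_mul_of_nonneg_right P.vr_le p0
  have a0 : de k * om k / 64 ≤ af k (lF σ j side true) := by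
    rw [af_Fc, A0]; linarith only [mul_nonneg g0 dw0.le]
  have hfc : ta k (lF σ j side true) ≤ -(2 * af k (lF σ j side true)) := by
    rw [ta_Fc, af_Fc, B.top, vr, A0, ga]
    exact lf_fc w0 w1 d0 (by linarith) p0
  have c1 := lf_cvx (c := 15 * k) g0 g1 (show (1 : ℝ) ≤ 2 * (j + side.toNat : ℕ) + 1 +
    tB σ (j + 1) * (2 * (j : ℕ) + 2) + de k / 2 * lfQ σ (j + 1) by linarith)
    (show (1 : ℝ) ≤ 2 * (j + side.toNat : ℕ) + 1 by linarith) (mul_nonneg v0 q0)
    (by linarith) (by linarith)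
  have c2 := lf_cvx (c := 5) g0 g1 (show 1 ≤ 1 + tB σ (j + 1) + de k / 2 * Pb σ (j + 1) by linarith)
    le_rfl (mul_nonneg v0 p0) (by linarith) (by linarith)
  rw [← e1] at c1
  rw [← e2] at c2
  refine ⟨fun z t => by rw [e1, e2]; exact fC z t, a0, ?_,
    abs_le.2 ⟨?_, by linarith only [hfc, a0, dw0, d0]⟩,
    abs_le.2 ⟨by linarith only [c1.1, k1], c1.2⟩, abs_le.2 ⟨by linarith only [c2.1], c2.2⟩,
    fun _ => c2.1,
    fun _ h => (lF_ne_lM h).elim, fun h => (lF_ne_lB h).elim, fun _ _ _ _ => hfc⟩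
  · rw [af_Fc, A0]; linarith only [mul_le_mul_of_nonneg_right g1 dw0.le, dw, d0]
  · rw [ta_Fc]
    exact lf_lo g0 g1 d0 (by linarith only [d1]) (by linarith only [th0, w0])
      (abs_le.1 (B.abs_le k)).2 p1 v0 P.vr_le

end Pool.Agent.P.MP_af6acb_co.Fat

/-! Step BOX. -/

namespace Pool.Agent.P.MP_af6acb_co.Fat

open Finset Module
open scoped Classical

lemma box_core {k q a b c P : ℝ} (hk : 1 ≤ k) (q1 : 1 ≤ q) (q2 : q ≤ 2 * k + 1)
    (e : 2 * k * c = (2 * k + 1 - q) * a + (q - 1) * b - k * ((q - 1) * (2 * k + 1 - q)))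
    (ha : |a| ≤ P) (hb : |b| ≤ P) : |c| ≤ P + k ^ 2 / 2 := by
  obtain ⟨a1, a2⟩ := abs_le.1 ha
  obtain ⟨b1, b2⟩ := abs_le.1 hb
  have u1 : 0 ≤ 2 * k + 1 - q := by linarith
  have u2 : 0 ≤ q - 1 := by linarith
  have h1 := mul_le_mul_of_nonneg_left a1 u1
  have h2 := mul_le_mul_of_nonneg_left a2 u1
  have h3 := mul_le_mul_of_nonneg_left b1 u2
  have h4 := mul_le_mul_of_nonneg_left b2 u2
  have k0 : 0 < 2 * k := by linarith
  have h5 : 0 ≤ k * ((q - 1) * (2 * k + 1 - q)) := mul_nonneg (by linarith) (mul_nonneg u2 u1)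
  have h6 : k * ((q - 1) * (2 * k + 1 - q)) ≤ k * k ^ 2 :=
    mul_le_mul_of_nonneg_left (by nlinarith [sq_nonneg (q - 1 - k)]) (by linarith)
  have h7 : 0 ≤ k * k ^ 2 := h5.trans h6
  rw [abs_le]
  constructor
  · refine le_of_mul_le_mul_left ?_ k0
    rw [e]
    linarith
  · refine le_of_mul_le_mul_left ?_ k0
    rw [e]
    linarith

lemma box_psi {k : ℕ} (hk : (1 : ℝ) ≤ k) {p : UG k} (h1 : p.2.2 = 1) {P : ℝ}
    (ha : |psi k 1 p| ≤ P) (hb : |psi k (2 * k + 1) p| ≤ P) (j : Fin k) :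
    |psi k (2 * (j : ℝ) + 2) p| ≤ P + (k : ℝ) ^ 2 / 2 := by
  have j0 : (0 : ℝ) ≤ (j : ℕ) := Nat.cast_nonneg _
  have j1 : ((j : ℕ) : ℝ) + 1 ≤ k := by exact_mod_cast j.2
  refine box_core hk (q := 2 * (j : ℝ) + 2) (by linarith) (by linarith) ?_ ha hb
  simp only [psi_apply, h1]
  ring

lemma box_y {k : ℕ} {p : UG k} {B : ℝ} (h0 : |p.2.1| ≤ 2 * B)
    (h : ∀ j : Fin k, |cY k (j + 1) p| ≤ B + |cY k j p| / 2) (l : ℕ) : |cY k l p| ≤ 2 * B := by
  induction l with
  | zero => exact h0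
  | succ l ih =>
    by_cases hl : l < k
    · have := h ⟨l, hl⟩
      simp only at this
      linarith
    · rw [cY_big (by omega), abs_zero]
      exact (abs_nonneg _).trans h0

lemma box_mu {k : ℕ} (F : PF k) {p : UG k} {Y : ℝ} (h : ∀ l, |cY k l p| ≤ Y) :
    |muU k p| ≤ 2 * Y := by
  have Y0 : 0 ≤ Y := (abs_nonneg _).trans (h 0)
  rw [muU_apply]
  refine (abs_sum_le_sum_abs _ _).trans ?_
  have h1 := F.sc_sum
  rw [sum_range_succ] at h1
  calc _ ≤ ∑ l ∈ range k, sc k l * Y := sum_le_sum fun l _ => by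
        rw [abs_mul, abs_of_pos (F.sc_pos l)]
        exact mul_le_mul_of_nonneg_left (h l) (F.sc_pos l).le
    _ = (∑ l ∈ range k, sc k l) * Y := (sum_mul _ _ _).symm
    _ ≤ 2 * Y := mul_le_mul_of_nonneg_right (by linarith [F.sc_pos k]) Y0

lemma box_ep {k : ℕ} (F : PF k) (l : ℕ) (y : ℝ) : |ep k l * y| ≤ |y| / 2 := by
  have h1 := F.ep_le l
  have h2 := F.cp_le
  have h3 : de k * om k ≤ de k * 1 :=
    mul_le_mul_of_nonneg_left (by linarith [F.om_le]) F.de_pos.le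
  have h4 : ep k l ≤ 1 / 2 := by linarith [F.de_le, F.om_le]
  rw [abs_mul, abs_of_pos (F.ep_pos l)]
  linarith [mul_le_mul_of_nonneg_right h4 (abs_nonneg y)]

lemma box_R {k : ℕ} (F : PF k) : (k : ℝ) ^ 2 + 1 ≤ RR k := by
  have h := F.k1
  have h1 : 1 ≤ (k : ℝ) ^ 2 := one_le_pow₀ h
  have h2 : (k : ℝ) ^ 2 * 1 ≤ (k : ℝ) ^ 2 * k := mul_le_mul_of_nonneg_left h (by positivity)
  unfold RR
  linarith

lemma box_mk {k : ℕ} (F : PF k) {p : UG k} (hp : Adm p) (ha : |psi k 1 p| ≤ 3 * RR k)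
    (hb : |psi k (2 * k + 1) p| ≤ 3 * RR k)
    (h : ∀ j : Fin k, |cY k (j + 1) p| ≤ |psi k (2 * (j : ℝ) + 2) p| + |cY k j p| / 2) :
    Box p := by
  refine ⟨hp.1, hp.2, ha, hb, fun l => ?_⟩
  have := box_y (p := p) (B := 4 * RR k) (by linarith [hp.2, F.R_ge]) (fun j => by
    linarith [h j, box_psi F.k1 hp.1 ha hb j, box_R F, sq_nonneg (k : ℝ)]) l
  linarith [F.W_eq]

lemma box_end {a b d m y R s P : ℝ} (d0 : 0 < d) (d1 : 10 ^ 10 * d ≤ 1) (s0 : 0 ≤ s) (hs : s ≤ R)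
    (hP : P = max |a| |b|) (hm : |m| ≤ 2 * (2 * P + s)) (hy : |y| ≤ 2 * P + s)
    (h1 : 0 ≤ a + d * m + 3 * d * y) (h2 : 0 ≤ b + d * m + 3 * d * y)
    (h3 : 0 ≤ (R - (a + b) / 2) / 4 + d * m - 9 * d / 4 * y) : P ≤ 3 * R := by
  have P0 : 0 ≤ P := hP ▸ le_max_of_le_left (abs_nonneg a)
  have m2 := mul_le_mul_of_nonneg_left (abs_le.1 hm).2 d0.le
  have y1 := mul_le_mul_of_nonneg_left (abs_le.1 hy).1 d0.le
  have y2 := mul_le_mul_of_nonneg_left (abs_le.1 hy).2 d0.le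
  have p1 := mul_le_mul_of_nonneg_right d1 P0
  have p2 := mul_le_mul_of_nonneg_right d1 s0
  have p3 := mul_nonneg d0.le P0
  have p4 := mul_nonneg d0.le s0
  have : P ≤ 2 * R + 39 * (d * (2 * P + s)) := by
    rw [hP, max_le_iff, abs_le, abs_le, ← hP]
    refine ⟨⟨?_, ?_⟩, ?_, ?_⟩ <;> linarith
  linarith

theorem p_BOX (hPF : S_PF) :
    S_BOX := by
  intro k hk p
  have F := hPF k hk
  refine ⟨fun hp hf => ?_, fun σ ht hp ha hb => box_mk F hp ha hb fun j => ?_, fun hB => ?_⟩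
  · have h : ∀ j : Fin k, |cY k (j + 1) p| ≤ |psi k (2 * (j : ℝ) + 2) p| + |cY k j p| / 2 :=
      fun j => by
        have h1 : 0 ≤ sL j p := hf (.inl (j, false))
        have h2 : 0 ≤ sU j p := hf (.inl (j, true))
        rw [sL_apply] at h1
        rw [sU_apply] at h2
        have h3 := abs_le.1 (box_ep F (j + 1) (cY k j p))
        have h4 := le_abs_self (psi k (2 * (j : ℝ) + 2) p)
        have h5 := abs_nonneg (psi k (2 * (j : ℝ) + 2) p)
        rw [abs_le]
        constructor <;> linarith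
    obtain ⟨P, hP⟩ : ∃ P, P = max |psi k 1 p| |psi k (2 * k + 1) p| := ⟨_, rfl⟩
    have ha : |psi k 1 p| ≤ P := hP ▸ le_max_left _ _
    have hb : |psi k (2 * k + 1) p| ≤ P := hP ▸ le_max_right _ _
    have k2 := sq_nonneg (k : ℝ)
    have hy : ∀ l, |cY k l p| ≤ 2 * P + ((k : ℝ) ^ 2 + 1) := fun l => by
      have := box_y (p := p) (B := P + ((k : ℝ) ^ 2 + 1) / 2)
        (by linarith [hp.2, abs_nonneg (psi k 1 p)]) (fun j => by
          linarith [h j, box_psi F.k1 hp.1 ha hb j]) l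
      linarith
    have h1 : 0 ≤ sM k (0 : Fin (k + 1)) p := hf (.inr (lM 0))
    have h2 : 0 ≤ sM k (Fin.last k) p := hf (.inr (lM (Fin.last k)))
    have h3 : 0 ≤ sB k p := hf (.inr (lB k))
    rw [sM_apply] at h1 h2
    rw [sB_apply, bet_apply, hp.1, mul_one] at h3
    simp only [Fin.val_zero, Nat.cast_zero, mul_zero, zero_add] at h1
    rw [Fin.val_last] at h2
    have := box_end F.de_pos (by linarith [F.de_le, F.om_le]) (by linarith) (box_R F) hP
      (box_mu F hy) (hy k) h1 h2 h3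
    exact box_mk F hp (ha.trans this) (hb.trans this) h
  · have h0 := tt_reg.1 ht j
    have h3 := abs_le.1 (box_ep F (j + 1) (cY k j p))
    have h4 := abs_le.1 (le_refl |psi k (2 * (j : ℝ) + 2) p|)
    have h5 := abs_nonneg (psi k (2 * (j : ℝ) + 2) p)
    rw [abs_le]
    cases e : σ j
    · rw [e, FG_L, sL_apply] at h0
      constructor <;> linarith
    · rw [e, FG_U, sU_apply] at h0
      constructor <;> linarith
  · obtain ⟨z, t, h⟩ := p
    have a := abs_le.1 hB.ps1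
    have b := abs_le.1 hB.ps2
    have h1 : h = 1 := hB.h1
    subst h1
    simp only [psi_apply] at a b
    have k1 := F.k1
    have R1 := box_R F
    have R2 := F.R_ge
    have W1 := F.W_eq
    have K1 := F.K_W
    have kR : 1 * RR k ≤ k * RR k := mul_le_mul_of_nonneg_right k1 (by linarith)
    have R3 : 2 * (k : ℝ) ≤ RR k := by nlinarith [sq_nonneg ((k : ℝ) - 1)]
    have kk : k * (2 * (k : ℝ)) ≤ k * RR k := mul_le_mul_of_nonneg_left R3 (by linarith)
    have kk' : (k : ℝ) * 1 ≤ k * k := mul_le_mul_of_nonneg_left k1 (by linarith)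
    have x1 : |z.1| ≤ 4 * RR k := by
      have k0 : (0 : ℝ) < 2 * k := by linarith
      rw [abs_le]
      constructor <;> refine le_of_mul_le_mul_left ?_ k0 <;> linarith
    have x2 : |z.2.1| ≤ 8 * RR k := by
      have := abs_le.1 x1
      rw [abs_le]
      constructor <;> linarith
    have y0 : ∀ l, |cY k l (z, 0, 0)| ≤ Wd k := fun l => by
      have := hB.y l
      rw [cY_split] at this
      split_ifs at this with e
      · subst e
        simp only [cY_zero, abs_zero]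
        linarith
      · rwa [add_zero] at this
    refine ⟨?_, by rw [gad_x1]; linarith, ?_, ?_, by rw [gad_nu]; linarith [y0 k]⟩
    · rw [Prod.norm_def, Prod.norm_def, Real.norm_eq_abs, Real.norm_eq_abs]
      refine max_le (by linarith) (max_le (by linarith) ?_)
      refine (pi_norm_le_iff_of_nonneg (by linarith)).2 fun j => ?_
      have := y0 (j + 1)
      rw [cY_fin] at this
      rw [Real.norm_eq_abs]
      linarith
    · rw [gad_x2]
      refine (abs_sub _ _).trans ?_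
      have d1 : de k ≤ 1 := by linarith [F.de_le, F.om_le, F.de_pos]
      have := mul_le_mul d1 (y0 k) (abs_nonneg _) zero_le_one
      rw [abs_mul, abs_of_pos F.de_pos]
      linarith
    · rw [gad_mu]
      linarith [box_mu F y0]

end Pool.Agent.P.MP_af6acb_co.Fat
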