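import Pool.Agent.P.MP_af6acb_co.Fat.IfaceG

set_option linter.unusedSectionVars false

/-! Step NEAR. -/

namespace Pool.Agent.P.MP_af6acb_co.Fat

open Finset Module
open scoped Classical

lemma near_psq {k q x y R : ℝ} (hk : 1 ≤ k) (hR : R = 16 * k ^ 3) (h1 : 1 ≤ q) (h2 : q ≤ 2 * k + 1)
    (a1 : |1 ^ 2 / 2 * 1 - 1 * x - y| ≤ 3 * R)
    (a2 : |(2 * k + 1) ^ 2 / 2 * 1 - (2 * k + 1) * x - y| ≤ 3 * R) :
    |q ^ 2 / 2 * 1 - q * x - y| ≤ 4 * R := by
  obtain ⟨b1, b2⟩ := abs_le.1 a1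
  obtain ⟨b3, b4⟩ := abs_le.1 a2
  have u0 : 0 ≤ q - 1 := by linarith
  have v0 : 0 ≤ 2 * k + 1 - q := by linarith
  have e : 2 * k * (q ^ 2 / 2 * 1 - q * x - y) =
      (2 * k + 1 - q) * (1 ^ 2 / 2 * 1 - 1 * x - y) +
      (q - 1) * ((2 * k + 1) ^ 2 / 2 * 1 - (2 * k + 1) * x - y) -
      k * ((q - 1) * (2 * k + 1 - q)) := by ring
  have c0 : 0 ≤ (q - 1) * (2 * k + 1 - q) := mul_nonneg u0 v0
  have c1 : (q - 1) * (2 * k + 1 - q) ≤ 2 * R := by
    have : k ^ 2 ≤ k ^ 3 := pow_le_pow_right₀ hk (by norm_num)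
    nlinarith [sq_nonneg (q - 1 - k)]
  have d1 := mul_le_mul_of_nonneg_left b1 v0
  have d2 := mul_le_mul_of_nonneg_left b2 v0
  have d3 := mul_le_mul_of_nonneg_left b3 u0
  have d4 := mul_le_mul_of_nonneg_left b4 u0
  have k0 : 0 < 2 * k := by linarith
  have d5 := mul_le_mul_of_nonneg_left c1 (show 0 ≤ k by linarith)
  have d6 := mul_nonneg (show 0 ≤ k by linarith) c0
  have R0 : 0 ≤ k * R := by rw [hR]; positivity
  rw [abs_le]
  constructor
  · refine le_of_mul_le_mul_left ?_ k0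
    rw [e]; linarith
  · refine le_of_mul_le_mul_left ?_ k0
    rw [e]; linarith

lemma near_mul {a b x W : ℝ} (h0 : 0 ≤ a) (h1 : a ≤ b) (hx : |x| ≤ W) : |a * x| ≤ b * W := by
  rw [abs_mul, abs_of_nonneg h0]
  exact mul_le_mul h1 hx (abs_nonneg _) (h0.trans h1)

theorem p_NEAR (hPF : S_PF) (hBK : S_BK) :
    S_NEAR := by
  intro k hk p hp
  have P := hPF k hk
  have hW : 128 ≤ Wd k := by rw [P.W_eq]; linarith [P.R_ge]
  have d0 := P.de_pos
  have o0 := P.om_pos
  have o1 := P.om_le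
  have d1 : de k ≤ 1 := by linarith [P.de_le]
  have hz : ze k = 12 * (de k * Wd k) := by rw [ze]; ring
  have dW : 128 * de k ≤ de k * Wd k := by nlinarith
  have do1 : de k * om k ≤ de k := mul_le_of_le_one_right d0.le (by linarith)
  have hep : ∀ j, ep k j ≤ de k / 2 := fun j => by linarith [P.ep_le j, P.cp_le]
  have psq : ∀ q : ℝ, 1 ≤ q → q ≤ 2 * k + 1 → |psi k q p| ≤ 4 * RR k := fun q h1 h2 => by
    have a1 := hp.ps1
    have a2 := hp.ps2
    rw [psi_apply, hp.h1] at a1 a2 ⊢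
    exact near_psq P.k1 rfl h1 h2 a1 a2
  have pse : ∀ j : Fin k, |psi k (2 * (j : ℝ) + 2) p| ≤ 4 * RR k := fun j => by
    have h1 : ((j : ℕ) : ℝ) + 1 ≤ k := by exact_mod_cast j.2
    exact psq _ (by linarith [Nat.cast_nonneg (α := ℝ) j]) (by linarith)
  have hmu : |muU k p| ≤ Wd k := by
    rw [muU_apply]
    refine (abs_sum_le_sum_abs _ _).trans ((sum_le_sum fun l _ =>
      near_mul (P.sc_pos l).le le_rfl (hp.y l)).trans ?_)
    rw [← sum_mul]
    refine mul_le_of_le_one_left (by linarith) ?_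
    have := P.sc_sum
    rw [sum_range_succ, P.sc_top] at this
    linarith
  have m1 := abs_le.1 (near_mul d0.le le_rfl hmu)
  have m2 := abs_le.1 (near_mul d0.le le_rfl (hp.y k))
  have hM : ∀ j : ℕ, |sM k j p - psi k (2 * (j : ℝ) + 1) p| ≤ 4 * (de k * Wd k) := fun j => by
    rw [sM_apply, abs_le]
    constructor <;> linarith [m1.1, m1.2, m2.1, m2.2]
  have hy : ∀ j l, |ep k j * cY k l p| ≤ de k / 2 * Wd k := fun j l =>
    near_mul (P.ep_pos j).le (hep j) (hp.y l)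
  have dW1 : de k * Wd k ≤ Wd k := mul_le_of_le_one_left (by linarith) d1
  have hpf : ∀ σ (j : Fin k), |pf σ (j + 1) p| ≤ 3 * Wd k := fun σ j => by
    have B := (hBK k hk σ).2 j
    have h1 : |∑ l : Fin k, sc k (l + 1) * max (Gb σ (j + 1) (l + 1)) 0 *
        psi k (2 * (l : ℝ) + 2) p| ≤ Wd k := by
      refine (abs_sum_le_sum_abs _ _).trans ((sum_le_sum fun l _ => near_mul
        (mul_nonneg (P.sc_pos _).le (le_max_right _ _)) le_rfl (pse l)).trans ?_)
      rw [← sum_mul, P.W_eq]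
      have h2 : Pb σ (j + 1) ≤ 2 := B.Pb_le
      unfold Pb at h2
      nlinarith [P.R_ge]
    have h2 : |Gb σ (j + 1) k * cY k k p| ≤ Wd k := by
      rw [abs_mul]
      exact (mul_le_mul (B.abs_le k) (hp.y k) (abs_nonneg _) zero_le_one).trans_eq (one_mul _)
    obtain ⟨h3, h4⟩ := abs_le.1 h1
    obtain ⟨h5, h6⟩ := abs_le.1 h2
    obtain ⟨h7, h8⟩ := abs_le.1 hmu
    rw [pf_apply, abs_le]
    constructor <;> linarith
  have hD1 : ∀ j, 0 ≤ D1 k j ∧ D1 k j ≤ de k := fun j => by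
    have h1 := P.pp_pos j
    have h2 := mul_le_of_le_one_right (mul_pos d0 o0).le (P.pp_le j)
    unfold D1
    exact ⟨by positivity, by linarith⟩
  have hD2 : ∀ j, 0 ≤ D2 k j ∧ D2 k j ≤ de k := fun j => by
    have h1 := P.pp_pos j
    have h2 := P.vr_pos
    have h3 := (hD1 j).1
    have h4 : vr k * pp k j ≤ 1 := mul_le_one₀ (P.vr_le.trans d1) h1.le (P.pp_le j)
    have h5 : vr k * pp k j * (om k / 4) ≤ 1 := mul_le_one₀ h4 (by positivity) (by linarith)
    have h6 := mul_le_of_le_one_left h3 h5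
    unfold D2
    exact ⟨by positivity, by linarith [(hD1 j).2]⟩
  have hFL : ∀ σ (j : Fin k) side, |sFL σ j side p - (psi k (2 * (cm j side : ℝ) + 1) p +
      tB σ (j + 1) * psi k (2 * (j : ℝ) + 2) p)| ≤ 6 * (de k * Wd k) := fun σ j side => by
    obtain ⟨h1, h2⟩ := abs_le.1 (hM (j + side.toNat))
    obtain ⟨h3, h4⟩ := abs_le.1 (near_mul (show 0 ≤ de k / 2 by linarith) le_rfl (hpf σ j))
    obtain ⟨h5, h6⟩ := hD1 (j + 1)
    rw [sFL_apply, hp.h1, cm_val, abs_le]
    constructor <;> linarith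
  have g0 : 0 ≤ ga k := by unfold ga; positivity
  have g1 : ga k ≤ 1 := by unfold ga; linarith
  refine ⟨psq, ?_, fun j => (hM j).trans (by linarith), ?_, fun j => ?_,
    fun σ j side => (hFL σ j side).trans (by linarith), fun σ j side => ?_⟩
  · rintro ⟨j, b⟩
    obtain ⟨h1, h2⟩ := abs_le.1 (hy (j + 1) j)
    obtain ⟨h3, h4⟩ := abs_le.1 (hp.y (j + 1))
    obtain ⟨h5, h6⟩ := abs_le.1 (pse j)
    have h7 := P.W_eq
    cases b
    · rw [FG_L, sL_apply, abs_le]
      constructor <;> linarith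
    · rw [FG_U, sU_apply, abs_le]
      constructor <;> linarith
  · rw [sB_apply, abs_le]
    constructor <;> linarith [m1.1, m1.2, m2.1, m2.2]
  · obtain ⟨h1, h2⟩ := abs_le.1 (hy (j + 1) j)
    obtain ⟨h3, h4⟩ := abs_le.1 (near_mul (P.ep_pos (j + 1)).le le_rfl (hp.y j))
    rw [sL_apply, sU_apply, abs_le, abs_le]
    refine ⟨⟨?_, ?_⟩, ?_, ?_⟩ <;> linarith
  · obtain ⟨h1, h2⟩ := abs_le.1 (near_mul (sub_nonneg.2 g1) (sub_le_self 1 g0) (hFL σ j side))
    obtain ⟨h3, h4⟩ := abs_le.1 (near_mul g0 (show ga k ≤ 1 / 4 by unfold ga; linarith)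
      (hM (j + side.toNat)))
    obtain ⟨h5, h6⟩ := abs_le.1 (near_mul P.vr_pos.le P.vr_le (hpf σ j))
    obtain ⟨h7, h8⟩ := hD2 (j + 1)
    rw [cm_val] at h1 h2
    rw [sFc_apply, hp.h1, cm_val, abs_le]
    constructor <;> linarith

end Pool.Agent.P.MP_af6acb_co.Fat

/-! Step MAC. -/

namespace Pool.Agent.P.MP_af6acb_co.Fat

open Finset Module
open scoped Classical

/-- A tangent in terms of two neighbouring tangents. -/
theorem mac_adj {a b o e y η K : ℝ} (hs : e = o + 1 ∨ e = o - 1) (hu : |o ^ 2 / 2 * 1 - o * a - b| ≤ η)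
    (hv : |e ^ 2 / 2 * 1 - e * a - b| ≤ η) (hy : |y - o| ≤ 2 * K) :
    |y ^ 2 / 2 * 1 - y * a - b - (y - o) * (y - e) / 2| ≤ (4 * K + 1) * η := by
  have h1 : |(y - o) * ((e ^ 2 / 2 * 1 - e * a - b) - (o ^ 2 / 2 * 1 - o * a - b))| ≤
      2 * K * (η + η) := by
    rw [abs_mul]
    exact mul_le_mul hy ((abs_sub _ _).trans (add_le_add hv hu)) (abs_nonneg _)
      ((abs_nonneg _).trans hy)
  rw [abs_le] at h1 hu ⊢
  rcases hs with rfl | rfl <;> constructor <;> linarith [h1.1, h1.2, hu.1, hu.2]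

/-- A tangent in terms of the two extreme tangents. -/
theorem mac_end {a b y K η u f w : ℝ} (hK : 1 ≤ K) (hη : 100 * K * η = 1) (hu : |u| ≤ η)
    (hf : 32 * K ^ 3 - 9 * η ≤ f) (h1 : 1 ≤ w) (h2 : w ≤ 2 * K)
    (h : 2 * K * (y ^ 2 / 2 * 1 - y * a - b) = (2 * K - w) * u + w * f - K * (w * (2 * K - w))) :
    9 / 10 < y ^ 2 / 2 * 1 - y * a - b := by
  have η0 : 0 ≤ η := (abs_nonneg _).trans hu
  have a0 : η ≤ K * η := le_mul_of_one_le_left η0 hK
  have k2 : K ≤ K ^ 3 := le_self_pow₀ hK (by norm_num)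
  have a1 : -(2 * K * η) ≤ (2 * K - w) * u := by
    have := mul_le_mul_of_nonneg_left (abs_le.1 hu).1 (show 0 ≤ 2 * K - w by linarith)
    have := mul_nonneg (show 0 ≤ w by linarith) η0
    linarith
  have a2 : f ≤ w * f := le_mul_of_one_le_left (by linarith) h1
  have a3 : K * (w * (2 * K - w)) ≤ K ^ 3 := by
    have := mul_nonneg (show 0 ≤ K by linarith) (sq_nonneg (K - w))
    linarith
  refine lt_of_mul_lt_mul_left (a := 2 * K) ?_ (by linarith)
  linarith

theorem mac_int {y o e : ℤ} (hs : e = o + 1 ∨ e = o - 1) (h1 : y ≠ o) (h2 : y ≠ e) :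
    (2 : ℝ) ≤ (y - o) * (y - e) := by
  have : 2 ≤ (y - o) * (y - e) := by
    rcases hs with rfl | rfl <;> rcases lt_or_gt_of_ne h1 with k | k
    · nlinarith
    · have : o + 2 ≤ y := by omega
      nlinarith
    · have : y ≤ o - 2 := by omega
      nlinarith
    · nlinarith
  exact_mod_cast this

theorem p_MAC (hPF : S_PF) :
    S_MAC := by
  intro k hk p c h1
  have F := hPF k hk
  have hK := F.k1
  have hR : RR k = 16 * (k : ℝ) ^ 3 := rfl
  have k2 : (k : ℝ) ≤ (k : ℝ) ^ 2 := le_self_pow₀ hK (by norm_num)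
  have k3 : (k : ℝ) ^ 2 ≤ (k : ℝ) ^ 3 := pow_le_pow_right₀ hK (by norm_num)
  have r1 := F.rh_eq
  have r0 : rh k ≤ k * rh k := le_mul_of_one_le_left F.rh_pos.le hK
  rcases c with b | ⟨j, side⟩
  · have key : |cu (.inl b : Cn k) p| ≤ rh k → |cv (.inl b : Cn k) p| ≤ rh k → ∀ y : ℕ, 1 ≤ y →
        y ≤ 2 * k + 1 → y ≠ 2 * (co (.inl b : Cn k) : ℕ) + 1 → 9 / 10 < psi k y p := by
      intro hu hv y y1 y2 y3
      have z1 : (1 : ℝ) ≤ y := by exact_mod_cast y1
      have z2 : (y : ℝ) ≤ 2 * k + 1 := by exact_mod_cast y2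
      simp only [cu, cv, co, bet_apply, psi_apply, h1, hR] at hu hv y3 ⊢
      have hv' := abs_le.1 hv
      have hu' := abs_le.1 hu
      cases b
      · simp only [Bool.false_eq_true, if_false, Fin.val_zero, Nat.cast_zero] at hu hu' y3
        have z3 : (2 : ℝ) ≤ y := by exact_mod_cast (by omega : 2 ≤ y)
        exact mac_end (w := y - 1) (f := (2 * k + 1) ^ 2 / 2 * 1 - (2 * k + 1) * p.1.1 - p.1.2.1)
          hK r1 hu (by linarith) (by linarith) (by linarith) (by ring)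
      · simp only [if_true, Fin.val_last] at hu hu' y3
        have z3 : (y : ℝ) ≤ 2 * k := by exact_mod_cast (by omega : y ≤ 2 * k)
        exact mac_end (w := 2 * k + 1 - y) (f := 1 ^ 2 / 2 * 1 - 1 * p.1.1 - p.1.2.1)
          hK r1 hu (by linarith) (by linarith) (by linarith) (by ring)
    refine ⟨fun hu hv => ⟨fun j hj => ?_, fun j hj => ?_, fun _ => ⟨b, rfl⟩⟩, fun hu hv => ?_⟩
    · by_contra e
      have := key hu hv (2 * j + 1) (by omega) (by omega) fun m => e (Fin.ext (by omega))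
      push_cast at this
      linarith
    · have := key hu hv (2 * j + 2) (by omega) (by omega) (by omega)
      push_cast at this
      linarith
    · simp only [cu, cv, co, bet_apply, h1] at hu hv
      have := F.R_ge
      rw [abs_le] at hu hv
      cases b
      · simp only [Bool.false_eq_true, if_false, Fin.val_zero, Nat.cast_zero, mul_zero,
          zero_add] at hu
        exact ⟨abs_le.2 ⟨by linarith, by linarith⟩, abs_le.2 ⟨by linarith, by linarith⟩⟩
      · simp only [if_true, Fin.val_last] at hu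
        exact ⟨abs_le.2 ⟨by linarith, by linarith⟩, abs_le.2 ⟨by linarith, by linarith⟩⟩
  · obtain ⟨o, ho, o1, o2, o3⟩ : ∃ o : ℕ, o = 2 * (cm j side : ℕ) + 1 ∧ 1 ≤ o ∧ o ≤ 2 * k + 1 ∧
        ((2 * (j : ℕ) + 2 : ℤ) = o + 1 ∨ (2 * (j : ℕ) + 2 : ℤ) = o - 1) := by
      refine ⟨_, rfl, by omega, by omega, ?_⟩
      cases side <;> simp <;> omega
    have ho' : 2 * ((cm j side : ℕ) : ℝ) + 1 = o := by rw [ho]; push_cast; rfl
    have p1 : (1 : ℝ) ≤ o := by exact_mod_cast o1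
    have p2 : (o : ℝ) ≤ 2 * k + 1 := by exact_mod_cast o2
    have p3 : (2 * (j : ℕ) + 2 : ℝ) = o + 1 ∨ (2 * (j : ℕ) + 2 : ℝ) = o - 1 := by exact_mod_cast o3
    have j0 : (0 : ℝ) ≤ (j : ℕ) := Nat.cast_nonneg _
    have j1 : ((j : ℕ) : ℝ) + 1 ≤ k := by exact_mod_cast j.2
    have key : ∀ η, |cu (.inr (j, side) : Cn k) p| ≤ η → |cv (.inr (j, side) : Cn k) p| ≤ η →
        ∀ y : ℝ, 1 ≤ y → y ≤ 2 * k + 1 →
          |psi k y p - (y - o) * (y - (2 * (j : ℕ) + 2)) / 2| ≤ (4 * k + 1) * η := by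
      intro η hu hv y y1 y2
      simp only [cu, cv, co, psi_apply, h1, ho'] at hu hv ⊢
      exact mac_adj p3 hu hv (abs_le.2 ⟨by linarith, by linarith⟩)
    have big : ∀ y : ℝ, 1 ≤ y → y ≤ 2 * k + 1 →
        |(y - o) * (y - (2 * (j : ℕ) + 2))| ≤ 2 * k * (2 * k) := fun y y1 y2 => by
      rw [abs_mul]
      exact mul_le_mul (abs_le.2 ⟨by linarith, by linarith⟩) (abs_le.2 ⟨by linarith, by linarith⟩)
        (abs_nonneg _) (by linarith)
    have b1 := abs_le.1 (big 1 le_rfl (by linarith))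
    have b2 := abs_le.1 (big (2 * k + 1) (by linarith) le_rfl)
    refine ⟨fun hu hv => ⟨fun i hi => ?_, fun i hi => ?_, fun hb => ?_⟩, fun hu hv => ?_⟩
    · by_contra e
      have i1 : ((i : ℕ) : ℝ) ≤ k := by exact_mod_cast Nat.lt_succ_iff.1 i.2
      have i0 : (0 : ℝ) ≤ (i : ℕ) := Nat.cast_nonneg _
      have a1 := (abs_le.1 (key _ hu hv (2 * (i : ℕ) + 1) (by linarith) (by linarith))).1
      have a2 := mac_int (y := 2 * (i : ℕ) + 1) o3
        (fun m => e (Fin.ext (by simp only [co]; omega))) (by omega)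
      push_cast at a2
      linarith
    · refine ⟨side, ?_⟩
      by_contra e
      have i1 : ((i : ℕ) : ℝ) + 1 ≤ k := by exact_mod_cast i.2
      have i0 : (0 : ℝ) ≤ (i : ℕ) := Nat.cast_nonneg _
      have a1 := (abs_le.1 (key _ hu hv (2 * (i : ℕ) + 2) (by linarith) (by linarith))).1
      have a2 := mac_int (y := 2 * (i : ℕ) + 2) o3 (by omega)
        fun m => e (by rw [show j = i from Fin.ext (by omega)])
      push_cast at a2
      linarith
    · have a1 := (abs_le.1 (key _ hu hv 1 le_rfl (by linarith))).2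
      have a2 := (abs_le.1 (key _ hu hv (2 * k + 1) (by linarith) le_rfl)).2
      rw [bet_apply, h1, hR] at hb
      exfalso
      linarith
    · have a1 := abs_le.1 (key _ hu hv 1 le_rfl (by linarith))
      have a2 := abs_le.1 (key _ hu hv (2 * k + 1) (by linarith) le_rfl)
      rw [hR]
      exact ⟨abs_le.2 ⟨by linarith, by linarith⟩, abs_le.2 ⟨by linarith, by linarith⟩⟩

end Pool.Agent.P.MP_af6acb_co.Fat

/-! Step COR. -/

namespace Pool.Agent.P.MP_af6acb_co.Fat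

open Finset Module
open scoped Classical

lemma cor_two {x1 x2 r y d : ℝ} (hr : r ≤ 1 / 100) (hd : 2 ≤ d)
    (h1 : y ^ 2 / 2 * 1 - y * x1 - x2 ≤ r) (h2 : (y + d) ^ 2 / 2 * 1 - (y + d) * x1 - x2 ≤ r)
    (h3 : -r ≤ (y + 1) ^ 2 / 2 * 1 - (y + 1) * x1 - x2) : False := by
  have e : d * ((y + 1) ^ 2 / 2 * 1 - (y + 1) * x1 - x2) =
      (d - 1) * (y ^ 2 / 2 * 1 - y * x1 - x2) + ((y + d) ^ 2 / 2 * 1 - (y + d) * x1 - x2) -
        d * (d - 1) / 2 := by ring
  have h4 := mul_le_mul_of_nonneg_left h1 (show 0 ≤ d - 1 by linarith)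
  have h5 := mul_le_mul_of_nonneg_left h3 (show 0 ≤ d by linarith)
  nlinarith

lemma cor_far {x1 x2 r y z K : ℝ} (hr : r ≤ 1 / 100) (hz : |z - y| ≤ K)
    (h1 : y ^ 2 / 2 * 1 - y * x1 - x2 ≤ r)
    (h2 : -r ≤ (y + 1) ^ 2 / 2 * 1 - (y + 1) * x1 - x2)
    (h3 : -r ≤ (y - 1) ^ 2 / 2 * 1 - (y - 1) * x1 - x2) :
    z ^ 2 / 2 * 1 - z * x1 - x2 ≤ 1 + K + K ^ 2 / 2 := by
  have e1 : |y - x1| ≤ 1 := abs_le.2 ⟨by nlinarith, by nlinarith⟩
  have e2 : (z - y) * (y - x1) ≤ K := by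
    refine (le_abs_self _).trans ?_
    rw [abs_mul]
    exact (mul_le_of_le_one_right (abs_nonneg _) e1).trans hz
  have e3 : (z - y) ^ 2 ≤ K ^ 2 := by
    rw [← sq_abs]
    exact pow_le_pow_left₀ (abs_nonneg _) hz 2
  nlinarith

lemma cor_bot {k a b r : ℝ} (hk : 1 ≤ k) (hr : r ≤ 1 / 100) (ha : a ≤ 1 + 2 * k + (2 * k) ^ 2 / 2)
    (hb : b ≤ 1 + 2 * k + (2 * k) ^ 2 / 2) (h : (16 * k ^ 3 * 1 - (a + b) / 2) / 4 ≤ r) : False := by
  have h2 : k ≤ k ^ 2 := by nlinarith
  have h3 : k ^ 2 ≤ k ^ 3 := by nlinarith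
  nlinarith

theorem p_COR (hPF : S_PF) :
    S_COR := by
  intro k hk p hp ho he hb
  have F := hPF k hk
  have hr : rh k ≤ 1 / 100 := by nlinarith [F.rh_eq, F.rh_pos, F.k1]
  have hall : ∀ y : ℕ, 1 ≤ y → y ≤ 2 * k + 1 → -rh k ≤ psi k y p := by
    intro y h1 h2
    obtain ⟨j, rfl | rfl⟩ := Nat.even_or_odd' y
    · obtain ⟨i, rfl⟩ : ∃ i, j = i + 1 := ⟨j - 1, by omega⟩
      have := he ⟨i, by omega⟩
      convert this using 3
      push_cast; ring
    · have := ho ⟨j, by omega⟩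
      convert this using 3
      push_cast; ring
  set S : ℕ → Prop := fun y => psi k y p ≤ rh k with hS
  have So : ∀ j : ℕ, psi k (2 * (j : ℝ) + 1) p ≤ rh k ↔ S (2 * j + 1) := fun j => by
    simp only [hS]; push_cast; rfl
  have Se : ∀ j : ℕ, psi k (2 * (j : ℝ) + 2) p ≤ rh k ↔ S (2 * j + 2) := fun j => by
    simp only [hS]; push_cast; rfl
  have A : ∀ y z : ℕ, 1 ≤ y → z ≤ 2 * k + 1 → S y → S z → z ≤ y + 1 := by
    intro y z h1 h2 h3 h4
    by_contra hn
    obtain ⟨d, rfl⟩ : ∃ d, z = y + d := ⟨z - y, by omega⟩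
    have h5 := hall (y + 1) (by omega) (by omega)
    simp only [hS, psi_apply, hp] at h3 h4 h5
    push_cast at h4 h5
    exact cor_two hr (by exact_mod_cast (by omega : 2 ≤ d)) h3 h4 h5
  have B : bet k p ≤ rh k → ∀ y : ℕ, 1 < y → y < 2 * k + 1 → ¬S y := by
    intro h0 y h1 h2 h3
    have h4 := hall (y + 1) (by omega) (by omega)
    have h5 := hall (y - 1) (by omega) (by omega)
    rw [Nat.cast_sub (by omega)] at h5
    have y1 : (1 : ℝ) ≤ y := by exact_mod_cast h1.le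
    have y2 : (y : ℝ) ≤ 2 * k + 1 := by exact_mod_cast h2.le
    simp only [hS, psi_apply, hp, bet_apply, RR] at h0 h3 h4 h5
    push_cast at h4 h5
    exact cor_bot F.k1 hr (cor_far hr (abs_le.2 ⟨by linarith, by linarith [F.k1]⟩) h3 h4 h5)
      (cor_far hr (abs_le.2 ⟨by linarith [F.k1], by linarith⟩) h3 h4 h5) h0
  by_cases h0 : bet k p ≤ rh k
  · refine ⟨.inl (decide (S (2 * k + 1))), fun j hj => ?_, fun j hj => ?_, fun _ => ⟨_, rfl⟩⟩
    · rw [So] at hj
      have j1 := j.2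
      have h1 := B h0 (2 * j + 1)
      by_cases h2 : S (2 * k + 1)
      · have h3 := A (2 * j + 1) _ (by omega) le_rfl hj h2
        have h4 : (j : ℕ) = k := by omega
        refine Fin.ext ?_
        simp [co, h2, h4]
      · have h3 : (j : ℕ) ≠ k := fun h => h2 (h ▸ hj)
        have h4 : (j : ℕ) = 0 := by
          by_contra h4
          exact h1 (by omega) (by omega) hj
        refine Fin.ext ?_
        simp [co, h2, h4]
    · have j1 := j.2
      exact (B h0 (2 * j + 2) (by omega) (by omega) ((Se j).1 hj)).elim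
  by_cases h1 : ∃ j : Fin k, S (2 * j + 2)
  · obtain ⟨j, hj⟩ := h1
    have j1 := j.2
    refine ⟨.inr (j, decide (S (2 * j + 3))), fun i hi => ?_, fun i hi => ?_, fun h => (h0 h).elim⟩
    · rw [So] at hi
      have i1 := i.2
      have a1 := A (2 * i + 1) (2 * j + 2) (by omega) (by omega) hi hj
      have a2 := A (2 * j + 2) (2 * i + 1) (by omega) (by omega) hj hi
      refine Fin.ext ?_
      simp only [co, cm_val]
      by_cases h2 : S (2 * j + 3)
      · have a3 := A (2 * i + 1) (2 * j + 3) (by omega) (by omega) hi h2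
        simp only [h2, decide_true, Bool.toNat_true]
        omega
      · have a3 : 2 * (i : ℕ) + 1 ≠ 2 * j + 3 := fun h => h2 (h ▸ hi)
        simp only [h2, decide_false, Bool.toNat_false]
        omega
    · rw [Se] at hi
      have i1 := i.2
      have a1 := A (2 * i + 2) (2 * j + 2) (by omega) (by omega) hi hj
      have a2 := A (2 * j + 2) (2 * i + 2) (by omega) (by omega) hj hi
      obtain rfl : i = j := Fin.ext (by omega)
      exact ⟨_, rfl⟩
  have E : ∀ c : Cn k, ∀ j : Fin k, psi k (2 * (j : ℝ) + 2) p ≤ rh k →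
      ∃ side, c = .inr (j, side) := fun c j hj => (h1 ⟨j, (Se j).1 hj⟩).elim
  by_cases h2 : ∃ i : Fin (k + 1), S (2 * i + 1)
  · obtain ⟨i, hi⟩ := h2
    have i1 := i.2
    have U : ∀ j : Fin (k + 1), psi k (2 * (j : ℝ) + 1) p ≤ rh k → (j : ℕ) = i := fun j hj => by
      rw [So] at hj
      have j1 := j.2
      have a1 := A (2 * i + 1) (2 * j + 1) (by omega) (by omega) hi hj
      have a2 := A (2 * j + 1) (2 * i + 1) (by omega) (by omega) hj hi
      omega
    by_cases h3 : (i : ℕ) = 0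
    · refine ⟨.inl false, fun j hj => Fin.ext ?_, E _, fun h => (h0 h).elim⟩
      rw [U j hj, h3]
      simp [co]
    · refine ⟨.inr (⟨i - 1, by omega⟩, true), fun j hj => Fin.ext ?_, E _, fun h => (h0 h).elim⟩
      rw [U j hj]
      simp only [co, cm_val, Bool.toNat_true]
      omega
  · exact ⟨.inl false, fun j hj => (h2 ⟨j, (So j).1 hj⟩).elim, E _, fun h => (h0 h).elim⟩

end Pool.Agent.P.MP_af6acb_co.Fat

/-! Step PEN. -/

namespace Pool.Agent.P.MP_af6acb_co.Fat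

open Finset Module
open scoped Classical

lemma pen_core (s s' e G G' ψ y y' : ℝ) (h1 : e * s' = 2 * s) (h2 : G = 1 - 2 * |G'|) :
    s' * (max G' 0 * (ψ - y' - e * y) + max (-G') 0 * (y' - e * y)) =
      s' * max G' 0 * ψ - s * y + (s * G * y - s' * G' * y') := by
  rcases le_total 0 G' with h | h
  · rw [max_eq_left h, max_eq_right (neg_nonpos.2 h), h2, abs_of_nonneg h]
    linear_combination (-G' * y) * h1
  · rw [max_eq_right h, max_eq_left (neg_nonneg.2 h), h2, abs_of_nonpos h]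
    linear_combination (G' * y) * h1

theorem p_PEN (hPF : S_PF) (hBK : S_BK) :
    S_PEN := by
  intro k hk σ j p
  have P := hPF k hk
  have B := (hBK k hk σ).2 j
  have e : ∀ l : Fin k, sc k (l + 1) * (max (Gb σ (j + 1) (l + 1)) 0 * sU l p +
      max (-Gb σ (j + 1) (l + 1)) 0 * sL l p) =
      sc k (l + 1) * max (Gb σ (j + 1) (l + 1)) 0 * psi k (2 * (l : ℝ) + 2) p -
        sc k l * cY k l p + (sc k l * Gb σ (j + 1) l * cY k l p -
          sc k (l + 1) * Gb σ (j + 1) (l + 1) * cY k (l + 1) p) := fun l => by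
    rw [sU_apply, sL_apply]
    exact pen_core _ _ _ _ _ _ _ _ (P.sc_step l l.2) (B.tent l l.2)
  rw [sum_congr rfl fun l _ => e l, sum_add_distrib, sum_sub_distrib, pf_apply, muU_apply,
    Fin.sum_univ_eq_sum_range (fun l => sc k l * cY k l p) k,
    Fin.sum_univ_eq_sum_range (fun l => sc k l * Gb σ (j + 1) l * cY k l p -
      sc k (l + 1) * Gb σ (j + 1) (l + 1) * cY k (l + 1) p) k,
    sum_range_sub' (fun l => sc k l * Gb σ (j + 1) l * cY k l p) k, P.sc_top, cY_zero]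
  ring

end Pool.Agent.P.MP_af6acb_co.Fat

/-! Step OWN. -/

namespace Pool.Agent.P.MP_af6acb_co.Fat

open Finset Module
open scoped Classical

lemma own_low {s G u l W : ℝ} (hs : 0 < s) (hG : |G| ≤ 1) (hu : |u| ≤ W) (hl : |l| ≤ W) :
    |s * (max G 0 * u + max (-G) 0 * l)| ≤ s * W := by
  have hW : 0 ≤ W := (abs_nonneg _).trans hu
  rw [abs_mul, abs_of_pos hs]
  refine mul_le_mul_of_nonneg_left ?_ hs.le
  rcases le_total 0 G with h | h
  · rw [max_eq_left h, max_eq_right (neg_nonpos.2 h), zero_mul, add_zero, abs_mul]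
    exact (mul_le_mul hG hu (abs_nonneg _) zero_le_one).trans_eq (one_mul _)
  · rw [max_eq_right h, max_eq_left (neg_nonneg.2 h), zero_mul, zero_add, abs_mul, abs_neg]
    exact (mul_le_mul hG hl (abs_nonneg _) zero_le_one).trans_eq (one_mul _)

lemma own_val {s G u l : ℝ} (hs : 0 < s) :
    s * (max G 0 * u + max (-G) 0 * l) = max (s * G) 0 * u + max (-(s * G)) 0 * l := by
  rcases le_total 0 G with h | h
  · have := mul_nonneg hs.le h
    rw [max_eq_left h, max_eq_right (neg_nonpos.2 h), max_eq_left this,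
      max_eq_right (neg_nonpos.2 this)]
    ring
  · have := mul_nonpos_of_nonneg_of_nonpos hs.le h
    rw [max_eq_right h, max_eq_left (neg_nonneg.2 h), max_eq_right this,
      max_eq_left (neg_nonneg.2 this)]
    ring

theorem p_OWN (hPF : S_PF) (hBK : S_BK) (hPEN : S_PEN) :
    S_OWN := by
  intro k hk σ j p hb hn ht
  have P := hPF k hk
  have B := (hBK k hk σ).2 j
  have hr := tt_reg.1 ht
  set T : Fin k → ℝ := fun l => sc k (l + 1) * (max (Gb σ (j + 1) (l + 1)) 0 * sU l p +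
    max (-Gb σ (j + 1) (l + 1)) 0 * sL l p) with hT
  have hW : 1 ≤ 2 * Wd k := by rw [P.W_eq]; linarith [P.R_ge]
  have hup : ∀ l, j < l → T l = 0 := fun l hl => by
    have h1 := (mul_pos (P.pp_pos (l + 1)) P.om_pos).trans_le (B.above l hl)
    have h2 := hr l
    simp only [hT]
    rw [own_val (P.sc_pos _)]
    cases hσ : σ l
    · rw [hσ] at h1 h2
      rw [FG_L] at h2
      rw [h2, max_eq_right (by simp [sgn] at h1; linarith)]
      ring
    · rw [hσ] at h1 h2
      rw [FG_U] at h2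
      rw [h2, max_eq_right (a := -_) (by simp [sgn] at h1; linarith)]
      ring
  have hown : T j = if Cre σ j then 0 else pp k (j + 1) * (om k / 4) * FG k (chd σ j) p := by
    have h0 : 0 < pp k (j + 1) * (om k / 4) := mul_pos (P.pp_pos _) (by linarith [P.om_pos])
    have h2 := hr j
    simp only [hT]
    rw [own_val (P.sc_pos _), B.own, chd_eq ht, Cre]
    generalize pp k (j + 1) * (om k / 4) = c at h0
    rcases ori_cases σ (j + 1) with h | h <;> cases hσ : σ j <;> rw [hσ] at h2 <;>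
      simp only [FG_L, FG_U] at h2 <;> norm_num [h, h2, sgn, h0.le]
  have hlow : ∀ l : Fin k, |T l| ≤ sc k (l + 1) * (2 * Wd k) := fun l =>
    own_low (P.sc_pos _) (B.abs_le _) (hn.lev (l, true)) (hn.lev (l, false))
  have hsum : ∑ l, T l = T j + ∑ l ∈ Iio j, T l := by
    rw [← sum_insert (s := Iio j) notMem_Iio_self, Iio_insert]
    exact (sum_subset (subset_univ _) fun l _ hl => hup l (by simpa using hl)).symm
  have h3 : |∑ l ∈ Iio j, T l| ≤ (∑ l ∈ range j, sc k (l + 1)) * (2 * Wd k) := by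
    refine (abs_sum_le_sum_abs _ _).trans ((sum_le_sum fun l _ => hlow l).trans_eq ?_)
    rw [← sum_mul, ← Nat.Iio_eq_range, ← Fin.map_valEmbedding_Iio, sum_map]
    rfl
  have h4 : |sc k 0 * Gb σ (j + 1) 0 * p.2.1| ≤ sc k 0 * (2 * Wd k) := by
    rw [mul_assoc, abs_mul, abs_of_pos (P.sc_pos 0), abs_mul]
    exact mul_le_mul_of_nonneg_left
      ((mul_le_one₀ (B.abs_le _) (abs_nonneg _) hb.t1).trans hW) (P.sc_pos 0).le
  have h5 := P.sc_low j j.2
  rw [sum_range_succ', P.pp_step j j.2, ep] at h5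
  rw [hPEN k hk σ j p, ← hown]
  change |∑ l, T l - _ - _| ≤ _
  rw [hsum, show ∀ a b c : ℝ, a + b - c - a = b - c from fun a b c => by ring]
  refine (abs_sub _ _).trans ((add_le_add h3 h4).trans ?_)
  rw [← add_mul, ← P.cp_W]
  refine (mul_le_mul_of_nonneg_right h5 (by linarith)).trans_eq ?_
  ring

end Pool.Agent.P.MP_af6acb_co.Fat
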