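import Pool.Agent.P.MP_af6acb_co.Fat.IfaceG

set_option linter.unusedSectionVars false

/-! Step MIC. -/

namespace Pool.Agent.P.MP_af6acb_co.Fat

open Finset Module
open scoped Classical

lemma mic_core {k : ℕ} (σ : Fin k → Bool) (j : Fin k) {m ξ fl fc T E E' g a D : ℝ} (hD : 0 < D)
    (ha : 0 < a) (hag : a ≤ g) (hg : g < 1) (hT1 : 1 ≤ T) (hT2 : T ≤ 4) (hE : E ≤ -(9 / 10 * D))
    (hE1 : -(a * D / 5) ≤ E') (hE2 : E' < 0) (hfl : fl = m + T * ξ + E)
    (hfc : fc = (1 - g) * fl + g * m + (if Cre σ j then 0 else a) * ξ + E') :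
    Mic σ j m ξ fl fc := by
  have haD := mul_pos ha hD
  have hgD := mul_le_mul_of_nonneg_right hag hD.le
  have hg0 : 0 < g := ha.trans_le hag
  have hx : ∀ x : ℝ, 0 < T * x → 0 < x := fun x h => (mul_pos_iff_of_pos_left (by linarith)).1 h
  refine ⟨fun h h1 h2 h3 => ?_, fun h h1 h2 => ?_, fun h h1 h2 => ?_, fun h h1 h2 => ?_,
    fun h h1 h2 h3 => ?_, fun h h1 => ?_⟩
  · rw [if_pos h] at hfc
    refine ⟨fun e => ?_, fun e => ?_⟩
    · rw [e, h3] at hfl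
      linarith
    · rw [e, h3] at hfc
      linarith
  · rw [if_pos h] at hfc
    rw [h2] at hfl
    have h3 : g * (9 / 10 * D) ≤ g * m := mul_le_mul_of_nonneg_left (by linarith) hg0.le
    have h4 : 0 ≤ (1 - g) * fl := mul_nonneg (by linarith) h1
    intro e
    nlinarith
  · rw [if_pos h, h1, h2] at hfc
    have h3 : 0 < m := (mul_pos_iff_of_pos_left hg0).1 (by linarith)
    have h4 : m ≤ D / 5 := le_of_mul_le_mul_left (by linarith) hg0
    exact ⟨h3, hx _ (by linarith)⟩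
  · rw [if_pos h, h1, h2] at hfc
    have h3 : 0 < fl := (mul_pos_iff_of_pos_left (show 0 < 1 - g by linarith)).1 (by linarith)
    exact ⟨h3, hx _ (by linarith)⟩
  · rw [if_neg h] at hfc
    refine ⟨?_, fun e e' => ?_⟩
    · have h4 : 0 ≤ (1 - g) * fl := mul_nonneg (by linarith) h3
      have h5 : a * m ≤ g * m := mul_le_mul_of_nonneg_right hag h1
      have h6 : T * ξ ≤ 4 * ξ := mul_le_mul_of_nonneg_right hT2 h2
      have h7 : a * (9 / 40 * D) ≤ a * (m + ξ) := mul_le_mul_of_nonneg_left (by linarith) ha.le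
      nlinarith
    · rw [e, e'] at hfl
      linarith
  · refine ⟨fun e => ?_, fun e => hx _ (by linarith)⟩
    rw [e] at hfl
    linarith

lemma mic_err {w d π t e lo : ℝ} (hw : 0 < w) (hw1 : w ≤ 1 / 2) (hd : 0 < d) (hd1 : d ≤ 1)
    (hπ : 0 < π) (hπ1 : π ≤ 1) (ht : 1 ≤ t) (ht3 : t ≤ 3) (he : e ≤ d * w ^ 2 * π / 8000)
    (hlo : lo ≤ d * w ^ 2 * π ^ 2 / 8000) :
    t * e + d / 2 * lo - d * w * π / 16 ≤ -(9 / 10 * (d * w * π / 16)) := by
  have h0 : 0 < d * w * π := by positivity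
  have h1 : d * w * π * w ≤ d * w * π * (1 / 2) := mul_le_mul_of_nonneg_left hw1 h0.le
  have h2 : t * e ≤ 3 * (d * w ^ 2 * π / 8000) :=
    (mul_le_mul_of_nonneg_left he (by linarith)).trans
      (mul_le_mul_of_nonneg_right ht3 (by positivity))
  have h3 : d / 2 * lo ≤ 1 / 2 * (d * w ^ 2 * π ^ 2 / 8000) :=
    (mul_le_mul_of_nonneg_left hlo (by linarith)).trans
      (mul_le_mul_of_nonneg_right (by linarith) (by positivity))
  have h4 : d * w * π * w * π ≤ d * w * π * w * 1 := mul_le_mul_of_nonneg_left hπ1 (by positivity)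
  nlinarith

theorem p_MIC (hPF : S_PF) (hBK : S_BK) (hOWN : S_OWN) :
    S_MIC := by
  intro k hk σ j side p hB hN hT
  have F := hPF k hk
  have K := (hBK k hk σ).2 j
  have hO := abs_le.1 (hOWN k hk σ j p hB hN hT)
  have hc := abs_le.1 (hN.ch j).1
  rw [← chd_eq hT j] at hc
  have hπ := F.pp_pos (j + 1)
  have hπ1 := F.pp_le (j + 1)
  have hw := F.om_pos
  have hw1 := F.om_le
  have hd := F.de_pos
  have hd1 := F.de_le
  have hv := F.vr_pos
  have hv1 := F.vr_le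
  have he : 2 * ep k (j + 1) * Wd k = de k * om k ^ 2 * pp k (j + 1) / 8000 := by
    rw [ep, ← F.cp_W]; ring
  rw [he] at hc
  set ξ := FG k (chd σ j) p
  set κ : ℝ := if Cre σ j then 0 else pp k (j + 1) * (om k / 4) with hκ
  have hκe : (if Cre σ j then 0 else pp k (j + 1) * (om k / 4) * ξ) = κ * ξ := by
    rw [hκ]; split_ifs <;> simp
  rw [hκe] at hO
  have hπw : pp k (j + 1) * (om k / 4) ≤ 1 * (om k / 4) :=
    mul_le_mul_of_nonneg_right hπ1 (by positivity)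
  have hκ0 : 0 ≤ κ ∧ κ ≤ 1 := by
    rw [hκ]; split_ifs
    · simp
    · exact ⟨by positivity, by linarith⟩
  have hdκ : de k / 2 * κ ≤ de k / 2 * 1 := mul_le_mul_of_nonneg_left hκ0.2 (by positivity)
  have hdκ0 : 0 ≤ de k / 2 * κ := mul_nonneg (by positivity) hκ0.1
  have h0 : 0 < vr k * (de k * om k ^ 2 * pp k (j + 1) ^ 2) := by positivity
  have h1 := mul_le_mul_of_nonneg_left hO.1 hv.le
  have h2 := mul_le_mul_of_nonneg_left hO.2 hv.le
  refine mic_core σ j (T := tB σ (j + 1) + de k / 2 * κ)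
    (E := tB σ (j + 1) * (psi k (2 * (j : ℝ) + 2) p - ξ) +
      de k / 2 * (pf σ (j + 1) p - κ * ξ) - de k * om k * pp k (j + 1) / 16)
    (E' := vr k * (pf σ (j + 1) p - κ * ξ) - D2 k (j + 1)) (g := ga k)
    (a := vr k * (pp k (j + 1) * (om k / 4))) (D := de k * om k * pp k (j + 1) / 16)
    (by positivity) (by positivity) ?_ (by rw [ga]; linarith) (by linarith [K.tB_ge])
    (by linarith [K.tB_le])
    (mic_err hw hw1 hd (by linarith) hπ hπ1 K.tB_ge K.tB_le (by linarith) hO.2) ?_ ?_ ?_ ?_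
  · have : vr k * (pp k (j + 1) * (om k / 4)) ≤ 1 / 25 * (1 * (om k / 4)) :=
      mul_le_mul (by linarith) hπw (by positivity) (by norm_num)
    rw [ga]; linarith
  · rw [D2, D1]; nlinarith
  · rw [D2, D1]; nlinarith
  · rw [sFL_apply, hB.h1, D1]; ring
  · have : (if Cre σ j then 0 else vr k * (pp k (j + 1) * (om k / 4))) = vr k * κ := by
      rw [hκ]; split_ifs <;> simp
    rw [sFc_apply, hB.h1, this]; ring

end Pool.Agent.P.MP_af6acb_co.Fat

/-! Step POS. -/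

namespace Pool.Agent.P.MP_af6acb_co.Fat

open Finset Module
open scoped Classical

lemma pos_core {w d π t e P m v g : ℝ} (hw : 0 < w) (hw1 : w ≤ 1 / 2) (hd : 0 < d) (hd1 : d ≤ 1)
    (hπ : 0 < π) (hπ1 : π ≤ 1) (ht : 1 ≤ t) (ht3 : t ≤ 3) (he : -(d * w ^ 2 * π / 8000) ≤ e)
    (hP : 8 / 10 * (π * w) ≤ P) (hm : 0 ≤ m) (hv : 0 < v) (hg : 0 ≤ g) (hg1 : g ≤ 1) :
    0 < m + t * e + d / 2 * P - d * w * π / 16 ∧
      0 < (1 - g) * (m + t * e + d / 2 * P - d * w * π / 16) + g * m + v * P -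
        v * π * (w / 4) * (d * w * π / 16) / 8 := by
  have h0 : 0 < d * w * π := by positivity
  have h1 : d * w * π * w ≤ d * w * π * (1 / 2) := mul_le_mul_of_nonneg_left hw1 h0.le
  have h2 : t * -e ≤ 3 * (d * w ^ 2 * π / 8000) :=
    (mul_le_mul_of_nonneg_left (by linarith) (by linarith)).trans
      (mul_le_mul_of_nonneg_right ht3 (by positivity))
  have h3 : d / 2 * (8 / 10 * (π * w)) ≤ d / 2 * P := mul_le_mul_of_nonneg_left hP (by positivity)
  have h4 : 0 < m + t * e + d / 2 * P - d * w * π / 16 := by nlinarith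
  refine ⟨h4, ?_⟩
  have h5 := mul_nonneg (show 0 ≤ 1 - g by linarith) h4.le
  have h6 := mul_nonneg hg hm
  have h7 := mul_le_mul_of_nonneg_left hP hv.le
  have h8 : d * w * π ≤ 1 := mul_le_one₀ (mul_le_one₀ hd1 hw.le (by linarith)) hπ.le hπ1
  have h9 : 0 < v * π * w := by positivity
  have h10 := mul_le_mul_of_nonneg_left h8 h9.le
  nlinarith

lemma pos_term {s G u l c : ℝ} {b b' : Bool} (hb : b' ≠ b) (hs : 0 < s) (hu : 0 ≤ u) (hl : 0 ≤ l)
    (h0 : (if b then u else l) = 0) (hc : c ≤ sgn b' * (s * G)) :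
    c * (l + u) ≤ s * (max G 0 * u + max (-G) 0 * l) := by
  have h1 := mul_le_mul_of_nonneg_left (le_max_left G 0) hs.le
  have h2 := mul_le_mul_of_nonneg_left (le_max_left (-G) 0) hs.le
  cases b <;> cases b' <;> simp [sgn] at hb h0 hc
  · subst h0
    nlinarith [mul_le_mul_of_nonneg_right (hc.trans h1) hu]
  · subst h0
    nlinarith [mul_le_mul_of_nonneg_right (show c ≤ s * max (-G) 0 by linarith) hl]

theorem p_POS (hPF : S_PF) (hBK : S_BK) (hPEN : S_PEN) :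
    S_POS := by
  rintro k hk σ σ' j side p hB hN hT hx hm hA ⟨l, hjl, hl⟩
  have F := hPF k hk
  have K := (hBK k hk σ').2 j
  have hU : ∀ i, 0 ≤ sU i p := fun i => hx (i, true)
  have hL : ∀ i, 0 ≤ sL i p := fun i => hx (i, false)
  have hπ := F.pp_pos (j + 1)
  have hw := F.om_pos
  have hw1 := F.om_le
  have hd := F.de_pos
  have hd1 := F.de_le
  have hπw : 0 < pp k (j + 1) * om k := by positivity
  have hc := (abs_le.1 (hN.ch j).1).2
  have he : 2 * ep k (j + 1) * Wd k = de k * om k ^ 2 * pp k (j + 1) / 8000 := by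
    rw [ep, ← F.cp_W]; ring
  have h1 : 9 / 10 < psi k (2 * (l : ℝ) + 2) p := by
    by_contra h
    obtain ⟨s, e⟩ := hA.even l (not_lt.1 h)
    simp only [Sum.inr.injEq, Prod.mk.injEq] at e
    exact hjl.ne e.1
  have h2 : 89 / 100 ≤ sL l p + sU l p := by
    have h3 := (abs_le.1 (hN.ch l).2).1
    have h4 := mul_le_mul_of_nonneg_right F.k1 F.rh_pos.le
    linarith [F.ze_rh, F.rh_eq]
  have h3 : pp k (j + 1) * om k * (89 / 100) ≤ sc k (l + 1) *
      (max (Gb σ' (j + 1) (l + 1)) 0 * sU l p + max (-Gb σ' (j + 1) (l + 1)) 0 * sL l p) := by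
    refine le_trans ?_ (pos_term hl (F.sc_pos _) (hU l) (hL l) ?_ (K.above l hjl))
    · exact mul_le_mul (mul_le_mul_of_nonneg_right (F.pp_mono _ _ (by omega)) hw.le) h2
        (by norm_num) (mul_pos (F.pp_pos _) hw).le
    · have := tt_reg.1 hT l
      cases hσ : σ l <;> simpa [hσ] using this
  have h4 : sc k 0 * Gb σ' (j + 1) 0 * p.2.1 ≤ pp k (j + 1) * om k * (9 / 100) := by
    have e1 : |Gb σ' (j + 1) 0 * p.2.1| ≤ 1 := by
      rw [abs_mul]
      exact mul_le_one₀ (K.abs_le 0) (abs_nonneg _) hB.t1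
    have e2 := mul_le_mul_of_nonneg_left (le_of_abs_le e1) (F.sc_pos 0).le
    have e3 : sc k 0 = ep k 1 * pp k 1 * om k := by
      rw [sc, F.pp_step 0 (by omega)]; simp
    have e4 : de k * om k ≤ 1 := mul_le_one₀ (by linarith) hw.le (by linarith)
    have e5 : ep k 1 * pp k 1 ≤ 9 / 100 * pp k (j + 1) :=
      mul_le_mul (by linarith [F.ep_le 1, F.cp_le]) (F.pp_mono _ _ (by omega)) (F.pp_pos 1).le
        (by norm_num)
    have e6 := mul_le_mul_of_nonneg_right e5 hw.le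
    rw [mul_assoc]
    linarith
  have h5 : 8 / 10 * (pp k (j + 1) * om k) ≤ pf σ' (j + 1) p := by
    have := single_le_sum (f := fun i : Fin k => sc k (i + 1) *
      (max (Gb σ' (j + 1) (i + 1)) 0 * sU i p + max (-Gb σ' (j + 1) (i + 1)) 0 * sL i p))
      (fun i _ => mul_nonneg (F.sc_pos _).le (add_nonneg (mul_nonneg (le_max_right _ _) (hU i))
        (mul_nonneg (le_max_right _ _) (hL i)))) (mem_univ l)
    rw [hPEN k hk]
    linarith
  have := pos_core (e := psi k (2 * (j : ℝ) + 2) p) (g := ga k) hw hw1 hd (by linarith) hπ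
    (F.pp_le _) K.tB_ge K.tB_le (by linarith [hU j, hL j]) h5 hm F.vr_pos
    (by rw [ga]; positivity) (by rw [ga]; linarith)
  rw [sFc_apply, sFL_apply, hB.h1, D2, D1, mul_one, mul_one]
  exact this

end Pool.Agent.P.MP_af6acb_co.Fat

/-! Step OTH. -/

namespace Pool.Agent.P.MP_af6acb_co.Fat

open Finset Module
open scoped Classical

lemma oth_core {u v t r : ℝ} (hr : r ≤ 1 / 100) (t0 : 99 / 100 ≤ t) (t1 : t ≤ 3)
    (h : 9 / 10 < u ∧ -r ≤ v ∨ -r ≤ u ∧ 9 / 10 < v) : 1 / 2 ≤ u + t * v := by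
  rcases h with ⟨h1, h2⟩ | ⟨h1, h2⟩ <;> nlinarith

theorem p_OTH (hPF : S_PF) (hBK : S_BK) :
    S_OTH := by
  intro k hk p c hN hA hu hv
  have P := hPF k hk
  have r0 := P.rh_pos
  have r1 : rh k ≤ 1 / 100 := by nlinarith [P.rh_eq, P.k1]
  have z1 : ze k ≤ 1 / 100 := by linarith [P.ze_rh]
  have ho : ∀ j : Fin (k + 1), j ≠ co c → 9 / 10 < psi k (2 * (j : ℝ) + 1) p :=
    fun j hj => not_le.1 fun h => hj (hA.odd j h)
  have he : ∀ j : Fin k, (∀ side, c ≠ .inr (j, side)) → 9 / 10 < psi k (2 * (j : ℝ) + 2) p :=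
    fun j hj => not_le.1 fun h => by
      obtain ⟨s, hs⟩ := hA.even j h
      exact hj s hs
  refine ⟨fun j hj => ?_, fun j hj => ?_, fun hb => ?_, fun σ j side hc => ?_⟩
  · linarith [ho j hj, (abs_le.1 (hN.M j)).1]
  · linarith [he j hj, (abs_le.1 (hN.ch j).2).1]
  · have h1 : 9 / 10 < bet k p := not_le.1 fun h => by
      obtain ⟨b, h2⟩ := hA.bot h
      exact hb b h2
    linarith [(abs_le.1 hN.B).1]
  · have B := (hBK k hk σ).2 j
    have h1 : 9 / 10 < psi k (2 * (cm j side : ℝ) + 1) p ∧ -rh k ≤ psi k (2 * (j : ℝ) + 2) p ∨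
        -rh k ≤ psi k (2 * (cm j side : ℝ) + 1) p ∧ 9 / 10 < psi k (2 * (j : ℝ) + 2) p := by
      by_cases h2 : ∀ s, c ≠ .inr (j, s)
      · refine Or.inr ⟨?_, he j h2⟩
        by_cases h3 : cm j side = co c
        · rw [h3]; exact (abs_le.1 hu).1
        · linarith [ho _ h3]
      · push Not at h2
        obtain ⟨s, rfl⟩ := h2
        refine Or.inl ⟨ho _ fun h3 => hc ?_, (abs_le.1 hv).1⟩
        have h4 := congrArg Fin.val h3
        simp only [co, cm_val, add_right_inj] at h4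
        cases s <;> cases side <;> simp_all
    have g0 : 0 ≤ ga k := by unfold ga; linarith [P.om_pos]
    have g1 : ga k ≤ 1 / 200 := by unfold ga; linarith [P.om_le]
    have t0 := B.tB_ge
    have t1 := B.tB_le
    have h2 := oth_core r1 (by linarith) t1 h1
    have h3 := oth_core (t := (1 - ga k) * tB σ (j + 1)) r1 (by nlinarith) (by nlinarith) h1
    exact ⟨by linarith [(abs_le.1 (hN.FL σ j side)).1], by linarith [(abs_le.1 (hN.Fc σ j side)).1]⟩

end Pool.Agent.P.MP_af6acb_co.Fat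

/-! Step PERT. -/

namespace Pool.Agent.P.MP_af6acb_co.Fat

open Finset Module
open scoped Classical

lemma pert_mul {x y a b : ℝ} (h : |x| ≤ a) (h' : |y| ≤ b) : |x * y| ≤ a * b := by
  rw [abs_mul]
  exact mul_le_mul h h' (abs_nonneg _) ((abs_nonneg _).trans h)

theorem p_PERT :
    S_PERT := by
  intro α1 β1 α2 β2 a1 b1 a2 b2 ζ m ρ hm hρ hζ h1 h2 h3 h4 hd g1 g2 g3 g4
  have z0 : 0 ≤ ζ := by linarith [abs_nonneg a1]
  have m18 : m ≤ 18 := by
    have := abs_sub (α1 * β2) (α2 * β1)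
    linarith [pert_mul h1 h4, pert_mul h3 h2]
  have zm : 100 * ζ ≤ m := by nlinarith
  have ρ0 : 0 ≤ ρ := by
    by_contra h
    nlinarith
  set D := (α1 + a1) * (β2 + b2) - (α2 + a2) * (β1 + b1) with hD
  have hD1 : 0.74 * m ≤ |D| := by
    have e : α1 * β2 - α2 * β1 = D - (α1 * b2 + a1 * β2 + a1 * b2 - α2 * b1 - a2 * β1 - a2 * b1) := by
      rw [hD]; ring
    have k1 := abs_le.1 (pert_mul h1 g4)
    have k2 := abs_le.1 (pert_mul g1 h4)
    have k3 := abs_le.1 (pert_mul g1 g4)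
    have k4 := abs_le.1 (pert_mul h3 g2)
    have k5 := abs_le.1 (pert_mul g3 h2)
    have k6 := abs_le.1 (pert_mul g3 g2)
    have k7 : 2 * ζ * (2 * ζ) ≤ ζ := by nlinarith
    have k8 : |α1 * b2 + a1 * β2 + a1 * b2 - α2 * b1 - a2 * β1 - a2 * b1| ≤ 26 * ζ :=
      abs_le.2 ⟨by linarith, by linarith⟩
    have k9 := abs_sub D (α1 * b2 + a1 * β2 + a1 * b2 - α2 * b1 - a2 * β1 - a2 * b1)
    rw [← e] at k9
    linarith
  have hD0 : D ≠ 0 := by
    intro h; rw [h, abs_zero] at hD1; linarith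
  have hb : ∀ x y : ℝ, |x| ≤ 3 → |y| ≤ 2 * ζ → |x + y| ≤ 4 := fun x y hx hy => by
    linarith [abs_add_le x y]
  have hq : ∀ x y c1 c2 : ℝ, |x| ≤ 4 → |y| ≤ 4 → |c1| ≤ ζ → |c2| ≤ ζ →
      |(x * c2 - y * c1) / D| ≤ ρ := fun x y c1 c2 hx hy e1 e2 => by
    rw [abs_div, div_le_iff₀ (by linarith)]
    have := abs_sub (x * c2) (y * c1)
    have k1 := pert_mul hx e2
    have k2 := pert_mul hy e1
    nlinarith
  refine ⟨fun c1 c2 e1 e2 => ⟨((β1 + b1) * c2 - (β2 + b2) * c1) / D,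
    ((α2 + a2) * c1 - (α1 + a1) * c2) / D, hq _ _ _ _ (hb _ _ h2 g2) (hb _ _ h4 g4) e1 e2,
    hq _ _ _ _ (hb _ _ h3 g3) (hb _ _ h1 g1) e2 e1, ?_, ?_⟩, fun u v e1 e2 => ⟨?_, ?_⟩⟩
  · field_simp; rw [hD]; ring
  · field_simp; rw [hD]; ring
  · apply mul_left_cancel₀ hD0
    rw [hD]; linear_combination (β2 + b2) * e1 - (β1 + b1) * e2
  · apply mul_left_cancel₀ hD0
    rw [hD]; linear_combination (α1 + a1) * e2 - (α2 + a2) * e1

end Pool.Agent.P.MP_af6acb_co.Fat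

/-! Step PL. -/

namespace Pool.Agent.P.MP_af6acb_co.Fat

open Finset Module
open scoped Classical

lemma pl_zero {k : ℕ} (hk : 1 ≤ k) (σ : Fin k → Bool) (c : Cn k) (z : WG k)
    (h : (gad k).Tt (reg σ) (z, 0, 0)) (h1 : cu c (z, 0, 0) = 0) (h2 : cv c (z, 0, 0) = 0) :
    z = 0 := by
  obtain ⟨x1, x2, y⟩ := z
  have k0 : (1 : ℝ) ≤ k := by exact_mod_cast hk
  have hx : x1 = 0 ∧ x2 = 0 := by
    have e : x1 = 0 := by
      rcases c with b | ⟨j, b⟩ <;> cases b <;>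
        simp [cu, cv, co, psi_apply, bet_apply] at h1 h2 <;> nlinarith
    subst e
    simpa [cu, psi_apply] using h1
  obtain ⟨rfl, rfl⟩ := hx
  have hy : ∀ l, cY k l ((0, 0, y), 0, 0) = 0 := by
    intro l
    induction l with
    | zero => rfl
    | succ l ih =>
      by_cases hl : l < k
      · have e := tt_reg.1 h ⟨l, hl⟩
        cases hσ : σ ⟨l, hl⟩ <;> rw [hσ] at e
        · simpa [sL_apply, ih] using e
        · simpa [sU_apply, psi_apply, ih] using e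
      · exact cY_big (by omega) _
  have : y = 0 := funext fun j => (cY_fin j _).symm.trans (hy (j + 1))
  rw [this]; rfl

theorem p_PL :
    S_PL := by
  intro k hk σ c
  refine ⟨?_, pl_zero hk σ c⟩
  let Θ : UG k →ₗ[ℝ] (Fin k → ℝ) × ℝ × ℝ × ℝ × ℝ :=
    (LinearMap.pi fun j => FG k (.inl (j, σ j))).prod ((cu c).prod ((cv c).prod
      (LinearMap.snd ℝ (WG k) (ℝ × ℝ))))
  have hΘ : ∀ p, Θ p = (fun j => FG k (.inl (j, σ j)) p, cu c p, cv c p, p.2) := fun p => rfl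
  have hi : Function.Injective Θ := by
    rw [injective_iff_map_eq_zero]
    rintro ⟨z, t, h⟩ e
    rw [hΘ] at e
    simp only [Prod.mk_eq_zero] at e
    obtain ⟨e1, e2, e3, rfl, rfl⟩ := e
    rw [pl_zero hk σ c z (tt_reg.2 fun j => congrFun e1 j) e2 e3]; rfl
  let E := Θ.linearEquivOfInjective hi (by simp; omega)
  refine ⟨(LinearMap.fst ℝ _ _) ∘ₗ E.symm.toLinearMap ∘ₗ LinearMap.inr ℝ _ _, fun u v t h => ?_⟩
  have e : Θ (E.symm (0, u, v, t, h)) = (0, u, v, t, h) := E.apply_symm_apply _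
  rw [hΘ] at e
  simp only [Prod.mk.injEq] at e
  obtain ⟨e1, e2, e3, e4⟩ := e
  have e5 : ((E.symm (0, u, v, t, h)).1, t, h) = E.symm (0, u, v, t, h) :=
    Prod.ext rfl e4.symm
  change (gad k).Tt (reg σ) ((E.symm (0, u, v, t, h)).1, t, h) ∧
    cu c ((E.symm (0, u, v, t, h)).1, t, h) = u ∧ cv c ((E.symm (0, u, v, t, h)).1, t, h) = v
  rw [e5]
  exact ⟨tt_reg.2 fun j => congrFun e1 j, e2, e3⟩

end Pool.Agent.P.MP_af6acb_co.Fat

/-! Step SLV. -/

namespace Pool.Agent.P.MP_af6acb_co.Fat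

open Finset Module
open scoped Classical

theorem p_SLV (hPF : S_PF) (hBOX : S_BOX) (hMAC : S_MAC) (hPERT : S_PERT) (hPL : S_PL) :
    S_SLV := by
  intro k hk σ c f1 f2 α1 β1 α2 β2 h1 h2 h3 h4 hd hn
  have pf := hPF k hk
  obtain ⟨⟨φ, hφ⟩, hz⟩ := hPL k hk σ c
  let P : (ℝ × ℝ × ℝ × ℝ) →ₗ[ℝ] UG k :=
    φ.prod (LinearMap.snd ℝ ℝ (ℝ × ℝ) ∘ₗ LinearMap.snd ℝ ℝ (ℝ × ℝ × ℝ))
  have hP : ∀ u v t h, P (u, v, t, h) = (φ (u, v, t, h), t, h) := fun _ _ _ _ => rfl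
  have hB : ∀ u v t, |u| ≤ 1 → |v| ≤ 1 → |t| ≤ 1 → Box (P (u, v, t, 1)) := by
    intro u v t hu hv ht
    obtain ⟨e1, e2, e3⟩ := hφ u v t 1
    obtain ⟨g1, g2⟩ := (hMAC k hk (P (u, v, t, 1)) c rfl).2 (by rwa [hP, e2]) (by rwa [hP, e3])
    exact (hBOX k hk _).2.1 σ e1 ⟨rfl, ht⟩ g1 g2
  have hE : ∀ u v t, |u| ≤ 1 → |v| ≤ 1 → |t| ≤ 1 →
      |f1 (P (u, v, t, 1)) - (α1 * u + β1 * v)| ≤ ze k ∧
      |f2 (P (u, v, t, 1)) - (α2 * u + β2 * v)| ≤ ze k := by
    intro u v t hu hv ht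
    obtain ⟨e1, e2, e3⟩ := hφ u v t 1
    have := hn _ (hB u v t hu hv ht) e1
    rwa [hP, e2, e3] at this
  have hL : ∀ (f : UG k →ₗ[ℝ] ℝ) u v t h, f (P (u, v, t, h)) =
      (f (P (1, 0, 0, 1)) - f (P (0, 0, 0, 1))) * u + (f (P (0, 1, 0, 1)) - f (P (0, 0, 0, 1))) * v +
        f (P (0, 0, t, h)) := by
    intro f u v t h
    have e : ((u, v, t, h) : ℝ × ℝ × ℝ × ℝ) = u • ((1, 0, 0, 1) - (0, 0, 0, 1)) +
        v • ((0, 1, 0, 1) - (0, 0, 0, 1)) + (0, 0, t, h) := by simp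
    rw [e]
    simp only [map_add, map_smul, map_sub, smul_eq_mul]
    ring
  have r1 : rh k ≤ 1 := by nlinarith [pf.rh_eq, pf.rh_pos, pf.k1]
  have r2 : 100 * ze k ≤ ga k * rh k := by
    have a1 := pf.rh_eq
    have a2 := pf.ze_eq
    have a3 := pf.k1
    have a4 := pf.om_pos
    have a5 : ga k * rh k * k = om k / 10 ^ 4 := by unfold ga; linear_combination om k / 10 ^ 4 * a1
    apply le_of_mul_le_mul_right _ (show (0 : ℝ) < k by linarith)
    rw [a5]; nlinarith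
  obtain ⟨p1, p2⟩ := hE 1 0 0 (by simp) (by simp) (by simp)
  obtain ⟨q1, q2⟩ := hE 0 1 0 (by simp) (by simp) (by simp)
  obtain ⟨o1, o2⟩ := hE 0 0 0 (by simp) (by simp) (by simp)
  simp only [mul_one, mul_zero, add_zero, zero_add, sub_zero] at p1 p2 q1 q2 o1 o2
  have hs : ∀ x y a : ℝ, |x - a| ≤ ze k → |y| ≤ ze k → |x - y - a| ≤ 2 * ze k := fun x y a e e' => by
    rw [abs_le] at *; constructor <;> linarith [e.1, e.2, e'.1, e'.2]
  obtain ⟨s1, s2⟩ := hPERT α1 β1 α2 β2 _ _ _ _ (ze k) (ga k) (rh k)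
    (by unfold ga; linarith [pf.om_pos]) r1 r2 h1 h2 h3 h4 hd (hs _ _ _ p1 o1) (hs _ _ _ q1 o1)
    (hs _ _ _ p2 o2) (hs _ _ _ q2 o2)
  simp only [add_sub_cancel] at s1 s2
  refine ⟨fun t ht => ?_, fun z e e1 e2 => ?_⟩
  · obtain ⟨c1, c2⟩ := hE 0 0 t (by simp) (by simp) ht
    simp only [mul_zero, add_zero, sub_zero] at c1 c2
    obtain ⟨u, v, hu, hv, e1, e2⟩ := s1 _ _ c1 c2
    obtain ⟨g1, g2, g3⟩ := hφ u v t 1
    exact ⟨φ (u, v, t, 1), hB u v t (hu.trans r1) (hv.trans r1) ht, g1,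
      (hL f1 u v t 1).trans e1, (hL f2 u v t 1).trans e2, by rwa [g2], by rwa [g3]⟩
  · obtain ⟨g1, g2, g3⟩ := hφ (cu c (z, 0, 0)) (cv c (z, 0, 0)) 0 0
    set u := cu c (z, 0, 0) with hu
    set v := cv c (z, 0, 0) with hv
    have d : ((z - φ (u, v, 0, 0), 0, 0) : UG k) = (z, 0, 0) - (φ (u, v, 0, 0), 0, 0) := by simp
    have hzz : z = φ (u, v, 0, 0) := sub_eq_zero.1 (hz _
      (fun i hi => by rw [d, map_sub, e i hi, g1 i hi, sub_zero])
      (by rw [d, map_sub, g2, sub_self]) (by rw [d, map_sub, g3, sub_self]))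
    have z0 : P (0, 0, 0, 0) = 0 := map_zero P
    have k1 := hL f1 u v 0 0
    have k2 := hL f2 u v 0 0
    rw [hP u v, ← hzz, z0, map_zero, add_zero] at k1 k2
    obtain ⟨u0, v0⟩ := s2 u v (k1.symm.trans e1) (k2.symm.trans e2)
    exact hz z e u0 v0

end Pool.Agent.P.MP_af6acb_co.Fat

/-! Step VX1. -/

namespace Pool.Agent.P.MP_af6acb_co.Fat

open Finset Module
open scoped Classical

lemma vx1_key (hSLV : S_SLV) {k : ℕ} (hk : 1 ≤ k) (σ : Fin k → Bool) (c : Cn k) (r1 r2 : RG k)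
    (α1 β1 α2 β2 : ℝ) (h1 : |α1| ≤ 3) (h2 : |β1| ≤ 3) (h3 : |α2| ≤ 3) (h4 : |β2| ≤ 3)
    (hd : ga k ≤ |α1 * β2 - α2 * β1|)
    (n1 : ∀ p, Box p → (gad k).Tt (reg σ) p → |FG k r1 p - (α1 * cu c p + β1 * cv c p)| ≤ ze k)
    (n2 : ∀ p, Box p → (gad k).Tt (reg σ) p → |FG k r2 p - (α2 * cu c p + β2 * cv c p)| ≤ ze k) :
    (gad k).Inj (insert r1 (insert r2 (reg σ))) ∧
      ∀ t, |t| ≤ 1 → ∃ z, Box (z, t, 1) ∧ (gad k).Tt (insert r1 (insert r2 (reg σ))) (z, t, 1) ∧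
        |cu c (z, t, 1)| ≤ rh k ∧ |cv c (z, t, 1)| ≤ rh k := by
  obtain ⟨a, b⟩ := hSLV k hk σ c (FG k r1) (FG k r2) α1 β1 α2 β2 h1 h2 h3 h4 hd
    fun p hp ht => ⟨n1 p hp ht, n2 p hp ht⟩
  have tt : ∀ p, (gad k).Tt (insert r1 (insert r2 (reg σ))) p ↔
      FG k r1 p = 0 ∧ FG k r2 p = 0 ∧ (gad k).Tt (reg σ) p := fun p => by
    simp only [Gad.Tt, forall_mem_insert, gad_F]
  refine ⟨fun z hz => ?_, fun t ht => ?_⟩
  · obtain ⟨e1, e2, e3⟩ := (tt _).1 hz
    exact b z e3 e1 e2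
  · obtain ⟨z, hb, e3, e1, e2, u, v⟩ := a t ht
    exact ⟨z, hb, (tt _).2 ⟨e1, e2, e3⟩, u, v⟩

theorem p_VX1 (hPF : S_PF) (hBK : S_BK) (hNEAR : S_NEAR) (hSLV : S_SLV) :
    S_VX1 := by
  intro k hk v
  obtain ⟨σ, x⟩ := v
  have P := hPF k hk
  have o1 := P.om_pos
  have o2 := P.om_le
  have g0 : 0 < ga k := by unfold ga; positivity
  have g1 : ga k ≤ 1 / 200 := by unfold ga; linarith
  have hM : ∀ (c : Cn k) p, Box p → (gad k).Tt (reg σ) p →
      |FG k (.inr (lM (co c))) p - (1 * cu c p + 0 * cv c p)| ≤ ze k := fun c p hp _ => by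
    simpa [cu] using (hNEAR k hk p hp).M (co c)
  have hB : ∀ (b : Bool) p, Box p → (gad k).Tt (reg σ) p →
      |FG k (.inr (lB k)) p - (0 * cu (.inl b) p + 1 * cv (.inl b) p)| ≤ ze k :=
    fun b p hp _ => by simpa [cv] using (hNEAR k hk p hp).B
  have hC : ∀ (j : Fin k) (s : Bool) p, Box p → (gad k).Tt (reg σ) p →
      |FG k (chd σ j) p - (0 * cu (.inr (j, s)) p + 1 * cv (.inr (j, s)) p)| ≤ ze k :=
    fun j s p hp ht => by
      rw [chd_eq ht]
      simpa [cv] using ((hNEAR k hk p hp).ch j).2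
  have hL : ∀ (j : Fin k) (s : Bool) p, Box p → (gad k).Tt (reg σ) p →
      |FG k (.inr (lF σ j s false)) p -
        (1 * cu (.inr (j, s)) p + tB σ (j + 1) * cv (.inr (j, s)) p)| ≤ ze k :=
    fun j s p hp _ => by
      rw [FG_FL, one_mul]
      exact (hNEAR k hk p hp).FL σ j s
  have hF : ∀ (j : Fin k) (s : Bool) p, Box p → (gad k).Tt (reg σ) p →
      |FG k (.inr (lF σ j s true)) p -
        (1 * cu (.inr (j, s)) p + (1 - ga k) * tB σ (j + 1) * cv (.inr (j, s)) p)| ≤ ze k :=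
    fun j s p hp _ => by
      rw [FG_Fc, one_mul]
      exact (hNEAR k hk p hp).Fc σ j s
  have a0 : |(0 : ℝ)| ≤ 3 := by norm_num
  have a1 : |(1 : ℝ)| ≤ 3 := by norm_num
  rcases x with b | ⟨j, s, d⟩
  · exact vx1_key hSLV hk σ (.inl b) _ _ 0 1 1 0 a0 a1 a1 a0 (by norm_num; linarith) (hB b)
      (hM (.inl b))
  · have t1 := ((hBK k hk σ).2 j).tB_ge
    have t3 := ((hBK k hk σ).2 j).tB_le
    have aL : |tB σ (j + 1)| ≤ 3 := abs_le.2 ⟨by linarith, t3⟩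
    have aF : |(1 - ga k) * tB σ (j + 1)| ≤ 3 := abs_le.2 ⟨by nlinarith, by nlinarith⟩
    cases d <;> by_cases hc : Cre σ j
    · have := vx1_key hSLV hk σ (.inr (j, s)) _ _ _ _ _ _ a1 aF a1 aL
        (le_abs.2 (Or.inl (by nlinarith))) (hF j s) (hL j s)
      simpa only [TVg, ex2, if_pos hc, Sum.map_inr, co] using this
    · have := vx1_key hSLV hk σ (.inr (j, s)) _ _ _ _ _ _ a0 a1 a1 aL
        (le_abs.2 (Or.inr (by linarith))) (hC j s) (hL j s)
      simpa only [TVg, ex2, if_neg hc, Sum.map_inr, co] using this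
    · have := vx1_key hSLV hk σ (.inr (j, s)) _ _ _ _ _ _ a1 aF a1 a0
        (le_abs.2 (Or.inr (by nlinarith))) (hF j s) (hM (.inr (j, s)))
      simpa only [TVg, ex2, if_pos hc, Sum.map_inr, co] using this
    · have := vx1_key hSLV hk σ (.inr (j, s)) _ _ _ _ _ _ a1 aL a1 a0
        (le_abs.2 (Or.inr (by linarith))) (hL j s) (hM (.inr (j, s)))
      simpa only [TVg, ex2, if_neg hc, Sum.map_inr, co] using this

end Pool.Agent.P.MP_af6acb_co.Fat

/-! Step VX2. -/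

namespace Pool.Agent.P.MP_af6acb_co.Fat

open Finset Module
open scoped Classical

lemma vx2_own {k : ℕ} {σ : Fin k → Bool} {j : Fin k} {side d : Bool} {p : UG k}
    (ht : (gad k).Tt (TVg (σ, .inr (j, side, d))) p)
    (h : Mic σ j (FG k (.inr (lM (cm j side))) p) (FG k (chd σ j) p)
      (FG k (.inr (lF σ j side false)) p) (FG k (.inr (lF σ j side true)) p)) :
    ∀ i, i = .inr (lM (cm j side)) ∨ i = chd σ j ∨ (∃ e, i = .inr (lF σ j side e)) →
      i ∉ TVg (σ, .inr (j, side, d)) → 0 < FG k i p := by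
  have m1 : (ex2 σ (.inr (j, side, d))).1 ∈ TVg (σ, .inr (j, side, d)) := mem_insert_self _ _
  have m2 : (ex2 σ (.inr (j, side, d))).2 ∈ TVg (σ, .inr (j, side, d)) :=
    mem_insert_of_mem (mem_insert_self _ _)
  generalize TVg (σ, .inr (j, side, d)) = T at ht m1 m2
  by_cases c : Cre σ j <;> cases d <;> simp only [ex2, c, if_true, if_false] at m1 m2 <;>
    have t1 : FG k _ p = 0 := ht _ m1 <;> have t2 : FG k _ p = 0 := ht _ m2 <;>
    rintro i (rfl | rfl | ⟨_ | _, rfl⟩) hi <;> try contradiction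
  · exact (h.c3 c t2 t1).1
  · exact (h.c3 c t2 t1).2
  · exact (h.c4 c t1 t2).2
  · exact (h.c4 c t1 t2).1
  · exact (h.k2 c t2).1 t1
  · exact (h.k1 c ((h.k2 c t2).1 t1).le t1.ge t2.ge).1
  · exact (h.k2 c t1).2 t2
  · exact (h.k1 c t2.ge ((h.k2 c t1).2 t2).le t1.ge).1

lemma vx2_chd {k : ℕ} {v : VG k} {x : Fin k × Bool} (h : Sum.inl x ∉ TVg v) :
    Sum.inl x = chd v.1 x.1 := by
  have : ¬x.2 = v.1 x.1 := fun e => h (mem_insert_of_mem (mem_insert_of_mem (inl_mem_reg.2 e)))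
  rw [chd, ← Bool.eq_not.2 this]

theorem p_VX2 (hNEAR : S_NEAR) (hMAC : S_MAC) (hMIC : S_MIC) (hPOS : S_POS) (hOTH : S_OTH) :
    S_VX2 := by
  rintro k hk ⟨σ, a⟩ p bx ht hu hv
  have nr := hNEAR k hk p bx
  have atc := (hMAC k hk p _ bx.h1).1 hu hv
  obtain ⟨o1, o2, o3, o4⟩ := hOTH k hk p _ nr atc hu hv
  have tr : (gad k).Tt (reg σ) p := fun i hi => ht i (mem_insert_of_mem (mem_insert_of_mem hi))
  have fk : ∀ σ' j side e, 0 < sFL σ' j side p ∧ 0 < sFc σ' j side p →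
      0 < FG k (.inr (lF σ' j side e)) p := fun σ' j side e h => by
    cases e
    · exact FG_FL σ' j side ▸ h.1
    · exact FG_Fc σ' j side ▸ h.2
  rcases a with b | ⟨j, side, d⟩
  · rintro (x | f) hi
    · rw [vx2_chd hi, chd_eq tr]
      exact o2 _ fun _ => Sum.inl_ne_inr
    rcases leaf_cases f with ⟨j, rfl⟩ | rfl | ⟨σ', j, side, e, rfl⟩
    · refine o1 j ?_
      rintro rfl
      exact hi (mem_insert_of_mem (mem_insert_self _ _))
    · exact absurd (mem_insert_self _ _) hi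
    · exact fk _ _ _ _ (o4 _ _ _ Sum.inl_ne_inr)
  have own := vx2_own ht (by simpa using hMIC k hk σ j side p bx nr tr)
  have nn : ∀ i, (i ∉ TVg (σ, .inr (j, side, d)) → 0 < FG k i p) → 0 ≤ FG k i p := fun i h =>
    (em _).elim (fun e => (ht i e).ge) fun e => (h e).le
  have lev : ∀ x, Sum.inl x ∉ TVg (σ, .inr (j, side, d)) → 0 < FG k (.inl x) p := fun x hi => by
    have e := vx2_chd hi
    by_cases c : x.1 = j
    · exact own _ (.inr (.inl (c ▸ e))) hi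
    · rw [e, chd_eq tr]
      exact o2 _ fun _ h => c (congrArg Prod.fst (Sum.inr.inj h)).symm
  rintro (x | f) hi
  · exact lev x hi
  rcases leaf_cases f with ⟨j', rfl⟩ | rfl | ⟨σ', j', side', e, rfl⟩
  · by_cases c : j' = cm j side
    · exact own _ (.inl (by rw [c])) hi
    · exact o1 j' c
  · exact o3 fun _ => Sum.inr_ne_inl
  by_cases c : (j, side) = (j', side')
  · obtain ⟨rfl, rfl⟩ := Prod.mk.inj c
    by_cases g : ∀ l, j < l → σ' l = σ l
    · exact own _ (.inr (.inr ⟨e, by rw [lF_eq_iff.2 ⟨⟨rfl, g⟩, rfl, rfl⟩]⟩)) hi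
    · refine fk _ _ _ _ (hPOS k hk σ σ' j side p bx nr tr (fun x => nn _ (lev x)) ?_ atc
        (by simpa using g))
      simpa using nn _ (own _ (.inl rfl))
  · exact fk _ _ _ _ (o4 _ _ _ fun h => c (Sum.inr.inj h))

end Pool.Agent.P.MP_af6acb_co.Fat
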