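import Pool.Agent.P.MP_af6acb_co.Fat.IfaceG

set_option linter.unusedSectionVars false

/-! Step PC. -/

namespace Pool.Agent.P.MP_af6acb_co.Fat

open Finset Module
open scoped Classical

lemma pc_real {u v t z r : ℝ} (hu : -z ≤ u) (hv : -z ≤ v) (t1 : 1 / 2 ≤ t) (t2 : t ≤ 3)
    (hz : 0 < z) (hr : 10 ^ 4 * z ≤ r) (h : |0 - (u + t * v)| ≤ z) : |u| ≤ r ∧ |v| ≤ r := by
  have h1 := (abs_le.1 h).1
  have h2 : u ≤ 4 * z := by nlinarith
  have h3 : v ≤ 4 * z := by
    by_contra hc
    nlinarith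
  constructor <;> rw [abs_le] <;> constructor <;> linarith

theorem p_PC (hPF : S_PF) (hBK : S_BK) (hBOX : S_BOX) (hNEAR : S_NEAR) (hMAC : S_MAC) (hCOR : S_COR) (hMIC : S_MIC) (hPOS : S_POS) :
    S_PC := by
  intro k hk p hA hF hex
  choose σ hσ using hex
  have hT := tt_reg.2 hσ
  have box := (hBOX k hk p).1 hA hF
  have nr := hNEAR k hk p box
  have pf := hPF k hk
  have z0 := pf.ze_pos
  have z1 := pf.ze_rh
  have hF' : ∀ i, 0 ≤ FG k i p := hF
  have lo : ∀ j : Fin (k + 1), -ze k ≤ psi k (2 * (j : ℝ) + 1) p := fun j => by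
    have a1 := (abs_le.1 (nr.M j)).2
    have a2 : 0 ≤ sM k j p := hF' (.inr (lM j))
    linarith
  have le : ∀ j : Fin k, -ze k ≤ psi k (2 * (j : ℝ) + 2) p := fun j => by
    have a1 := (abs_le.1 (nr.ch j).2).2
    have a2 := hF' (chd σ j)
    rw [chd_eq hT] at a2
    linarith
  have lb : -ze k ≤ bet k p := by
    have a1 := (abs_le.1 nr.B).2
    have a2 : 0 ≤ sB k p := hF' (.inr (lB k))
    linarith
  obtain ⟨c, hc⟩ := hCOR k hk p box.h1 (fun j => by linarith [lo j]) (fun j => by linarith [le j])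
    (by linarith)
  have key : ∀ i, FG k i p = 0 → i ∈ reg σ ∨ i = .inr (lM (co c)) ∨
      (i = .inr (lB k) ∧ ∃ b, c = .inl b) ∨ ∃ j side, c = .inr (j, side) ∧
        (i = chd σ j ∨ i = .inr (lF σ j side false) ∨ i = .inr (lF σ j side true)) := by
    rintro (⟨j, b⟩ | f) h
    · by_cases hb : b = σ j
      · exact Or.inl (inl_mem_reg.2 hb)
      · have e : (Sum.inl (j, b) : RG k) = chd σ j := by
          rw [chd, Bool.eq_not_iff.2 hb]
        rw [e, chd_eq hT] at h
        have a1 := (abs_le.1 (nr.ch j).2).1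
        obtain ⟨side, hs⟩ := hc.even j (by linarith)
        exact Or.inr (Or.inr (Or.inr ⟨j, side, hs, Or.inl e⟩))
    · rcases leaf_cases f with ⟨j, rfl⟩ | rfl | ⟨σ', j, side, kind, rfl⟩
      · have a1 := (abs_le.1 (nr.M j)).1
        rw [FG_M] at h
        exact Or.inr (Or.inl (by rw [← hc.odd j (by linarith)]))
      · have a1 := (abs_le.1 nr.B).1
        rw [FG_B] at h
        exact Or.inr (Or.inr (Or.inl ⟨rfl, hc.bot (by linarith)⟩))
      · have bk := (hBK k hk σ').2 j
        have t1 := bk.tB_ge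
        have t2 := bk.tB_le
        have g1 : 0 < ga k := by have := pf.om_pos; unfold ga; linarith
        have g2 : ga k ≤ 1 / 2 := by have := pf.om_le; unfold ga; linarith
        have a1 : |psi k (2 * (cm j side : ℝ) + 1) p| ≤ rh k ∧
            |psi k (2 * (j : ℝ) + 2) p| ≤ rh k := by
          cases kind
          · rw [FG_FL] at h
            exact pc_real (lo _) (le j) (by linarith) t2 z0 z1 (h ▸ nr.FL σ' j side)
          · rw [FG_Fc] at h
            exact pc_real (lo _) (le j) (by nlinarith) (by nlinarith) z0 z1 (h ▸ nr.Fc σ' j side)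
        obtain ⟨s, rfl⟩ := hc.even j (abs_le.1 a1.2).2
        have a2 := congrArg Fin.val (hc.odd _ (abs_le.1 a1.1).2)
        obtain rfl : side = s := by
          simp only [co, cm_val] at a2
          cases side <;> cases s <;> simp_all
        have a3 := (hMAC k hk p (.inr (j, side)) box.h1).1 a1.1 a1.2
        have a4 : ∀ l, j < l → σ' l = σ l := fun l hl => by_contra fun hn => by
          have a5 := hPOS k hk σ σ' j side p box nr hT (fun x => hF' _)
            (by simpa using hF' (.inr (lM (cm j side)))) a3 ⟨l, hl, hn⟩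
          cases kind
          · exact a5.1.ne' (FG_FL σ' j side ▸ h)
          · exact a5.2.ne' (FG_Fc σ' j side ▸ h)
        have e : lF σ' j side kind = lF σ j side kind := lF_eq_iff.2 ⟨⟨rfl, a4⟩, rfl, rfl⟩
        refine Or.inr (Or.inr (Or.inr ⟨j, side, rfl, Or.inr ?_⟩))
        rw [e]
        cases kind
        exacts [Or.inl rfl, Or.inr rfl]
  rcases c with b | ⟨j, side⟩
  · refine ⟨(σ, .inl b), fun i hi => ?_⟩
    rcases key i hi with h | rfl | ⟨rfl, -⟩ | ⟨j, side, h, -⟩
    · exact mem_insert_of_mem (mem_insert_of_mem h)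
    · exact mem_insert_of_mem (mem_insert_self _ _)
    · exact mem_insert_self _ _
    · cases h
  have mic := hMIC k hk σ j side p box nr hT
  rw [← cm_val, ← FG_M, ← FG_FL, ← FG_Fc] at mic
  have fin : ∀ v, reg σ ⊆ TVg v → (∀ i ∈ [.inr (lM (cm j side)), chd σ j,
      .inr (lF σ j side false), .inr (lF σ j side true)], FG k i p ≠ 0 ∨ i ∈ TVg v) →
      ∃ v, ∀ i, FG k i p = 0 → i ∈ TVg v := fun v h1 h2 => ⟨v, fun i hi => by
    rcases key i hi with h | rfl | ⟨-, b, h⟩ | ⟨j', s, h, h'⟩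
    · exact h1 h
    · exact (h2 _ (by simp [co])).resolve_left (not_not.2 hi)
    · cases h
    · cases h
      exact (h2 i (by simp [h'])).resolve_left (not_not.2 hi)⟩
  have sub : ∀ x, reg σ ⊆ TVg (σ, x) := fun x =>
    (subset_insert _ _).trans (subset_insert _ _)
  by_cases hC : Cre σ j
  · by_cases hm : FG k (.inr (lM (cm j side))) p = 0
    · have a1 := mic.c1 hC (hF' _) (hF' _) hm
      exact fin (σ, .inr (j, side, true)) (sub _) (by simp [TVg, ex2, hC, a1.1, -FG_FL, a1.2])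
    · by_cases hx : FG k (chd σ j) p = 0
      · have a1 := mic.c2 hC (hF' _) hx
        have a2 : ¬Cre (flp σ j) j := fun h => (cre_flp σ j).1 h hC
        refine fin (flp σ j, .inr (j, side, false)) ?_
          (by simp [TVg, ex2, a2, -FG_Fc, a1, -FG_M, hm, chd])
        intro i hi
        obtain ⟨l, -, rfl⟩ := mem_image.1 hi
        by_cases hl : l = j
        · simp [TVg, ex2, a2, chd, hl]
        · simp [TVg, flp_ne σ hl]
      · exact fin (σ, .inr (j, side, false)) (sub _) (by simp [TVg, ex2, hC, -FG_M, hm, hx])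
  · have a1 := mic.k1 hC (hF' _) (hF' _) (hF' _)
    by_cases hm : FG k (.inr (lM (cm j side))) p = 0
    · exact fin (σ, .inr (j, side, true)) (sub _)
        (by simp [TVg, ex2, hC, -FG_Fc, a1.1.ne', a1.2 hm])
    · exact fin (σ, .inr (j, side, false)) (sub _)
        (by simp [TVg, ex2, hC, -FG_Fc, a1.1.ne', -FG_M, hm])

end Pool.Agent.P.MP_af6acb_co.Fat

/-! Step DE. -/

namespace Pool.Agent.P.MP_af6acb_co.Fat

open Finset Module
open scoped Classical

lemma de_id (hLF : S_LF) {k : ℕ} (hk : 1 ≤ k) (lam : RG k → ℝ) (a b c1 c2 w : ℝ) (z : WG k)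
    (t : ℝ) : ∑ i, lam i * (gad k).F i (z, t, 0) + a * ((gad k).mu z + (gad k).s0 * t) +
      b * (gad k).nu z + c1 * (gad k).x1 z + c2 * (gad k).x2 z - w * t =
    (c1 - (∑ j : Fin k, (2 * (j : ℝ) + 2) * lam (.inl (j, true)) +
      ∑ f, lam (.inr f) * r1 k f)) * z.1 +
    (c2 - (∑ j, lam (.inl (j, true)) + ∑ f, lam (.inr f) * r2 k f)) * z.2.1 +
    ∑ j : Fin k, (sc k j * (a + ∑ f, lam (.inr f) * af k f) - (gq (fun x => lam (.inl x)) w j +
      ep k (j + 1) * (lam (.inl (j, true)) + lam (.inl (j, false))))) * cY k j (z, t, 0) +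
    (b + ∑ f, lam (.inr f) * ta k f - de k * (c2 - ∑ f, lam (.inr f) * r2 k f) -
      gq (fun x => lam (.inl x)) w k) * cY k k (z, t, 0) := by
  have h1 : (gad k).mu z + sc k 0 * t = ∑ j : Fin k, sc k j * cY k j (z, t, 0) := by
    rw [← muU_split hk z t 0, muU_apply, Finset.sum_range]
  have h2 : (gad k).x2 z = z.2.1 - de k * cY k k (z, t, 0) := by
    rw [gad_x2, nu_eq hk z t 0, gad_nu]
  have h3 := sum_range_succ' (fun l => gq (fun x => lam (.inl x)) w l * cY k l (z, t, 0)) k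
  rw [sum_range_succ, Finset.sum_range, Finset.sum_range] at h3
  simp only [gq_fin, gq_zero, cY_zero] at h3
  have h4 : ∑ f, lam (.inr f) * FG k (.inr f) (z, t, 0) =
      -((∑ f, lam (.inr f) * r1 k f) * z.1) - (∑ f, lam (.inr f) * r2 k f) * (gad k).x2 z +
      (∑ f, lam (.inr f) * af k f) * ((gad k).mu z + sc k 0 * t) +
      (∑ f, lam (.inr f) * ta k f) * cY k k (z, t, 0) := by
    simp only [sum_mul, ← sum_neg_distrib, ← sum_sub_distrib, ← sum_add_distrib]
    refine sum_congr rfl fun f _ => ?_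
    rw [(hLF k hk f).form, gad_x1, nu_eq hk z t 0]
    ring
  have h5 : ∑ x : Fin k × Bool, lam (.inl x) * FG k (.inl x) (z, t, 0) =
      -((∑ j : Fin k, (2 * (j : ℝ) + 2) * lam (.inl (j, true))) * z.1) -
      (∑ j, lam (.inl (j, true))) * z.2.1 -
      ∑ j : Fin k, (lam (.inl (j, true)) - lam (.inl (j, false))) * cY k (j + 1) (z, t, 0) -
      ∑ j : Fin k, ep k (j + 1) * (lam (.inl (j, true)) + lam (.inl (j, false))) *
        cY k j (z, t, 0) := by
    simp only [Fintype.sum_prod_type, Fintype.sum_bool, sum_mul, ← sum_neg_distrib,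
      ← sum_sub_distrib]
    refine sum_congr rfl fun j _ => ?_
    rw [FG_U, FG_L, sU_apply, sL_apply, psi_apply]
    ring
  have h6 : ∀ A : ℝ, ∑ j : Fin k, (sc k j * A - (gq (fun x => lam (.inl x)) w j +
      ep k (j + 1) * (lam (.inl (j, true)) + lam (.inl (j, false))))) * cY k j (z, t, 0) =
      A * ∑ j : Fin k, sc k j * cY k j (z, t, 0) -
      ∑ j : Fin k, gq (fun x => lam (.inl x)) w j * cY k j (z, t, 0) -
      ∑ j : Fin k, ep k (j + 1) * (lam (.inl (j, true)) + lam (.inl (j, false))) *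
        cY k j (z, t, 0) := fun A => by
    simp only [mul_sum, ← sum_sub_distrib]
    exact sum_congr rfl fun j _ => by ring
  rw [Fintype.sum_sum_type, gad_F, h4, h5, h6, gad_s0, h1, h2, gad_x1, ← nu_eq hk z t 0]
  linear_combination h3

lemma de_pt {k : ℕ} (x y : ℝ) (v : ℕ → ℝ) {l : ℕ} (hl : l ≤ k) :
    cY k l ((x, y, fun j => v (j + 1)), v 0, 0) = v l := by
  rcases l with _ | n
  · rfl
  · exact cY_fin ⟨n, hl⟩ _

theorem p_DE (hLF : S_LF) :
    S_DE := by
  intro k hk lam a b c1 c2 w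
  constructor
  · rintro ⟨h0, h⟩
    have key := fun (x y : ℝ) (v : ℕ → ℝ) => (de_id hLF hk lam a b c1 c2 w
      (x, y, fun j => v (j + 1)) (v 0)).symm.trans (sub_eq_zero.2 (h _ _))
    simp only [de_pt _ _ _ le_rfl, de_pt _ _ _ (Fin.is_lt _).le] at key
    have e1 := key 1 0 0
    have e2 := key 0 1 0
    have e3 := key 0 0 fun l => if l = k then 1 else 0
    simp only [Pi.zero_apply, mul_zero, sum_const_zero, add_zero, zero_add, mul_one, if_true,
      (Fin.is_lt _).ne, if_false] at e1 e2 e3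
    refine ⟨fun x => h0 _, fun f => h0 _, fun j => ?_, ?_, sub_eq_zero.1 e1, sub_eq_zero.1 e2⟩
    · have e4 := key 0 0 fun l => if l = j then 1 else 0
      simp only [mul_zero, add_zero, zero_add, j.is_lt.ne', if_false, Fin.val_inj, mul_ite, mul_one,
        sum_ite_eq', mem_univ, if_true] at e4
      exact (sub_eq_zero.1 e4).symm
    · linear_combination -e3 - de k * e2
  · intro h
    refine ⟨fun i => i.rec h.mu_pos h.la_pos, fun z t => sub_eq_zero.1 ?_⟩
    rw [de_id hLF hk, sum_eq_zero (f := fun j : Fin k => (sc k j * _ - _) * _) fun j _ =>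
      mul_eq_zero_of_left (sub_eq_zero.2 (h.chain j).symm) _, h.top]
    linear_combination z.1 * h.e1 + (z.2.1 - de k * cY k k (z, t, 0)) * h.e2

end Pool.Agent.P.MP_af6acb_co.Fat

/-! Step TN. -/

namespace Pool.Agent.P.MP_af6acb_co.Fat

open Finset Module
open scoped Classical

lemma tn_step {e m s s' p p' o A g : ℝ} (he : 0 < e) (h1 : g + e * m = s * A) (h2 : p = e * p')
    (h3 : e * s' = 2 * s) (h : |g| ≤ s * A - 3 / 4 * (p * o * A)) :
    3 / 4 * (p' * o * A) ≤ m ∧ m ≤ s' * A - 3 / 4 * (p' * o * A) := by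
  obtain ⟨a, b⟩ := abs_le.1 h
  subst h2
  constructor
  · refine le_of_mul_le_mul_left ?_ he
    linarith
  · refine le_of_mul_le_mul_left ?_ he
    have : e * (s' * A - 3 / 4 * (p' * o * A)) = 2 * s * A - 3 / 4 * (e * p' * o * A) := by
      rw [← h3]; ring
    linarith

theorem p_TN (hPF : S_PF) :
    S_TN := by
  intro k hk μ A w h0 hc hw
  have F := hPF k hk
  have hA : 0 ≤ A := nonneg_of_mul_nonneg_right ((abs_nonneg w).trans hw)
    (by have := F.sc_pos 0; positivity)
  have key : ∀ n ≤ k, |gq μ w n| ≤ sc k n * A - 3 / 4 * (pp k n * om k * A) := fun n => by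
    induction n with
    | zero =>
      intro _
      refine hw.trans_eq ?_
      rw [sc]
      ring
    | succ n ih =>
      intro hn
      have := (tn_step (F.ep_pos _) (hc ⟨n, hn⟩) (F.pp_step n hn) (F.sc_step n hn)
        (ih (by omega))).2
      rw [gq_fin μ w ⟨n, hn⟩]
      have a := h0 (⟨n, hn⟩, true)
      have b := h0 (⟨n, hn⟩, false)
      exact (abs_le.2 ⟨by linarith, by linarith⟩).trans this
  have st := fun j : Fin k =>
    tn_step (F.ep_pos _) (hc j) (F.pp_step j j.2) (F.sc_step j j.2) (key j j.2.le)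
  have pos : ∀ n, 0 ≤ 3 / 4 * (pp k n * om k * A) := fun n => by
    have := F.pp_pos n
    have := F.om_pos
    positivity
  refine ⟨fun j => (st j).1, ?_, ?_⟩
  · have h1 : ∑ j : Fin k, μ (j, true) ≤ ∑ j : Fin k, sc k (j + 1) * A := sum_le_sum fun j _ => by
      have := (st j).2
      have := h0 (j, false)
      have := pos (j + 1)
      linarith
    have h2 := F.sc_sum
    rw [sum_range_succ', sum_range] at h2
    rw [← sum_mul] at h1
    have := F.sc_pos 0
    exact h1.trans (mul_le_mul_of_nonneg_right (by linarith) hA)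
  · have := key k le_rfl
    have := pos k
    rw [F.sc_top] at *
    linarith

end Pool.Agent.P.MP_af6acb_co.Fat

/-! Step TM. -/

namespace Pool.Agent.P.MP_af6acb_co.Fat

open Finset Module
open scoped Classical

theorem p_TM (hPF : S_PF) :
    S_TM := by
  intro k hk μ A w σ J hJ hc hz
  have F := hPF k hk
  have key : ∀ n, J + n ≤ k → gq μ w (J + n) = sc k (J + n) * A * up σ J 0 n +
      (∏ l ∈ Ioc J (J + n), -sg σ l) * gq μ w J * pp k (J + n) / pp k J := fun n => by
    induction n with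
    | zero =>
      intro _
      simp [up, (F.pp_pos J).ne']
    | succ n ih =>
      intro hn
      have hn' : J + n < k := hn
      have e1 := hc ⟨J + n, hn'⟩
      have e2 : gq μ w (J + n + 1) =
          sg σ (J + n + 1) * (μ (⟨J + n, hn'⟩, true) + μ (⟨J + n, hn'⟩, false)) := by
        have := hz ⟨J + n, hn'⟩ (Nat.le_add_right _ _)
        rw [gq_fin μ w ⟨J + n, hn'⟩, sg_fin σ ⟨J + n, hn'⟩]
        cases h : σ ⟨J + n, hn'⟩ <;> simp_all [sgn]
      have e3 := F.pp_step _ hn'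
      have e4 := F.sc_step _ hn'
      simp only at e1
      rw [ih hn'.le] at e1
      rw [← add_assoc, prod_Ioc_succ_top (Nat.le_add_right _ _), up, e2]
      refine mul_left_cancel₀ (F.ep_pos (J + n + 1)).ne' ?_
      rw [e3] at e1
      linear_combination sg σ (J + n + 1) * e1 -
        A * sg σ (J + n + 1) * (1 - up σ J 0 n) / 2 * e4
  have := key (k - J) (by omega)
  rw [Nat.add_sub_cancel' hJ, F.sc_top, F.pp_top] at this
  rw [this, thB, ori]
  ring

end Pool.Agent.P.MP_af6acb_co.Fat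

/-! Step LOW. -/

namespace Pool.Agent.P.MP_af6acb_co.Fat

open Finset Module
open scoped Classical

lemma low_core {k d K a b c1 c2 L x P A : ℝ} (hk : 1 ≤ k) (hd : 0 < d) (hd1 : d ≤ 1)
    (hK : 2000 * k ≤ d * K) (ha : 0 < a) (hL : 0 ≤ L) (hA : A ≤ a + d * L) (hP0 : 0 ≤ P)
    (hP : P ≤ 2 * A) (h1 : 4 * d * x ≤ a + |b| + 3 * d * L) (h2 : P + L - 5 / 4 * x ≤ c2)
    (h3 : |c1| ≤ 2 * k * P + 15 * k * L) :
    -(K * (a + |b|)) ≤ c2 ∧ |c1| ≤ K * (a + |b| + |c2|) := by
  have hb := abs_nonneg b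
  have hc := abs_nonneg c2
  have h4 : d * (L - 5 / 4 * x) ≤ d * c2 := by gcongr; linarith
  have h5 : d * L ≤ 16 * (d * c2) + 5 * (a + |b|) := by linarith
  have h6 : 0 ≤ d * L := by positivity
  have h7 : ∀ s, 0 ≤ s → 2000 * k * s ≤ d * (K * s) := fun s hs => by
    rw [← mul_assoc]; gcongr
  constructor
  · refine le_of_mul_le_mul_left ?_ hd
    have := h7 (a + |b|) (by positivity)
    have : 1 * (a + |b|) ≤ k * (a + |b|) := by gcongr
    linarith
  · refine le_of_mul_le_mul_left ?_ hd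
    have h8 : d * c2 ≤ 1 * |c2| := (mul_le_mul_of_nonneg_left (le_abs_self c2) hd.le).trans
      (by gcongr)
    have h9 : d * L ≤ 1 * L := by gcongr
    have h10 : d * a ≤ 1 * a := by gcongr
    have h11 : |c1| ≤ k * (4 * a + 19 * L) := by
      have : k * P ≤ k * (2 * a + 2 * L) := by gcongr; linarith
      linarith
    have h12 : d * (4 * a + 19 * L) ≤ 2000 * (a + |b| + |c2|) := by linarith
    calc d * |c1| ≤ d * (k * (4 * a + 19 * L)) := by gcongr
      _ = k * (d * (4 * a + 19 * L)) := by ring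
      _ ≤ k * (2000 * (a + |b| + |c2|)) := by gcongr
      _ = 2000 * k * (a + |b| + |c2|) := by ring
      _ ≤ _ := h7 _ (by positivity)

theorem p_LOW (hPF : S_PF) (hLF : S_LF) (hDE : S_DE) (hTN : S_TN) :
    S_LOW := by
  intro k hk lam a b c1 c2 w hD ha hw
  have F := hPF k hk
  have E := (hDE k hk lam a b c1 c2 w).1 hD
  have G := hLF k hk
  obtain ⟨μ, hμ⟩ : ∃ μ : Fin k × Bool → ℝ, μ = fun x => lam (.inl x) := ⟨_, rfl⟩
  obtain ⟨la, hla⟩ : ∃ la : Lf k → ℝ, la = fun f => lam (.inr f) := ⟨_, rfl⟩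
  rw [← hμ, ← hla] at E
  have hd := F.de_pos
  have ho := F.om_pos
  have hl := E.la_pos
  have h0 : 0 ≤ ∑ f, la f * af k f :=
    sum_nonneg fun f _ => mul_nonneg (hl f) (le_trans (by positivity) (G f).af_ge)
  obtain ⟨-, t2, t3⟩ := hTN k hk μ _ w E.mu_pos E.chain (hw.trans (by
    have := F.sc_pos 0
    rw [gad_th]
    gcongr
    linarith))
  have hP : 0 ≤ ∑ j, μ (j, true) := sum_nonneg fun j _ => E.mu_pos _
  have key : ∀ (u v : ℝ) (g : Lf k → ℝ), (∀ f, f ≠ lB k → u ≤ g f) → u + v ≤ g (lB k) →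
      u * ∑ f, la f + v * la (lB k) ≤ ∑ f, la f * g f := fun u v g h1 h2 => by
    rw [mul_sum, ← add_sum_erase _ _ (mem_univ (lB k)), ← add_sum_erase _ _ (mem_univ (lB k))]
    have h3 := mul_le_mul_of_nonneg_left h2 (hl (lB k))
    have h4 : ∑ f ∈ univ.erase (lB k), u * la f ≤ ∑ f ∈ univ.erase (lB k), la f * g f :=
      sum_le_sum fun f hf => (mul_comm _ _).trans_le
        (mul_le_mul_of_nonneg_left (h1 f (ne_of_mem_erase hf)) (hl f))
    linarith
  have k1 := key (-(3 * de k)) (4 * de k) (fun f => -ta k f - af k f) (fun f _ => by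
    have := (abs_le.1 (G f).ta_le).2
    have := (G f).af_le
    linarith) (by simp only [ta_B, af_B]; linarith)
  have k2 := key 1 (-(5 / 4)) (r2 k) (fun f h => (G f).r2_ge h) (by
    rw [(G _).r2_B rfl]; norm_num)
  simp only [mul_sub, mul_neg, sum_sub_distrib, sum_neg_distrib] at k1
  refine low_core (L := ∑ f, la f) (x := la (lB k)) F.k1 hd (by linarith [F.de_le, F.om_le])
    ?_ ha (sum_nonneg fun f _ => hl f) ?_ hP t2 ?_ (by linarith [E.e2]) ?_
  · have hK : 0 ≤ Kc k := by linarith [F.K_W, F.W_eq, F.R_ge]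
    have : de k * Kc k * om k ≤ de k * Kc k * (1 / 2) := by gcongr; exact F.om_le
    linarith [F.K_de]
  · rw [mul_sum]
    refine add_le_add_right (sum_le_sum fun f _ => ?_) a
    rw [mul_comm (de k)]
    exact mul_le_mul_of_nonneg_left (G f).af_le (hl f)
  · have := (abs_le.1 t3).1
    have := mul_nonneg hd.le hP
    linarith [E.top, le_abs_self b]
  · rw [E.e1, mul_sum, mul_sum]
    refine (abs_add_le _ _).trans (add_le_add ((abs_sum_le_sum_abs _ _).trans
      (sum_le_sum fun j _ => ?_)) ((abs_sum_le_sum_abs _ _).trans (sum_le_sum fun f _ => ?_)))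
    · have := E.mu_pos (j, true)
      have hj : (j : ℝ) + 1 ≤ k := by exact_mod_cast j.2
      rw [abs_of_nonneg (by positivity)]
      gcongr
      linarith
    · rw [abs_mul, abs_of_nonneg (hl f), mul_comm]
      exact mul_le_mul_of_nonneg_right (G f).r1_le (hl f)

end Pool.Agent.P.MP_af6acb_co.Fat

/-! Step SGN. -/

namespace Pool.Agent.P.MP_af6acb_co.Fat

open Finset Module
open scoped Classical

theorem p_SGN (hPF : S_PF) (hBK : S_BK) (hLF : S_LF) :
    S_SGN := by
  intro k hk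
  have P := hPF k hk
  have w0 := P.om_pos
  have w1 := P.om_le
  have d0 := P.de_pos
  have d1 := P.de_le
  have dw : de k * om k / 64 ≤ de k := by nlinarith
  have th : ∀ (σ : Fin k → Bool) θ, |θ - thB σ 0| ≤ om k / 4 + 2 * de k → -1 ≤ θ ∧ θ ≤ 1 := by
    intro σ θ h
    have := abs_le.1 (hBK k hk σ).1
    have := abs_le.1 h
    constructor <;> linarith
  have gM : ∀ (σ : Fin k → Bool) j, GoL σ (lM j) := fun σ j θ h => by
    have := mul_le_mul_of_nonneg_left (th σ θ h).2 d0.le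
    rw [af_M, ta_M]
    linarith
  have gB : ∀ σ : Fin k → Bool, GoR σ (lB k) := fun σ θ h => by
    have := mul_le_mul_of_nonneg_left (th σ θ h).1 d0.le
    rw [af_B, ta_B]
    linarith
  have gC : ∀ (σ : Fin k → Bool) j s, GoR σ (lF σ j s true) := fun σ j s θ h => by
    have L := hLF k hk (lF σ j s true)
    have a1 := L.af_ge
    have a2 := L.fc σ j s rfl
    have := mul_le_mul_of_nonneg_left (th σ θ h).1 (le_trans (by positivity) a1)
    linarith
  have gL : ∀ (σ : Fin k → Bool) j s, Cre σ j → GoL σ (lF σ j s false) := fun σ j s c θ h => by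
    have a1 := ((hBK k hk σ).2 j).cre c
    have a2 := abs_le.1 h
    have := mul_le_mul_of_nonneg_left
      (show θ - (thB σ (j + 1) - om k / 2) ≤ -(om k / 32) by linarith) d0.le
    rw [af_FL, ta_FL]
    linarith
  have gR : ∀ (σ : Fin k → Bool) j s, ¬Cre σ j → GoR σ (lF σ j s false) := fun σ j s c θ h => by
    have a1 := ((hBK k hk σ).2 j).kil c
    have a2 := abs_le.1 h
    have := mul_le_mul_of_nonneg_left
      (show om k / 32 ≤ θ - (thB σ (j + 1) - om k / 2) by linarith) d0.le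
    rw [af_FL, ta_FL]
    linarith
  constructor
  · rintro ⟨σ, j | u | ⟨j, s, _ | _⟩⟩
    · exact .inr ⟨lM j, rfl, .inr ⟨by simp [Redg], gM σ j⟩⟩
    · exact .inr ⟨lB k, rfl, .inl ⟨by simp [Blueg], gB σ⟩⟩
    · have hB : ((σ, .inr (.inr (j, s, false))) : EG k) ∈ Blueg k :=
        mem_filter.2 ⟨mem_univ _, .inr ⟨j, s, rfl⟩⟩
      by_cases c : Cre σ j
      · exact .inr ⟨_, if_pos c, .inl ⟨hB, gC σ j s⟩⟩
      · exact .inr ⟨_, if_neg c, .inl ⟨hB, gR σ j s c⟩⟩
    · by_cases c : Cre σ j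
      · exact .inr ⟨_, if_pos c, .inr ⟨mem_filter.2 ⟨mem_univ _, .inr ⟨j, s, rfl, c⟩⟩,
          gL σ j s c⟩⟩
      · exact .inl ⟨j, if_neg c⟩
  · rintro ⟨σ, b | ⟨j, s, _ | _⟩⟩
    · exact .inr ⟨_, _, rfl, gB σ, gM σ _, lM_ne_lB, .inr ⟨_, rfl⟩⟩
    · by_cases c : Cre σ j
      · exact .inr ⟨_, _, if_pos c, gC σ j s, gL σ j s c, lF_ne_lB, .inl lF_ne_lB⟩
      · exact .inl ⟨j, s, if_neg c⟩
    · by_cases c : Cre σ j
      · exact .inr ⟨_, _, if_pos c, gC σ j s, gM σ _, lM_ne_lB, .inl lF_ne_lB⟩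
      · exact .inr ⟨_, _, if_neg c, gR σ j s c, gM σ _, lM_ne_lB, .inl lF_ne_lB⟩

end Pool.Agent.P.MP_af6acb_co.Fat

/-! Step SUP. -/

namespace Pool.Agent.P.MP_af6acb_co.Fat

open Finset Module
open scoped Classical

lemma sup_four {α : Type} [DecidableEq α] {R S : Finset α} {a b : α} (h1 : R ⊆ S)
    (h2 : S ⊆ insert a (insert b R)) :
    S = R ∨ S = insert a R ∨ S = insert b R ∨ S = insert a (insert b R) := by
  by_cases ha : a ∈ S <;> by_cases hb : b ∈ S
  · exact Or.inr (Or.inr (Or.inr (h2.antisymm (insert_subset ha (insert_subset hb h1)))))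
  · refine Or.inr (Or.inl (Subset.antisymm (fun x hx => ?_) (insert_subset ha h1)))
    have := h2 hx
    grind
  · refine Or.inr (Or.inr (Or.inl (Subset.antisymm (fun x hx => ?_) (insert_subset hb h1))))
    have := h2 hx
    grind
  · refine Or.inl (Subset.antisymm (fun x hx => ?_) h1)
    have := h2 hx
    grind

lemma sup_ex {k : ℕ} (σ : Fin k → Bool) (x : Bool ⊕ Fin k × Bool × Bool) :
    (∃ y, (ex2 σ x).1 = ex1 σ y) ∧ ∃ y, (ex2 σ x).2 = ex1 σ y := by
  rcases x with b | ⟨j, side, _ | _⟩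
  · exact ⟨⟨.inr (.inl ()), rfl⟩, ⟨.inl _, rfl⟩⟩
  · by_cases h : Cre σ j
    · exact ⟨⟨.inr (.inr (j, side, false)), by simp [ex1, ex2, h]⟩,
        ⟨.inr (.inr (j, side, true)), by simp [ex1, ex2, h]⟩⟩
    · exact ⟨⟨.inr (.inr (j, side, true)), by simp [ex1, ex2, h]⟩,
        ⟨.inr (.inr (j, side, false)), by simp [ex1, ex2, h]⟩⟩
  · refine ⟨⟨.inr (.inr (j, side, false)), ?_⟩, ⟨.inl (cm j side), ?_⟩⟩ <;>
      by_cases h : Cre σ j <;> simp [ex1, ex2, h]

lemma sup_reg {k : ℕ} (v : VG k) (S : Finset (RG k)) (h : S ⊆ TVg v) (h' : reg v.1 ⊆ S) :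
    ∃ f, S = (gad k).T f := by
  obtain ⟨⟨y, hy⟩, ⟨z, hz⟩⟩ := sup_ex v.1 v.2
  rcases sup_four h' h with e | e | e | e
  · exact ⟨.inr (.inr v.1), e⟩
  · exact ⟨.inr (.inl (v.1, y)), by rw [e, hy]; rfl⟩
  · exact ⟨.inr (.inl (v.1, z)), by rw [e, hz]; rfl⟩
  · exact ⟨.inl v, e⟩

lemma sup_lev {k : ℕ} {v : VG k} {j : Fin k} {b : Bool} (h : Sum.inl (j, b) ∈ TVg v)
    (hb : b ≠ v.1 j) : ¬Cre v.1 j ∧ ∃ side, v.2 = .inr (j, side, false) := by
  obtain ⟨σ, x⟩ := v
  simp only [TVg, mem_insert, inl_mem_reg, hb, or_false] at h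
  rcases x with c | ⟨l, side, _ | _⟩
  · simp [ex2] at h
  · by_cases hc : Cre σ l
    · simp [ex2, hc] at h
    · simp only [ex2, hc, if_false, chd, Sum.inl.injEq, Prod.mk.injEq, reduceCtorEq,
        or_false] at h
      obtain ⟨rfl, -⟩ := h
      exact ⟨hc, side, rfl⟩
  · by_cases hc : Cre σ l <;> simp [ex2, hc] at h

theorem p_SUP :
    S_SUP := by
  intro k v S hS hj
  by_cases h : reg v.1 ⊆ S
  · exact sup_reg v S hS h
  obtain ⟨j, hn⟩ : ∃ j, Sum.inl (j, v.1 j) ∉ S := by
    by_contra! hc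
    exact h (image_subset_iff.2 fun j _ => hc j)
  obtain ⟨b, hb⟩ := hj j
  have hne : b ≠ v.1 j := fun e => hn (e ▸ hb)
  obtain ⟨hc, side, hv⟩ := sup_lev (hS hb) hne
  obtain ⟨σ, x⟩ := v
  simp only at hn hne hc hv
  subst hv
  have hc' : Cre (flp σ j) j := (cre_flp σ j).2 hc
  refine sup_reg (flp σ j, .inr (j, side, false)) S (fun i hi => ?_)
    (image_subset_iff.2 fun l _ => ?_)
  · have := hS hi
    simp only [TVg, ex2, hc, hc', if_true, if_false, lF_flp, mem_insert] at this ⊢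
    rcases this with rfl | rfl | e
    · simp [chd]
    · simp
    · rcases i with ⟨l, c⟩ | f
      · have e' : c = σ l := inl_mem_reg.1 e
        have hl : l ≠ j := by
          rintro rfl
          exact hn (e' ▸ hi)
        simp [flp_ne σ hl, e']
      · simp at e
  · by_cases hl : l = j
    · subst hl
      have : flp σ l l = b := by
        rw [flp_self]
        revert hne
        cases b <;> cases σ l <;> simp
      simpa only [this] using hb
    · obtain ⟨c, hc2⟩ := hj l
      have : c = σ l := by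
        by_contra e
        obtain ⟨-, s', hs⟩ := sup_lev (hS hc2) e
        simp only [Sum.inr.injEq, Prod.mk.injEq] at hs
        exact hl hs.1.symm
      simpa only [flp_ne σ hl, ← this] using hc2

end Pool.Agent.P.MP_af6acb_co.Fat
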