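import Pool.Agent.P.MP_af6acb_co.Fat.IfaceG

set_option linter.unusedSectionVars false

/-! Step NM. -/

namespace Pool.Agent.P.MP_af6acb_co.Fat

open Finset Module
open scoped Classical

lemma nm_core {K δ a B x : ℝ} (hK : 4 ≤ K) (hδ : 1000 ≤ δ * K) (ha : 0 < a) (hB : 0 ≤ B)
    (hx : 0 ≤ x) (h : x * (δ / 64) ≤ a + B) : 2 * a + 6 * x ≤ K * (a + B) := by
  have h1 := mul_le_mul_of_nonneg_left h (show 0 ≤ K by linarith)
  have h2 := mul_le_mul_of_nonneg_left hδ hx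
  have h3 := mul_le_mul_of_nonneg_right hK (show 0 ≤ a + B by linarith)
  linarith

lemma nm_theta {A t u d o P : ℝ} (hA : 0 < A) (hu : |u| ≤ o / 4 * A) (hd : 0 < d) (h0 : 0 ≤ P)
    (hP : P ≤ 2 * A) : |(t * A + u + d * P) / A - t| ≤ o / 4 + 2 * d := by
  have e : (t * A + u + d * P) / A - t = (u + d * P) / A := by field_simp; ring
  have h1 := mul_le_mul_of_nonneg_left hP hd.le
  have h2 := mul_nonneg hd.le h0
  rw [e, abs_div, abs_of_pos hA, div_le_iff₀ hA, abs_le]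
  rw [abs_le] at hu
  constructor <;> linarith [hu.1, hu.2]

lemma nm_none (hTN : S_TN) {k : ℕ} (hk : 1 ≤ k) (F : PF k) {μ : Fin k × Bool → ℝ} {la : Lf k → ℝ}
    {a b c1 c2 w : ℝ} (E : Eqs μ la a b c1 c2 w) (ha : 0 < a) (hw : |w| ≤ sc k 0 / 4 * a)
    (h : ∀ f, la f = 0) : |b| ≤ 2 * a ∧ |c2| ≤ Kc k * (a + |b|) := by
  have c := E.chain
  have t := E.top
  have e := E.e2
  simp only [h, zero_mul, sum_const_zero, add_zero] at c t e
  obtain ⟨-, h1, h2⟩ := hTN k hk μ a w E.mu_pos c hw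
  have h0 : 0 ≤ ∑ j, μ (j, true) := sum_nonneg fun j _ => E.mu_pos _
  have hd : de k ≤ 1 / 2 := by linarith [F.de_le, F.om_le, F.de_pos]
  have h3 := mul_le_mul hd h1 h0 (by norm_num)
  have h4 := mul_nonneg F.de_pos.le h0
  have hK : 2 ≤ Kc k := by linarith [F.K_W, F.W_eq, F.R_ge]
  have h5 := mul_le_mul_of_nonneg_right hK (show 0 ≤ a + |b| by positivity)
  rw [abs_le] at h2
  refine ⟨abs_le.2 ⟨by linarith [h2.1], by linarith [h2.2]⟩, ?_⟩
  rw [e, abs_of_nonneg h0]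
  linarith [abs_nonneg b]

lemma nm_leaf (hTN : S_TN) (hTM : S_TM) {k : ℕ} (hk : 1 ≤ k) (F : PF k) {μ : Fin k × Bool → ℝ}
    {la : Lf k → ℝ} {a b c1 c2 w : ℝ} (E : Eqs μ la a b c1 c2 w) (ha : 0 < a)
    (hw : |w| ≤ sc k 0 / 4 * a) {σ : Fin k → Bool} {f : Lf k} (L : LF f)
    (ht : |thB σ 0| ≤ 1 - om k) (h : ∀ g, g ≠ f → la g = 0) (hμ : ∀ j, μ (j, !σ j) = 0) :
    (GoR σ f → -a ≤ b ∧ |c2| ≤ Kc k * (a + |b|)) ∧
      (GoL σ f → b ≤ a ∧ |c2| ≤ Kc k * (a + |b|)) := by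
  have s : ∀ g : Lf k → ℝ, ∑ i, la i * g i = la f * g f := fun g =>
    sum_eq_single f (fun i _ hi => by rw [h i hi, zero_mul]) (by simp)
  have c := E.chain
  have t := E.top
  have e := E.e2
  rw [s] at c t e
  have hx := E.la_pos f
  have δ0 : 0 < de k * om k := mul_pos F.de_pos F.om_pos
  have hd : de k ≤ 1 / 2 := by linarith [F.de_le, F.om_le, F.de_pos]
  have a1 : 0 ≤ la f * af k f := mul_nonneg hx (by linarith [L.af_ge])
  have a2 : la f * af k f ≤ la f * (1 / 2) := mul_le_mul_of_nonneg_left (L.af_le.trans hd) hx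
  have hA : 0 < a + la f * af k f := by linarith
  have hw' : |w| ≤ sc k 0 / 4 * (a + la f * af k f) :=
    hw.trans (mul_le_mul_of_nonneg_left (by linarith) (by linarith [F.sc_pos 0]))
  obtain ⟨-, h1, -⟩ := hTN k hk μ _ w E.mu_pos c hw'
  have h0 : 0 ≤ ∑ j, μ (j, true) := sum_nonneg fun j _ => E.mu_pos _
  have m := hTM k hk μ _ w σ 0 k.zero_le c fun j _ => hμ j
  have hu : |ori σ 0 * w / pp k 0| ≤ om k / 4 * (a + la f * af k f) := by
    have o : |ori σ 0| = 1 := by rcases ori_cases σ 0 with h | h <;> simp [h]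
    rw [abs_div, abs_mul, o, one_mul, abs_of_pos (F.pp_pos 0), div_le_iff₀ (F.pp_pos 0)]
    refine hw'.trans_eq ?_
    simp only [sc, pow_zero]
    ring
  have hθ := nm_theta (t := thB σ 0) hA hu F.de_pos h0 h1
  rw [gq_zero] at m
  rw [← m] at hθ
  have eθ := div_mul_cancel₀ (gq μ w k + de k * ∑ j, μ (j, true)) hA.ne'
  generalize (gq μ w k + de k * ∑ j, μ (j, true)) / (a + la f * af k f) = θ at hθ eθ
  have eb : b = θ * a + la f * (af k f * θ - ta k f) := by linarith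
  have θ1 : |θ| ≤ 1 := by
    have := abs_add_le (θ - thB σ 0) (thB σ 0)
    rw [sub_add_cancel] at this
    linarith [F.de_le, F.de_pos]
  have θ2 := mul_le_mul_of_nonneg_right (abs_le.1 θ1).1 ha.le
  have θ3 := mul_le_mul_of_nonneg_right (abs_le.1 θ1).2 ha.le
  have fin : la f * (de k * om k / 64) ≤ a + |b| → |c2| ≤ Kc k * (a + |b|) := fun hh => by
    refine le_trans ?_ (nm_core (by linarith [F.K_W, F.W_eq, F.R_ge])
      (by linarith [F.K_de, F.k1]) ha (abs_nonneg b) hx hh)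
    have r1 := mul_le_mul_of_nonneg_left (abs_le.1 L.r2_le).1 hx
    have r2 := mul_le_mul_of_nonneg_left (abs_le.1 L.r2_le).2 hx
    rw [e, abs_le]
    constructor <;> linarith
  have x0 : 0 ≤ la f * (de k * om k / 64) := by positivity
  refine ⟨fun G => ?_, fun G => ?_⟩
  · have := mul_le_mul_of_nonneg_left (G θ hθ) hx
    exact ⟨by linarith, fin (by linarith [le_abs_self b])⟩
  · have := mul_le_mul_of_nonneg_left (G θ hθ) hx
    exact ⟨by linarith, fin (by linarith [neg_abs_le b])⟩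

theorem p_NM (hPF : S_PF) (hBK : S_BK) (hLF : S_LF) (hDE : S_DE) (hTN : S_TN) (hTM : S_TM) (hSGN : S_SGN) :
    S_NM := by
  intro k hk lam a b c1 c2 w f hD ha hw hs
  have F := hPF k hk
  have E := (hDE k hk lam a b c1 c2 w).1 hD
  have z : ∀ i, i ∉ (gad k).T f → lam i = 0 := fun i hi => by
    rw [← hs] at hi
    simpa using hi
  rcases f with v | e | u
  · exact ⟨by simp, by simp, by simp, by simp⟩
  · have z' : ∀ i, i ≠ ex1 e.1 e.2 → i ∉ reg e.1 → lam i = 0 := fun i h1 h2 =>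
      z i fun h => (mem_insert.1 h).elim h1 h2
    rcases (hSGN k hk).1 e with ⟨j, hj⟩ | ⟨f, hf, hG⟩
    · obtain ⟨h1, h2⟩ := nm_none hTN hk F E ha hw fun f =>
        z' _ (by simp [hj, chd]) inr_not_mem_reg
      rw [abs_le] at h1
      exact ⟨fun _ => h2, fun _ _ h => by linarith [h1.2], fun _ _ h => by linarith [h1.1],
        by simp⟩
    · obtain ⟨hR, hL⟩ := nm_leaf hTN hTM hk F E ha hw (σ := e.1) (hLF k hk f) (hBK k hk e.1).1
        (fun g hg => z' _ (by simpa [hf] using hg) inr_not_mem_reg)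
        fun j => z' _ (by simp [hf]) (by simp)
      rcases hG with ⟨h, G⟩ | ⟨h, G⟩
      · obtain ⟨h1, h2⟩ := hR G
        refine ⟨fun _ => h2, fun e' he _ => ?_, fun _ _ h => by linarith, by simp⟩
        cases he
        exact h
      · obtain ⟨h1, h2⟩ := hL G
        refine ⟨fun _ => h2, fun _ _ h => by linarith, fun e' he _ => ?_, by simp⟩
        cases he
        exact h
  · obtain ⟨h1, h2⟩ := nm_none hTN hk F E ha hw fun f => z _ inr_not_mem_reg
    exact ⟨fun _ => h2, by simp, by simp, fun _ _ => h1⟩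

end Pool.Agent.P.MP_af6acb_co.Fat

/-! Step CLS. -/

namespace Pool.Agent.P.MP_af6acb_co.Fat

open Finset Module
open scoped Classical

theorem p_CLS (hPF : S_PF) (hLF : S_LF) (hDE : S_DE) (hTN : S_TN) (hPC : S_PC) (hSUP : S_SUP)
    (hNM : S_NM) : S_CLS := by
  rintro k hk lam a b c1 c2 w hD ha hw ⟨p, p1, p2, p3⟩
  have P := hPF k hk
  have E := (hDE k hk lam a b c1 c2 w).1 hD
  have w0 := P.om_pos
  have d0 := P.de_pos
  have hA : a ≤ a + ∑ f, lam (.inr f) * af k f := le_add_of_nonneg_right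
    (sum_nonneg fun f _ => mul_nonneg (E.la_pos f) (le_trans (by positivity) (hLF k hk f).af_ge))
  have s0 := P.sc_pos 0
  have T := (hTN k hk _ _ w E.mu_pos E.chain
    (hw.trans (mul_le_mul_of_nonneg_left hA (by rw [gad_th]; positivity)))).1
  have lev : ∀ j, ∃ b, Sum.inl (j, b) ∈ supp lam := fun j => by
    by_contra h
    simp only [mem_supp, not_exists, not_not] at h
    have h1 := T j
    have h2 := P.pp_pos (j + 1)
    have h3 := ha.trans_le hA
    rw [h true, h false, add_zero] at h1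
    exact absurd h1 (not_le.2 (by positivity))
  obtain ⟨v, hv⟩ := hPC k hk p p1 p2 fun j => (lev j).imp fun b hb => p3 _ hb
  obtain ⟨f, hf⟩ := hSUP k v (supp lam) (fun i hi => hv i (p3 i hi)) lev
  exact ⟨f, ⟨hf.le, fun q _ _ h => hf ▸ h⟩, hNM k hk lam a b c1 c2 w f hD ha hw hf⟩

end Pool.Agent.P.MP_af6acb_co.Fat

/-! Step SOL. -/

namespace Pool.Agent.P.MP_af6acb_co.Fat

open Finset Module
open scoped Classical

variable {k : ℕ} (σ : Fin k → Bool) (J : ℕ)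

/-- The differences of the multipliers. -/
noncomputable def solG (A w g : ℝ) : ℕ → ℝ
  | 0 => w
  | n + 1 => if n + 1 = J then g else sg σ (n + 1) * ((sc k n * A - solG A w g n) / ep k (n + 1))

/-- The sums of the multipliers. -/
noncomputable def solM (A w g : ℝ) (n : ℕ) : ℝ := (sc k n * A - solG σ J A w g n) / ep k (n + 1)

/-- The multipliers. -/
noncomputable def solU (A w g : ℝ) (x : Fin k × Bool) : ℝ :=
  (solM σ J A w g x.1 + sgn x.2 * solG σ J A w g (x.1 + 1)) / 2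

lemma sol_succ (A w g : ℝ) (n : ℕ) :
    solG σ J A w g (n + 1) = if n + 1 = J then g else sg σ (n + 1) * solM σ J A w g n := rfl

lemma sol_linG (A w g : ℝ) (n : ℕ) : solG σ J A w g n =
    solG σ J 1 0 0 n * A + solG σ J 0 1 0 n * w + solG σ J 0 0 1 n * g := by
  induction n with
  | zero => simp [solG]
  | succ n ih =>
    simp only [solG]
    split_ifs
    · ring
    · rw [ih]; ring

lemma sol_linU (A w g : ℝ) (x : Fin k × Bool) : solU σ J A w g x =
    solU σ J 1 0 0 x * A + solU σ J 0 1 0 x * w + solU σ J 0 0 1 x * g := by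
  simp only [solU, solM]
  rw [sol_linG σ J A w g x.1, sol_linG σ J A w g (x.1 + 1)]
  ring

lemma sol_gq (A w g : ℝ) {n : ℕ} (hn : n ≤ k) : gq (solU σ J A w g) w n = solG σ J A w g n := by
  rcases n with _ | n
  · rfl
  · rw [gq_fin _ _ ⟨n, hn⟩]
    simp only [solU, sgn]
    norm_num
    ring

lemma sol_step (h : PF k) {A w g : ℝ} {n : ℕ} (hn : n < k)
    (H : |solG σ J A w g n| ≤ sc k n * A - 3 / 4 * (pp k n * om k * A)) :
    3 / 4 * (pp k (n + 1) * om k * A) ≤ solM σ J A w g n ∧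
      solM σ J A w g n ≤ sc k (n + 1) * A - 3 / 4 * (pp k (n + 1) * om k * A) := by
  have e := h.ep_pos (n + 1)
  have e1 := h.sc_step n hn
  rw [abs_le, h.pp_step n hn] at H
  rw [solM, le_div_iff₀ e, div_le_iff₀ e]
  constructor
  · linarith [H.2]
  · have : (sc k (n + 1) * A - 3 / 4 * (pp k (n + 1) * om k * A)) * ep k (n + 1) =
        2 * sc k n * A - 3 / 4 * (ep k (n + 1) * pp k (n + 1) * om k * A) := by
      rw [← e1]; ring
    linarith [H.1]

lemma sol_inv (h : PF k) {A w g : ℝ} (hA : 0 < A) (hw : |w| ≤ sc k 0 / 4 * A)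
    (hg : |g| < 3 / 4 * (pp k J * om k * A)) :
    ∀ n ≤ k, |solG σ J A w g n| ≤ sc k n * A - 3 / 4 * (pp k n * om k * A) := by
  intro n
  induction n with
  | zero =>
    intro _
    simp only [solG, sc, pow_zero] at hw ⊢
    linarith
  | succ n ih =>
    intro hn
    obtain ⟨a, b⟩ := sol_step σ J h hn (ih (by omega))
    have : 0 < pp k (n + 1) * om k * A := mul_pos (mul_pos (h.pp_pos _) h.om_pos) hA
    rw [sol_succ]
    split_ifs with e
    · subst e
      linarith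
    · rw [abs_le]
      rcases sg_cases σ (n + 1) with e1 | e1 <;> rw [e1] <;> constructor <;> linarith

lemma sol_main (h : PF k) {A w g : ℝ} (hA : 0 < A) (hw : |w| ≤ sc k 0 / 4 * A)
    (hg : |g| < 3 / 4 * (pp k J * om k * A)) :
    (∀ x, 0 ≤ solU σ J A w g x ∧ (solU σ J A w g x ≠ 0 ↔ x.2 = σ x.1 ∨ (x.1 : ℕ) + 1 = J)) ∧
      Chain (solU σ J A w g) A w := by
  refine ⟨?_, fun j => ?_⟩
  · rintro ⟨j, b⟩
    obtain ⟨a, -⟩ := sol_step σ J h j.2 (sol_inv σ J h hA hw hg j j.2.le)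
    have : 0 < pp k (j + 1) * om k * A := mul_pos (mul_pos (h.pp_pos _) h.om_pos) hA
    simp only [solU, sol_succ]
    split_ifs with e
    · rw [← e, abs_lt] at hg
      have h1 : 0 < (solM σ J A w g j + sgn b * g) / 2 := by
        cases b <;> simp only [sgn] <;> norm_num <;> linarith [hg.1, hg.2]
      exact ⟨h1.le, by simp only [ne_eq, h1.ne', not_false_eq_true, e, or_true]⟩
    · have h1 : 0 < solM σ J A w g j := by linarith
      rw [sg_fin]
      rcases σ j <;> cases b <;> simp [sgn, e, h1.le, h1.ne']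
  · rw [sol_gq σ J A w g j.2.le]
    have e := (h.ep_pos (j + 1)).ne'
    simp only [solU, solM, sgn]
    norm_num
    field_simp
    ring

theorem p_SOL (hPF : S_PF) (hTN : S_TN) :
    S_SOL := by
  intro k hk σ J hJ
  have h := hPF k hk
  have lin : ∀ (A w g : ℝ) (c : Fin k → ℝ), ∑ j, c j * solU σ J A w g (j, true) =
      (∑ j, c j * solU σ J 1 0 0 (j, true)) * A + (∑ j, c j * solU σ J 0 1 0 (j, true)) * w +
        (∑ j, c j * solU σ J 0 0 1 (j, true)) * g := fun A w g c => by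
    simp only [sum_mul, ← sum_add_distrib]
    exact sum_congr rfl fun j _ => by rw [sol_linU]; ring
  have lin1 := fun A w g => lin A w g fun _ => 1
  simp only [one_mul] at lin1
  have bd : ∀ w g, |w| ≤ sc k 0 / 4 * 1 → |g| < 3 / 4 * (pp k J * om k * 1) →
      0 ≤ ∑ j, solU σ J 1 w g (j, true) ∧ ∑ j, solU σ J 1 w g (j, true) ≤ 2 * 1 :=
    fun w g hw hg => by
      obtain ⟨a, b⟩ := sol_main σ J h one_pos hw hg
      exact ⟨sum_nonneg fun j _ => (a _).1, (hTN k hk _ 1 w (fun x => (a x).1) b hw).2.1⟩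
  have s0 := h.sc_pos 0
  have p0 : 0 < pp k J * om k := mul_pos (h.pp_pos _) h.om_pos
  have b1 := bd 0 0 (by rw [abs_zero]; positivity) (by rw [abs_zero]; positivity)
  have b2 := bd (sc k 0 / 4) 0 (by rw [abs_of_pos (by positivity), mul_one])
    (by rw [abs_zero]; positivity)
  have b3 := bd 0 (pp k J * om k / 2) (by rw [abs_zero]; positivity)
    (by rw [abs_of_pos (by positivity)]; linarith)
  rw [lin1] at b2 b3
  have c2 : |∑ x, solU σ J 0 1 0 (x, true)| * (sc k 0 / 4) ≤ 2 := by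
    rw [← abs_of_pos (show 0 < sc k 0 / 4 by positivity), ← abs_mul, abs_le]
    constructor <;> linarith [b1.1, b1.2, b2.1, b2.2]
  have c3 : |∑ x, solU σ J 0 0 1 (x, true)| * (pp k J * om k / 2) ≤ 2 := by
    rw [← abs_of_pos (show 0 < pp k J * om k / 2 by positivity), ← abs_mul, abs_le]
    constructor <;> linarith [b1.1, b1.2, b3.1, b3.2]
  exact ⟨_, _, _, _, _, _, b1.1, by linarith [b1.2], c2, c3, fun A w g hA hw hg =>
    ⟨solU σ J A w g, fun x => ((sol_main σ J h hA hw hg).1 x).1,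
      fun x => ((sol_main σ J h hA hw hg).1 x).2, (sol_main σ J h hA hw hg).2, fun h0 => by
        rw [sol_gq σ J A w g hJ]
        obtain ⟨n, rfl⟩ := Nat.exists_eq_succ_of_ne_zero h0
        rw [sol_succ, if_pos rfl], lin1 A w g, lin A w g _⟩⟩

end Pool.Agent.P.MP_af6acb_co.Fat

/-! Step FARA. -/

namespace Pool.Agent.P.MP_af6acb_co.Fat

open Finset Module
open scoped Classical

lemma fara_num {m et b' c' c2 β γ : ℝ} (hm : 0 < m) (het : et = m / 10 ^ 5) (hc : 0 < c2)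
    (hb : |b'| ≤ 2 * (et * c2)) (hc' : c2 / 2 ≤ c') (hβ : m / 64 ≤ β) (hγ : |γ| ≤ 6) :
    0 < β * c' - γ * b' := by
  have h1 : γ * b' ≤ 6 * (2 * (et * c2)) := by
    calc γ * b' ≤ |γ * b'| := le_abs_self _
      _ = |γ| * |b'| := abs_mul _ _
      _ ≤ 6 * (2 * (et * c2)) := mul_le_mul hγ hb (abs_nonneg _) (by norm_num)
  have h2 : m / 64 * (c2 / 2) ≤ β * c' :=
    mul_le_mul hβ hc' (by positivity) (le_trans (by positivity) hβ)
  have h3 : 0 < m * c2 := mul_pos hm hc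
  rw [het] at h1
  nlinarith

lemma fara_b {b θ o π χ d w ω s e : ℝ} (hb : |b| ≤ e) (he : 1 ≤ e) (hθ : |θ| ≤ 1 - ω + 2 * d)
    (ho : |o| = 1) (hπ : 0 < π) (hs : s = π * ω) (hw : |w| ≤ s / 4) (hχ : |χ| * (s / 4) ≤ 2)
    (hd : 0 < d) (hdω : 10 ^ 10 * d ≤ ω) :
    |b - θ - (o / π + d * χ) * w| ≤ 2 * e ∧ |χ * w| ≤ 2 := by
  have h1 : |χ * w| ≤ 2 := by
    rw [abs_mul]; exact le_trans (mul_le_mul_of_nonneg_left hw (abs_nonneg _)) hχ
  have h2 : |o / π * w| ≤ ω / 4 := by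
    rw [abs_mul, abs_div, ho, abs_of_pos hπ, one_div, inv_mul_le_iff₀ hπ]
    rw [hs] at hw; linarith
  have h3 : |d * (χ * w)| ≤ d * 2 := by
    rw [abs_mul, abs_of_pos hd]; exact mul_le_mul_of_nonneg_left h1 hd.le
  refine ⟨?_, h1⟩
  rw [show b - θ - (o / π + d * χ) * w = b - θ - o / π * w - d * (χ * w) by ring]
  rw [abs_le] at *
  constructor <;> linarith [hb.1, hb.2, hθ.1, hθ.2, h2.1, h2.2, h3.1, h3.2]

lemma fara_det {d θ p : ℝ} (hd : 0 < d) (hθ : |θ| ≤ 1) (hp : 0 ≤ p) :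
    0 < (d * θ - -(2 * d)) * (1 + d * p) - (d * θ - 2 * d) * (-(1 / 4) + d * p) := by
  rw [abs_le] at hθ
  have h1 : 0 ≤ d * (d * p) := by positivity
  have h2 : 0 < d * (5 * θ + 6) := mul_pos hd (by linarith)
  nlinarith

lemma fara_la {ι : Type} [Fintype ι] (f1 f2 : ι) {x y : ℝ} (hx : 0 < x) (hy : 0 < y) :
    ∃ la : ι → ℝ, (∀ f, 0 ≤ la f) ∧ (∀ g : ι → ℝ, ∑ f, la f * g f = x * g f1 + y * g f2) ∧
      ∀ f, la f ≠ 0 ↔ f = f1 ∨ f = f2 := by
  refine ⟨fun f => (if f = f1 then x else 0) + (if f = f2 then y else 0), fun f => by positivity,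
    fun g => by simp [add_mul, sum_add_distrib], fun f => ?_⟩
  by_cases e1 : f = f1 <;> by_cases e2 : f = f2
  · simp only [if_pos e1, if_pos e2]; simp [e1, (add_pos hx hy).ne']
  · simp only [if_pos e1, if_neg e2]; simp [e1, hx.ne']
  · simp only [if_neg e1, if_pos e2]; simp [e2, hy.ne']
  · simp [e1, e2]

theorem p_FARA (hPF : S_PF) (hBK : S_BK) (hLF : S_LF) (hDE : S_DE) (hTM : S_TM) (hSOL : S_SOL) :
    S_FARA := by
  intro k hk σ f1 f2 hR hL h2 h12
  have P := hPF k hk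
  have L1 := hLF k hk f1
  have L2 := hLF k hk f2
  have hth := (hBK k hk σ).1
  obtain ⟨p, χ, q, p', χ', q', hp0, hp2, hχ, -, H⟩ := hSOL k hk σ 0 (Nat.zero_le _)
  have hd := P.de_pos
  have hω := P.om_pos
  have hω2 := P.om_le
  have hdω := P.de_le
  have hm : 0 < de k * om k := mul_pos hd hω
  have hdp0 : 0 ≤ de k * p := mul_nonneg hd.le hp0
  have hdp2 : de k * p ≤ 2 * de k := by nlinarith
  obtain ⟨θ, hθ⟩ : ∃ θ, θ = thB σ 0 + de k * p := ⟨_, rfl⟩
  have hθ0 : |θ - thB σ 0| ≤ om k / 4 + 2 * de k := by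
    rw [hθ, add_sub_cancel_left, abs_of_nonneg hdp0]; linarith
  have hθ1 : |θ| ≤ 1 - om k + 2 * de k := by
    rw [hθ]; rw [abs_le] at hth ⊢; constructor <;> linarith [hth.1, hth.2]
  obtain ⟨β1, hβ1⟩ : ∃ β, β = af k f1 * θ - ta k f1 := ⟨_, rfl⟩
  obtain ⟨β2, hβ2⟩ : ∃ β, β = af k f2 * θ - ta k f2 := ⟨_, rfl⟩
  obtain ⟨γ1, hγ1⟩ : ∃ γ, γ = r2 k f1 + af k f1 * p := ⟨_, rfl⟩
  obtain ⟨γ2, hγ2⟩ : ∃ γ, γ = r2 k f2 + af k f2 * p := ⟨_, rfl⟩
  have b1 : de k * om k / 64 ≤ β1 := hβ1 ▸ hR θ hθ0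
  have b2 : de k * om k / 64 ≤ -β2 := by have := hL θ hθ0; rw [hβ2]; linarith
  have haf : ∀ f : Lf k, 0 ≤ af k f := fun f => le_trans (by positivity) (hLF k hk f).af_ge
  have hafp : ∀ f : Lf k, 0 ≤ af k f * p ∧ af k f * p ≤ 1 := fun f =>
    ⟨mul_nonneg (haf f) hp0, by
      have := mul_le_mul_of_nonneg_right (hLF k hk f).af_le hp0
      linarith⟩
  have hγ : ∀ f : Lf k, |r2 k f + af k f * p| ≤ 6 := fun f => by
    have h1 := (hLF k hk f).r2_le
    rw [abs_le] at h1 ⊢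
    constructor <;> linarith [h1.1, h1.2, (hafp f).1, (hafp f).2]
  have g1 : |γ1| ≤ 6 := hγ1 ▸ hγ f1
  have g2 : |-γ2| ≤ 6 := by rw [abs_neg]; exact hγ2 ▸ hγ f2
  have hdet : 0 < β1 * γ2 - β2 * γ1 := by
    by_cases hB : f1 = lB k
    · obtain ⟨j, hj⟩ := h12.resolve_left (not_not.2 hB)
      rw [hβ1, hβ2, hγ1, hγ2, L1.r2_B hB, L2.r2_M j hj, hB, hj]
      simp only [af_B, af_M, ta_B, ta_M]
      exact fara_det hd (by linarith) hp0
    · have e1 : 0 < γ1 := by rw [hγ1]; linarith [L1.r2_ge hB, (hafp f1).1]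
      have e2 : 0 < γ2 := by rw [hγ2]; linarith [L2.r2_ge h2, (hafp f2).1]
      have e3 : 0 < β1 * γ2 := mul_pos (lt_of_lt_of_le (by positivity) b1) e2
      have e4 : 0 < -β2 * γ1 := mul_pos (lt_of_lt_of_le (by positivity) b2) e1
      linarith
  obtain ⟨κ, hκ⟩ : ∃ κ, κ = ori σ 0 / pp k 0 + de k * χ := ⟨_, rfl⟩
  obtain ⟨D, hD⟩ : ∃ D, D = β1 * γ2 - β2 * γ1 := ⟨_, rfl⟩
  rw [← hD] at hdet
  let l1 : ℝ × ℝ × ℝ → ℝ := fun x =>
    (-β2 * (x.2.1 - p - χ * x.2.2) - -γ2 * (x.1 - θ - κ * x.2.2)) / D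
  let l2 : ℝ × ℝ × ℝ → ℝ := fun x =>
    (β1 * (x.2.1 - p - χ * x.2.2) - γ1 * (x.1 - θ - κ * x.2.2)) / D
  refine ⟨fun x => p' * (1 + (l1 x * af k f1 + l2 x * af k f2)) + χ' * x.2.2 +
    (l1 x * r1 k f1 + l2 x * r1 k f2), by simp only [l1, l2]; fun_prop, ?_⟩
  intro b c2 w hc hb hw
  rw [gad_th] at hw
  have het : etc k = de k * om k / 10 ^ 5 := rfl
  have het0 : 0 < etc k := by rw [het]; positivity
  have het1 : etc k ≤ 1 / 8 := by rw [het]; nlinarith
  have hc0 : 0 < c2 := (pos_iff_pos_of_mul_pos (lt_of_lt_of_le one_pos hc)).1 het0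
  have hc8 : 8 ≤ c2 := by nlinarith
  have ho : |ori σ 0| = 1 := by rcases ori_cases σ 0 with h | h <;> simp [h]
  obtain ⟨hb', hχw⟩ := fara_b hb hc hθ1 ho (P.pp_pos 0) (s := sc k 0) (by simp [sc]) hw hχ hd hdω
  rw [← hκ] at hb'
  have hc' : c2 / 2 ≤ c2 - p - χ * w := by linarith [(abs_le.1 hχw).2]
  have p1 : 0 < l1 (b, c2, w) := div_pos (fara_num hm het hc0 hb' hc' b2 g2) hdet
  have p2 : 0 < l2 (b, c2, w) := div_pos (fara_num hm het hc0 hb' hc' b1 g1) hdet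
  have q1 : l1 (b, c2, w) * β1 + l2 (b, c2, w) * β2 = b - θ - κ * w := by
    simp only [l1, l2]; field_simp; rw [hD]; ring
  have q2 : l1 (b, c2, w) * γ1 + l2 (b, c2, w) * γ2 = c2 - p - χ * w := by
    simp only [l1, l2]; field_simp; rw [hD]; ring
  simp only
  generalize l1 (b, c2, w) = x at *
  generalize l2 (b, c2, w) = y at *
  have hA : 1 ≤ 1 + (x * af k f1 + y * af k f2) := by
    have := mul_nonneg p1.le (haf f1)
    have := mul_nonneg p2.le (haf f2)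
    linarith
  obtain ⟨μ, m0, m1, m2, -, m3, m4⟩ := H (1 + (x * af k f1 + y * af k f2)) w 0 (by linarith)
    (le_trans hw (le_mul_of_one_le_right (by have := P.sc_pos 0; positivity) hA))
    (by have := P.pp_pos 0; rw [abs_zero]; positivity)
  have hT := hTM k hk μ _ w σ 0 (Nat.zero_le _) m2 fun j _ => by
    by_contra hne
    rcases (m1 _).1 hne with h | h
    · cases hj : σ j <;> simp [hj] at h
    · omega
  obtain ⟨la, a0, a1, a2⟩ := fara_la f1 f2 p1 p2
  refine ⟨Sum.elim μ la, ?_, ?_⟩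
  · rw [hDE k hk]
    change Eqs μ la _ _ _ _ _
    refine ⟨m0, a0, ?_, ?_, ?_, ?_⟩
    · rw [a1]; exact m2
    · rw [a1, hT, m3, gq_zero]
      rw [hβ1, hβ2, hκ, hθ] at q1
      linear_combination q1
    · rw [a1, m4]; ring
    · rw [a1, m3]
      rw [hγ1, hγ2] at q2
      linear_combination -q2
  · ext i
    rcases i with i | f
    · simp [m1]
    · simp [a2]

end Pool.Agent.P.MP_af6acb_co.Fat

/-! Step FARG. -/

namespace Pool.Agent.P.MP_af6acb_co.Fat

open Finset Module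
open scoped Classical

lemma farg_det {om d Q p r : ℝ} (hom1 : om ≤ 1 / 2) (hd : 0 < d)
    (hdo : 10 ^ 10 * d ≤ om) (hQ : |Q| * om ≤ 4) (hp0 : 0 ≤ p) (hp2 : p ≤ 2) (hr1 : 1 ≤ r)
    (hr5 : r ≤ 5) : |d * Q| ≤ 1 / 1000 ∧
      1 / 2 ≤ (1 + d * Q) * (r + d * p / 2) - Q * (d * om / 4 + d ^ 2 * p / 2) ∧
      (1 + d * Q) * (r + d * p / 2) - Q * (d * om / 4 + d ^ 2 * p / 2) ≤ 11 / 2 := by
  have hQ0 := abs_nonneg Q
  have h1 : |d * Q| ≤ 1 / 1000 := by
    rw [abs_mul, abs_of_pos hd]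
    linarith [mul_le_mul_of_nonneg_left hdo hQ0]
  obtain ⟨h2, h3⟩ := abs_le.1 h1
  have hdp : 0 ≤ d * p := mul_nonneg hd.le hp0
  have hdp' : d * p ≤ 1 / 1000 := by linarith [mul_le_mul_of_nonneg_left hp2 hd.le]
  have e : (1 + d * Q) * (r + d * p / 2) - Q * (d * om / 4 + d ^ 2 * p / 2) =
      r + d * p / 2 + d * Q * (r - om / 4) := by ring
  have h4 : 0 ≤ r - om / 4 := by linarith
  rw [e]
  refine ⟨h1, ?_, ?_⟩
  · linarith [mul_le_mul_of_nonneg_right h2 h4]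
  · linarith [mul_le_mul_of_nonneg_right h3 h4]

lemma farg_core {om d Q p r b c c2 x y : ℝ} (hom : 0 < om) (hom1 : om ≤ 1 / 2) (hd : 0 < d)
    (hdo : 10 ^ 10 * d ≤ om) (hQ : |Q| * om ≤ 4) (hp0 : 0 ≤ p) (hp2 : p ≤ 2) (hr1 : 1 ≤ r)
    (hr5 : r ≤ 5) (hE : 1 ≤ d * om / 10 ^ 5 * c2) (hb : |b| ≤ 3 * (d * om / 10 ^ 5 * c2))
    (hc : c2 - 4 ≤ c) (e1 : y * (1 + d * Q) + x * (d * om / 4 + d ^ 2 * p / 2) = b)
    (e2 : Q * y + x * (r + d * p / 2) = c) : 0 < x ∧ |y| < 3 / 4 * (om * (1 + x * (d / 2))) := by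
  obtain ⟨h1, h2, h3⟩ := farg_det hom1 hd hdo hQ hp0 hp2 hr1 hr5
  obtain ⟨h4, h5⟩ := abs_le.1 h1
  have hm : 0 < d * om := mul_pos hd hom
  have hm1 : d * om ≤ 1 / 1000 := by linarith [mul_le_mul_of_nonneg_left hom1 hd.le]
  have hc0 : 0 < c2 := by
    by_contra h
    linarith [mul_nonneg hm.le (neg_nonneg.2 (not_lt.1 h))]
  have hc1 : 1000 ≤ c2 := by linarith [mul_le_mul_of_nonneg_right hm1 hc0.le]
  have hQb : Q * b ≤ c2 / 100 := by
    have a1 : Q * b ≤ |Q| * (3 * (d * om / 10 ^ 5 * c2)) :=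
      (le_abs_self _).trans (by rw [abs_mul]; exact mul_le_mul_of_nonneg_left hb (abs_nonneg Q))
    have a2 : |Q| * om * (d * c2) ≤ 4 * (d * c2) :=
      mul_le_mul_of_nonneg_right hQ (mul_pos hd hc0).le
    have a3 : d * c2 ≤ 1 * c2 := mul_le_mul_of_nonneg_right (by linarith) hc0.le
    linarith
  have ex : x * ((1 + d * Q) * (r + d * p / 2) - Q * (d * om / 4 + d ^ 2 * p / 2)) =
      (1 + d * Q) * c - Q * b := by rw [← e1, ← e2]; ring
  have hN : 9 / 10 * c2 ≤ (1 + d * Q) * c - Q * b := by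
    linarith [mul_le_mul_of_nonneg_right h4 (show 0 ≤ c by linarith)]
  rw [← ex] at hN
  have hx : 0 < x := by
    by_contra h
    linarith [mul_nonneg (neg_nonneg.2 (not_lt.1 h)) (le_trans (by norm_num) h2)]
  have hx1 : c2 ≤ 7 * x := by linarith [mul_le_mul_of_nonneg_left h3 hx.le]
  refine ⟨hx, ?_⟩
  have hk0 : 0 ≤ d * om / 4 + d ^ 2 * p / 2 := by positivity
  have hk1 : d * om / 4 + d ^ 2 * p / 2 ≤ 26 / 100 * (d * om) := by
    linarith [mul_le_mul_of_nonneg_left hp2 (sq_nonneg d), mul_le_mul_of_nonneg_left hdo hd.le]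
  have hy : |y| * (1 + d * Q) ≤ |b| + x * (d * om / 4 + d ^ 2 * p / 2) := by
    rw [← abs_of_nonneg (show 0 ≤ 1 + d * Q by linarith), ← abs_mul,
      show y * (1 + d * Q) = b - x * (d * om / 4 + d ^ 2 * p / 2) by linarith]
    exact (abs_sub _ _).trans (by rw [abs_of_nonneg (mul_nonneg hx.le hk0)])
  have b1 := mul_le_mul_of_nonneg_left hk1 hx.le
  have b2 := mul_le_mul_of_nonneg_left hx1 hm.le
  have b3 := mul_le_mul_of_nonneg_left h4 (abs_nonneg y)
  have b4 := mul_pos hx hm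
  linarith [abs_nonneg y]

theorem p_FARG (hPF : S_PF) (hBK : S_BK) (hLF : S_LF) (hDE : S_DE) (hTM : S_TM) (hSOL : S_SOL) :
    S_FARG := by
  intro k hk σ j side
  have P := hPF k hk
  have B := (hBK k hk σ).2 j
  have L := hLF k hk (lF σ j side false)
  have hJ : (j : ℕ) + 1 ≤ k := j.2
  obtain ⟨p, χ, q, p', χ', q', hp0, hp2, hχ, hq, hS⟩ := hSOL k hk σ (j + 1) hJ
  have hπ := P.pp_pos (j + 1)
  have ho2 : ori σ (j + 1) * ori σ (j + 1) = 1 := by
    rcases ori_cases σ (j + 1) with h | h <;> simp [h]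
  have ho1 : |ori σ (j + 1)| = 1 := by rcases ori_cases σ (j + 1) with h | h <;> simp [h]
  obtain ⟨Q, hQd⟩ : ∃ Q, Q = q * (ori σ (j + 1) * pp k (j + 1)) := ⟨_, rfl⟩
  have hQ : |Q| * om k ≤ 4 := by
    rw [hQd, abs_mul, abs_mul, ho1, abs_of_pos hπ]; linarith
  have hr1 := L.r2_ge lF_ne_lB
  have hr5 := (abs_le.1 L.r2_le).2
  obtain ⟨r, hr⟩ : ∃ r, r = r2 k (lF σ j side false) := ⟨_, rfl⟩
  rw [← hr] at hr1 hr5
  obtain ⟨D, hD⟩ : ∃ D, D = (1 + de k * Q) * (r + de k * p / 2) -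
    Q * (de k * om k / 4 + de k ^ 2 * p / 2) := ⟨_, rfl⟩
  have hD0 : D ≠ 0 := by
    have := (farg_det P.om_le P.de_pos P.de_le hQ hp0 hp2 hr1 hr5).2.1
    rw [← hD] at this
    exact (show 0 < D by linarith).ne'
  let b' : ℝ × ℝ × ℝ → ℝ := fun v => v.1 - thB σ (j + 1) - de k * p - de k * (χ * v.2.2)
  let c' : ℝ × ℝ × ℝ → ℝ := fun v => v.2.1 - p - χ * v.2.2
  let X : ℝ × ℝ × ℝ → ℝ := fun v => ((1 + de k * Q) * c' v - Q * b' v) / D
  let Y : ℝ × ℝ × ℝ → ℝ := fun v =>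
    ((r + de k * p / 2) * b' v - (de k * om k / 4 + de k ^ 2 * p / 2) * c' v) / D
  refine ⟨fun v => p' * (1 + X v * (de k / 2)) + χ' * v.2.2 +
    q' * (ori σ (j + 1) * pp k (j + 1) * Y v) + X v * r1 k (lF σ j side false),
    by simp only [X, Y, b', c']; fun_prop, fun b c2 w hE hb hw => ?_⟩
  have e1 : Y (b, c2, w) * (1 + de k * Q) + X (b, c2, w) * (de k * om k / 4 + de k ^ 2 * p / 2) =
      b' (b, c2, w) := by
    simp only [X, Y]; field_simp; rw [hD]; ring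
  have e2 : Q * Y (b, c2, w) + X (b, c2, w) * (r + de k * p / 2) = c' (b, c2, w) := by
    simp only [X, Y]; field_simp; rw [hD]; ring
  rw [gad_th] at hw
  have hχw : |χ * w| ≤ 2 := by
    rw [abs_mul]; exact (mul_le_mul_of_nonneg_left hw (abs_nonneg χ)).trans hχ
  obtain ⟨hw1, hw2⟩ := abs_le.1 hχw
  have hd := P.de_pos
  have hd1 : de k ≤ 1 / 10 := by linarith [P.de_le, P.om_le]
  have hb' : |b' (b, c2, w)| ≤ 3 * (de k * om k / 10 ^ 5 * c2) := by
    obtain ⟨t1, t2⟩ := abs_le.1 B.th_le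
    obtain ⟨t3, t4⟩ := abs_le.1 hb
    have := P.om_pos
    simp only [etc] at hE t3 t4
    simp only [b']
    rw [abs_le]
    constructor <;> linarith [mul_le_mul_of_nonneg_left hw1 hd.le,
      mul_le_mul_of_nonneg_left hw2 hd.le, mul_le_mul_of_nonneg_left hp2 hd.le, mul_nonneg hd.le hp0]
  obtain ⟨hx, hy⟩ := farg_core P.om_pos P.om_le hd P.de_le hQ hp0 hp2 hr1 hr5 hE hb'
    (by simp only [c']; linarith) e1 e2
  simp only [b', c'] at e1 e2
  show ∃ lam, (gad k).Dual lam 1 b (p' * (1 + X (b, c2, w) * (de k / 2)) + χ' * w +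
    q' * (ori σ (j + 1) * pp k (j + 1) * Y (b, c2, w)) +
      X (b, c2, w) * r1 k (lF σ j side false)) c2 w ∧ _
  generalize X (b, c2, w) = x at e1 e2 hx hy
  generalize Y (b, c2, w) = y at e1 e2 hy
  have hA : 1 ≤ 1 + x * (de k / 2) := by linarith [mul_pos hx hd]
  obtain ⟨μ, m0, ms, mc, mg, m1, m2⟩ := hS (1 + x * (de k / 2)) w
    (ori σ (j + 1) * pp k (j + 1) * y) (by linarith)
    (hw.trans (le_mul_of_one_le_right (by linarith [P.sc_pos 0]) hA))
    (by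
      rw [abs_mul, abs_mul, ho1, abs_of_pos hπ]
      linarith [mul_lt_mul_of_pos_left hy hπ])
  have hT := hTM k hk μ _ w σ (j + 1) hJ mc fun l hl => by
    by_contra h
    rcases (ms _).1 h with h | h
    · simp at h
    · simp only at h; omega
  rw [mg (by omega)] at hT
  have hs : ∀ g : Lf k → ℝ, ∑ f, (Pi.single (lF σ j side false) x : Lf k → ℝ) f * g f =
      x * g (lF σ j side false) := fun g => by
    rw [sum_eq_single (lF σ j side false)]
    · simp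
    · intro f _ hf; simp [hf]
    · simp
  refine ⟨Sum.elim μ (Pi.single (lF σ j side false) x), (hDE k hk _ _ _ _ _ _).2 ?_, ?_⟩
  · simp only [Sum.elim_inl, Sum.elim_inr]
    refine ⟨m0, fun f => ?_, ?_, ?_, ?_, ?_⟩
    · by_cases hf : f = lF σ j side false
      · simp [hf, hx.le]
      · simp [hf]
    · rw [hs, af_FL]; exact mc
    · rw [hs, ta_FL, hT, m1]
      have : ori σ (j + 1) * (ori σ (j + 1) * pp k (j + 1) * y) / pp k (j + 1) = y := by
        field_simp; linear_combination y * ho2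
      rw [this, hQd] at *
      linear_combination e1
    · rw [hs, m2]
    · rw [hs, m1, ← hr]
      rw [hQd] at e2
      linear_combination -e2
  · ext i
    rcases i with ⟨l, s⟩ | f
    · simp only [mem_supp, Sum.elim_inl, ms, mem_insert, chd, Sum.inl.injEq, Prod.mk.injEq,
        reduceCtorEq, inl_mem_reg, false_or, add_left_inj, Fin.val_inj]
      constructor
      · rintro (h | rfl)
        · exact Or.inr h
        · cases s <;> cases σ l <;> simp
      · rintro (h | h)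
        · exact Or.inr h.1
        · exact Or.inl h
    · by_cases hf : f = lF σ j side false
      · simp [hf, hx.ne']
      · simp [hf, chd]

end Pool.Agent.P.MP_af6acb_co.Fat
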