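import Pool.Agent.P.MP_af6acb_co.Fat.BaseA

/-!
The intermediate statements about projected systems and about the total system.
-/

namespace Pool.Agent.P.MP_af6acb_co.Fat

open Finset Module
open scoped Classical

/-! ### Projected systems -/

-- deps:
def S_LP1 : Prop := ∀ (E ι : Type) [NormedAddCommGroup E] [NormedSpace ℝ E] [FiniteDimensional ℝ E]
  [Fintype ι] (Y : Sys E ι),
  (∃ C, ∀ z ∈ Y.Fe, ‖z‖ ≤ C) → Y.Fe.Nonempty → (∀ i, ∃ z ∈ Y.Fe, 0 < Y.sl i z) →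
  Function.Surjective Y.pr → IsPolytope4 Y.Q

-- imports: Pool.Agent.P.MP_0c5457_lc.Saddle
-- deps:
def S_LP2 : Prop := ∀ (E ι : Type) [NormedAddCommGroup E] [NormedSpace ℝ E] [FiniteDimensional ℝ E]
  [Fintype ι] (Y : Sys E ι)
  (F : Set E4), F.Nonempty → IsExposed ℝ Y.Q F → ∃ lam, Y.Mul lam ∧ F = Y.pr '' Y.face (supp lam)

-- deps:
def S_LP3 : Prop := ∀ (E ι : Type) [NormedAddCommGroup E] [NormedSpace ℝ E] [FiniteDimensional ℝ E]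
  [Fintype ι] (Y : Sys E ι)
  (lam : ι → ℝ), Y.Mul lam → (Y.face (supp lam)).Nonempty →
  IsExposed ℝ Y.Q (Y.pr '' Y.face (supp lam)) ∧
    ∀ z ∈ Y.Fe, Y.pr z ∈ Y.pr '' Y.face (supp lam) → z ∈ Y.face (supp lam)

-- deps:
def S_LP4 : Prop := ∀ (E ι : Type) [NormedAddCommGroup E] [NormedSpace ℝ E] [FiniteDimensional ℝ E]
  [Fintype ι] (Y : Sys E ι)
  (T X : Finset ι), (∀ z, (∀ i ∈ T, Y.S i z = 0) → (∀ i ∈ X, Y.S i z = 0) → z = 0) →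
  Y.dim T ≤ X.card

-- deps: LP2
def S_CU : Prop := ∀ (E ι : Type) [NormedAddCommGroup E] [NormedSpace ℝ E] [FiniteDimensional ℝ E]
  [Fintype ι] (Y : Sys E ι)
  (k : ℕ) (D : Finset (Finset ι)), (∀ lam, Y.Mul lam → (Y.face (supp lam)).Nonempty →
    Y.dim (supp lam) = k → ∃ T ∈ D, Y.pr '' Y.face (supp lam) = Y.pr '' Y.face T) →
  numFaces Y.Q k ≤ D.card

-- deps: LP2 LP3
def S_CL : Prop := ∀ (E ι : Type) [NormedAddCommGroup E] [NormedSpace ℝ E] [FiniteDimensional ℝ E]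
  [Fintype ι] (Y : Sys E ι)
  (k : ℕ) (α : Type) [Fintype α] (lam : α → ι → ℝ), (∀ a, Y.Mul (lam a) ∧
    (Y.face (supp (lam a))).Nonempty ∧ Y.dim (supp (lam a)) = k) →
  (Function.Injective fun a => Y.face (supp (lam a))) → Fintype.card α ≤ numFaces Y.Q k

-- deps:
def S_EUL : Prop := ∀ P : Set E4, IsPolytope4 P →
  numFaces P 0 + numFaces P 2 = numFaces P 1 + numFaces P 3

/-! ### The total system -/

-- deps:
def S_SCL : Prop := ∀ (W R V Ed Ev : Type) [NormedAddCommGroup W] [NormedSpace ℝ W]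
  [FiniteDimensional ℝ W] [Fintype R] [Fintype V] [Fintype Ed] [Fintype Ev]
  (G : Gad W R V Ed Ev) (K et : ℝ),
  G.Ok K et → G.OkH K

-- deps: SCL
def S_FB0 : Prop := ∀ (W R V Ed Ev : Type) [NormedAddCommGroup W] [NormedSpace ℝ W]
  [FiniteDimensional ℝ W] [Fintype R] [Fintype V] [Fintype Ed] [Fintype Ev]
  (G : Gad W R V Ed Ev) (K et : ℝ) (q : Prm) (r l : ℕ),
  G.Ok K et → G.Par0 q K et r l → ∀ z : Tot W r, G.Up q l z → (∀ i, AdmH (G.pt q z i)) ∧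
    (∀ i, ‖z.2.1 i‖ ≤ K) ∧ ‖z.2.2‖ ≤ 4 * ((l : ℝ) + 1) ^ 3

-- deps: FB0
def S_PAR : Prop := ∀ (W R V Ed Ev : Type) [NormedAddCommGroup W] [NormedSpace ℝ W]
  [FiniteDimensional ℝ W] [Fintype R] [Fintype V] [Fintype Ed] [Fintype Ev]
  (G : Gad W R V Ed Ev) (K et : ℝ) (r l : ℕ),
  G.Ok K et → 3 ≤ l → ∃ q : Prm, G.Par q K et r l

-- deps:
def S_LAY : Prop := ∀ (l : ℕ) (X : ℝ × ℝ) (h : ℝ), 2 ≤ l → 0 < h → (∀ c, 0 ≤ lay l c X h) →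
  (∀ s s' : Fin (l + 1), s < s' → lay l (some s) X h = 0 → lay l (some s') X h = 0 →
    (s' : ℕ) = s + 1) ∧
  (∀ s : Fin (l + 1), lay l none X h = 0 → lay l (some s) X h = 0 → s = 0 ∨ s = Fin.last l)

-- deps: FB0
def S_FB1 : Prop := ∀ (W R V Ed Ev : Type) [NormedAddCommGroup W] [NormedSpace ℝ W]
  [FiniteDimensional ℝ W] [Fintype R] [Fintype V] [Fintype Ed] [Fintype Ev]
  (G : Gad W R V Ed Ev) (K et : ℝ) (q : Prm) (r l : ℕ),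
  G.Ok K et → G.Par q K et r l → (∃ C, ∀ z ∈ (G.sys q r l).Fe, ‖z‖ ≤ C) ∧
    ∀ z ∈ (G.sys q r l).Fe, G.Up q l z ∧ ∀ m, (G.sys q r l).sl (.inl (m, true)) z = 0 →
      (G.sys q r l).sl (.inl (m, false)) z ≠ 0

-- deps: SCL
def S_TV : Prop := ∀ (W R V Ed Ev : Type) [NormedAddCommGroup W] [NormedSpace ℝ W]
  [FiniteDimensional ℝ W] [Fintype R] [Fintype V] [Fintype Ed] [Fintype Ev]
  (G : Gad W R V Ed Ev) (K et : ℝ) (q : Prm) (r l : ℕ),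
  G.Ok K et → G.Par q K et r l → ∀ (σ : Fin 3 → Bool) (vs : Fin (r + 1) → V) (s : Fin l),
  ∃ z ∈ (G.sys q r l).Fe, ∀ i, (G.sys q r l).sl i z = 0 ↔
    i ∈ asm (bs fun m => some (σ m)) (fun j => G.TV (vs j)) (cell s)

-- deps:
def S_TI : Prop := ∀ (W R V Ed Ev : Type) [NormedAddCommGroup W] [NormedSpace ℝ W]
  [FiniteDimensional ℝ W] [Fintype R] [Fintype V] [Fintype Ed] [Fintype Ev]
  (G : Gad W R V Ed Ev) (q : Prm) (r l : ℕ)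
  (z : Tot W r), (∀ m, ∃ b, (G.sys q r l).S (.inl (m, b)) z = 0) →
  (∀ i, (∃ T : Finset R, G.Inj T ∧ ∀ ρ ∈ T, (G.sys q r l).S (.inr (.inl (i, ρ))) z = 0)) →
  (∃ s s' : Fin (l + 1), s ≠ s' ∧ (G.sys q r l).S (.inr (.inr (some s))) z = 0 ∧
    (G.sys q r l).S (.inr (.inr (some s'))) z = 0) → z = 0

-- deps: LP1 FB1 TV
def S_POLY : Prop := ∀ (W R V Ed Ev : Type) [NormedAddCommGroup W] [NormedSpace ℝ W]
  [FiniteDimensional ℝ W] [Fintype R] [Fintype V] [Fintype Ed] [Fintype Ev]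
  (G : Gad W R V Ed Ev) (K et : ℝ) (q : Prm) (r l : ℕ),
  G.Ok K et → Nonempty V → G.Par q K et r l → IsPolytope4 (G.sys q r l).Q

-- deps:
def S_DD : Prop := ∀ (W R V Ed Ev : Type) [NormedAddCommGroup W] [NormedSpace ℝ W]
  [FiniteDimensional ℝ W] [Fintype R] [Fintype V] [Fintype Ed] [Fintype Ev]
  (G : Gad W R V Ed Ev) (K et : ℝ) (q : Prm) (r l : ℕ)
  (lam : Row R r l → ℝ), G.Ok K et → ((G.sys q r l).Mul lam → ∃ c w, G.DD q lam c w) ∧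
    ∀ c w, G.DD q lam c w → (G.sys q r l).Mul lam

-- deps:
def S_BND : Prop := ∀ (W R V Ed Ev : Type) [NormedAddCommGroup W] [NormedSpace ℝ W]
  [FiniteDimensional ℝ W] [Fintype R] [Fintype V] [Fintype Ed] [Fintype Ev]
  (G : Gad W R V Ed Ev) (K et : ℝ) (q : Prm) (r l : ℕ),
  G.Ok K et → G.Par0 q K et r l → ∀ p : Fin 3 → ℝ, (∀ m, 0 ≤ p m) → ∀ i : Fin (r + 1),
  |bb q p i| ≤ 2 * q.ka * ((r : ℝ) + 2) ^ 2 * ee r p ∧
    K * (aa q r p + |bb q p i|) ≤ ee r p / 16 ∧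
    K * (aa q r p + |bb q p i| + |rho r p (ps i)|) ≤ q.La * (G.th * aa q r p)

-- deps: BND
def S_GEO : Prop := ∀ (W R V Ed Ev : Type) [NormedAddCommGroup W] [NormedSpace ℝ W]
  [FiniteDimensional ℝ W] [Fintype R] [Fintype V] [Fintype Ed] [Fintype Ev]
  (G : Gad W R V Ed Ev) (K et : ℝ) (q : Prm) (r l : ℕ),
  G.Ok K et → G.Par0 q K et r l → ∀ (p : Fin 3 → ℝ) (β : Fin 3 → Option Bool)
  (f : Fin (r + 1) → V ⊕ Ed ⊕ Ev), (∀ m, 0 ≤ p m) → 0 < ee r p → (∀ m, β m = none → p m = 0) →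
  (∀ i : Fin (r + 1), -(K * (aa q r p + |bb q p i|)) ≤ rho r p (ps i)) →
  (∀ i, G.Nm K (aa q r p) (bb q p i) (rho r p (ps i)) (f i)) → G.Geo β f

-- deps: SCL FB0 FB1 LAY DD BND GEO
def S_ACT : Prop := ∀ (W R V Ed Ev : Type) [NormedAddCommGroup W] [NormedSpace ℝ W]
  [FiniteDimensional ℝ W] [Fintype R] [Fintype V] [Fintype Ed] [Fintype Ev]
  (G : Gad W R V Ed Ev) (K et : ℝ) (q : Prm) (r l : ℕ),
  G.Ok K et → G.Par q K et r l → ∀ lam : Row R r l → ℝ, (G.sys q r l).Mul lam →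
  ((G.sys q r l).face (supp lam)).Nonempty → lam (.inr (.inr none)) = 0 →
  (∃ s, lam (.inr (.inr (some s))) ≠ 0) → ∃ β f C, G.Geo β f ∧
    ((∃ s, C = {some s}) ∨ ∃ s, C = cell s) ∧
    (G.sys q r l).face (supp lam) = (G.sys q r l).face (asm (bs β) (fun i => G.T (f i)) C)

-- deps: LP4 TI
def S_DIM : Prop := ∀ (W R V Ed Ev : Type) [NormedAddCommGroup W] [NormedSpace ℝ W]
  [FiniteDimensional ℝ W] [Fintype R] [Fintype V] [Fintype Ed] [Fintype Ev]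
  (G : Gad W R V Ed Ev) (K et : ℝ) (q : Prm) (r l : ℕ),
  G.Ok K et → 2 ≤ l → ∀ (β : Fin 3 → Option Bool) (f : Fin (r + 1) → V ⊕ Ed ⊕ Ev),
  (∀ s : Fin l, (G.sys q r l).dim (asm (bs β) (fun i => G.T (f i)) (cell s)) ≤
    nb β + ∑ i, df (f i)) ∧
  ∀ s : Fin (l + 1), (G.sys q r l).dim (asm (bs β) (fun i => G.T (f i)) {some s}) ≤
    nb β + ∑ i, df (f i) + 1

-- deps:
def S_CNT : Prop := ∀ (W R V Ed Ev : Type) [NormedAddCommGroup W] [NormedSpace ℝ W]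
  [FiniteDimensional ℝ W] [Fintype R] [Fintype V] [Fintype Ed] [Fintype Ev]
  (G : Gad W R V Ed Ev) (r : ℕ),
  ∃ D : Finset ((Fin 3 → Option Bool) × (Fin (r + 1) → V ⊕ Ed ⊕ Ev)),
    D.card ≤ VZ r (Fintype.card V) (Fintype.card Ev) G.Blue.card G.Red.card (Fintype.card Ed) ∧
    ∀ β f, G.Geo β f → nb β + ∑ i, df (f i) ≤ 2 ∧ (2 ≤ nb β + ∑ i, df (f i) → (β, f) ∈ D)

-- deps: FB1 LAY
def S_NA : Prop := ∀ (W R V Ed Ev : Type) [NormedAddCommGroup W] [NormedSpace ℝ W]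
  [FiniteDimensional ℝ W] [Fintype R] [Fintype V] [Fintype Ed] [Fintype Ev]
  (G : Gad W R V Ed Ev) (K et : ℝ) (q : Prm) (r l : ℕ),
  G.Ok K et → G.Par q K et r l → ∃ D : Finset (Finset (Row R r l)),
    D.card ≤ C0 r (Fintype.card R) ∧ ∀ lam : Row R r l → ℝ,
      ((G.sys q r l).face (supp lam)).Nonempty →
      (lam (.inr (.inr none)) ≠ 0 ∨ ∀ s, lam (.inr (.inr (some s))) = 0) → supp lam ∈ D

-- deps: CU ACT DIM CNT NA
def S_F3 : Prop := ∀ (W R V Ed Ev : Type) [NormedAddCommGroup W] [NormedSpace ℝ W]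
  [FiniteDimensional ℝ W] [Fintype R] [Fintype V] [Fintype Ed] [Fintype Ev]
  (G : Gad W R V Ed Ev) (K et : ℝ) (q : Prm) (r l : ℕ),
  G.Ok K et → G.Par q K et r l → numFaces (G.sys q r l).Q 3 ≤ (l + 1) *
    VZ r (Fintype.card V) (Fintype.card Ev) G.Blue.card G.Red.card (Fintype.card Ed) +
      C0 r (Fintype.card R)

-- deps: CU ACT TV NA
def S_F0 : Prop := ∀ (W R V Ed Ev : Type) [NormedAddCommGroup W] [NormedSpace ℝ W]
  [FiniteDimensional ℝ W] [Fintype R] [Fintype V] [Fintype Ed] [Fintype Ev]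
  (G : Gad W R V Ed Ev) (K et : ℝ) (q : Prm) (r l : ℕ),
  G.Ok K et → G.Par q K et r l →
  numFaces (G.sys q r l).Q 0 ≤ 8 * Fintype.card V ^ (r + 1) * l + C0 r (Fintype.card R)

-- deps:
def S_BP : Prop := ∀ (r : ℕ) (e : ℝ) (i : Fin (r + 1)), 0 < e → ∃ p : ℝ × ℝ → Fin 3 → ℝ,
  Continuous p ∧ ∀ u ρ, ee r (p (u, ρ)) = e ∧ uu r (p (u, ρ)) = u ∧ rho r (p (u, ρ)) (ps i) = ρ ∧
    (|u - ps i * e| ≤ e / 4 → |ρ| ≤ e / 8 → (∀ m, 0 < p (u, ρ) m) ∧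
      ∀ j, j ≠ i → e / 8 ≤ rho r (p (u, ρ)) (ps j))

-- deps: DD BND BP
def S_EX : Prop := ∀ (W R V Ed Ev : Type) [NormedAddCommGroup W] [NormedSpace ℝ W]
  [FiniteDimensional ℝ W] [Fintype R] [Fintype V] [Fintype Ed] [Fintype Ev]
  (G : Gad W R V Ed Ev) (K et : ℝ) (q : Prm) (r l : ℕ),
  G.Ok K et → G.Par q K et r l → ∀ (σ : Fin 3 → Bool) (vs : Fin (r + 1) → V) (s : Fin l),
  (∃ lam, (G.sys q r l).Mul lam ∧
    supp lam = asm (bs fun m => some (σ m)) (fun j => G.TV (vs j)) (cell s)) ∧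
  ∀ i, ∀ e ∈ G.E0, ∃ lam, (G.sys q r l).Mul lam ∧ supp lam =
    asm (bs fun m => some (σ m)) (Function.update (fun j => G.TV (vs j)) i (G.TE e)) (cell s)

-- deps: CL DIM TV EX
def S_F0L : Prop := ∀ (W R V Ed Ev : Type) [NormedAddCommGroup W] [NormedSpace ℝ W]
  [FiniteDimensional ℝ W] [Fintype R] [Fintype V] [Fintype Ed] [Fintype Ev]
  (G : Gad W R V Ed Ev) (K et : ℝ) (q : Prm) (r l : ℕ),
  G.Ok K et → G.Par q K et r l → 8 * Fintype.card V ^ (r + 1) * l ≤ numFaces (G.sys q r l).Q 0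

-- deps: LP3 CL SCL DIM TV TI EX
def S_F1 : Prop := ∀ (W R V Ed Ev : Type) [NormedAddCommGroup W] [NormedSpace ℝ W]
  [FiniteDimensional ℝ W] [Fintype R] [Fintype V] [Fintype Ed] [Fintype Ev]
  (G : Gad W R V Ed Ev) (K et : ℝ) (q : Prm) (r l : ℕ),
  G.Ok K et → G.Par q K et r l →
  8 * (r + 1) * G.E0.card * Fintype.card V ^ r * l ≤ numFaces (G.sys q r l).Q 1

-- deps:
def S_ASY : Prop := ∀ (N I E B Rd Ed : ℕ) (φ : ℝ), 2 ≤ φ →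
  (φ - 1) * ((I : ℝ) * N + B * Rd) < 2 * E * N → ∃ r : ℕ, ∀ C : ℕ, ∃ l : ℕ, 3 ≤ l ∧
    ∀ f0 f1 f2 f3 : ℕ, f0 + f2 = f1 + f3 → 8 * N ^ (r + 1) * l ≤ f0 →
      f0 ≤ 8 * N ^ (r + 1) * l + C → 8 * (r + 1) * E * N ^ r * l ≤ f1 →
      f3 ≤ (l + 1) * VZ r N I B Rd Ed + C →
      φ < ((f1 : ℝ) + f2 - 20) / ((f0 : ℝ) + f3 - 10)

-- deps: EUL PAR POLY F3 F0 F0L F1 ASY
def S_MAIN : Prop := ∀ (W R V Ed Ev : Type) [NormedAddCommGroup W] [NormedSpace ℝ W]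
  [FiniteDimensional ℝ W] [Fintype R] [Fintype V] [Fintype Ed] [Fintype Ev]
  (G : Gad W R V Ed Ev) (K et : ℝ) (φ : ℝ),
  G.Ok K et → 2 ≤ φ → (φ - 1) * ((Fintype.card Ev : ℝ) * Fintype.card V +
    G.Blue.card * G.Red.card) < 2 * G.E0.card * Fintype.card V →
  ∃ f ∈ fVectors, φ < ((f 1 : ℝ) + f 2 - 20) / ((f 0 : ℝ) + f 3 - 10)

end Pool.Agent.P.MP_af6acb_co.Fat
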