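import Pool.Agent.P.MP_af6acb_co.Fat.IfaceG
import Pool.Agent.P.MP_af6acb_co.Fat.IfaceA

set_option linter.unusedSectionVars false

/-! Step WAL. -/

namespace Pool.Agent.P.MP_af6acb_co.Fat

open Finset Module
open scoped Classical

lemma wal_P {p χ A w s : ℝ} (hp0 : 0 ≤ p) (hp : p ≤ 2) (hχ : |χ| * (s / 4) ≤ 2) (hA0 : 0 < A)
    (hA : A ≤ 3 / 2) (hw : |w| ≤ s / 4) : |p * A + χ * w| ≤ 5 := by
  have h1 : |χ * w| ≤ 2 := by
    rw [abs_mul]; exact (mul_le_mul_of_nonneg_left hw (abs_nonneg _)).trans hχ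
  have h2 : 0 ≤ p * A := by positivity
  have h3 : p * A ≤ 3 := by nlinarith
  rw [abs_le] at h1 ⊢
  constructor <;> linarith [h1.1, h1.2]

lemma wal_b {θ A u d P t : ℝ} (hθ : |θ| ≤ 1) (hA0 : 0 < A) (hA : A ≤ 3 / 2) (hu : |u| ≤ 1 / 8)
    (hd0 : 0 < d) (hd : d ≤ 1 / 100) (hP : |P| ≤ 5) (ht : |t| ≤ 2 * d) :
    |θ * A + u + d * P - t| ≤ 2 := by
  have h1 : |θ * A| ≤ 3 / 2 := by
    rw [abs_mul, abs_of_pos hA0]; nlinarith [abs_nonneg θ]
  have h2 : |d * P| ≤ 1 / 20 := by
    rw [abs_mul, abs_of_pos hd0]; nlinarith [abs_nonneg P]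
  rw [abs_le] at h1 h2 hu ht ⊢
  constructor <;> linarith [h1.1, h1.2, h2.1, h2.2, hu.1, hu.2, ht.1, ht.2]

lemma wal_single {ι : Type} [Fintype ι] [DecidableEq ι] (f : ι) (g : ι → ℝ) :
    ∑ x, (Pi.single f 1 : ι → ℝ) x * g x = g f := by
  simp [Pi.single_apply]

theorem p_WAL (hPF : S_PF) (hBK : S_BK) (hLF : S_LF) (hDE : S_DE) (hTM : S_TM) (hSOL : S_SOL) :
    S_WAL := by
  intro k hk σ i hi
  have pf := hPF k hk
  have hom := pf.om_pos
  have hom' := pf.om_le
  have hde := pf.de_pos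
  have hde' : de k ≤ 1 / 100 := by have := pf.de_le; linarith
  have hK : 10 ≤ Kc k := by have := pf.K_W; have := pf.W_eq; have := pf.R_ge; linarith
  have hs0 := pf.sc_pos 0
  rcases hi with ⟨f, rfl⟩ | ⟨j, rfl⟩
  · have lf := hLF k hk f
    obtain ⟨p, χ, q, p', χ', q', hp0, hp, hχ, -, H⟩ := hSOL k hk σ 0 (Nat.zero_le _)
    have haf0 : 0 < af k f := lt_of_lt_of_le (by positivity) lf.af_ge
    have hA0 : 0 < 1 + af k f := by linarith
    have hA : 1 + af k f ≤ 3 / 2 := by have := lf.af_le; linarith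
    refine ⟨fun w => thB σ 0 * (1 + af k f) + ori σ 0 * w / pp k 0 +
        de k * (p * (1 + af k f) + χ * w) - ta k f,
      fun w => p * (1 + af k f) + χ * w + r2 k f, by fun_prop, by fun_prop, fun w hw => ?_⟩
    rw [gad_th] at hw
    have hP := wal_P hp0 hp hχ hA0 hA hw
    have hpp := pf.pp_pos 0
    refine ⟨wal_b ((hBK k hk σ).1.trans (by linarith)) hA0 hA ?_ hde hde' hP lf.ta_le, ?_, ?_⟩
    · have h1 : |ori σ 0| = 1 := by rcases ori_cases σ 0 with h | h <;> simp [h]
      have h2 : sc k 0 = pp k 0 * om k := by simp [sc]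
      rw [abs_div, abs_mul, h1, one_mul, abs_of_pos hpp, div_le_iff₀ hpp]
      rw [h2] at hw
      nlinarith
    · have := lf.r2_le
      rw [abs_le] at hP this ⊢
      constructor <;> linarith [hP.1, hP.2, this.1, this.2]
    · obtain ⟨μ, hμ0, hμs, hch, -, hS, -⟩ := H (1 + af k f) w 0 hA0
        (hw.trans (by nlinarith)) (by rw [abs_zero]; positivity)
      have htm := hTM k hk μ (1 + af k f) w σ 0 (Nat.zero_le _) hch fun j _ => by
        by_contra h
        have := (hμs (j, !σ j)).1 h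
        simp at this
      rw [gq_zero] at htm
      rw [mul_zero, add_zero] at hS
      refine ⟨∑ j : Fin k, (2 * (j : ℝ) + 2) * μ (j, true) + r1 k f,
        Sum.elim μ (Pi.single f 1), (hDE k hk _ _ _ _ _ _).2 ⟨hμ0, fun g => ?_, ?_, ?_, ?_, ?_⟩, ?_⟩
      · simp only [Sum.elim_inr, Pi.single_apply]; split_ifs <;> norm_num
      · simp only [Sum.elim_inl, Sum.elim_inr, wal_single]
        exact hch
      · simp only [Sum.elim_inl, Sum.elim_inr, wal_single]
        rw [hS]
        change gq μ w k = _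
        rw [htm]; ring
      · simp only [Sum.elim_inl, Sum.elim_inr, wal_single]
      · simp only [Sum.elim_inl, Sum.elim_inr, wal_single]
        rw [hS]
      · ext x
        rcases x with x | g
        · simp [supp, hμs x]
        · simp [supp, Pi.single_apply]
  · obtain ⟨p, χ, q, p', χ', q', hp0, hp, hχ, -, H⟩ := hSOL k hk σ (j + 1) j.2
    refine ⟨fun w => thB σ (j + 1) * 1 + 0 + de k * (p * 1 + χ * w) - 0,
      fun w => p * 1 + χ * w, by fun_prop, by fun_prop, fun w hw => ?_⟩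
    rw [gad_th] at hw
    have hP := wal_P hp0 hp hχ one_pos (by norm_num) hw
    have hpp := pf.pp_pos (j + 1)
    refine ⟨wal_b (((hBK k hk σ).2 j).th_le.trans (by linarith)) one_pos (by norm_num)
      (by norm_num) hde hde' hP (by rw [abs_zero]; positivity), hP.trans (by linarith), ?_⟩
    obtain ⟨μ, hμ0, hμs, hch, hg, hS, -⟩ := H 1 w 0 one_pos (by simpa using hw)
      (by rw [abs_zero]; positivity)
    have htm := hTM k hk μ 1 w σ (j + 1) j.2 hch fun l hl => by
      by_contra h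
      rcases (hμs (l, !σ l)).1 h with h1 | h1
      · simp at h1
      · simp only at h1; omega
    rw [hg (Nat.succ_ne_zero _)] at htm
    rw [mul_zero, add_zero] at hS
    refine ⟨∑ j : Fin k, (2 * (j : ℝ) + 2) * μ (j, true), Sum.elim μ 0,
      (hDE k hk _ _ _ _ _ _).2 ⟨hμ0, fun g => ?_, ?_, ?_, ?_, ?_⟩, ?_⟩
    · simp
    · simpa using hch
    · simp only [Sum.elim_inl, Sum.elim_inr, Pi.zero_apply, zero_mul, sum_const_zero]
      rw [hS]
      change gq μ w k = _
      rw [htm]; ring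
    · simp
    · simp only [Sum.elim_inl, Sum.elim_inr, Pi.zero_apply, zero_mul, sum_const_zero, add_zero]
      rw [hS]
    · ext x
      rcases x with ⟨l, b⟩ | g
      · simp only [supp, mem_filter, mem_univ, true_and, Sum.elim_inl, hμs (l, b), mem_insert,
          inl_mem_reg, chd, Sum.inl.injEq, Prod.mk.injEq]
        constructor
        · rintro (h | h)
          · exact Or.inr h
          · obtain rfl : l = j := Fin.ext (by omega)
            by_cases hb : b = σ l
            · exact Or.inr hb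
            · exact Or.inl ⟨rfl, by cases b <;> cases hσ : σ l <;> simp_all⟩
        · rintro (⟨rfl, -⟩ | h)
          · exact Or.inr rfl
          · exact Or.inl h
      · simp [supp, chd]

end Pool.Agent.P.MP_af6acb_co.Fat

/-! Step TJV. -/

namespace Pool.Agent.P.MP_af6acb_co.Fat

open Finset Module
open scoped Classical

lemma tjv_sig {k : ℕ} {σ σ' : Fin k → Bool} {c c' : Fin k → Prop} (h : ∀ j, c j → ¬Cre σ j)
    (h' : ∀ j, c' j → ¬Cre σ' j) (u : ∀ i j, c i → c j → i = j)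
    (e : ∀ l b, (b = σ l ∨ c l) ↔ (b = σ' l ∨ c' l)) : σ = σ' := by
  have e1 : ∀ l, c l → c' l := fun l hl =>
    ((e l (!σ' l)).1 (Or.inr hl)).resolve_left (by simp)
  have e2 : ∀ l, ¬c l → σ l = σ' l := fun l hl =>
    (((e l (σ' l)).2 (Or.inl rfl)).resolve_right hl).symm
  funext j
  by_cases hj : c j
  · have a := h j hj
    have a' := h' j (e1 j hj)
    unfold Cre at a a'
    rw [← ori_congr (σ := σ) fun l hl => e2 l fun hc => hl.ne' (u l j hc hj)] at a'
    rcases ori_cases σ (j + 1) with o | o <;> cases h1 : σ j <;> cases h2 : σ' j <;>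
      simp [o, h1, h2, sgn] at a a' ⊢
  · exact e2 j hj

lemma tjv_mem {k : ℕ} (σ : Fin k → Bool) (x : Bool ⊕ Fin k × Bool × Bool) (l : Fin k) (b : Bool) :
    Sum.inl (l, b) ∈ TVg (σ, x) ↔ b = σ l ∨ ((∃ s, x = .inr (l, s, false)) ∧ ¬Cre σ l) := by
  rcases x with a | ⟨j, s, _ | _⟩
  · simp [TVg, ex2]
  · by_cases hc : Cre σ j
    · simp only [TVg, ex2, hc, if_true, mem_insert, reduceCtorEq, false_or, inl_mem_reg,
        Sum.inr.injEq, Prod.mk.injEq, and_true, exists_and_left, exists_eq', iff_self_or]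
      rintro ⟨rfl, h⟩
      exact absurd hc h
    · simp only [TVg, ex2, hc, if_false, mem_insert, reduceCtorEq, false_or, inl_mem_reg, chd,
        Sum.inr.injEq, Sum.inl.injEq, Prod.mk.injEq, and_true, exists_and_left, exists_eq']
      by_cases e : l = j
      · subst e
        cases b <;> cases σ l <;> simp [hc]
      · simp [e, Ne.symm e]
  · by_cases hc : Cre σ j <;> simp [TVg, ex2, hc]

theorem p_TJV :
    S_TJV := by
  rintro k hk ⟨σ, x⟩ ⟨σ', x'⟩ h
  obtain rfl : σ = σ' := by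
    refine tjv_sig (c := fun l => (∃ s, x = .inr (l, s, false)) ∧ ¬Cre σ l)
      (c' := fun l => (∃ s, x' = .inr (l, s, false)) ∧ ¬Cre σ' l) (fun _ a => a.2)
      (fun _ a => a.2) ?_ fun l b => by rw [← tjv_mem, ← tjv_mem, h]
    rintro i j ⟨⟨s, rfl⟩, -⟩ ⟨⟨s', e⟩, -⟩
    simp only [Sum.inr.injEq, Prod.mk.injEq] at e
    exact e.1
  have a1 : (ex2 σ x).1 ∈ TVg (σ, x') := h ▸ mem_insert_self _ _
  have a2 : (ex2 σ x).2 ∈ TVg (σ, x') := h ▸ mem_insert_of_mem (mem_insert_self _ _)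
  have n0 : (0 : Fin (k + 1)) ≠ Fin.last k := fun e => by
    have := congrArg Fin.val e
    simp at this
    omega
  rw [Prod.mk.injEq, eq_self, true_and]
  rcases x with (_ | _) | ⟨j, s, _ | _⟩ <;> rcases x' with (_ | _) | ⟨j', s', _ | _⟩
  all_goals first
    | rfl
    | (by_cases hc : Cre σ j <;> by_cases hc' : Cre σ j' <;>
        simp [TVg, ex2, hc, hc', chd, lF_eq_iff] at a1 a2 ⊢ <;> simp_all)
    | (by_cases hc : Cre σ j <;> simp [TVg, ex2, hc, chd] at a1 a2)
    | (by_cases hc : Cre σ j' <;> simp [TVg, ex2, hc, chd] at a1 a2)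
    | simp [TVg, ex2, n0, n0.symm] at a2

end Pool.Agent.P.MP_af6acb_co.Fat

/-! Step TJE. -/

namespace Pool.Agent.P.MP_af6acb_co.Fat

open Finset Module
open scoped Classical

lemma tje_sig {k : ℕ} {σ σ' : Fin k → Bool} {c c' : Fin k → Prop} (h : ∀ j, c j → ¬Cre σ j)
    (h' : ∀ j, c' j → ¬Cre σ' j) (u : ∀ i j, c i → c j → i = j)
    (e : ∀ l b, (b = σ l ∨ c l) ↔ (b = σ' l ∨ c' l)) : σ = σ' := by
  have e1 : ∀ l, c l → c' l := fun l hl =>
    ((e l (!σ' l)).1 (Or.inr hl)).resolve_left (by simp)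
  have e2 : ∀ l, ¬c l → σ l = σ' l := fun l hl =>
    (((e l (σ' l)).2 (Or.inl rfl)).resolve_right hl).symm
  funext j
  by_cases hj : c j
  · have a := h j hj
    have a' := h' j (e1 j hj)
    unfold Cre at a a'
    rw [← ori_congr (σ := σ) fun l hl => e2 l fun hc => hl.ne' (u l j hc hj)] at a'
    rcases ori_cases σ (j + 1) with o | o <;> cases h1 : σ j <;> cases h2 : σ' j <;>
      simp [o, h1, h2, sgn] at a a' ⊢
  · exact e2 j hj

lemma tje_mem {k : ℕ} (σ : Fin k → Bool) (x : Fin (k + 1) ⊕ Unit ⊕ Fin k × Bool × Bool)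
    (l : Fin k) (b : Bool) : Sum.inl (l, b) ∈ TEg (σ, x) ↔
      b = σ l ∨ ((∃ s, x = .inr (.inr (l, s, true))) ∧ ¬Cre σ l) := by
  rcases x with a | a | ⟨j, s, _ | _⟩
  · simp [TEg, ex1]
  · simp [TEg, ex1]
  · by_cases hc : Cre σ j <;> simp [TEg, ex1, hc]
  · by_cases hc : Cre σ j
    · simp only [TEg, ex1, hc, if_true, mem_insert, reduceCtorEq, false_or, inl_mem_reg,
        Sum.inr.injEq, Prod.mk.injEq, and_true, exists_and_left, exists_eq', iff_self_or]
      rintro ⟨rfl, h⟩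
      exact absurd hc h
    · simp only [TEg, ex1, hc, if_false, mem_insert, inl_mem_reg, chd,
        Sum.inr.injEq, Sum.inl.injEq, Prod.mk.injEq, and_true, exists_and_left, exists_eq']
      by_cases e : l = j
      · subst e
        cases b <;> cases σ l <;> simp [hc]
      · simp [e, Ne.symm e]

theorem p_TJE :
    S_TJE := by
  rintro k ⟨σ, x⟩ hx ⟨σ', x'⟩ hx' h
  obtain rfl : σ = σ' := by
    refine tje_sig (c := fun l => (∃ s, x = .inr (.inr (l, s, true))) ∧ ¬Cre σ l)
      (c' := fun l => (∃ s, x' = .inr (.inr (l, s, true))) ∧ ¬Cre σ' l) (fun _ a => a.2)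
      (fun _ a => a.2) ?_ fun l b => by rw [← tje_mem, ← tje_mem, h]
    rintro i j ⟨⟨s, rfl⟩, -⟩ ⟨⟨s', e⟩, -⟩
    simp only [Sum.inr.injEq, Prod.mk.injEq] at e
    exact e.1
  have a1 : ex1 σ x ∈ TEg (σ, x') := h ▸ mem_insert_self _ _
  rw [Prod.mk.injEq, eq_self, true_and]
  simp only [E0g, coe_filter, mem_univ, true_and, Set.mem_ofPred_eq] at hx hx'
  rcases x with i | i | ⟨j, s, _ | _⟩ <;> rcases x' with i' | i' | ⟨j', s', _ | _⟩
  all_goals first
    | rfl
    | (by_cases hc : Cre σ j <;> by_cases hc' : Cre σ j' <;> cases s <;> cases s' <;>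
        simp [TEg, ex1, hc, hc', chd, lF_eq_iff] at a1 hx hx' ⊢ <;> simp_all)
    | (by_cases hc : Cre σ j <;> simp [TEg, ex1, hc, chd] at a1)
    | (by_cases hc : Cre σ j' <;> simp [TEg, ex1, hc, chd] at a1)
    | simpa [TEg, ex1] using a1

end Pool.Agent.P.MP_af6acb_co.Fat

/-! Step ENDS. -/

namespace Pool.Agent.P.MP_af6acb_co.Fat

open Finset Module
open scoped Classical

lemma ends_sub {k : ℕ} {σ : Fin k → Bool} {e v}
    (h : ex1 σ e = (ex2 σ v).1 ∨ ex1 σ e = (ex2 σ v).2) :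
    TEg (σ, e) ⊆ TVg (σ, v) ∧ (TVg (σ, v) \ TEg (σ, e)).card ≤ 1 := by
  simp only [TEg, TVg]
  rcases h with h | h <;> rw [h]
  · exact ⟨by grind, card_le_one_iff_subset_singleton.2 ⟨(ex2 σ v).2, by grind⟩⟩
  · exact ⟨by grind, card_le_one_iff_subset_singleton.2 ⟨(ex2 σ v).1, by grind⟩⟩

lemma ends_two {k : ℕ} {σ : Fin k → Bool} {e v v'} (y y' : RG k)
    (h : ex2 σ v = (ex1 σ e, y) ∨ ex2 σ v = (y, ex1 σ e))
    (h' : ex2 σ v' = (ex1 σ e, y') ∨ ex2 σ v' = (y', ex1 σ e)) (hy : y ≠ y') (i : RG k) :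
    i ∈ TEg (σ, e) ↔ i ∈ TVg (σ, v) ∧ i ∈ TVg (σ, v') := by
  simp only [TEg, TVg]
  rcases h with h | h <;> rcases h' with h' | h' <;> rw [h, h'] <;> grind

theorem p_ENDS :
    S_ENDS := by
  intro k hk
  have h0 : (0 : Fin (k + 1)) ≠ Fin.last k := fun h => by
    have := congrArg Fin.val h
    simp at this; omega
  refine ⟨?_, ?_, ?_⟩
  · rintro ⟨σ, i | u | ⟨j, side, _ | _⟩⟩
    · rcases Fin.eq_zero_or_eq_succ i with rfl | ⟨j, rfl⟩
      · exact ⟨(σ, .inl false), ends_sub (.inr rfl)⟩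
      · refine ⟨(σ, .inr (j, true, true)), ends_sub (.inr ?_)⟩
        simp only [ex1, ex2]; split_ifs <;> rfl
    · exact ⟨(σ, .inl false), ends_sub (.inl rfl)⟩
    · refine ⟨(σ, .inr (j, side, true)), ends_sub (.inl ?_)⟩
      simp only [ex1, ex2]; split_ifs <;> rfl
    · refine ⟨(σ, .inr (j, side, false)), ends_sub ?_⟩
      simp only [ex1, ex2]; split_ifs <;> simp
  · rintro ⟨σ, i | u | ⟨j, side, _ | _⟩⟩ he
    · have hc : ∀ j s, ex2 σ (.inr (j, s, true)) =
          (.inr (lF σ j s (decide (Cre σ j))), .inr (lM (cm j s))) := fun j s => by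
        simp only [ex2]; split_ifs with h <;> simp [h]
      rcases Fin.eq_zero_or_eq_succ i with h1 | ⟨j, h1⟩ <;>
        rcases Fin.eq_castSucc_or_eq_last i with ⟨l, h2⟩ | h2
      · exact ⟨(σ, .inl false), (σ, .inr (l, false, true)), by simp, ends_two _ _
          (.inr (by rw [h1]; rfl)) (.inr (by rw [hc, h2]; rfl)) (by simp)⟩
      · exact absurd (h1.symm.trans h2) h0
      · exact ⟨(σ, .inr (j, true, true)), (σ, .inr (l, false, true)), by simp, ends_two _ _
          (.inr (by rw [hc, h1]; rfl)) (.inr (by rw [hc, h2]; rfl)) (by simp [lF_eq_iff])⟩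
      · exact ⟨(σ, .inr (j, true, true)), (σ, .inl true), by simp, ends_two _ _
          (.inr (by rw [hc, h1]; rfl)) (.inr (by rw [h2]; rfl)) (by simp)⟩
    · exact ⟨(σ, .inl false), (σ, .inl true), by simp,
        ends_two _ _ (.inl rfl) (.inl rfl) (by simpa using h0)⟩
    · refine ⟨(σ, .inr (j, side, false)), (σ, .inr (j, side, true)), by simp, ?_⟩
      by_cases h : Cre σ j
      · exact ends_two _ _ (.inl (by simp only [ex1, ex2, if_pos h]; rfl))
          (.inl (by simp only [ex1, ex2, if_pos h]; rfl)) (by simp)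
      · exact ends_two _ _ (.inr (by simp only [ex1, ex2, if_neg h]; rfl))
          (.inl (by simp only [ex1, ex2, if_neg h]; rfl)) (by simp [chd])
    · by_cases h : Cre σ j
      · have h' : ¬Cre (flp σ j) j := fun h' => (cre_flp σ j).1 h' h
        refine ⟨(σ, .inr (j, side, false)), (flp σ j, .inr (j, side, false)), fun e => ?_, ?_⟩
        · simpa using congrFun (congrArg Prod.fst e) j
        · rintro (⟨l, b⟩ | f)
          · by_cases hl : l = j
            · subst hl; simp +contextual [TEg, TVg, ex1, ex2, h, h', chd]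
            · simp [TEg, TVg, ex1, ex2, h, h', chd, hl, flp_ne σ hl]
          · simp +contextual [TEg, TVg, ex1, ex2, h, h', chd]
      · obtain rfl : side = false := by
          cases side
          · rfl
          · exact absurd ((mem_filter.1 he).2 j rfl) h
        exact ⟨(σ, .inr (j, false, false)), (σ, .inr (j, true, false)), by simp, ends_two _ _
          (.inl (by simp only [ex1, ex2, if_neg h]; rfl))
          (.inl (by simp only [ex1, ex2, if_neg h]; rfl)) (by simp [lF_eq_iff])⟩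
  · rintro (⟨j, b⟩ | f)
    · exact ⟨(fun _ => !b, .inl false), by simp [TVg, ex2]⟩
    · rcases leaf_cases f with ⟨j, rfl⟩ | rfl | ⟨σ, j, s, d, rfl⟩
      · by_cases h : j = 0
        · exact ⟨(fun _ => true, .inl true), by simp [TVg, ex2, h, h0]⟩
        · exact ⟨(fun _ => true, .inl false), by simp [TVg, ex2, h]⟩
      · refine ⟨(fun _ => true, .inr (⟨0, hk⟩, false, true)), ?_⟩
        simp only [TVg, ex2]; split_ifs <;> simp
      · exact ⟨(σ, .inl false), by simp [TVg, ex2]⟩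

end Pool.Agent.P.MP_af6acb_co.Fat

/-! Step CG. -/

namespace Pool.Agent.P.MP_af6acb_co.Fat

open Finset Module
open scoped Classical

lemma cg_half (k : ℕ) :
    2 * #{x : (Fin k → Bool) × Fin k | Cre x.1 x.2} = k * 2 ^ k ∧
      2 * #{x : (Fin k → Bool) × Fin k | ¬Cre x.1 x.2} = k * 2 ^ k := by
  have h1 : #{x : (Fin k → Bool) × Fin k | Cre x.1 x.2} =
      #{x : (Fin k → Bool) × Fin k | ¬Cre x.1 x.2} := by
    refine card_nbij' (fun x => (flp x.1 x.2, x.2)) (fun x => (flp x.1 x.2, x.2)) ?_ ?_ ?_ ?_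
    · intro x hx
      simpa [cre_flp] using hx
    · intro x hx
      simpa [cre_flp] using hx
    · intro x _
      simp
    · intro x _
      simp
  have h2 := card_filter_add_card_filter_not (s := (univ : Finset ((Fin k → Bool) × Fin k)))
    fun x => Cre x.1 x.2
  simp only [card_univ, Fintype.card_prod, Fintype.card_pi, Fintype.card_bool, prod_const,
    Fintype.card_fin] at h2
  rw [mul_comm k]
  omega

theorem p_CG :
    S_CG := by
  intro k
  obtain ⟨h1, h2⟩ := cg_half k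
  refine ⟨?_, ?_, ?_⟩
  · have h : Blueg k ⊆ univ.image fun x : (Fin k → Bool) × (Unit ⊕ Fin k × Bool) =>
        (x.1, .inr (x.2.map id fun y => (y.1, y.2, false))) := by
      rintro ⟨σ, e⟩ he
      rcases (mem_filter.1 he).2 with h | ⟨j, b, h⟩
      · exact mem_image.2 ⟨(σ, .inl ()), mem_univ _, Prod.ext rfl h.symm⟩
      · exact mem_image.2 ⟨(σ, .inr (j, b)), mem_univ _, Prod.ext rfl h.symm⟩
    refine ((card_le_card h).trans card_image_le).trans (le_of_eq ?_)
    simp
    ring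
  · have h : Redg k ⊆ (univ.image fun x : (Fin k → Bool) × Fin (k + 1) => (x.1, .inl x.2)) ∪
        (({x : (Fin k → Bool) × Fin k | Cre x.1 x.2} : Finset _) ×ˢ (univ : Finset Bool)).image
          fun x => (x.1.1, .inr (.inr (x.1.2, x.2, true))) := by
      rintro ⟨σ, e⟩ he
      rcases (mem_filter.1 he).2 with ⟨j, h⟩ | ⟨j, b, h, hc⟩
      · exact mem_union_left _ (mem_image.2 ⟨(σ, j), mem_univ _, Prod.ext rfl h.symm⟩)
      · exact mem_union_right _ (mem_image.2 ⟨((σ, j), b),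
          mem_product.2 ⟨mem_filter.2 ⟨mem_univ _, hc⟩, mem_univ _⟩, Prod.ext rfl h.symm⟩)
    refine ((card_le_card h).trans ((card_union_le _ _).trans
      (add_le_add card_image_le card_image_le))).trans (le_of_eq ?_)
    rw [card_product, mul_comm _ #(univ : Finset Bool)]
    simp only [card_univ, Fintype.card_prod, Fintype.card_pi, Fintype.card_bool, prod_const,
      Fintype.card_fin, h1]
    ring
  · have h : (univ : Finset (EG k)) ⊆ E0g k ∪
        ({x : (Fin k → Bool) × Fin k | ¬Cre x.1 x.2} : Finset _).image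
          fun x => (x.1, .inr (.inr (x.2, true, true))) := by
      rintro ⟨σ, e⟩ -
      by_cases he : ∀ j, e = .inr (.inr (j, true, true)) → Cre σ j
      · exact mem_union_left _ (mem_filter.2 ⟨mem_univ _, he⟩)
      · push Not at he
        obtain ⟨j, h, hc⟩ := he
        exact mem_union_right _ (mem_image.2 ⟨(σ, j), mem_filter.2 ⟨mem_univ _, hc⟩,
          Prod.ext rfl h.symm⟩)
    have h3 := (card_le_card h).trans ((card_union_le _ _).trans (add_le_add le_rfl card_image_le))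
    simp only [card_univ, Fintype.card_prod, Fintype.card_pi, Fintype.card_bool, prod_const,
      Fintype.card_fin, Fintype.card_sum, Fintype.card_unit] at h3
    nlinarith

end Pool.Agent.P.MP_af6acb_co.Fat

/-! Step OK. -/

namespace Pool.Agent.P.MP_af6acb_co.Fat

open Finset Module
open scoped Classical

theorem p_OK (hPF : S_PF) (hBOX : S_BOX) (hVX1 : S_VX1) (hVX2 : S_VX2) (hLOW : S_LOW) (hSGN : S_SGN) (hCLS : S_CLS) (hFARA : S_FARA) (hFARG : S_FARG) (hWAL : S_WAL) (hTJV : S_TJV) (hTJE : S_TJE) (hENDS : S_ENDS) :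
    S_OK := by
  intro k hk
  have P := hPF k hk
  have inj : ∀ v, (gad k).Inj (TVg v) := fun v => (hVX1 k hk v).1
  obtain ⟨e1, e2, e3⟩ := hENDS k hk
  refine ⟨by simpa using P.sc_pos 0, by linarith [P.K_W, P.W_eq, P.R_ge], ?_, ⟨(1, 0, 0), rfl⟩,
    fun p h1 h2 => (hBOX k hk p).2.2 ((hBOX k hk p).1 h1 h2), fun v t ht => ?_, inj, fun f => ?_,
    e2, hTJV k hk, hTJE k, e3, hLOW k hk, hCLS k hk, fun v => ?_, fun e _ => ?_⟩
  · have := P.de_pos
    have := P.om_pos
    unfold etc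
    positivity
  · obtain ⟨z, h1, h2, h3, h4⟩ := (hVX1 k hk v).2 t ht
    have h5 := hVX2 k hk v _ h1 h2 h3 h4
    refine ⟨z, fun i => ?_, fun i => ⟨fun h => ?_, h2 i⟩⟩
    · by_cases hi : i ∈ TVg v
      · exact (h2 i hi).ge
      · exact (h5 i hi).le
    · by_contra hi
      exact (h5 i hi).ne' h
  · rcases f with v | e | σ
    · exact ⟨v, ∅, subset_rfl, Nat.zero_le _, fun z h _ => inj v z h⟩
    · obtain ⟨v, h1, h2⟩ := e1 e
      refine ⟨v, _, h1, h2, fun z h h' => inj v z fun i hi => ?_⟩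
      by_cases c : i ∈ TEg e
      · exact h i c
      · exact h' i (mem_sdiff.2 ⟨hi, c⟩)
    · refine ⟨(σ, .inl false), {(ex2 σ (.inl false)).1, (ex2 σ (.inl false)).2},
        (subset_insert _ _).trans (subset_insert _ _), card_le_two,
        fun z h h' => inj (σ, .inl false) z fun i hi => ?_⟩
      rcases mem_insert.1 hi with c | c
      · exact h' i (c ▸ mem_insert_self _ _)
      · rcases mem_insert.1 c with c | c
        · exact h' i (c ▸ mem_insert_of_mem (mem_singleton_self _))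
        · exact h i c
  · rw [gad_TV, TVg]
    rcases (hSGN k hk).2 v with ⟨j, side, h⟩ | ⟨f1, f2, h, h1, h2, h3, h4⟩ <;> rw [h]
    · exact hFARG k hk v.1 j side
    · exact hFARA k hk v.1 f1 f2 h1 h2 h3 h4
  · rw [gad_TE, TEg]
    exact hWAL k hk e.1 _ (((hSGN k hk).1 e).symm.imp_left fun ⟨f, h, _⟩ => ⟨f, h⟩)

end Pool.Agent.P.MP_af6acb_co.Fat

/-! Step FIN. -/

namespace Pool.Agent.P.MP_af6acb_co.Fat

open Finset Module
open scoped Classical

lemma fin_num {k I a B R E : ℝ} (hk : 0 ≤ k) (hI : 0 < I) (ha : 0 ≤ a)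
    (h : a * (2 * k + 3) < 18 * k + 8) (hB0 : 0 ≤ B) (hB : B ≤ (2 * k + 1) * I)
    (hR : R ≤ (2 * k + 1) * I) (hE : (9 * k + 4) * I ≤ 2 * E) :
    a * (I * (I * (4 * k + 2)) + B * R) < 2 * E * (I * (4 * k + 2)) := by
  have h1 : B * R ≤ (2 * k + 1) * I * ((2 * k + 1) * I) :=
    (mul_le_mul_of_nonneg_left hR hB0).trans (mul_le_mul_of_nonneg_right hB (by positivity))
  calc _ ≤ a * (I * (I * (4 * k + 2)) + (2 * k + 1) * I * ((2 * k + 1) * I)) := by gcongr
    _ = a * (2 * k + 3) * (I * I * (2 * k + 1)) := by ring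
    _ < (18 * k + 8) * (I * I * (2 * k + 1)) := mul_lt_mul_of_pos_right h (by positivity)
    _ = (9 * k + 4) * I * (I * (4 * k + 2)) := by ring
    _ ≤ _ := mul_le_mul_of_nonneg_right hE (by positivity)

theorem p_FIN (hMAIN : S_MAIN) (hOK : S_OK) (hCG : S_CG) :
    S_FIN := by
  intro φ hφ
  have h10 : max φ 2 < 10 := max_lt hφ (by norm_num)
  have h2 : 2 ≤ max φ 2 := le_max_right _ _
  obtain ⟨k, hk⟩ := exists_nat_gt (max 1 (27 / (10 - max φ 2)))
  have hk1 : (1 : ℝ) < k := (le_max_left _ _).trans_lt hk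
  have hk2 := (le_max_right _ _).trans_lt hk
  rw [div_lt_iff₀ (by linarith)] at hk2
  obtain ⟨c1, c2, c3⟩ := hCG k
  obtain ⟨f, hf, h⟩ := hMAIN _ _ _ _ _ (gad k) _ _ (max φ 2) (hOK k (by exact_mod_cast hk1.le)) h2 (by
    have e1 : (Fintype.card (Fin k → Bool) : ℝ) = 2 ^ k := by simp
    have e2 : (Fintype.card (VG k) : ℝ) = 2 ^ k * (4 * k + 2) := by
      simp
      ring
    rw [e1, e2]
    exact fin_num (by linarith) (by positivity) (by linarith) (by nlinarith) (Nat.cast_nonneg _)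
      (by exact_mod_cast c1) (by exact_mod_cast c2) (by exact_mod_cast c3))
  exact ⟨f, hf, (le_max_left _ _).trans_lt h⟩

end Pool.Agent.P.MP_af6acb_co.Fat
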