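import Pool.Agent.P.MP_af6acb_co.Fat.PA1
import Pool.Agent.P.MP_af6acb_co.Fat.PA2
import Pool.Agent.P.MP_af6acb_co.Fat.PA3
import Pool.Agent.P.MP_af6acb_co.Fat.PA4
import Pool.Agent.P.MP_af6acb_co.Fat.PG1
import Pool.Agent.P.MP_af6acb_co.Fat.PG2
import Pool.Agent.P.MP_af6acb_co.Fat.PG3
import Pool.Agent.P.MP_af6acb_co.Fat.PG4
import Pool.Agent.P.MP_af6acb_co.Fat.PG5
import Pool.Agent.P.MP_af6acb_co.Fat.PG6

/-!
Assembly of all steps.
-/

namespace Pool.Agent.P.MP_af6acb_co.Fat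

theorem all_EUL : S_EUL := p_EUL
theorem all_SCL : S_SCL := p_SCL
theorem all_FB0 : S_FB0 := p_FB0 all_SCL
theorem all_PAR : S_PAR := p_PAR all_FB0
theorem all_LP1 : S_LP1 := p_LP1
theorem all_FB1 : S_FB1 := p_FB1 all_FB0
theorem all_TV : S_TV := p_TV all_SCL
theorem all_POLY : S_POLY := p_POLY all_LP1 all_FB1 all_TV
theorem all_LP2 : S_LP2 := p_LP2
theorem all_CU : S_CU := p_CU all_LP2
theorem all_LAY : S_LAY := p_LAY
theorem all_DD : S_DD := p_DD
theorem all_BND : S_BND := p_BND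
theorem all_GEO : S_GEO := p_GEO all_BND
theorem all_ACT : S_ACT := p_ACT all_SCL all_FB0 all_FB1 all_LAY all_DD all_BND all_GEO
theorem all_LP4 : S_LP4 := p_LP4
theorem all_TI : S_TI := p_TI
theorem all_DIM : S_DIM := p_DIM all_LP4 all_TI
theorem all_CNT : S_CNT := p_CNT
theorem all_NA : S_NA := p_NA all_FB1 all_LAY
theorem all_F3 : S_F3 := p_F3 all_CU all_ACT all_DIM all_CNT all_NA
theorem all_F0 : S_F0 := p_F0 all_CU all_ACT all_TV all_NA
theorem all_LP3 : S_LP3 := p_LP3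
theorem all_CL : S_CL := p_CL all_LP2 all_LP3
theorem all_BP : S_BP := p_BP
theorem all_EX : S_EX := p_EX all_DD all_BND all_BP
theorem all_F0L : S_F0L := p_F0L all_CL all_DIM all_TV all_EX
theorem all_F1 : S_F1 := p_F1 all_LP3 all_CL all_SCL all_DIM all_TV all_TI all_EX
theorem all_ASY : S_ASY := p_ASY
theorem all_MAIN : S_MAIN := p_MAIN all_EUL all_PAR all_POLY all_F3 all_F0 all_F0L all_F1 all_ASY
theorem all_PF : S_PF := p_PF
theorem all_BOX : S_BOX := p_BOX all_PF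
theorem all_BK : S_BK := p_BK all_PF
theorem all_NEAR : S_NEAR := p_NEAR all_PF all_BK
theorem all_MAC : S_MAC := p_MAC all_PF
theorem all_PERT : S_PERT := p_PERT
theorem all_PL : S_PL := p_PL
theorem all_SLV : S_SLV := p_SLV all_PF all_BOX all_MAC all_PERT all_PL
theorem all_VX1 : S_VX1 := p_VX1 all_PF all_BK all_NEAR all_SLV
theorem all_PEN : S_PEN := p_PEN all_PF all_BK
theorem all_OWN : S_OWN := p_OWN all_PF all_BK all_PEN
theorem all_MIC : S_MIC := p_MIC all_PF all_BK all_OWN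
theorem all_POS : S_POS := p_POS all_PF all_BK all_PEN
theorem all_OTH : S_OTH := p_OTH all_PF all_BK
theorem all_VX2 : S_VX2 := p_VX2 all_NEAR all_MAC all_MIC all_POS all_OTH
theorem all_LF : S_LF := p_LF all_PF all_BK
theorem all_DE : S_DE := p_DE all_LF
theorem all_TN : S_TN := p_TN all_PF
theorem all_LOW : S_LOW := p_LOW all_PF all_LF all_DE all_TN
theorem all_SGN : S_SGN := p_SGN all_PF all_BK all_LF
theorem all_COR : S_COR := p_COR all_PF
theorem all_PC : S_PC := p_PC all_PF all_BK all_BOX all_NEAR all_MAC all_COR all_MIC all_POS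
theorem all_SUP : S_SUP := p_SUP
theorem all_TM : S_TM := p_TM all_PF
theorem all_NM : S_NM := p_NM all_PF all_BK all_LF all_DE all_TN all_TM all_SGN
theorem all_CLS : S_CLS := p_CLS all_PF all_LF all_DE all_TN all_PC all_SUP all_NM
theorem all_SOL : S_SOL := p_SOL all_PF all_TN
theorem all_FARA : S_FARA := p_FARA all_PF all_BK all_LF all_DE all_TM all_SOL
theorem all_FARG : S_FARG := p_FARG all_PF all_BK all_LF all_DE all_TM all_SOL
theorem all_WAL : S_WAL := p_WAL all_PF all_BK all_LF all_DE all_TM all_SOL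
theorem all_TJV : S_TJV := p_TJV
theorem all_TJE : S_TJE := p_TJE
theorem all_ENDS : S_ENDS := p_ENDS
theorem all_OK : S_OK := p_OK all_PF all_BOX all_VX1 all_VX2 all_LOW all_SGN all_CLS all_FARA all_FARG all_WAL all_TJV all_TJE all_ENDS
theorem all_CG : S_CG := p_CG
theorem all_FIN : S_FIN := p_FIN all_MAIN all_OK all_CG

lemma denom_pos {f : Fin 4 → ℤ} (hf : f ∈ fVectors)
    (h : (3 : ℝ) < ((f 1 : ℝ) + f 2 - 20) / ((f 0 : ℝ) + f 3 - 10)) : 10 < f 0 + f 3 := by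
  obtain ⟨P, hP, hk⟩ := hf
  obtain ⟨s, rfl, h1, h2⟩ := exists_conf hP
  have e0 := hk 0
  have e1 := hk 1
  have e2 := hk 2
  have e3 := hk 3
  rw [numFaces_hull] at e0 e1 e2 e3
  change f 0 = ((faces s Aff 1).card : ℤ) at e0
  change f 1 = ((faces s Aff 2).card : ℤ) at e1
  change f 2 = ((faces s Aff 3).card : ℤ) at e2
  change f 3 = ((faces s Aff 4).card : ℤ) at e3
  rw [h1.card_faces_one] at e0
  have h3 := (fatness h1 h2).1
  have h4 : 5 * (f 0 + f 3) ≤ 2 * (f 1 + f 2) + 10 := by omega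
  have h5 : 5 * ((f 0 : ℝ) + f 3) ≤ 2 * ((f 1 : ℝ) + f 2) + 10 := by exact_mod_cast h4
  by_contra hc
  have h6 : (f 0 : ℝ) + f 3 ≤ 10 := by exact_mod_cast not_lt.1 hc
  rcases h6.eq_or_lt with h7 | h7
  · rw [h7, sub_self, div_zero] at h
    norm_num at h
  · rw [lt_div_iff_of_neg (by linarith)] at h
    linarith

theorem fatness_ten (φ : ℝ) (hφ : φ < 10) : ∃ f ∈ fVectors, 10 < f 0 + f 3 ∧
    φ < ((f 1 : ℝ) + f 2 - 20) / ((f 0 : ℝ) + f 3 - 10) := by
  obtain ⟨f, hf, h⟩ := all_FIN (max φ 3) (max_lt hφ (by norm_num))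
  exact ⟨f, hf, denom_pos hf ((le_max_right _ _).trans_lt h), (le_max_left _ _).trans_lt h⟩

end Pool.Agent.P.MP_af6acb_co.Fat
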