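import Pool.Agent.P.MP_af6acb_co.Real

/-!
Systems of linear inequalities, gadgets, and the total system built from a gadget.
-/

namespace Pool.Agent.P.MP_af6acb_co.Fat

open Finset Module
open scoped Classical

set_option linter.unusedSectionVars false

/-- The support of a family of multipliers. -/
noncomputable def supp {ι : Type} [Fintype ι] (lam : ι → ℝ) : Finset ι :=
  univ.filter fun i => lam i ≠ 0

@[simp] lemma mem_supp {ι : Type} [Fintype ι] {lam : ι → ℝ} {i : ι} :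
    i ∈ supp lam ↔ lam i ≠ 0 := by simp [supp]

/-! ### Systems of inequalities with a projection to 4-space -/

/-- Inequalities `0 ≤ S i z + d i` and a projection. -/
structure Sys (E ι : Type) [AddCommGroup E] [Module ℝ E] where
  S : ι → E →ₗ[ℝ] ℝ
  d : ι → ℝ
  pr : E →ₗ[ℝ] E4

namespace Sys

variable {E ι : Type} [AddCommGroup E] [Module ℝ E] [Fintype ι] (Y : Sys E ι)

/-- The slack of row `i`. -/
def sl (i : ι) (z : E) : ℝ := Y.S i z + Y.d i

/-- The feasible set. -/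
def Fe : Set E := {z | ∀ i, 0 ≤ Y.sl i z}

/-- The feasible points that are tight on `T`. -/
def face (T : Finset ι) : Set E := {z | z ∈ Y.Fe ∧ ∀ i ∈ T, Y.sl i z = 0}

/-- The projected polytope. -/
def Q : Set E4 := Y.pr '' Y.Fe

/-- Multipliers whose combination factors through the projection. -/
def Mul (lam : ι → ℝ) : Prop :=
  (∀ i, 0 ≤ lam i) ∧ ∀ z, Y.pr z = 0 → ∑ i, lam i * Y.S i z = 0

/-- The rows in `T` determine the point. -/
def Inj (T : Finset ι) : Prop := ∀ z, (∀ i ∈ T, Y.S i z = 0) → z = 0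

/-- The dimension of the projected face. -/
noncomputable def dim (T : Finset ι) : ℕ := finrank ℝ (vectorSpan ℝ (Y.pr '' Y.face T))

end Sys

/-! ### Gadgets -/

/-- A gadget: rows `F i (z, t, h)` in the variables `z`, a perturbation `t` and a scale `h`. -/
structure Gad (W R V Ed Ev : Type) [NormedAddCommGroup W] [NormedSpace ℝ W] where
  F : R → (W × ℝ × ℝ) →ₗ[ℝ] ℝ
  mu : W →ₗ[ℝ] ℝ
  nu : W →ₗ[ℝ] ℝ
  x1 : W →ₗ[ℝ] ℝ
  x2 : W →ₗ[ℝ] ℝ
  s0 : ℝ
  th : ℝ
  TV : V → Finset R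
  TE : Ed → Finset R
  TU : Ev → Finset R
  E0 : Finset Ed
  Red : Finset Ed
  Blue : Finset Ed

/-- Scale one and a small perturbation. -/
def Adm {W : Type} (p : W × ℝ × ℝ) : Prop := p.2.2 = 1 ∧ |p.2.1| ≤ 1

/-- Positive scale and a small perturbation. -/
def AdmH {W : Type} (p : W × ℝ × ℝ) : Prop := 0 < p.2.2 ∧ |p.2.1| ≤ p.2.2

/-- The defect of a type of face. -/
def df {V Ed Ev : Type} : V ⊕ Ed ⊕ Ev → ℕ :=
  Sum.elim (fun _ => 0) (Sum.elim (fun _ => 1) fun _ => 2)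

namespace Gad

variable {W R V Ed Ev : Type} [NormedAddCommGroup W] [NormedSpace ℝ W] [Fintype R]
  (G : Gad W R V Ed Ev)

/-- All rows hold. -/
def Feas (p : W × ℝ × ℝ) : Prop := ∀ i, 0 ≤ G.F i p

/-- The rows in `T` are tight. -/
def Tt (T : Finset R) (p : W × ℝ × ℝ) : Prop := ∀ i ∈ T, G.F i p = 0

/-- The rows in `T` determine `z`. -/
def Inj (T : Finset R) : Prop := ∀ z, G.Tt T (z, 0, 0) → z = 0

/-- Multipliers for the objective `(a, b, c1, c2)` with output `w`. -/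
def Dual (lam : R → ℝ) (a b c1 c2 w : ℝ) : Prop :=
  (∀ i, 0 ≤ lam i) ∧ ∀ z t, ∑ i, lam i * G.F i (z, t, 0) + a * (G.mu z + G.s0 * t) + b * G.nu z +
    c1 * G.x1 z + c2 * G.x2 z = w * t

/-- The support of `lam` cuts out the same face as `T`. -/
def Cov (lam : R → ℝ) (T : Finset R) : Prop :=
  supp lam ⊆ T ∧ ∀ p, Adm p → G.Feas p → G.Tt (supp lam) p → G.Tt T p

/-- The tight set of a type of face. -/
def T : V ⊕ Ed ⊕ Ev → Finset R := Sum.elim G.TV (Sum.elim G.TE G.TU)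

/-- Where the walls and the events are. -/
structure Nm (K a b c2 : ℝ) (f : V ⊕ Ed ⊕ Ev) : Prop where
  near : f.isRight → |c2| ≤ K * (a + |b|)
  blue : ∀ e, f = .inr (.inl e) → 2 * a < b → e ∈ G.Blue
  red : ∀ e, f = .inr (.inl e) → b < -(2 * a) → e ∈ G.Red
  ev : ∀ u, f = .inr (.inr u) → |b| ≤ 2 * a

/-- The properties of a gadget. -/
structure Ok (K et : ℝ) : Prop where
  th_pos : 0 < G.th
  K_ge : 1 ≤ K
  et_pos : 0 < et
  x1_ne : ∃ z, G.x1 z = 1
  bdd : ∀ p, Adm p → G.Feas p →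
    ‖p.1‖ ≤ K ∧ |G.x1 p.1| ≤ K ∧ |G.x2 p.1| ≤ K ∧ |G.mu p.1| ≤ K ∧ |G.nu p.1| ≤ K
  vert : ∀ v t, |t| ≤ 1 → ∃ z, G.Feas (z, t, 1) ∧ ∀ i, G.F i (z, t, 1) = 0 ↔ i ∈ G.TV v
  injV : ∀ v, G.Inj (G.TV v)
  sub : ∀ f, ∃ v, ∃ X : Finset R, G.T f ⊆ G.TV v ∧ X.card ≤ df f ∧
    ∀ z, G.Tt (G.T f) (z, 0, 0) → G.Tt X (z, 0, 0) → z = 0
  ends : ∀ e ∈ G.E0, ∃ v v', v ≠ v' ∧ ∀ i, i ∈ G.TE e ↔ i ∈ G.TV v ∧ i ∈ G.TV v'
  tinjV : Function.Injective G.TV
  tinjE : Set.InjOn G.TE G.E0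
  cov : ∀ i, ∃ v, i ∉ G.TV v
  low : ∀ lam a b c1 c2 w, G.Dual lam a b c1 c2 w → 0 < a → |w| ≤ G.th * a →
    -(K * (a + |b|)) ≤ c2 ∧ |c1| ≤ K * (a + |b| + |c2|)
  cls : ∀ lam a b c1 c2 w, G.Dual lam a b c1 c2 w → 0 < a → |w| ≤ G.th * a →
    (∃ p, Adm p ∧ G.Feas p ∧ G.Tt (supp lam) p) → ∃ f, G.Cov lam (G.T f) ∧ G.Nm K a b c2 f
  far : ∀ v, ∃ c1 : ℝ × ℝ × ℝ → ℝ, Continuous c1 ∧ ∀ b c2 w, 1 ≤ et * c2 → |b| ≤ et * c2 →
    |w| ≤ G.th → ∃ lam, G.Dual lam 1 b (c1 (b, c2, w)) c2 w ∧ supp lam = G.TV v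
  wall : ∀ e ∈ G.E0, ∃ b c2 : ℝ → ℝ, Continuous b ∧ Continuous c2 ∧ ∀ w, |w| ≤ G.th →
    |b w| ≤ 2 ∧ |c2 w| ≤ K ∧ ∃ c1 lam, G.Dual lam 1 (b w) c1 (c2 w) w ∧ supp lam = G.TE e

/-- The same properties at an arbitrary scale. -/
structure OkH (K : ℝ) : Prop where
  bdd : ∀ p, AdmH p → G.Feas p → ‖p.1‖ ≤ K * p.2.2 ∧ |G.x1 p.1| ≤ K * p.2.2 ∧
    |G.x2 p.1| ≤ K * p.2.2 ∧ |G.mu p.1| ≤ K * p.2.2 ∧ |G.nu p.1| ≤ K * p.2.2
  vert : ∀ v t h, 0 < h → |t| ≤ h →
    ∃ z, G.Feas (z, t, h) ∧ ∀ i, G.F i (z, t, h) = 0 ↔ i ∈ G.TV v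
  cov : ∀ lam T, G.Cov lam T → ∀ p, AdmH p → G.Feas p → G.Tt (supp lam) p → G.Tt T p
  cls : ∀ lam a b c1 c2 w, G.Dual lam a b c1 c2 w → 0 < a → |w| ≤ G.th * a →
    (∃ p, AdmH p ∧ G.Feas p ∧ G.Tt (supp lam) p) → ∃ f, G.Cov lam (G.T f) ∧ G.Nm K a b c2 f
  neEV : ∀ e ∈ G.E0, ∀ v, G.TE e ≠ G.TV v

end Gad

/-! ### The total system: a cube, `r + 1` gadgets, and a polygon with `l + 2` sides -/

/-- The variables. -/
abbrev Tot (W : Type) (r : ℕ) : Type := (Fin 3 → ℝ) × (Fin (r + 1) → W) × ℝ × ℝ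

/-- The rows. -/
abbrev Row (R : Type) (r l : ℕ) : Type :=
  (Fin 3 × Bool) ⊕ (Fin (r + 1) × R) ⊕ Option (Fin (l + 1))

/-- The parameters. -/
structure Prm where
  ka : ℝ
  La : ℝ
  et : ℝ
  H0 : ℝ

/-- The normalising function on the base triangle. -/
noncomputable def ee (r : ℕ) (p : Fin 3 → ℝ) : ℝ := (p 0 + p 1 + p 2) / ((r : ℝ) + 2) ^ 3

/-- The abscissa on the base triangle. -/
noncomputable def uu (r : ℕ) (p : Fin 3 → ℝ) : ℝ :=
  (p 0 - p 1) / ((r : ℝ) + 2) + ((r : ℝ) + 2) * ee r p / 2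

/-- The height above the tangent of the parabola at `x`. -/
noncomputable def rho (r : ℕ) (p : Fin 3 → ℝ) (x : ℝ) : ℝ :=
  (((r : ℝ) + 2 - x) * p 0 + x * p 1) / ((r : ℝ) + 2) - x * ((r : ℝ) + 2 - x) * ee r p / 2

/-- The position of round `i`. -/
def ps {r : ℕ} (i : Fin (r + 1)) : ℝ := (i : ℝ) + 1

/-- The coefficient `a`. -/
noncomputable def aa (q : Prm) (r : ℕ) (p : Fin 3 → ℝ) : ℝ := q.ka * ee r p / 8

/-- The coefficient `b` of round `i`. -/
noncomputable def bb (q : Prm) {r : ℕ} (p : Fin 3 → ℝ) (i : Fin (r + 1)) : ℝ :=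
  q.ka * (uu r p - ps i * ee r p)

lemma rho_zero (r : ℕ) (p : Fin 3 → ℝ) : rho r p 0 = p 0 := by
  have : (r : ℝ) + 2 ≠ 0 := by positivity
  unfold rho; field_simp; ring

lemma rho_top (r : ℕ) (p : Fin 3 → ℝ) : rho r p ((r : ℝ) + 2) = p 1 := by
  have : (r : ℝ) + 2 ≠ 0 := by positivity
  unfold rho; field_simp; ring

lemma rho_sub (r : ℕ) (p : Fin 3 → ℝ) (x y : ℝ) :
    rho r p y = rho r p x + (x - y) * (uu r p - x * ee r p) + (x - y) ^ 2 * ee r p / 2 := by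
  have : (r : ℝ) + 2 ≠ 0 := by positivity
  unfold rho uu; field_simp; ring

/-- A sign. -/
def sgn (b : Bool) : ℝ := if b then 1 else -1

/-- The base point of a family of multipliers. -/
def bp {R : Type} {r l : ℕ} (lam : Row R r l → ℝ) (m : Fin 3) : ℝ :=
  lam (.inl (m, true)) + lam (.inl (m, false))

/-- A set of rows from its parts. -/
noncomputable def asm {R : Type} [Fintype R] {r l : ℕ} (B : Finset (Fin 3 × Bool))
    (T : Fin (r + 1) → Finset R) (C : Finset (Option (Fin (l + 1)))) : Finset (Row R r l) :=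
  univ.filter (Sum.elim (· ∈ B) (Sum.elim (fun x => x.2 ∈ T x.1) (· ∈ C)))

section asm

variable {R : Type} [Fintype R] {r l : ℕ} {B : Finset (Fin 3 × Bool)}
  {T : Fin (r + 1) → Finset R} {C : Finset (Option (Fin (l + 1)))}

@[simp] lemma inl_mem_asm {x} : Sum.inl x ∈ asm B T C ↔ x ∈ B := by simp [asm]

@[simp] lemma mid_mem_asm {x} : Sum.inr (Sum.inl x) ∈ asm B T C ↔ x.2 ∈ T x.1 := by simp [asm]

@[simp] lemma inr_mem_asm {x} : Sum.inr (Sum.inr x) ∈ asm B T C ↔ x ∈ C := by simp [asm]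

end asm

/-- The base rows chosen by partial signs. -/
noncomputable def bs (β : Fin 3 → Option Bool) : Finset (Fin 3 × Bool) :=
  univ.filter fun x => β x.1 = some x.2

@[simp] lemma mem_bs {β : Fin 3 → Option Bool} {x} : x ∈ bs β ↔ β x.1 = some x.2 := by simp [bs]

/-- The number of missing signs. -/
noncomputable def nb (β : Fin 3 → Option Bool) : ℕ := (univ.filter fun m => β m = none).card

/-- Two consecutive sides of the last polygon. -/
noncomputable def cell {l : ℕ} (s : Fin l) : Finset (Option (Fin (l + 1))) :=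
  {some s.castSucc, some s.succ}

/-- The slack of a row of the last polygon at scale `h`. -/
noncomputable def lay (l : ℕ) (c : Option (Fin (l + 1))) (X : ℝ × ℝ) (h : ℝ) : ℝ :=
  match c with
  | some s => h * ((s : ℝ) + 1) ^ 2 / 2 - ((s : ℝ) + 1) * X.1 - X.2
  | none => h * ((l : ℝ) + 1) ^ 2 + ((l : ℝ) + 2) / 2 * X.1 + X.2

namespace Gad

variable {W R V Ed Ev : Type} [NormedAddCommGroup W] [NormedSpace ℝ W] [Fintype R]
  (G : Gad W R V Ed Ev) (q : Prm) {r : ℕ}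

/-- The first coordinate of the next block. -/
def nxt (z : Tot W r) (i : Fin (r + 1)) : ℝ :=
  Fin.lastCases z.2.2.1 (fun j => G.x1 (z.2.1 j.succ)) i

@[simp] lemma nxt_last (z : Tot W r) : G.nxt z (Fin.last r) = z.2.2.1 := by simp [nxt]

@[simp] lemma nxt_cs (z : Tot W r) (j : Fin r) :
    G.nxt z j.castSucc = G.x1 (z.2.1 j.succ) := by simp [nxt]

lemma nxt_add (z z' : Tot W r) (i) : G.nxt (z + z') i = G.nxt z i + G.nxt z' i := by
  induction i using Fin.lastCases <;> simp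

lemma nxt_smul (c : ℝ) (z : Tot W r) (i) : G.nxt (c • z) i = c * G.nxt z i := by
  induction i using Fin.lastCases <;> simp

/-- The point seen by round `i`. -/
def pt (z : Tot W r) (i : Fin (r + 1)) : W × ℝ × ℝ := (z.2.1 i, q.La * G.nxt z i, q.et ^ (i : ℕ))

/-- The objective passed from the base point `p` to the later blocks. -/
noncomputable def obj (p : Fin 3 → ℝ) (z : Tot W r) : ℝ :=
  ∑ i, (aa q r p * (G.mu (z.2.1 i) + G.s0 * (q.La * G.nxt z i)) + bb q p i * G.nu (z.2.1 i) +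
    rho r p (ps i) * G.x2 (z.2.1 i)) + ee r p * z.2.2.2

lemma obj_add (p : Fin 3 → ℝ) (z z' : Tot W r) :
    G.obj q p (z + z') = G.obj q p z + G.obj q p z' := by
  simp only [obj, nxt_add, Prod.snd_add, Prod.fst_add, Pi.add_apply, map_add]
  rw [add_add_add_comm, ← sum_add_distrib, ← mul_add]
  congr 1
  exact sum_congr rfl fun i _ => by ring

lemma obj_smul (p : Fin 3 → ℝ) (c : ℝ) (z : Tot W r) : G.obj q p (c • z) = c * G.obj q p z := by
  simp only [obj, nxt_smul, Prod.smul_snd, Prod.smul_fst, Pi.smul_apply, map_smul, smul_eq_mul]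
  rw [mul_add c, mul_sum]
  congr 1
  · exact sum_congr rfl fun i _ => by ring
  · ring

/-- The linear parts of the rows of the total system. -/
noncomputable def rowL (l : ℕ) : Row R r l → Tot W r →ₗ[ℝ] ℝ
  | .inl x =>
    { toFun := fun z => -(sgn x.2 * z.1 x.1) + G.obj q (Pi.single x.1 1) z
      map_add' := fun z z' => by simp only [obj_add, Prod.fst_add, Pi.add_apply]; ring
      map_smul' := fun c z => by
        simp only [obj_smul, Prod.smul_fst, Pi.smul_apply, smul_eq_mul, RingHom.id_apply]; ring }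
  | .inr (.inl x) =>
    { toFun := fun z => G.F x.2 (z.2.1 x.1, q.La * G.nxt z x.1, 0)
      map_add' := fun z z' => by
        rw [← map_add]; simp [nxt_add, mul_add]
      map_smul' := fun c z => by
        rw [RingHom.id_apply, ← map_smul]; simp [nxt_smul, mul_left_comm] }
  | .inr (.inr c) =>
    { toFun := fun z => lay l c z.2.2 0
      map_add' := fun z z' => by cases c <;> simp [lay] <;> ring
      map_smul' := fun a z => by cases c <;> simp [lay] <;> ring }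

/-- The total system. -/
noncomputable def sys (r l : ℕ) : Sys (Tot W r) (Row R r l) where
  S := G.rowL q l
  d := Sum.elim (fun _ => q.H0) (Sum.elim (fun x => G.F x.2 (0, 0, q.et ^ (x.1 : ℕ)))
    fun c => lay l c 0 (q.et ^ (r + 1)))
  pr :=
    { toFun := fun z => WithLp.toLp 2 ![z.1 0, z.1 1, z.1 2, G.x1 (z.2.1 0)]
      map_add' := fun z z' => by ext i; fin_cases i <;> simp
      map_smul' := fun c z => by ext i; fin_cases i <;> simp }

variable {l : ℕ}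

lemma S_base (x) (z : Tot W r) : (G.sys q r l).S (.inl x) z =
    -(sgn x.2 * z.1 x.1) + G.obj q (Pi.single x.1 1) z := rfl

lemma S_mid (x) (z : Tot W r) : (G.sys q r l).S (.inr (.inl x)) z =
    G.F x.2 (z.2.1 x.1, q.La * G.nxt z x.1, 0) := rfl

lemma S_lay (c) (z : Tot W r) : (G.sys q r l).S (.inr (.inr c)) z = lay l c z.2.2 0 := rfl

lemma sl_base (x) (z : Tot W r) : (G.sys q r l).sl (.inl x) z =
    q.H0 - sgn x.2 * z.1 x.1 + G.obj q (Pi.single x.1 1) z := by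
  simp only [Sys.sl, S_base]; simp only [sys, Sum.elim_inl]; ring

lemma sl_mid (x) (z : Tot W r) :
    (G.sys q r l).sl (.inr (.inl x)) z = G.F x.2 (G.pt q z x.1) := by
  simp only [Sys.sl, S_mid]; simp only [sys, Sum.elim_inl, Sum.elim_inr]
  rw [← map_add]; simp [pt]

lemma sl_lay (c) (z : Tot W r) :
    (G.sys q r l).sl (.inr (.inr c)) z = lay l c z.2.2 (q.et ^ (r + 1)) := by
  simp only [Sys.sl, S_lay]; simp only [sys, Sum.elim_inr]
  cases c <;> simp [lay] <;> ring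

lemma pr_apply (z : Tot W r) : (G.sys q r l).pr z =
    WithLp.toLp 2 ![z.1 0, z.1 1, z.1 2, G.x1 (z.2.1 0)] := rfl

lemma pr_eq_zero (z : Tot W r) : (G.sys q r l).pr z = 0 ↔ z.1 = 0 ∧ G.x1 (z.2.1 0) = 0 := by
  rw [pr_apply]
  constructor
  · intro h
    have h' : ∀ i, (![z.1 0, z.1 1, z.1 2, G.x1 (z.2.1 0)] : Fin 4 → ℝ) i = 0 := fun i =>
      congrArg (fun v : E4 => v i) h
    refine ⟨funext fun m => ?_, by simpa using h' 3⟩
    fin_cases m
    · simpa using h' 0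
    · simpa using h' 1
    · simpa using h' 2
  · rintro ⟨h1, h2⟩
    ext i; fin_cases i <;> simp [h1, h2]

/-- The multipliers, block by block. -/
structure DD (lam : Row R r l → ℝ) (c w : Fin (r + 1) → ℝ) : Prop where
  pos : ∀ i, 0 ≤ lam i
  du : ∀ i, G.Dual (fun ρ => lam (.inr (.inl (i, ρ)))) (aa q r (bp lam)) (bb q (bp lam) i) (c i)
    (rho r (bp lam) (ps i)) (w i)
  ch : ∀ j : Fin r, c j.succ = q.La * w j.castSucc
  l1 : ∑ s : Fin (l + 1), lam (.inr (.inr (some s))) * ((s : ℝ) + 1) =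
    lam (.inr (.inr none)) * (((l : ℝ) + 2) / 2) + q.La * w (Fin.last r)
  l2 : ∑ s : Fin (l + 1), lam (.inr (.inr (some s))) = lam (.inr (.inr none)) + ee r (bp lam)

/-- The rows of the gadgets and of the last polygon hold. -/
def Up (l : ℕ) (z : Tot W r) : Prop :=
  (∀ i, G.Feas (G.pt q z i)) ∧ ∀ c, 0 ≤ lay l c z.2.2 (q.et ^ (r + 1))

/-- The choice of the scales. -/
structure Par0 (K et : ℝ) (r l : ℕ) : Prop where
  three : 3 ≤ l
  ka_pos : 0 < q.ka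
  ka_K : 64 * K * q.ka * ((r : ℝ) + 2) ^ 2 ≤ 1
  ka_et : 24 * q.ka * ((r : ℝ) + 2) ^ 2 ≤ et
  La_l : (l : ℝ) + 1 ≤ q.La * G.th * q.ka / 8
  La_K : 3 * K * ((r : ℝ) + 2) ^ 3 ≤ q.La * G.th * q.ka / 8
  et_pos : 0 < q.et
  et_le : q.et ≤ 1
  et_K : q.La * K * q.et ≤ 1
  et_l : 3 * ((l : ℝ) + 1) ^ 2 * q.La * q.et ≤ 1

/-- The choice of all parameters. -/
structure Par (K et : ℝ) (r l : ℕ) : Prop extends G.Par0 q K et r l where
  H0 : ∀ z : Tot W r, G.Up q l z → ∀ m, |G.obj q (Pi.single m 1) z| < q.H0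

/-- Which defects can occur together. -/
structure Geo (β : Fin 3 → Option Bool) (f : Fin (r + 1) → V ⊕ Ed ⊕ Ev) : Prop where
  g1 : ∀ i j, i < j → (f i).isRight → (f j).isRight → (j : ℕ) = i + 1 ∧
    (∃ e ∈ G.Blue, f i = .inr (.inl e)) ∧ ∃ e ∈ G.Red, f j = .inr (.inl e)
  g2 : β 2 = none → ∀ i, (f i).isLeft
  g3 : β 0 = none → β 1 ≠ none ∧ ∀ i, (f i).isRight → i = 0 ∧ ∃ e, f i = .inr (.inl e)
  g4 : β 1 = none → ∀ i, (f i).isRight → i = Fin.last r ∧ ∃ e, f i = .inr (.inl e)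

end Gad

/-- The bound for the number of vertices of the layered surface. -/
def VZ (r N I B Rd Ed : ℕ) : ℕ :=
  8 * (r + 1) * I * N ^ r + 8 * r * (B * Rd) * N ^ (r - 1) + 54 * Ed * N ^ r + 27 * N ^ (r + 1)

/-- The bound for the faces outside the layers. -/
def C0 (r nR : ℕ) : ℕ := 4 * 2 ^ 6 * 2 ^ ((r + 1) * nR)

end Pool.Agent.P.MP_af6acb_co.Fat
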