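import Pool.Agent.P.MP_af6acb_co.Fat.BaseA

/-!
The gadget with `k` levels: a deformed `k`-cube over a polygon, with cut corners.
-/

namespace Pool.Agent.P.MP_af6acb_co.Fat

open Finset Module
open scoped Classical

set_option linter.unusedSectionVars false

noncomputable section

/-! ### Parameters -/

def om (k : ℕ) : ℝ := 1 / 2 ^ k
def RR (k : ℕ) : ℝ := 16 * (k : ℝ) ^ 3
def Wd (k : ℕ) : ℝ := 8 * RR k
def de (k : ℕ) : ℝ := om k / (10 ^ 8 * k * Wd k)
def cp (k : ℕ) : ℝ := de k * om k ^ 2 / (16000 * Wd k)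
def piR (k : ℕ) : ℕ → ℝ
  | 0 => 1
  | n + 1 => cp k * piR k n ^ 2
def pp (k j : ℕ) : ℝ := piR k (k - j)
def ep (k j : ℕ) : ℝ := cp k * pp k j
def sc (k j : ℕ) : ℝ := pp k j * 2 ^ j * om k
def D1 (k j : ℕ) : ℝ := de k * om k * pp k j / 16
def ga (k : ℕ) : ℝ := om k / 100
def A0 (k : ℕ) : ℝ := (1 + ga k) * de k / 2
def vr (k : ℕ) : ℝ := A0 k * (1 - om k / 32)
def D2 (k j : ℕ) : ℝ := vr k * pp k j * (om k / 4) * D1 k j / 8
def ze (k : ℕ) : ℝ := 12 * de k * Wd k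
def rh (k : ℕ) : ℝ := 1 / (100 * k)
def Kc (k : ℕ) : ℝ := 1000 * k * Wd k / (de k * om k)
def etc (k : ℕ) : ℝ := de k * om k / 10 ^ 5

/-- Facts about the parameters. -/
structure PF (k : ℕ) : Prop where
  k1 : (1 : ℝ) ≤ k
  om_pos : 0 < om k
  om_le : om k ≤ 1 / 2
  om_two : 2 ^ k * om k = 1
  R_ge : 16 ≤ RR k
  W_eq : Wd k = 8 * RR k
  de_pos : 0 < de k
  de_W : 10 ^ 8 * k * (de k * Wd k) = om k
  de_W' : 10 ^ 8 * (de k * Wd k) ≤ om k
  de_le : 10 ^ 10 * de k ≤ om k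
  cp_pos : 0 < cp k
  cp_W : 16000 * (cp k * Wd k) = de k * om k ^ 2
  cp_le : 10 ^ 6 * cp k ≤ de k * om k
  pp_pos : ∀ j, 0 < pp k j
  pp_le : ∀ j, pp k j ≤ 1
  pp_top : pp k k = 1
  pp_step : ∀ j < k, pp k j = ep k (j + 1) * pp k (j + 1)
  pp_mono : ∀ i j, i ≤ j → pp k i ≤ pp k j
  ep_pos : ∀ j, 0 < ep k j
  ep_le : ∀ j, ep k j ≤ cp k
  sc_pos : ∀ j, 0 < sc k j
  sc_top : sc k k = 1
  sc_step : ∀ j < k, ep k (j + 1) * sc k (j + 1) = 2 * sc k j
  sc_low : ∀ j < k, ∑ l ∈ range (j + 1), sc k l ≤ pp k j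
  sc_sum : ∑ l ∈ range (k + 1), sc k l ≤ 2
  vr_pos : 0 < vr k
  vr_le : vr k ≤ de k
  ze_pos : 0 < ze k
  ze_eq : 10 ^ 8 * k * ze k = 12 * om k
  rh_pos : 0 < rh k
  rh_eq : 100 * k * rh k = 1
  ze_rh : 10 ^ 4 * ze k ≤ rh k
  K_W : 2 * Wd k ≤ Kc k
  K_de : 1000 * k ≤ de k * om k * Kc k

/-! ### The tent map along a branch -/

variable {k : ℕ}

/-- The sign at level `l` (levels are `1, ..., k`). -/
def sg (σ : Fin k → Bool) : ℕ → ℝ
  | 0 => 1
  | n + 1 => if h : n < k then sgn (σ ⟨n, h⟩) else 1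

@[simp] lemma sg_fin (σ : Fin k → Bool) (j : Fin k) : sg σ (j + 1) = sgn (σ j) := by simp [sg]

lemma sg_cases (σ : Fin k → Bool) (l : ℕ) : sg σ l = 1 ∨ sg σ l = -1 := by
  rcases l with _ | n
  · simp [sg]
  · simp only [sg, sgn]; split_ifs <;> simp

/-- Inverse branches of the tent map, starting with `ζ` at level `J`. -/
def up (σ : Fin k → Bool) (J : ℕ) (ζ : ℝ) : ℕ → ℝ
  | 0 => ζ
  | n + 1 => sg σ (J + n + 1) * (1 - up σ J ζ n) / 2

/-- Iterates of the tent map. -/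
def dn (ζ : ℝ) : ℕ → ℝ
  | 0 => ζ
  | n + 1 => 1 - 2 * |dn ζ n|

/-- The orientation of the branch above level `J`. -/
def ori (σ : Fin k → Bool) (J : ℕ) : ℝ := ∏ l ∈ Ioc J k, -sg σ l

/-- The top value of the branch through `0` at level `J`. -/
def thB (σ : Fin k → Bool) (J : ℕ) : ℝ := up σ J 0 (k - J)

/-- The reference trajectory of the block at level `J`. -/
def Gb (σ : Fin k → Bool) (J l : ℕ) : ℝ :=
  if J ≤ l then up σ J (-ori σ J / (4 * 2 ^ J)) (l - J) else dn (-ori σ J / (4 * 2 ^ J)) (J - l)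

/-- The total weight of the upper rows in the penalty. -/
def Pb (σ : Fin k → Bool) (J : ℕ) : ℝ := ∑ l : Fin k, sc k (l + 1) * max (Gb σ J (l + 1)) 0

/-- The slope of the first cut. -/
def tB (σ : Fin k → Bool) (J : ℕ) : ℝ :=
  2 - ((thB σ J - om k / 2) + (Gb σ J k + de k * Pb σ J)) / 2

/-- Creators. -/
def Cre (σ : Fin k → Bool) (j : Fin k) : Prop := ori σ (j + 1) * sgn (σ j) = -1

/-- Change the sign at one level. -/
def flp (σ : Fin k → Bool) (j : Fin k) : Fin k → Bool := Function.update σ j (!σ j)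

/-- Facts about the block at level `J = j + 1`. -/
structure BK (σ : Fin k → Bool) (j : Fin k) : Prop where
  tent : ∀ l < k, Gb σ (j + 1) l = 1 - 2 * |Gb σ (j + 1) (l + 1)|
  abs_le : ∀ l, |Gb σ (j + 1) l| ≤ 1
  own : sc k (j + 1) * Gb σ (j + 1) (j + 1) = -ori σ (j + 1) * (pp k (j + 1) * (om k / 4))
  above : ∀ l : Fin k, j < l →
    pp k (l + 1) * om k ≤ sgn (σ l) * (sc k (l + 1) * Gb σ (j + 1) (l + 1))
  top : Gb σ (j + 1) k = thB σ (j + 1) - om k / 4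
  th_le : |thB σ (j + 1)| ≤ 1 - om k
  cre : Cre σ j → thB σ 0 ≤ thB σ (j + 1) - om k
  kil : ¬Cre σ j → thB σ (j + 1) + om k ≤ thB σ 0
  Pb_ge : 0 ≤ Pb σ (j + 1)
  Pb_le : Pb σ (j + 1) ≤ 2
  tB_ge : 1 ≤ tB σ (j + 1)
  tB_le : tB σ (j + 1) ≤ 3

lemma ori_cases (σ : Fin k → Bool) (J : ℕ) : ori σ J = 1 ∨ ori σ J = -1 := by
  unfold ori
  refine Finset.prod_induction _ (fun x : ℝ => x = 1 ∨ x = -1) ?_ (Or.inl rfl) ?_
  · rintro a b (rfl | rfl) (rfl | rfl) <;> simp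
  · intro l _; rcases sg_cases σ l with h | h <;> simp [h]

section congr

variable {σ σ' : Fin k → Bool} {j : Fin k} (h : ∀ l, j < l → σ l = σ' l)
include h

lemma sg_congr {l : ℕ} (hl : (j : ℕ) + 1 < l) : sg σ l = sg σ' l := by
  rcases l with _ | n
  · rfl
  · simp only [sg]
    split_ifs with hn
    · rw [h ⟨n, hn⟩ (by rw [Fin.lt_def]; simpa using hl)]
    · rfl

lemma up_congr (ζ : ℝ) (n : ℕ) : up σ (j + 1) ζ n = up σ' (j + 1) ζ n := by
  induction n with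
  | zero => rfl
  | succ n ih => simp only [up, ih, sg_congr h (show (j : ℕ) + 1 < j + 1 + n + 1 by omega)]

lemma ori_congr : ori σ (j + 1) = ori σ' (j + 1) :=
  prod_congr rfl fun l hl => by rw [sg_congr h (mem_Ioc.1 hl).1]

lemma thB_congr : thB σ (j + 1) = thB σ' (j + 1) := up_congr h _ _

lemma Gb_congr : Gb σ (j + 1) = Gb σ' (j + 1) := by
  funext l; simp only [Gb, up_congr h, ori_congr h]

lemma Pb_congr : Pb σ (j + 1) = Pb σ' (j + 1) := by simp only [Pb, Gb_congr h]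

lemma tB_congr : tB σ (j + 1) = tB σ' (j + 1) := by
  simp only [tB, Gb_congr h, Pb_congr h, thB_congr h]

end congr

@[simp] lemma flp_self (σ : Fin k → Bool) (j : Fin k) : flp σ j j = !σ j := by simp [flp]

lemma flp_ne (σ : Fin k → Bool) {j l : Fin k} (h : l ≠ j) : flp σ j l = σ l := by simp [flp, h]

@[simp] lemma flp_flp (σ : Fin k → Bool) (j : Fin k) : flp (flp σ j) j = σ := by
  funext l; by_cases h : l = j
  · subst h; simp
  · simp [flp_ne _ h]

lemma flp_above (σ : Fin k → Bool) (j : Fin k) : ∀ l, j < l → flp σ j l = σ l :=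
  fun _ hl => flp_ne σ hl.ne'

lemma cre_flp (σ : Fin k → Bool) (j : Fin k) : Cre (flp σ j) j ↔ ¬Cre σ j := by
  unfold Cre
  rw [ori_congr (flp_above σ j), flp_self]
  rcases ori_cases σ (j + 1) with h | h <;> cases σ j <;> norm_num [h, sgn]

/-! ### Coordinates and rows -/

/-- The variables `x1, x2, y_1, ..., y_k`. -/
abbrev WG (k : ℕ) : Type := ℝ × ℝ × (Fin k → ℝ)

/-- The variables together with `t` and `h`. -/
abbrev UG (k : ℕ) : Type := WG k × ℝ × ℝ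

def cX1 (k : ℕ) : UG k →ₗ[ℝ] ℝ where
  toFun p := p.1.1
  map_add' _ _ := rfl
  map_smul' _ _ := rfl

def cX2 (k : ℕ) : UG k →ₗ[ℝ] ℝ where
  toFun p := p.1.2.1
  map_add' _ _ := rfl
  map_smul' _ _ := rfl

def cH (k : ℕ) : UG k →ₗ[ℝ] ℝ where
  toFun p := p.2.2
  map_add' _ _ := rfl
  map_smul' _ _ := rfl

/-- The coordinate `y_l`, with `y_0 = t`. -/
def cY (k : ℕ) : ℕ → UG k →ₗ[ℝ] ℝ
  | 0 => { toFun := fun p => p.2.1, map_add' := fun _ _ => rfl, map_smul' := fun _ _ => rfl }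
  | n + 1 => if h : n < k then
      { toFun := fun p => p.1.2.2 ⟨n, h⟩, map_add' := fun _ _ => rfl, map_smul' := fun _ _ => rfl }
    else 0

@[simp] lemma cX1_apply (p : UG k) : cX1 k p = p.1.1 := rfl
@[simp] lemma cX2_apply (p : UG k) : cX2 k p = p.1.2.1 := rfl
@[simp] lemma cH_apply (p : UG k) : cH k p = p.2.2 := rfl
@[simp] lemma cY_zero (p : UG k) : cY k 0 p = p.2.1 := rfl
lemma cY_fin (j : Fin k) (p : UG k) : cY k (j + 1) p = p.1.2.2 j := by simp [cY]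
lemma cY_big {n : ℕ} (h : k < n) (p : UG k) : cY k n p = 0 := by
  rcases n with _ | n
  · omega
  · simp [cY, show ¬n < k by omega]

/-- The tangent of the parabola at `q`. -/
def psi (k : ℕ) (q : ℝ) : UG k →ₗ[ℝ] ℝ := (q ^ 2 / 2) • cH k - q • cX1 k - cX2 k

/-- The bottom line. -/
def bet (k : ℕ) : UG k →ₗ[ℝ] ℝ :=
  (1 / 4 : ℝ) • (RR k • cH k - (1 / 2 : ℝ) • (psi k 1 + psi k (2 * k + 1)))

def muU (k : ℕ) : UG k →ₗ[ℝ] ℝ := ∑ l ∈ range k, sc k l • cY k l

def sL (j : Fin k) : UG k →ₗ[ℝ] ℝ := cY k (j + 1) - ep k (j + 1) • cY k j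

def sU (j : Fin k) : UG k →ₗ[ℝ] ℝ :=
  psi k (2 * (j : ℝ) + 2) - cY k (j + 1) - ep k (j + 1) • cY k j

def sM (k : ℕ) (j : ℕ) : UG k →ₗ[ℝ] ℝ :=
  psi k (2 * (j : ℝ) + 1) + de k • muU k + (3 * de k) • cY k k

def sB (k : ℕ) : UG k →ₗ[ℝ] ℝ := bet k + de k • muU k - (9 * de k / 4) • cY k k

/-- The penalty of a block. -/
def pf (σ : Fin k → Bool) (J : ℕ) : UG k →ₗ[ℝ] ℝ :=
  ∑ l : Fin k, (sc k (l + 1) * max (Gb σ J (l + 1)) 0) • psi k (2 * (l : ℝ) + 2) - muU k -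
    Gb σ J k • cY k k

def sFL (σ : Fin k → Bool) (j : Fin k) (side : Bool) : UG k →ₗ[ℝ] ℝ :=
  sM k (j + side.toNat) + tB σ (j + 1) • psi k (2 * (j : ℝ) + 2) + (de k / 2) • pf σ (j + 1) -
    D1 k (j + 1) • cH k

def sFc (σ : Fin k → Bool) (j : Fin k) (side : Bool) : UG k →ₗ[ℝ] ℝ :=
  (1 - ga k) • sFL σ j side + ga k • sM k (j + side.toNat) + vr k • pf σ (j + 1) -
    D2 k (j + 1) • cH k

lemma psi_apply (q : ℝ) (p : UG k) : psi k q p = q ^ 2 / 2 * p.2.2 - q * p.1.1 - p.1.2.1 := by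
  simp [psi]

lemma bet_apply (p : UG k) :
    bet k p = (RR k * p.2.2 - (psi k 1 p + psi k (2 * k + 1) p) / 2) / 4 := by
  simp [bet]; ring

lemma muU_apply (p : UG k) : muU k p = ∑ l ∈ range k, sc k l * cY k l p := by
  simp [muU, LinearMap.sum_apply]

lemma sL_apply (j : Fin k) (p : UG k) : sL j p = cY k (j + 1) p - ep k (j + 1) * cY k j p := by
  simp [sL]

lemma sU_apply (j : Fin k) (p : UG k) :
    sU j p = psi k (2 * (j : ℝ) + 2) p - cY k (j + 1) p - ep k (j + 1) * cY k j p := by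
  simp [sU]

lemma sM_apply (j : ℕ) (p : UG k) :
    sM k j p = psi k (2 * (j : ℝ) + 1) p + de k * muU k p + 3 * de k * cY k k p := by
  simp [sM]

lemma sB_apply (p : UG k) : sB k p = bet k p + de k * muU k p - 9 * de k / 4 * cY k k p := by
  simp [sB]

lemma pf_apply (σ : Fin k → Bool) (J : ℕ) (p : UG k) : pf σ J p =
    ∑ l : Fin k, sc k (l + 1) * max (Gb σ J (l + 1)) 0 * psi k (2 * (l : ℝ) + 2) p - muU k p -
      Gb σ J k * cY k k p := by
  simp [pf, LinearMap.sum_apply]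

lemma sFL_apply (σ : Fin k → Bool) (j : Fin k) (side : Bool) (p : UG k) : sFL σ j side p =
    sM k (j + side.toNat) p + tB σ (j + 1) * psi k (2 * (j : ℝ) + 2) p +
      de k / 2 * pf σ (j + 1) p - D1 k (j + 1) * p.2.2 := by
  simp [sFL]

lemma sFc_apply (σ : Fin k → Bool) (j : Fin k) (side : Bool) (p : UG k) : sFc σ j side p =
    (1 - ga k) * sFL σ j side p + ga k * sM k (j + side.toNat) p + vr k * pf σ (j + 1) p -
      D2 k (j + 1) * p.2.2 := by
  simp [sFc]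

lemma pf_congr {σ σ' : Fin k → Bool} {j : Fin k} (h : ∀ l, j < l → σ l = σ' l) :
    pf σ (j + 1) = pf σ' (j + 1) := by simp only [pf, Gb_congr h]

lemma sFL_congr {σ σ' : Fin k → Bool} {j : Fin k} (h : ∀ l, j < l → σ l = σ' l) (side : Bool) :
    sFL σ j side = sFL σ' j side := by simp only [sFL, pf_congr h, tB_congr h]

lemma sFc_congr {σ σ' : Fin k → Bool} {j : Fin k} (h : ∀ l, j < l → σ l = σ' l) (side : Bool) :
    sFc σ j side = sFc σ' j side := by simp only [sFc, pf_congr h, sFL_congr h]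

/-- Blocks: a level and the signs above it. -/
abbrev Blk (k : ℕ) : Type := {x : Fin k × (Fin k → Bool) // ∀ l, l ≤ x.1 → x.2 l = false}

/-- The block of `σ` at level `j + 1`. -/
def blk (σ : Fin k → Bool) (j : Fin k) : Blk k :=
  ⟨(j, fun l => if l ≤ j then false else σ l), fun l hl => by simp [hl]⟩

@[simp] lemma blk_fst (σ : Fin k → Bool) (j : Fin k) : (blk σ j).1.1 = j := rfl

lemma blk_above (σ : Fin k → Bool) (j : Fin k) : ∀ l, j < l → (blk σ j).1.2 l = σ l :=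
  fun l hl => by simp [blk, hl.not_ge]

lemma blk_self (x : Blk k) : blk x.1.2 x.1.1 = x := by
  refine Subtype.ext (Prod.ext rfl (funext fun l => ?_))
  by_cases h : l ≤ x.1.1
  · simp [blk, h, x.2 l h]
  · simp [blk, h]

lemma blk_eq_iff {σ σ' : Fin k → Bool} {j j' : Fin k} :
    blk σ j = blk σ' j' ↔ j = j' ∧ ∀ l, j < l → σ l = σ' l := by
  constructor
  · intro h
    obtain rfl : j = j' := congrArg (fun x : Blk k => x.1.1) h
    exact ⟨rfl, fun l hl => by rw [← blk_above σ j l hl, h, blk_above σ' j l hl]⟩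
  · rintro ⟨rfl, h⟩
    refine Subtype.ext (Prod.ext rfl (funext fun l => ?_))
    by_cases hl : l ≤ j
    · simp [blk, hl]
    · simp [blk, hl, h l (not_le.1 hl)]

@[simp] lemma blk_flp (σ : Fin k → Bool) (j : Fin k) : blk (flp σ j) j = blk σ j :=
  blk_eq_iff.2 ⟨rfl, flp_above σ j⟩

/-- Leaves: the odd tangents, the bottom line, and the cuts (block, side, second cut). -/
abbrev Lf (k : ℕ) : Type := Fin (k + 1) ⊕ Unit ⊕ (Blk k × Bool × Bool)

/-- The rows: lower and upper rows of the levels, and the leaves. -/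
abbrev RG (k : ℕ) : Type := (Fin k × Bool) ⊕ Lf k

def lM (j : Fin (k + 1)) : Lf k := .inl j
def lB (k : ℕ) : Lf k := .inr (.inl ())
def lF (σ : Fin k → Bool) (j : Fin k) (side kind : Bool) : Lf k :=
  .inr (.inr (blk σ j, side, kind))

/-- The odd tangent at a corner. -/
def cm (j : Fin k) (side : Bool) : Fin (k + 1) := if side then j.succ else j.castSucc

@[simp] lemma cm_val (j : Fin k) (side : Bool) : (cm j side : ℕ) = j + side.toNat := by
  cases side <;> simp [cm]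

@[simp] lemma lF_flp (σ : Fin k → Bool) (j : Fin k) (side kind : Bool) :
    lF (flp σ j) j side kind = lF σ j side kind := by simp [lF]

lemma leaf_cases (f : Lf k) : (∃ j, f = lM j) ∨ f = lB k ∨ ∃ σ j side kind, f = lF σ j side kind := by
  rcases f with j | u | ⟨x, side, kind⟩
  · exact Or.inl ⟨j, rfl⟩
  · exact Or.inr (Or.inl rfl)
  · exact Or.inr (Or.inr ⟨x.1.2, x.1.1, side, kind, by rw [lF, blk_self]⟩)

/-- The rows as linear forms. -/
def FG (k : ℕ) : RG k → UG k →ₗ[ℝ] ℝ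
  | .inl x => if x.2 then sU x.1 else sL x.1
  | .inr (.inl j) => sM k j
  | .inr (.inr (.inl _)) => sB k
  | .inr (.inr (.inr x)) =>
    if x.2.2 then sFc x.1.1.2 x.1.1.1 x.2.1 else sFL x.1.1.2 x.1.1.1 x.2.1

@[simp] lemma FG_U (j : Fin k) : FG k (.inl (j, true)) = sU j := rfl
@[simp] lemma FG_L (j : Fin k) : FG k (.inl (j, false)) = sL j := rfl
@[simp] lemma FG_M (j : Fin (k + 1)) : FG k (.inr (lM j)) = sM k j := rfl
@[simp] lemma FG_B : FG k (.inr (lB k)) = sB k := rfl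
@[simp] lemma FG_FL (σ : Fin k → Bool) (j : Fin k) (side : Bool) :
    FG k (.inr (lF σ j side false)) = sFL σ j side := sFL_congr (blk_above σ j) side
@[simp] lemma FG_Fc (σ : Fin k → Bool) (j : Fin k) (side : Bool) :
    FG k (.inr (lF σ j side true)) = sFc σ j side := sFc_congr (blk_above σ j) side

/-! ### Faces -/

abbrev VG (k : ℕ) : Type := (Fin k → Bool) × (Bool ⊕ Fin k × Bool × Bool)
abbrev EG (k : ℕ) : Type := (Fin k → Bool) × (Fin (k + 1) ⊕ Unit ⊕ Fin k × Bool × Bool)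

/-- The rows that cut out the plane `σ`. -/
def reg (σ : Fin k → Bool) : Finset (RG k) := univ.image fun j => .inl (j, σ j)

@[simp] lemma inl_mem_reg {σ : Fin k → Bool} {x : Fin k × Bool} :
    Sum.inl x ∈ reg σ ↔ x.2 = σ x.1 := by
  obtain ⟨j, b⟩ := x
  simp only [reg, mem_image, mem_univ, true_and, Sum.inl.injEq, Prod.mk.injEq]
  exact ⟨fun ⟨l, h1, h2⟩ => by rw [← h1, h2], fun h => ⟨j, rfl, h.symm⟩⟩

@[simp] lemma inr_not_mem_reg {σ : Fin k → Bool} {f : Lf k} : Sum.inr f ∉ reg σ := by simp [reg]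

/-- The other row of level `j + 1`. -/
def chd (σ : Fin k → Bool) (j : Fin k) : RG k := .inl (j, !σ j)

/-- The two further rows at a vertex. -/
def ex2 (σ : Fin k → Bool) : Bool ⊕ Fin k × Bool × Bool → RG k × RG k
  | .inl b => (.inr (lB k), .inr (lM (if b then Fin.last k else 0)))
  | .inr (j, side, false) => if Cre σ j then (.inr (lF σ j side true), .inr (lF σ j side false))
      else (chd σ j, .inr (lF σ j side false))
  | .inr (j, side, true) => if Cre σ j then (.inr (lF σ j side true), .inr (lM (cm j side)))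
      else (.inr (lF σ j side false), .inr (lM (cm j side)))

/-- The further row at an edge. -/
def ex1 (σ : Fin k → Bool) : Fin (k + 1) ⊕ Unit ⊕ Fin k × Bool × Bool → RG k
  | .inl j => .inr (lM j)
  | .inr (.inl _) => .inr (lB k)
  | .inr (.inr (j, side, false)) =>
    if Cre σ j then .inr (lF σ j side true) else .inr (lF σ j side false)
  | .inr (.inr (j, side, true)) => if Cre σ j then .inr (lF σ j side false) else chd σ j

def TVg (v : VG k) : Finset (RG k) := insert (ex2 v.1 v.2).1 (insert (ex2 v.1 v.2).2 (reg v.1))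

def TEg (e : EG k) : Finset (RG k) := insert (ex1 e.1 e.2) (reg e.1)

def E0g (k : ℕ) : Finset (EG k) :=
  univ.filter fun e => ∀ j, e.2 = .inr (.inr (j, true, true)) → Cre e.1 j

def Redg (k : ℕ) : Finset (EG k) :=
  univ.filter fun e => (∃ j, e.2 = .inl j) ∨ ∃ j side, e.2 = .inr (.inr (j, side, true)) ∧ Cre e.1 j

def Blueg (k : ℕ) : Finset (EG k) :=
  univ.filter fun e => e.2 = .inr (.inl ()) ∨ ∃ j side, e.2 = .inr (.inr (j, side, false))

/-- The inclusion at `t = h = 0`. -/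
def inW (k : ℕ) : WG k →ₗ[ℝ] UG k := LinearMap.inl ℝ (WG k) (ℝ × ℝ)

@[simp] lemma inW_apply (z : WG k) : inW k z = (z, 0, 0) := rfl

/-- The gadget. -/
def gad (k : ℕ) : Gad (WG k) (RG k) (VG k) (EG k) (Fin k → Bool) where
  F := FG k
  mu := muU k ∘ₗ inW k
  nu := cY k k ∘ₗ inW k
  x1 := cX1 k ∘ₗ inW k
  x2 := (cX2 k - de k • cY k k) ∘ₗ inW k
  s0 := sc k 0
  th := sc k 0 / 4
  TV := TVg
  TE := TEg
  TU := reg
  E0 := E0g k
  Red := Redg k
  Blue := Blueg k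

@[simp] lemma gad_F : (gad k).F = FG k := rfl
@[simp] lemma gad_TV : (gad k).TV = TVg := rfl
@[simp] lemma gad_TE : (gad k).TE = TEg := rfl
@[simp] lemma gad_TU : (gad k).TU = reg := rfl
@[simp] lemma gad_th : (gad k).th = sc k 0 / 4 := rfl
@[simp] lemma gad_s0 : (gad k).s0 = sc k 0 := rfl
lemma gad_x1 (z : WG k) : (gad k).x1 z = z.1 := rfl
lemma gad_nu (z : WG k) : (gad k).nu z = cY k k (z, 0, 0) := rfl
lemma gad_mu (z : WG k) : (gad k).mu z = muU k (z, 0, 0) := rfl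
lemma gad_x2 (z : WG k) : (gad k).x2 z = z.2.1 - de k * cY k k (z, 0, 0) := by simp [gad]

lemma tt_reg {σ : Fin k → Bool} {p : UG k} :
    (gad k).Tt (reg σ) p ↔ ∀ j, FG k (.inl (j, σ j)) p = 0 := by
  simp [Gad.Tt, reg]

lemma chd_eq {σ : Fin k → Bool} {p : UG k} (h : (gad k).Tt (reg σ) p) (j : Fin k) :
    FG k (chd σ j) p = sL j p + sU j p := by
  have := tt_reg.1 h j
  unfold chd
  cases hσ : σ j <;> simp_all

lemma cY_split (l : ℕ) (z : WG k) (t h : ℝ) :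
    cY k l (z, t, h) = cY k l (z, 0, 0) + if l = 0 then t else 0 := by
  rcases l with _ | n
  · simp
  · by_cases hn : n < k
    · simp [cY, hn]
    · simp [cY, hn]

lemma muU_split (hk : 1 ≤ k) (z : WG k) (t h : ℝ) :
    muU k (z, t, h) = (gad k).mu z + sc k 0 * t := by
  rw [gad_mu, muU_apply, muU_apply]
  simp only [cY_split _ z t h, mul_add, sum_add_distrib, mul_ite, mul_zero, sum_ite_eq', mem_range]
  rw [if_pos (by omega)]

lemma nu_eq (hk : 1 ≤ k) (z : WG k) (t h : ℝ) : cY k k (z, t, h) = (gad k).nu z := by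
  rw [cY_split, gad_nu, if_neg (by omega), add_zero]

/-! ### The primal side -/

/-- The region where all rows are close to their main parts. -/
structure Box (p : UG k) : Prop where
  h1 : p.2.2 = 1
  t1 : |p.2.1| ≤ 1
  ps1 : |psi k 1 p| ≤ 3 * RR k
  ps2 : |psi k (2 * k + 1) p| ≤ 3 * RR k
  y : ∀ l, |cY k l p| ≤ Wd k

/-- All rows are close to their main parts. -/
structure Near (p : UG k) : Prop where
  psq : ∀ q : ℝ, 1 ≤ q → q ≤ 2 * k + 1 → |psi k q p| ≤ 4 * RR k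
  lev : ∀ x : Fin k × Bool, |FG k (.inl x) p| ≤ 2 * Wd k
  M : ∀ j : ℕ, |sM k j p - psi k (2 * (j : ℝ) + 1) p| ≤ ze k
  B : |sB k p - bet k p| ≤ ze k
  ch : ∀ j : Fin k, |sL j p + sU j p - psi k (2 * (j : ℝ) + 2) p| ≤ 2 * ep k (j + 1) * Wd k ∧
    |sL j p + sU j p - psi k (2 * (j : ℝ) + 2) p| ≤ ze k
  FL : ∀ σ (j : Fin k) side, |sFL σ j side p - (psi k (2 * (cm j side : ℝ) + 1) p +
    tB σ (j + 1) * psi k (2 * (j : ℝ) + 2) p)| ≤ ze k
  Fc : ∀ σ (j : Fin k) side, |sFc σ j side p - (psi k (2 * (cm j side : ℝ) + 1) p +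
    (1 - ga k) * tB σ (j + 1) * psi k (2 * (j : ℝ) + 2) p)| ≤ ze k

/-- The corners of the big polygon. -/
abbrev Cn (k : ℕ) : Type := Bool ⊕ Fin k × Bool

/-- The odd tangent at a corner. -/
def co : Cn k → Fin (k + 1)
  | .inl b => if b then Fin.last k else 0
  | .inr x => cm x.1 x.2

/-- First coordinate at a corner. -/
def cu (c : Cn k) : UG k →ₗ[ℝ] ℝ := psi k (2 * (co c : ℝ) + 1)

/-- Second coordinate at a corner. -/
def cv : Cn k → UG k →ₗ[ℝ] ℝ
  | .inl _ => bet k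
  | .inr x => psi k (2 * (x.1 : ℝ) + 2)

/-- The sides of the big polygon with small slack meet at the corner `c`. -/
structure AtC (c : Cn k) (η : ℝ) (p : UG k) : Prop where
  odd : ∀ j : Fin (k + 1), psi k (2 * (j : ℝ) + 1) p ≤ η → j = co c
  even : ∀ j : Fin k, psi k (2 * (j : ℝ) + 2) p ≤ η → ∃ side, c = .inr (j, side)
  bot : bet k p ≤ η → ∃ b, c = .inl b

/-- The four rows at a corner of the plane `σ`. -/
structure Mic (σ : Fin k → Bool) (j : Fin k) (m ξ fl fc : ℝ) : Prop where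
  c1 : Cre σ j → 0 ≤ fl → 0 ≤ fc → m = 0 → ξ ≠ 0 ∧ fl ≠ 0
  c2 : Cre σ j → 0 ≤ fl → ξ = 0 → fc ≠ 0
  c3 : Cre σ j → fl = 0 → fc = 0 → 0 < m ∧ 0 < ξ
  c4 : Cre σ j → fc = 0 → m = 0 → 0 < fl ∧ 0 < ξ
  k1 : ¬Cre σ j → 0 ≤ m → 0 ≤ ξ → 0 ≤ fl → 0 < fc ∧ (m = 0 → ξ ≠ 0)
  k2 : ¬Cre σ j → fl = 0 → (ξ = 0 → 0 < m) ∧ (m = 0 → 0 < ξ)

/-! ### The dual side -/

/-- The coefficient of `mu` in a leaf. -/
def af (k : ℕ) : Lf k → ℝ
  | .inl _ => de k
  | .inr (.inl _) => de k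
  | .inr (.inr x) => if x.2.2 then A0 k * om k / 32 else de k / 2

/-- The coefficient of `nu` in a leaf. -/
def ta (k : ℕ) : Lf k → ℝ
  | .inl _ => 2 * de k
  | .inr (.inl _) => -(2 * de k)
  | .inr (.inr x) =>
    if x.2.2 then (1 - ga k) * (de k / 2 * (thB x.1.1.2 (x.1.1.1 + 1) - om k / 2)) +
      ga k * (2 * de k) - vr k * (Gb x.1.1.2 (x.1.1.1 + 1) k + de k * Pb x.1.1.2 (x.1.1.1 + 1))
    else de k / 2 * (thB x.1.1.2 (x.1.1.1 + 1) - om k / 2)

@[simp] lemma af_M (j : Fin (k + 1)) : af k (lM j) = de k := rfl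
@[simp] lemma af_B : af k (lB k) = de k := rfl
@[simp] lemma af_FL (σ : Fin k → Bool) (j : Fin k) (side : Bool) :
    af k (lF σ j side false) = de k / 2 := rfl
@[simp] lemma af_Fc (σ : Fin k → Bool) (j : Fin k) (side : Bool) :
    af k (lF σ j side true) = A0 k * om k / 32 := rfl
@[simp] lemma ta_M (j : Fin (k + 1)) : ta k (lM j) = 2 * de k := rfl
@[simp] lemma ta_B : ta k (lB k) = -(2 * de k) := rfl

lemma ta_FL (σ : Fin k → Bool) (j : Fin k) (side : Bool) :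
    ta k (lF σ j side false) = de k / 2 * (thB σ (j + 1) - om k / 2) := by
  rw [← thB_congr (blk_above σ j)]; rfl

lemma ta_Fc (σ : Fin k → Bool) (j : Fin k) (side : Bool) :
    ta k (lF σ j side true) = (1 - ga k) * (de k / 2 * (thB σ (j + 1) - om k / 2)) +
      ga k * (2 * de k) - vr k * (Gb σ (j + 1) k + de k * Pb σ (j + 1)) := by
  rw [← thB_congr (blk_above σ j), ← Gb_congr (blk_above σ j), ← Pb_congr (blk_above σ j)]; rfl

lemma lF_eq_iff {σ σ' : Fin k → Bool} {j j' : Fin k} {s s' d d' : Bool} :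
    lF σ j s d = lF σ' j' s' d' ↔ (j = j' ∧ ∀ l, j < l → σ l = σ' l) ∧ s = s' ∧ d = d' := by
  simp [lF, blk_eq_iff]

@[simp] lemma lM_inj {j j' : Fin (k + 1)} : lM j = lM j' ↔ j = j' := by simp [lM]
@[simp] lemma lM_ne_lB {j : Fin (k + 1)} : lM j ≠ lB k := by simp [lM, lB]
@[simp] lemma lB_ne_lM {j : Fin (k + 1)} : lB k ≠ lM j := by simp [lM, lB]
@[simp] lemma lM_ne_lF {i : Fin (k + 1)} {σ : Fin k → Bool} {j : Fin k} {s d : Bool} :
    lM i ≠ lF σ j s d := by simp [lM, lF]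
@[simp] lemma lF_ne_lM {i : Fin (k + 1)} {σ : Fin k → Bool} {j : Fin k} {s d : Bool} :
    lF σ j s d ≠ lM i := by simp [lM, lF]
@[simp] lemma lB_ne_lF {σ : Fin k → Bool} {j : Fin k} {s d : Bool} : lB k ≠ lF σ j s d := by
  simp [lB, lF]
@[simp] lemma lF_ne_lB {σ : Fin k → Bool} {j : Fin k} {s d : Bool} : lF σ j s d ≠ lB k := by
  simp [lB, lF]

def r1 (k : ℕ) (f : Lf k) : ℝ := -FG k (.inr f) ((1, 0, 0), 0, 0)
def r2 (k : ℕ) (f : Lf k) : ℝ := -FG k (.inr f) ((0, 1, 0), 0, 0)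

/-- Facts about a leaf. -/
structure LF (f : Lf k) : Prop where
  form : ∀ z t, FG k (.inr f) (z, t, 0) = -(r1 k f * (gad k).x1 z) - r2 k f * (gad k).x2 z +
    af k f * ((gad k).mu z + sc k 0 * t) + ta k f * (gad k).nu z
  af_ge : de k * om k / 64 ≤ af k f
  af_le : af k f ≤ de k
  ta_le : |ta k f| ≤ 2 * de k
  r1_le : |r1 k f| ≤ 15 * k
  r2_le : |r2 k f| ≤ 5
  r2_ge : f ≠ lB k → 1 ≤ r2 k f
  r2_M : ∀ j, f = lM j → r2 k f = 1
  r2_B : f = lB k → r2 k f = -(1 / 4)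
  fc : ∀ σ j side, f = lF σ j side true → ta k f ≤ -(2 * af k f)

/-- The difference of the multipliers of level `l`, with the output at level `0`. -/
def gq (μ : Fin k × Bool → ℝ) (w : ℝ) : ℕ → ℝ
  | 0 => w
  | n + 1 => if h : n < k then μ (⟨n, h⟩, true) - μ (⟨n, h⟩, false) else 0

@[simp] lemma gq_zero (μ : Fin k × Bool → ℝ) (w : ℝ) : gq μ w 0 = w := rfl

lemma gq_fin (μ : Fin k × Bool → ℝ) (w : ℝ) (j : Fin k) :
    gq μ w (j + 1) = μ (j, true) - μ (j, false) := by simp [gq]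

/-- The chain of equations between the levels. -/
def Chain (μ : Fin k × Bool → ℝ) (A w : ℝ) : Prop :=
  ∀ j : Fin k, gq μ w j + ep k (j + 1) * (μ (j, true) + μ (j, false)) = sc k j * A

/-- The dual equations, for multipliers `μ` of the levels and `la` of the leaves. -/
structure Eqs (μ : Fin k × Bool → ℝ) (la : Lf k → ℝ) (a b c1 c2 w : ℝ) : Prop where
  mu_pos : ∀ x, 0 ≤ μ x
  la_pos : ∀ f, 0 ≤ la f
  chain : Chain μ (a + ∑ f, la f * af k f) w
  top : gq μ w k = b - de k * ∑ j, μ (j, true) + ∑ f, la f * ta k f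
  e1 : c1 = ∑ j : Fin k, (2 * (j : ℝ) + 2) * μ (j, true) + ∑ f, la f * r1 k f
  e2 : c2 = ∑ j, μ (j, true) + ∑ f, la f * r2 k f

/-- The wall of the leaf `f` on the plane `σ` goes to the right. -/
def GoR (σ : Fin k → Bool) (f : Lf k) : Prop :=
  ∀ θ, |θ - thB σ 0| ≤ om k / 4 + 2 * de k → de k * om k / 64 ≤ af k f * θ - ta k f

/-- The wall of the leaf `f` on the plane `σ` goes to the left. -/
def GoL (σ : Fin k → Bool) (f : Lf k) : Prop :=
  ∀ θ, |θ - thB σ 0| ≤ om k / 4 + 2 * de k → af k f * θ - ta k f ≤ -(de k * om k / 64)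

end

end Pool.Agent.P.MP_af6acb_co.Fat
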