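import Pool.Agent.P.MP_af6acb_co.Fat.BaseG
import Pool.Agent.P.MP_af6acb_co.Fat.IfaceA

/-!
The intermediate statements about the gadget.
-/

namespace Pool.Agent.P.MP_af6acb_co.Fat

open Finset Module
open scoped Classical

/-! ### Parameters, blocks, leaves -/

-- deps:
def S_PF : Prop := ∀ k : ℕ, 1 ≤ k → PF k

-- deps: PF
def S_BK : Prop := ∀ k : ℕ, 1 ≤ k → ∀ σ : Fin k → Bool,
  |thB σ 0| ≤ 1 - om k ∧ ∀ j, BK σ j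

-- deps: PF BK
def S_LF : Prop := ∀ k : ℕ, 1 ≤ k → ∀ f : Lf k, LF f

/-! ### The primal side -/

-- deps: PF
def S_BOX : Prop := ∀ k : ℕ, 1 ≤ k → ∀ p : UG k,
  (Adm p → (gad k).Feas p → Box p) ∧
  (∀ σ, (gad k).Tt (reg σ) p → Adm p → |psi k 1 p| ≤ 3 * RR k →
    |psi k (2 * k + 1) p| ≤ 3 * RR k → Box p) ∧
  (Box p → ‖p.1‖ ≤ Kc k ∧ |(gad k).x1 p.1| ≤ Kc k ∧ |(gad k).x2 p.1| ≤ Kc k ∧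
    |(gad k).mu p.1| ≤ Kc k ∧ |(gad k).nu p.1| ≤ Kc k)

-- deps: PF BK
def S_NEAR : Prop := ∀ k : ℕ, 1 ≤ k → ∀ p : UG k, Box p → Near p

-- deps: PF
def S_MAC : Prop := ∀ k : ℕ, 1 ≤ k → ∀ (p : UG k) (c : Cn k), p.2.2 = 1 →
  (|cu c p| ≤ rh k → |cv c p| ≤ rh k → AtC c (9 / 10) p) ∧
  (|cu c p| ≤ 1 → |cv c p| ≤ 1 → |psi k 1 p| ≤ 3 * RR k ∧ |psi k (2 * k + 1) p| ≤ 3 * RR k)

-- deps: PF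
def S_COR : Prop := ∀ k : ℕ, 1 ≤ k → ∀ p : UG k, p.2.2 = 1 →
  (∀ j : Fin (k + 1), -rh k ≤ psi k (2 * (j : ℝ) + 1) p) →
  (∀ j : Fin k, -rh k ≤ psi k (2 * (j : ℝ) + 2) p) → -rh k ≤ bet k p → ∃ c, AtC c (rh k) p

-- deps: PF BK
def S_PEN : Prop := ∀ k : ℕ, 1 ≤ k → ∀ (σ : Fin k → Bool) (j : Fin k) (p : UG k),
  pf σ (j + 1) p = ∑ l : Fin k, sc k (l + 1) * (max (Gb σ (j + 1) (l + 1)) 0 * sU l p +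
    max (-Gb σ (j + 1) (l + 1)) 0 * sL l p) - sc k 0 * Gb σ (j + 1) 0 * p.2.1

-- deps: PF BK PEN
def S_OWN : Prop := ∀ k : ℕ, 1 ≤ k → ∀ (σ : Fin k → Bool) (j : Fin k) (p : UG k),
  Box p → Near p → (gad k).Tt (reg σ) p →
  |pf σ (j + 1) p - (if Cre σ j then 0 else pp k (j + 1) * (om k / 4) * FG k (chd σ j) p)| ≤
    de k * om k ^ 2 * pp k (j + 1) ^ 2 / 8000

-- deps: PF BK OWN
def S_MIC : Prop := ∀ k : ℕ, 1 ≤ k → ∀ (σ : Fin k → Bool) (j : Fin k) (side : Bool) (p : UG k),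
  Box p → Near p → (gad k).Tt (reg σ) p →
  Mic σ j (sM k (j + side.toNat) p) (FG k (chd σ j) p) (sFL σ j side p) (sFc σ j side p)

-- deps: PF BK PEN
def S_POS : Prop := ∀ k : ℕ, 1 ≤ k → ∀ (σ σ' : Fin k → Bool) (j : Fin k) (side : Bool) (p : UG k),
  Box p → Near p → (gad k).Tt (reg σ) p → (∀ x, 0 ≤ FG k (.inl x) p) →
  0 ≤ sM k (j + side.toNat) p → AtC (.inr (j, side)) (9 / 10) p → (∃ l, j < l ∧ σ' l ≠ σ l) →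
  0 < sFL σ' j side p ∧ 0 < sFc σ' j side p

-- deps: PF BK
def S_OTH : Prop := ∀ k : ℕ, 1 ≤ k → ∀ (p : UG k) (c : Cn k), Near p → AtC c (9 / 10) p →
  |cu c p| ≤ rh k → |cv c p| ≤ rh k →
  (∀ j : Fin (k + 1), j ≠ co c → 0 < sM k j p) ∧
  (∀ j : Fin k, (∀ side, c ≠ .inr (j, side)) → 0 < sL j p + sU j p) ∧
  ((∀ b, c ≠ .inl b) → 0 < sB k p) ∧
  ∀ σ j side, c ≠ .inr (j, side) → 0 < sFL σ j side p ∧ 0 < sFc σ j side p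

-- deps:
def S_PERT : Prop := ∀ α1 β1 α2 β2 a1 b1 a2 b2 ζ m ρ : ℝ, 0 < m → ρ ≤ 1 → 100 * ζ ≤ m * ρ →
  |α1| ≤ 3 → |β1| ≤ 3 → |α2| ≤ 3 → |β2| ≤ 3 → m ≤ |α1 * β2 - α2 * β1| →
  |a1| ≤ 2 * ζ → |b1| ≤ 2 * ζ → |a2| ≤ 2 * ζ → |b2| ≤ 2 * ζ →
  (∀ c1 c2, |c1| ≤ ζ → |c2| ≤ ζ → ∃ u v, |u| ≤ ρ ∧ |v| ≤ ρ ∧
    (α1 + a1) * u + (β1 + b1) * v + c1 = 0 ∧ (α2 + a2) * u + (β2 + b2) * v + c2 = 0) ∧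
  ∀ u v, (α1 + a1) * u + (β1 + b1) * v = 0 → (α2 + a2) * u + (β2 + b2) * v = 0 → u = 0 ∧ v = 0

-- deps:
def S_PL : Prop := ∀ k : ℕ, 1 ≤ k → ∀ (σ : Fin k → Bool) (c : Cn k),
  (∃ φ : (ℝ × ℝ × ℝ × ℝ) →ₗ[ℝ] WG k, ∀ u v t h,
    (gad k).Tt (reg σ) (φ (u, v, t, h), t, h) ∧ cu c (φ (u, v, t, h), t, h) = u ∧
      cv c (φ (u, v, t, h), t, h) = v) ∧
  ∀ z, (gad k).Tt (reg σ) (z, 0, 0) → cu c (z, 0, 0) = 0 → cv c (z, 0, 0) = 0 → z = 0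

-- deps: PF BOX MAC PERT PL
def S_SLV : Prop := ∀ k : ℕ, 1 ≤ k → ∀ (σ : Fin k → Bool) (c : Cn k) (f1 f2 : UG k →ₗ[ℝ] ℝ)
  (α1 β1 α2 β2 : ℝ), |α1| ≤ 3 → |β1| ≤ 3 → |α2| ≤ 3 → |β2| ≤ 3 → ga k ≤ |α1 * β2 - α2 * β1| →
  (∀ p, Box p → (gad k).Tt (reg σ) p → |f1 p - (α1 * cu c p + β1 * cv c p)| ≤ ze k ∧
    |f2 p - (α2 * cu c p + β2 * cv c p)| ≤ ze k) →
  (∀ t, |t| ≤ 1 → ∃ z, Box (z, t, 1) ∧ (gad k).Tt (reg σ) (z, t, 1) ∧ f1 (z, t, 1) = 0 ∧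
    f2 (z, t, 1) = 0 ∧ |cu c (z, t, 1)| ≤ rh k ∧ |cv c (z, t, 1)| ≤ rh k) ∧
  ∀ z, (gad k).Tt (reg σ) (z, 0, 0) → f1 (z, 0, 0) = 0 → f2 (z, 0, 0) = 0 → z = 0

-- deps: PF BK NEAR SLV
def S_VX1 : Prop := ∀ k : ℕ, 1 ≤ k → ∀ v : VG k, (gad k).Inj (TVg v) ∧
  ∀ t, |t| ≤ 1 → ∃ z, Box (z, t, 1) ∧ (gad k).Tt (TVg v) (z, t, 1) ∧
    |cu (v.2.map id fun x => (x.1, x.2.1)) (z, t, 1)| ≤ rh k ∧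
    |cv (v.2.map id fun x => (x.1, x.2.1)) (z, t, 1)| ≤ rh k

-- deps: NEAR MAC MIC POS OTH
def S_VX2 : Prop := ∀ k : ℕ, 1 ≤ k → ∀ (v : VG k) (p : UG k), Box p → (gad k).Tt (TVg v) p →
  |cu (v.2.map id fun x => (x.1, x.2.1)) p| ≤ rh k →
  |cv (v.2.map id fun x => (x.1, x.2.1)) p| ≤ rh k → ∀ i, i ∉ TVg v → 0 < FG k i p

-- deps: PF BK BOX NEAR MAC COR MIC POS
def S_PC : Prop := ∀ k : ℕ, 1 ≤ k → ∀ p : UG k, Adm p → (gad k).Feas p →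
  (∀ j, ∃ b, FG k (.inl (j, b)) p = 0) → ∃ v, ∀ i, FG k i p = 0 → i ∈ TVg v

/-! ### The dual side -/

-- deps: LF
def S_DE : Prop := ∀ k : ℕ, 1 ≤ k → ∀ (lam : RG k → ℝ) (a b c1 c2 w : ℝ),
  (gad k).Dual lam a b c1 c2 w ↔
    Eqs (fun x => lam (.inl x)) (fun f => lam (.inr f)) a b c1 c2 w

-- deps: PF
def S_TN : Prop := ∀ k : ℕ, 1 ≤ k → ∀ (μ : Fin k × Bool → ℝ) (A w : ℝ), (∀ x, 0 ≤ μ x) →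
  Chain μ A w → |w| ≤ sc k 0 / 4 * A →
  (∀ j : Fin k, 3 / 4 * (pp k (j + 1) * om k * A) ≤ μ (j, true) + μ (j, false)) ∧
  ∑ j, μ (j, true) ≤ 2 * A ∧ |gq μ w k| ≤ A

-- deps: PF
def S_TM : Prop := ∀ k : ℕ, 1 ≤ k → ∀ (μ : Fin k × Bool → ℝ) (A w : ℝ) (σ : Fin k → Bool) (J : ℕ),
  J ≤ k → Chain μ A w → (∀ j : Fin k, J ≤ j → μ (j, !σ j) = 0) →
  gq μ w k = thB σ J * A + ori σ J * gq μ w J / pp k J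

-- deps: PF LF DE TN
def S_LOW : Prop := ∀ k : ℕ, 1 ≤ k → ∀ lam a b c1 c2 w, (gad k).Dual lam a b c1 c2 w → 0 < a →
  |w| ≤ (gad k).th * a → -(Kc k * (a + |b|)) ≤ c2 ∧ |c1| ≤ Kc k * (a + |b| + |c2|)

-- deps: PF BK LF
def S_SGN : Prop := ∀ k : ℕ, 1 ≤ k →
  (∀ e : EG k, (∃ j, ex1 e.1 e.2 = chd e.1 j) ∨ ∃ f, ex1 e.1 e.2 = .inr f ∧
    ((e ∈ Blueg k ∧ GoR e.1 f) ∨ (e ∈ Redg k ∧ GoL e.1 f))) ∧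
  ∀ v : VG k, (∃ j side, ex2 v.1 v.2 = (chd v.1 j, .inr (lF v.1 j side false))) ∨
    ∃ f1 f2, ex2 v.1 v.2 = (.inr f1, .inr f2) ∧ GoR v.1 f1 ∧ GoL v.1 f2 ∧ f2 ≠ lB k ∧
      (f1 ≠ lB k ∨ ∃ j, f2 = lM j)

-- deps:
def S_SUP : Prop := ∀ (k : ℕ) (v : VG k) (S : Finset (RG k)), S ⊆ TVg v →
  (∀ j, ∃ b, Sum.inl (j, b) ∈ S) → ∃ f, S = (gad k).T f

-- deps: PF BK LF DE TN TM SGN
def S_NM : Prop := ∀ k : ℕ, 1 ≤ k → ∀ lam a b c1 c2 w f, (gad k).Dual lam a b c1 c2 w → 0 < a →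
  |w| ≤ (gad k).th * a → supp lam = (gad k).T f → (gad k).Nm (Kc k) a b c2 f

-- deps: PF LF DE TN PC SUP NM
def S_CLS : Prop := ∀ k : ℕ, 1 ≤ k → ∀ lam a b c1 c2 w, (gad k).Dual lam a b c1 c2 w → 0 < a →
  |w| ≤ (gad k).th * a → (∃ p, Adm p ∧ (gad k).Feas p ∧ (gad k).Tt (supp lam) p) →
  ∃ f, (gad k).Cov lam ((gad k).T f) ∧ (gad k).Nm (Kc k) a b c2 f

-- deps: PF TN
def S_SOL : Prop := ∀ k : ℕ, 1 ≤ k → ∀ (σ : Fin k → Bool) (J : ℕ), J ≤ k →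
  ∃ p χ q p' χ' q' : ℝ, 0 ≤ p ∧ p ≤ 2 ∧ |χ| * (sc k 0 / 4) ≤ 2 ∧ |q| * (pp k J * om k / 2) ≤ 2 ∧
    ∀ A w g, 0 < A → |w| ≤ sc k 0 / 4 * A → |g| < 3 / 4 * (pp k J * om k * A) →
      ∃ μ : Fin k × Bool → ℝ, (∀ x, 0 ≤ μ x) ∧
        (∀ x, μ x ≠ 0 ↔ x.2 = σ x.1 ∨ (x.1 : ℕ) + 1 = J) ∧ Chain μ A w ∧
        (J ≠ 0 → gq μ w J = g) ∧ ∑ j, μ (j, true) = p * A + χ * w + q * g ∧
        ∑ j : Fin k, (2 * (j : ℝ) + 2) * μ (j, true) = p' * A + χ' * w + q' * g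

-- deps: PF BK LF DE TM SOL
def S_FARA : Prop := ∀ k : ℕ, 1 ≤ k → ∀ (σ : Fin k → Bool) (f1 f2 : Lf k), GoR σ f1 → GoL σ f2 →
  f2 ≠ lB k → (f1 ≠ lB k ∨ ∃ j, f2 = lM j) → ∃ c1 : ℝ × ℝ × ℝ → ℝ, Continuous c1 ∧
    ∀ b c2 w, 1 ≤ etc k * c2 → |b| ≤ etc k * c2 → |w| ≤ (gad k).th →
      ∃ lam, (gad k).Dual lam 1 b (c1 (b, c2, w)) c2 w ∧
        supp lam = insert (.inr f1) (insert (.inr f2) (reg σ))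

-- deps: PF BK LF DE TM SOL
def S_FARG : Prop := ∀ k : ℕ, 1 ≤ k → ∀ (σ : Fin k → Bool) (j : Fin k) (side : Bool),
  ∃ c1 : ℝ × ℝ × ℝ → ℝ, Continuous c1 ∧
    ∀ b c2 w, 1 ≤ etc k * c2 → |b| ≤ etc k * c2 → |w| ≤ (gad k).th →
      ∃ lam, (gad k).Dual lam 1 b (c1 (b, c2, w)) c2 w ∧
        supp lam = insert (chd σ j) (insert (.inr (lF σ j side false)) (reg σ))

-- deps: PF BK LF DE TM SOL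
def S_WAL : Prop := ∀ k : ℕ, 1 ≤ k → ∀ (σ : Fin k → Bool) (i : RG k),
  ((∃ f, i = .inr f) ∨ ∃ j, i = chd σ j) → ∃ b c2 : ℝ → ℝ, Continuous b ∧ Continuous c2 ∧
    ∀ w, |w| ≤ (gad k).th → |b w| ≤ 2 ∧ |c2 w| ≤ Kc k ∧
      ∃ c1 lam, (gad k).Dual lam 1 (b w) c1 (c2 w) w ∧ supp lam = insert i (reg σ)

/-! ### Combinatorics and assembly -/

-- deps:
def S_TJV : Prop := ∀ k : ℕ, 1 ≤ k → Function.Injective (TVg (k := k))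

-- deps:
def S_TJE : Prop := ∀ k : ℕ, Set.InjOn (TEg (k := k)) (E0g k)

-- deps:
def S_ENDS : Prop := ∀ k : ℕ, 1 ≤ k → (∀ e : EG k, ∃ v, TEg e ⊆ TVg v ∧ (TVg v \ TEg e).card ≤ 1) ∧
  (∀ e ∈ E0g k, ∃ v v', v ≠ v' ∧ ∀ i, i ∈ TEg e ↔ i ∈ TVg v ∧ i ∈ TVg v') ∧
  ∀ i : RG k, ∃ v, i ∉ TVg v

-- deps:
def S_CG : Prop := ∀ k : ℕ, (Blueg k).card ≤ (2 * k + 1) * 2 ^ k ∧
  (Redg k).card ≤ (2 * k + 1) * 2 ^ k ∧ (9 * k + 4) * 2 ^ k ≤ 2 * (E0g k).card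

-- deps: PF BOX VX1 VX2 LOW SGN CLS FARA FARG WAL TJV TJE ENDS
def S_OK : Prop := ∀ k : ℕ, 1 ≤ k → (gad k).Ok (Kc k) (etc k)

-- deps: MAIN OK CG
def S_FIN : Prop := ∀ φ : ℝ, φ < 10 →
  ∃ f ∈ fVectors, φ < ((f 1 : ℝ) + f 2 - 20) / ((f 0 : ℝ) + f 3 - 10)

end Pool.Agent.P.MP_af6acb_co.Fat
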