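import Pool.Agent.P.MP_af6acb_co.Fat.IfaceA
import Pool.Agent.P.MP_0c5457_lc.Saddle

set_option linter.unusedSectionVars false

/-! Step LP1. -/

namespace Pool.Agent.P.MP_af6acb_co.Fat

open Finset Module Filter Topology
open scoped Classical

section

variable {E ι : Type} [NormedAddCommGroup E] [NormedSpace ℝ E] [FiniteDimensional ℝ E]
  [Fintype ι] (Y : Sys E ι)

lemma lp1_cont (i : ι) : Continuous (Y.sl i) :=
  (Y.S i).continuous_of_finiteDimensional.add continuous_const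

lemma lp1_comb (i : ι) (z z' : E) {a b : ℝ} (h : a + b = 1) :
    Y.sl i (a • z + b • z') = a * Y.sl i z + b * Y.sl i z' := by
  simp only [Sys.sl, map_add, map_smul, smul_eq_mul]
  linear_combination (-Y.d i) * h

lemma lp1_convex : Convex ℝ Y.Fe := fun z hz z' hz' a b ha hb h i => by
  rw [lp1_comb Y i z z' h]
  exact add_nonneg (mul_nonneg ha (hz i)) (mul_nonneg hb (hz' i))

lemma lp1_closed : IsClosed Y.Fe := by
  have : Y.Fe = ⋂ i, {z | 0 ≤ Y.sl i z} := by ext z; simp [Sys.Fe]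
  rw [this]
  exact isClosed_iInter fun i => isClosed_le continuous_const (lp1_cont Y i)

lemma lp1_strict (h0 : Y.Fe.Nonempty) (h : ∀ i, ∃ z ∈ Y.Fe, 0 < Y.sl i z) (s : Finset ι) :
    ∃ z ∈ Y.Fe, ∀ i ∈ s, 0 < Y.sl i z := by
  induction s using Finset.induction_on with
  | empty => exact h0.imp fun z hz => ⟨hz, by simp⟩
  | insert j s _ ih =>
    obtain ⟨z, hz, h1⟩ := ih
    obtain ⟨z', hz', h2⟩ := h j
    have e : (1 / 2 : ℝ) + 1 / 2 = 1 := by norm_num
    refine ⟨_, lp1_convex Y hz hz' (by norm_num) (by norm_num) e, fun i hi => ?_⟩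
    rw [lp1_comb Y i z z' e]
    rcases mem_insert.1 hi with rfl | hi
    · linarith [hz i]
    · linarith [hz' i, h1 i hi]

lemma lp1_ext {z v : E} (hz : z ∈ Y.Fe.extremePoints ℝ) (hv : ∀ i, Y.sl i z = 0 → Y.S i v = 0) :
    v = 0 := by
  have h1 : ∀ᶠ t : ℝ in 𝓝 0, z + t • v ∈ Y.Fe := by
    refine eventually_all.2 fun i => ?_
    rcases (hz.1 i).eq_or_lt with h | h
    · refine Eventually.of_forall fun t => ?_
      have := hv i h.symm
      simp only [Sys.sl, map_add, map_smul, this, smul_zero, add_zero] at h ⊢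
      exact h.le
    · have hc : Continuous fun t : ℝ => Y.sl i (z + t • v) := (lp1_cont Y i).comp (by fun_prop)
      exact (hc.continuousAt.eventually (lt_mem_nhds (by simpa using h))).mono fun t ht => ht.le
  obtain ⟨ε, hε, h2⟩ := Metric.eventually_nhds_iff.1 h1
  have h3 := h2 (y := ε / 2) (by rw [Real.dist_eq, sub_zero, abs_of_pos (half_pos hε)]; linarith)
  have h4 := h2 (y := -(ε / 2)) (by
    rw [Real.dist_eq, sub_zero, abs_neg, abs_of_pos (half_pos hε)]; linarith)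
  rw [neg_smul, ← sub_eq_add_neg] at h4
  have h5 := hz.2 h3 h4 (mem_openSegment_add_sub z _)
  exact (smul_eq_zero.1 (add_eq_left.1 h5)).resolve_left (half_pos hε).ne'

lemma lp1_finite : (Y.Fe.extremePoints ℝ).Finite := by
  refine Set.Finite.of_finite_image (f := fun z => {i | Y.sl i z = 0}) (Set.toFinite _)
    fun z hz z' _ h => ?_
  refine (sub_eq_zero.1 (lp1_ext Y hz fun i hi => ?_)).symm
  have h1 : Y.sl i z' = 0 := (Set.ext_iff.1 h i).1 hi
  simp only [Sys.sl, map_sub] at hi h1 ⊢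
  linarith

end

theorem p_LP1 :
    S_LP1 := by
  intro E ι _ _ _ _ Y ⟨C, hC⟩ h0 h1 h2
  have hK : IsCompact Y.Fe :=
    Metric.isCompact_of_isClosed_isBounded (lp1_closed Y) (isBounded_iff_forall_norm_le.2 ⟨C, hC⟩)
  have hf := lp1_finite Y
  have h3 := closure_convexHull_extremePoints hK (lp1_convex Y)
  rw [(hf.isClosed_convexHull ℝ).closure_eq] at h3
  refine ⟨(hf.image Y.pr).toFinset, ?_, ?_⟩
  · rw [Set.Finite.coe_toFinset, ← LinearMap.image_convexHull, h3, Sys.Q]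
  · obtain ⟨z, -, hz⟩ := lp1_strict Y h0 h1 univ
    refine ⟨Y.pr z, mem_interior_iff_mem_nhds.2
      ((Y.pr.isOpenMap_of_finiteDimensional h2).image_mem_nhds ?_)⟩
    exact eventually_all.2 fun i => ((lp1_cont Y i).continuousAt.eventually
      (lt_mem_nhds (hz i (mem_univ i)))).mono fun t ht => ht.le

end Pool.Agent.P.MP_af6acb_co.Fat

/-! Step LP2. -/

namespace Pool.Agent.P.MP_af6acb_co.Fat

open Finset Module
open scoped Classical

theorem p_LP2 :
    S_LP2 := by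
  intro E ι _ _ _ _ Y F hne hF
  obtain ⟨l, rfl⟩ := hF hne
  obtain ⟨_, ⟨z0, hz0, rfl⟩, hmax⟩ := hne
  set J : Finset ι := univ.filter fun i => Y.sl i z0 = 0 with hJ
  rcases Pool.Agent.P.MP_0c5457_lc.farkas J Y.S (l.toLinearMap ∘ₗ Y.pr) with
    ⟨v, h1, h2⟩ | ⟨y, h1, h2⟩
  · exfalso
    have ev : ∀ᶠ e : ℝ in nhdsWithin 0 (Set.Ioi 0), ∀ i, 0 ≤ Y.sl i (z0 + e • v) := by
      rw [Filter.eventually_all]
      intro i
      have e1 : ∀ e : ℝ, Y.sl i (z0 + e • v) = Y.sl i z0 + e * Y.S i v := fun e => by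
        simp only [Sys.sl, map_add, map_smul, smul_eq_mul]; ring
      simp only [e1]
      by_cases c : Y.sl i z0 = 0
      · filter_upwards [self_mem_nhdsWithin] with e he
        rw [c, zero_add]
        exact mul_nonneg (le_of_lt he) (h1 i (by simp [hJ, c]))
      · have p : 0 < Y.sl i z0 := lt_of_le_of_ne (hz0 i) (Ne.symm c)
        have t : Filter.Tendsto (fun e : ℝ => Y.sl i z0 + e * Y.S i v) (nhds 0)
            (nhds (Y.sl i z0 + 0 * Y.S i v)) := Continuous.tendsto (by fun_prop) _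
        rw [zero_mul, add_zero] at t
        exact ((t.eventually (lt_mem_nhds p)).mono fun e he => le_of_lt he).filter_mono
          nhdsWithin_le_nhds
    obtain ⟨e, he, hp⟩ := (ev.and self_mem_nhdsWithin).exists
    have := hmax _ ⟨_, he, rfl⟩
    simp only [map_add, map_smul, smul_eq_mul] at this
    have : 0 < e * l (Y.pr v) := mul_pos hp h2
    linarith
  · set lam : ι → ℝ := fun i => if i ∈ J then y i else 0 with hl
    have l0 : ∀ i, 0 ≤ lam i := fun i => by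
      simp only [hl]; split_ifs
      · exact h1 i
      · exact le_rfl
    have s : ∀ v, ∑ i, lam i * Y.S i v = -l (Y.pr v) := fun v => by
      have := h2 v
      simp only [hl, ite_mul, zero_mul, sum_ite_mem, univ_inter]
      exact eq_neg_of_add_eq_zero_right this
    have k : ∀ z, ∑ i, lam i * Y.sl i z = l (Y.pr z0) - l (Y.pr z) := fun z => by
      have := s (z - z0)
      simp only [map_sub] at this
      rw [← neg_sub, ← this]
      refine sum_congr rfl fun i _ => ?_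
      by_cases c : i ∈ J
      · have : Y.sl i z0 = 0 := by simpa [hJ] using c
        simp only [Sys.sl] at this ⊢
        congr 1; linarith
      · simp [hl, c]
    refine ⟨lam, ⟨l0, fun z hz => by rw [s, hz]; simp⟩, Set.ext fun x => ⟨?_, ?_⟩⟩
    · rintro ⟨⟨z, hz, rfl⟩, hm⟩
      refine ⟨z, ⟨hz, fun i hi => ?_⟩, rfl⟩
      have e : ∑ i, lam i * Y.sl i z = 0 := by
        rw [k]; linarith [hm _ ⟨z0, hz0, rfl⟩, hmax _ ⟨z, hz, rfl⟩]
      have := (sum_eq_zero_iff_of_nonneg fun i _ => mul_nonneg (l0 i) (hz i)).1 e i (mem_univ _)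
      exact (mul_eq_zero.1 this).resolve_left (mem_supp.1 hi)
    · rintro ⟨z, ⟨hz, ht⟩, rfl⟩
      refine ⟨⟨z, hz, rfl⟩, fun w hw => ?_⟩
      have e : ∑ i, lam i * Y.sl i z = 0 := sum_eq_zero fun i _ => by
        by_cases c : lam i = 0
        · simp [c]
        · rw [ht i (mem_supp.2 c), mul_zero]
      rw [k] at e
      linarith [hmax w hw]

end Pool.Agent.P.MP_af6acb_co.Fat

/-! Step LP3. -/

namespace Pool.Agent.P.MP_af6acb_co.Fat

open Finset Module
open scoped Classical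

theorem p_LP3 :
    S_LP3 := by
  intro E ι _ _ _ _ Y lam ⟨l0, hm⟩ ⟨z0, hz0, ht0⟩
  have mem : (∑ i, lam i • Y.S i : Module.Dual ℝ E) ∈ (LinearMap.ker Y.pr).dualAnnihilator := by
    rw [Submodule.mem_dualAnnihilator]
    intro z hz
    simpa [LinearMap.sum_apply] using hm z hz
  rw [← LinearMap.range_dualMap_eq_dualAnnihilator_ker] at mem
  obtain ⟨m, hm'⟩ := mem
  have s : ∀ v, ∑ i, lam i * Y.S i v = m (Y.pr v) := fun v => by
    simpa [LinearMap.sum_apply] using (LinearMap.congr_fun hm' v).symm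
  have z : ∀ z ∈ Y.face (supp lam), ∑ i, lam i * Y.sl i z = 0 := fun z hz =>
    sum_eq_zero fun i _ => by
      by_cases c : lam i = 0
      · simp [c]
      · rw [hz.2 i (mem_supp.2 c), mul_zero]
  have k : ∀ v, ∑ i, lam i * Y.sl i v = m (Y.pr v) - m (Y.pr z0) := fun v => by
    have := z z0 ⟨hz0, ht0⟩
    rw [← s, ← s]
    simp only [Sys.sl, mul_add, sum_add_distrib] at this ⊢
    linarith
  have p : ∀ v ∈ Y.Fe, 0 ≤ ∑ i, lam i * Y.sl i v := fun v hv =>
    sum_nonneg fun i _ => mul_nonneg (l0 i) (hv i)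
  have b : ∀ v ∈ Y.Fe, m (Y.pr v) ≤ m (Y.pr z0) → v ∈ Y.face (supp lam) := fun v hv h => by
    refine ⟨hv, fun i hi => ?_⟩
    have e : ∑ i, lam i * Y.sl i v = 0 := le_antisymm (by rw [k]; linarith) (p v hv)
    have := (sum_eq_zero_iff_of_nonneg fun i _ => mul_nonneg (l0 i) (hv i)).1 e i (mem_univ _)
    exact (mul_eq_zero.1 this).resolve_left (mem_supp.1 hi)
  refine ⟨fun _ => ⟨LinearMap.toContinuousLinearMap (-m), Set.ext fun x => ⟨?_, ?_⟩⟩, ?_⟩
  · rintro ⟨v, hv, rfl⟩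
    refine ⟨⟨v, hv.1, rfl⟩, ?_⟩
    rintro _ ⟨w, hw, rfl⟩
    have h1 := z v hv
    have h2 := p w hw
    rw [k] at h1 h2
    simp only [LinearMap.coe_toContinuousLinearMap', LinearMap.neg_apply]
    linarith
  · rintro ⟨⟨v, hv, rfl⟩, h⟩
    have := h _ ⟨z0, hz0, rfl⟩
    simp only [LinearMap.coe_toContinuousLinearMap', LinearMap.neg_apply] at this
    exact ⟨v, b v hv (by linarith), rfl⟩
  · rintro v hv ⟨w, hw, e⟩
    have h1 := z w hw
    rw [k, e] at h1
    exact b v hv (by linarith)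

end Pool.Agent.P.MP_af6acb_co.Fat

/-! Step LP4. -/

namespace Pool.Agent.P.MP_af6acb_co.Fat

open Finset Module
open scoped Classical

theorem p_LP4 :
    S_LP4 := by
  intro E ι _ _ _ _ Y T X h
  let K : Submodule ℝ E := ⨅ i ∈ T, LinearMap.ker (Y.S i)
  have hK : ∀ z, z ∈ K ↔ ∀ i ∈ T, Y.S i z = 0 := fun z => by
    simp only [K, Submodule.mem_iInf, LinearMap.mem_ker]
  have h1 : finrank ℝ K ≤ X.card := by
    have := LinearMap.finrank_le_finrank_of_injective
      (f := (LinearMap.pi fun i : X => Y.S i) ∘ₗ K.subtype)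
      ((injective_iff_map_eq_zero _).2 fun z hz => Subtype.ext
        (h z.1 ((hK _).1 z.2) fun i hi => congrFun hz ⟨i, hi⟩))
    simpa using this
  refine le_trans (Submodule.finrank_mono (t := K.map Y.pr) ?_)
    ((Submodule.finrank_map_le _ _).trans h1)
  rw [vectorSpan_def, Submodule.span_le]
  rintro _ ⟨_, ⟨z, hz, rfl⟩, _, ⟨w, hw, rfl⟩, rfl⟩
  refine ⟨z - w, (hK _).2 fun i hi => ?_, map_sub _ _ _⟩
  have a := hz.2 i hi
  have b := hw.2 i hi
  rw [Sys.sl] at a b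
  rw [map_sub]
  linarith

end Pool.Agent.P.MP_af6acb_co.Fat

/-! Step CU. -/

namespace Pool.Agent.P.MP_af6acb_co.Fat

open Finset Module
open scoped Classical

theorem p_CU (hLP2 : S_LP2) :
    S_CU := by
  intro E ι _ _ _ _ Y k D h
  rw [← Set.ncard_coe_finset]
  refine le_trans (Set.ncard_le_ncard (t := (fun T => Y.pr '' Y.face T) '' (D : Set (Finset ι))) ?_
    (D.finite_toSet.image _)) (Set.ncard_image_le D.finite_toSet)
  rintro F ⟨h1, h2, h3⟩
  obtain ⟨lam, hm, rfl⟩ := hLP2 E ι Y F h1 h2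
  obtain ⟨T, hT, e⟩ := h lam hm h1.of_image h3
  exact ⟨T, hT, e.symm⟩

end Pool.Agent.P.MP_af6acb_co.Fat

/-! Step CL. -/

namespace Pool.Agent.P.MP_af6acb_co.Fat

open Finset Module
open scoped Classical

theorem p_CL (hLP2 : S_LP2) (hLP3 : S_LP3) :
    S_CL := by
  intro E ι _ _ _ _ Y k α _ lam h hi
  have key : ∀ a b, Y.pr '' Y.face (supp (lam a)) = Y.pr '' Y.face (supp (lam b)) →
      Y.face (supp (lam a)) ⊆ Y.face (supp (lam b)) := fun a b e z hz =>
    (hLP3 E ι Y _ (h b).1 (h b).2.1).2 z hz.1 (e ▸ Set.mem_image_of_mem _ hz)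
  rw [← Nat.card_eq_fintype_card, ← Set.ncard_univ]
  refine Set.ncard_le_ncard_of_injOn (fun a => Y.pr '' Y.face (supp (lam a)))
    (fun a _ => ⟨(h a).2.1.image _, (hLP3 E ι Y _ (h a).1 (h a).2.1).1, (h a).2.2⟩)
    (fun a _ b _ e => hi ((key a b e).antisymm (key b a e.symm))) ?_
  refine (Set.finite_range fun T : Finset ι => Y.pr '' Y.face T).subset ?_
  rintro F ⟨h1, h2, -⟩
  obtain ⟨l, -, rfl⟩ := hLP2 E ι Y F h1 h2
  exact ⟨_, rfl⟩

end Pool.Agent.P.MP_af6acb_co.Fat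

/-! Step EUL. -/

namespace Pool.Agent.P.MP_af6acb_co.Fat

open Finset Module
open scoped Classical

theorem p_EUL :
    S_EUL := by
  intro P hP
  obtain ⟨s, rfl, h1, h2⟩ := exists_conf hP
  have := euler4 h1 h2
  rw [← h1.card_faces_one] at this
  simpa only [numFaces_hull] using this

end Pool.Agent.P.MP_af6acb_co.Fat

/-! Step SCL. -/

namespace Pool.Agent.P.MP_af6acb_co.Fat

open Finset Module
open scoped Classical

section scl

variable {W R V Ed Ev : Type} [NormedAddCommGroup W] [NormedSpace ℝ W] [Fintype R]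
  {G : Gad W R V Ed Ev}

lemma scl_adm {p : W × ℝ × ℝ} (h : AdmH p) : Adm ((p.2.2)⁻¹ • p) := by
  refine ⟨by simp [h.1.ne'], ?_⟩
  change |(p.2.2)⁻¹ * p.2.1| ≤ 1
  rw [abs_mul, abs_of_pos (inv_pos.2 h.1), inv_mul_le_iff₀ h.1, mul_one]
  exact h.2

lemma scl_feas {p : W × ℝ × ℝ} {c : ℝ} (hc : 0 ≤ c) (h : G.Feas p) : G.Feas (c • p) := fun i => by
  rw [map_smul]; exact mul_nonneg hc (h i)

lemma scl_tt {p : W × ℝ × ℝ} {T : Finset R} (c : ℝ) (h : G.Tt T p) : G.Tt T (c • p) :=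
  fun i hi => by rw [map_smul, h i hi, smul_zero]

lemma scl_abs {h K x : ℝ} (h0 : 0 < h) (e : |h⁻¹ * x| ≤ K) : |x| ≤ K * h := by
  rwa [abs_mul, abs_of_pos (inv_pos.2 h0), inv_mul_le_iff₀ h0, mul_comm] at e

lemma scl_sub {K et : ℝ} (h : G.Ok K et) {v v' : V} (s : G.TV v ⊆ G.TV v') : v = v' := by
  obtain ⟨z, -, hz⟩ := h.vert v 0 (by simp)
  obtain ⟨z', -, hz'⟩ := h.vert v' 0 (by simp)
  have e : z - z' = 0 := h.injV v _ fun i hi => by
    have : ((z - z', 0, 0) : W × ℝ × ℝ) = (z, 0, 1) - (z', 0, 1) := by simp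
    rw [this, map_sub, (hz i).2 hi, (hz' i).2 (s hi), sub_zero]
  rw [sub_eq_zero] at e
  subst e
  exact h.tinjV (Finset.ext fun i => (hz i).symm.trans (hz' i))

end scl

theorem p_SCL :
    S_SCL := by
  intro W R V Ed Ev _ _ _ _ _ _ _ G K et h
  refine ⟨fun p hp fp => ?_, fun v t k k0 ht => ?_, fun lam T hc p hp fp tp => ?_,
    fun lam a b c1 c2 w hd a0 hw ⟨p, hp, fp, tp⟩ => ?_, fun e he v c => ?_⟩
  · obtain ⟨a, b, c, d, e⟩ := h.bdd _ (scl_adm hp) (scl_feas (inv_pos.2 hp.1).le fp)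
    simp only [Prod.smul_fst, map_smul, smul_eq_mul] at a b c d e
    refine ⟨?_, scl_abs hp.1 b, scl_abs hp.1 c, scl_abs hp.1 d, scl_abs hp.1 e⟩
    rwa [norm_smul, Real.norm_eq_abs, abs_of_pos (inv_pos.2 hp.1), inv_mul_le_iff₀ hp.1,
      mul_comm] at a
  · obtain ⟨z, fz, hz⟩ := h.vert v (t / k) (by rw [abs_div, abs_of_pos k0, div_le_one k0]; exact ht)
    have e : ((k • z, t, k) : W × ℝ × ℝ) = k • (z, t / k, 1) := by
      simp [mul_div_cancel₀ _ k0.ne']
    refine ⟨k • z, e ▸ scl_feas k0.le fz, fun i => ?_⟩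
    rw [e, map_smul, smul_eq_mul, mul_eq_zero, ← hz i]
    simp [k0.ne']
  · have := scl_tt p.2.2 (hc.2 _ (scl_adm hp) (scl_feas (inv_pos.2 hp.1).le fp) (scl_tt _ tp))
    rwa [smul_inv_smul₀ hp.1.ne'] at this
  · exact h.cls lam a b c1 c2 w hd a0 hw
      ⟨_, scl_adm hp, scl_feas (inv_pos.2 hp.1).le fp, scl_tt _ tp⟩
  · obtain ⟨v1, v2, ne, hv⟩ := h.ends e he
    rw [c] at hv
    exact ne ((scl_sub h fun i hi => ((hv i).1 hi).1).symm.trans
      (scl_sub h fun i hi => ((hv i).1 hi).2))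

end Pool.Agent.P.MP_af6acb_co.Fat

/-! Step FB0. -/

namespace Pool.Agent.P.MP_af6acb_co.Fat

open Finset Module
open scoped Classical

lemma fb0_lay {l : ℕ} (hl : 3 ≤ l) {X : ℝ × ℝ} {h : ℝ} (h0 : 0 < h) (h1 : h ≤ 1)
    (H : ∀ c, 0 ≤ lay l c X h) : |X.1| ≤ ((l : ℝ) + 1) ^ 2 * h ∧ ‖X‖ ≤ 4 * ((l : ℝ) + 1) ^ 3 := by
  have a := H (some 0)
  have b := H (some (Fin.last l))
  have c := H none
  simp only [lay, Fin.val_zero, Nat.cast_zero, Fin.val_last] at a b c
  have hL : (3 : ℝ) ≤ l := by exact_mod_cast hl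
  generalize (l : ℝ) = L at *
  obtain ⟨M, hM⟩ : ∃ M, M = (L + 1) ^ 2 * h := ⟨_, rfl⟩
  have M1 : h ≤ M := hM ▸ le_mul_of_one_le_left h0.le (by nlinarith)
  have M2 : M ≤ (L + 1) ^ 2 := by rw [hM]; nlinarith [sq_nonneg (L + 1)]
  have u1 : X.1 ≤ M := by
    by_contra n
    push Not at n
    nlinarith
  have u2 : -M ≤ X.1 := by
    by_contra n
    push Not at n
    nlinarith
  have p : (L + 1) ^ 2 ≤ (L + 1) ^ 3 := by nlinarith [sq_nonneg (L + 1)]
  have p' : (L + 1) * M ≤ (L + 1) ^ 3 := by nlinarith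
  refine ⟨hM ▸ abs_le.2 ⟨u2, u1⟩, ?_⟩
  rw [Prod.norm_def, max_le_iff, Real.norm_eq_abs, Real.norm_eq_abs, abs_le, abs_le]
  refine ⟨⟨by nlinarith, by nlinarith⟩, by nlinarith, by nlinarith⟩

theorem p_FB0 (hSCL : S_SCL) :
    S_FB0 := by
  intro W R V Ed Ev _ _ _ _ _ _ _ G K et q r l hO hP z hU
  have hH := hSCL W R V Ed Ev G K et hO
  have e0 := hP.et_pos
  have pw : ∀ n : ℕ, 0 < q.et ^ n ∧ q.et ^ n ≤ 1 := fun n =>
    ⟨pow_pos e0 n, pow_le_one₀ e0.le hP.et_le⟩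
  have La : 0 < q.La := by
    have a := hP.La_l
    have b : 0 < q.La * (G.th * q.ka) := by
      have : (0 : ℝ) ≤ l := Nat.cast_nonneg l
      linarith [mul_assoc q.La G.th q.ka]
    exact (mul_pos_iff_of_pos_right (mul_pos hO.th_pos hP.ka_pos)).1 b
  obtain ⟨x1, x2⟩ := fb0_lay hP.three (pw (r + 1)).1 (pw (r + 1)).2 hU.2
  have ad : ∀ i, AdmH (G.pt q z i) := fun i => by
    induction i using Fin.reverseInduction with
    | last =>
      refine ⟨(pw _).1, ?_⟩
      simp only [Gad.pt, Gad.nxt_last, Fin.val_last, abs_mul, abs_of_pos La]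
      have a := mul_le_mul_of_nonneg_left x1 La.le
      have b := mul_le_mul_of_nonneg_right hP.et_l (pw r).1.le
      have c := (pw r).1
      rw [pow_succ q.et r] at a
      nlinarith
    | cast j ih =>
      refine ⟨(pw _).1, ?_⟩
      have a := mul_le_mul_of_nonneg_left (hH.bdd _ ih (hU.1 _)).2.1 La.le
      have b := mul_le_mul_of_nonneg_right hP.et_K (pw j).1.le
      simp only [Gad.pt, Gad.nxt_cs, Fin.val_castSucc, Fin.val_succ, abs_mul, abs_of_pos La,
        pow_succ] at a ⊢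
      nlinarith
  refine ⟨ad, fun i => ((hH.bdd _ (ad i) (hU.1 i)).1).trans ?_, x2⟩
  exact mul_le_of_le_one_right (zero_le_one.trans hO.K_ge) (pw _).2

end Pool.Agent.P.MP_af6acb_co.Fat

/-! Step PAR. -/

namespace Pool.Agent.P.MP_af6acb_co.Fat

open Finset Module
open scoped Classical

theorem p_PAR (hFB0 : S_FB0) :
    S_PAR := by
  intro W R V Ed Ev _ _ _ _ _ _ _ G K et r l hG hl
  have hK : 0 < K := one_pos.trans_le hG.K_ge
  have ht := hG.th_pos
  have he := hG.et_pos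
  obtain ⟨ka, k0, k1, k2⟩ : ∃ ka : ℝ, 0 < ka ∧ ka ≤ 1 / (64 * K * ((r : ℝ) + 2) ^ 2) ∧
      ka ≤ et / (24 * ((r : ℝ) + 2) ^ 2) :=
    ⟨min _ _, lt_min (by positivity) (by positivity), min_le_left _ _, min_le_right _ _⟩
  obtain ⟨M, m0, m1, m2⟩ : ∃ M : ℝ, 0 < M ∧ (l : ℝ) + 1 ≤ M ∧ 3 * K * ((r : ℝ) + 2) ^ 3 ≤ M :=
    ⟨max _ _, lt_max_of_lt_left (by positivity), le_max_left _ _, le_max_right _ _⟩
  obtain ⟨La, l0, l1⟩ : ∃ La : ℝ, 0 < La ∧ La * G.th * ka / 8 = M :=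
    ⟨8 * M / (G.th * ka), by positivity, by field_simp⟩
  obtain ⟨e, e0, e1, e2, e3⟩ : ∃ e : ℝ, 0 < e ∧ e ≤ 1 ∧ e ≤ 1 / (La * K) ∧
      e ≤ 1 / (3 * ((l : ℝ) + 1) ^ 2 * La) :=
    ⟨min _ (min _ _), lt_min one_pos (lt_min (by positivity) (by positivity)), min_le_left _ _,
      (min_le_right _ _).trans (min_le_left _ _), (min_le_right _ _).trans (min_le_right _ _)⟩
  rw [le_div_iff₀ (by positivity)] at k1 k2 e2 e3
  have P : ∀ H, G.Par0 ⟨ka, La, e, H⟩ K et r l := fun H =>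
    ⟨hl, k0, by linarith, by linarith, l1.symm ▸ m1, l1.symm ▸ m2, e0, e1, by linarith,
      by linarith⟩
  let L : Fin 3 → Tot W r →L[ℝ] ℝ := fun m =>
    LinearMap.toContinuousLinearMap (G.rowL ⟨ka, La, e, 0⟩ l (.inl (m, true)))
  let B : ℝ := max K (4 * ((l : ℝ) + 1) ^ 3)
  have b0 : 0 ≤ B := hK.le.trans (le_max_left _ _)
  refine ⟨⟨ka, La, e, (∑ m, ‖L m‖) * B + 1⟩, P _, fun z hz m => ?_⟩
  obtain ⟨-, a, b⟩ := hFB0 W R V Ed Ev G K et _ r l hG (P _) z hz
  have n1 : ‖((0, z.2) : Tot W r)‖ ≤ B := by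
    refine max_le (by simpa using b0) (max_le ?_ (b.trans (le_max_right _ _)))
    exact ((pi_norm_le_iff_of_nonneg hK.le).2 a).trans (le_max_left _ _)
  have n2 := (L m).le_of_opNorm_le_of_le
    (single_le_sum (f := fun m => ‖L m‖) (fun _ _ => norm_nonneg _) (mem_univ m)) n1
  have n3 : L m (0, z.2) = -(sgn true * 0) + G.obj ⟨ka, La, e, 0⟩ (Pi.single m 1) (0, z.2) := rfl
  rw [n3, mul_zero, neg_zero, zero_add] at n2
  exact lt_add_of_le_of_pos n2 one_pos

end Pool.Agent.P.MP_af6acb_co.Fat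

/-! Step LAY. -/

namespace Pool.Agent.P.MP_af6acb_co.Fat

open Finset Module
open scoped Classical

theorem p_LAY :
    S_LAY := by
  intro l X h _ h0 H
  refine ⟨fun s s' hs a b => ?_, fun s a b => ?_⟩
  · by_contra c
    have c1 : (s : ℕ) + 2 ≤ s' := by have : (s : ℕ) < s' := hs; omega
    have d := H (some ⟨s + 1, by omega⟩)
    have c2 : (s : ℝ) + 2 ≤ s' := by exact_mod_cast c1
    simp only [lay] at a b d
    push_cast at d
    have e : ((s' : ℝ) - s) * (h * (s + s' + 2) / 2 - X.1) = 0 := by linear_combination b - a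
    have e' : X.1 = h * (s + s' + 2) / 2 := by
      have := (mul_eq_zero.1 e).resolve_left (by linarith)
      linarith
    nlinarith [mul_pos h0 (by linarith : (0 : ℝ) < s' - s - 1)]
  · by_contra c
    obtain ⟨c1, c2⟩ := not_or.1 c
    obtain ⟨s, hs⟩ := s
    obtain ⟨t, rfl⟩ : ∃ t, s = t + 1 := Nat.exists_eq_succ_of_ne_zero fun e => c1 (Fin.ext e)
    have c3 : t + 2 ≤ l := by
      have : t + 1 ≠ l := fun e => c2 (Fin.ext e)
      omega
    have d := H (some ⟨t + 2, by omega⟩)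
    have d' := H (some ⟨t, by omega⟩)
    have c4 : (t : ℝ) + 2 ≤ l := by exact_mod_cast c3
    have t0 : (0 : ℝ) ≤ t := Nat.cast_nonneg t
    simp only [lay] at a b d d'
    push_cast at b d
    have e1 : X.1 ≤ h * (2 * t + 5) / 2 := by linarith
    have e2 : 0 ≤ X.1 := by nlinarith
    have e3 : 0 < ((l : ℝ) + 1) ^ 2 - (t + 2) * (t + 3) / 2 := by nlinarith
    nlinarith [mul_pos h0 e3, mul_le_mul_of_nonneg_left e1 (by linarith : (0 : ℝ) ≤ t + 2),
      mul_nonneg e2 (by linarith : (0 : ℝ) ≤ l + 2)]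

end Pool.Agent.P.MP_af6acb_co.Fat

/-! Step FB1. -/

namespace Pool.Agent.P.MP_af6acb_co.Fat

open Finset Module
open scoped Classical

theorem p_FB1 (hFB0 : S_FB0) :
    S_FB1 := by
  intro W R V Ed Ev _ _ _ _ _ _ _ G K et q r l hO hP
  have up : ∀ z ∈ (G.sys q r l).Fe, G.Up q l z := fun z hz =>
    ⟨fun i ρ => G.sl_mid q (i, ρ) z ▸ hz (.inr (.inl (i, ρ))),
      fun c => G.sl_lay q c z ▸ hz (.inr (.inr c))⟩
  refine ⟨⟨max (2 * q.H0) (max K (4 * ((l : ℝ) + 1) ^ 3)), fun z hz => ?_⟩,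
    fun z hz => ⟨up z hz, fun m h1 h2 => ?_⟩⟩
  · obtain ⟨-, b1, b2⟩ := hFB0 W R V Ed Ev G K et q r l hO hP.toPar0 z (up z hz)
    have H := hP.H0 z (up z hz)
    rw [Prod.norm_def, Prod.norm_def]
    refine max_le_max ?_ (max_le_max ?_ b2)
    · refine (pi_norm_le_iff_of_nonempty _).2 fun m => ?_
      have a := hz (.inl (m, true))
      have b := hz (.inl (m, false))
      have c := abs_lt.1 (H m)
      simp only [Gad.sl_base, sgn] at a b
      rw [Real.norm_eq_abs, abs_le]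
      constructor <;> simp at a b <;> linarith [c.1, c.2]
    · exact (pi_norm_le_iff_of_nonempty _).2 b1
  · have c := abs_lt.1 (hP.H0 z (up z hz) m)
    simp only [Gad.sl_base, sgn] at h1 h2
    simp at h1 h2
    linarith [c.1, c.2]

end Pool.Agent.P.MP_af6acb_co.Fat
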